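import Pool.Agent.TH756.PN.Kod

/-!
The orders of the pluricanonical forms on a variety over a product of projective spaces, and the
Kodaira dimension, for general weights.
-/

set_option autoImplicit false

open FF Module Pool.Agent.W603.LV Pool.Agent.W602.GT Pool.Agent.W602.Cov Pool.Agent.W602.Cov.G
open Pool.Agent.W168.CG.PGR Pool.Agent.TH152.AC Pool.Agent.TH756.AR Pool.Agent.TH756.PR

namespace Pool.Agent.TH756.PN

section factor

variable {n q : ℕ} {ℓ : Fin q → Form n} {K : Type} [Field K] [Algebra ℂ K]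

theorem factorW (p : Bases ℓ → ℕ) (g : (Fin q → ℕ) → ℚ) (hp : ∀ v : Fin q → ℕ,
      Submodule.span ℂ (ℓ '' {i | v i ≠ 0}) ≠ ⊤ → ∃ B' : Bases ℓ,
        (∑ B, (p B : ℚ)) * g v + ∑ B, (p B : ℚ) * ∑ a, (v (B.1 a) : ℚ) ≤
          (∑ B, (p B : ℚ)) * ∑ a, (v (B'.1 a) : ℚ))
    (hspan : Submodule.span ℂ (Set.range ℓ) = ⊤) {x : Fin (n + 1) → K}
    (hx : ∀ i, lf (ℓ i) x ≠ 0) (P : Place ℂ K) :
    ∃ (a : ℤ) (v : Fin q → ℕ) (B' : Bases ℓ), (∀ i, P.ord (lf (ℓ i) x) = a + v i) ∧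
      (∀ j, Ge P a (x j)) ∧ Submodule.span ℂ (ℓ '' {i | v i ≠ 0}) ≠ ⊤ ∧
        (∑ B, (p B : ℚ)) * g v + ∑ B, (p B : ℚ) * ∑ a, (v (B.1 a) : ℚ) ≤
          (∑ B, (p B : ℚ)) * ∑ a, (v (B'.1 a) : ℚ) := by
  obtain ⟨B0⟩ := exists_bases hspan
  obtain ⟨i1, -, hmin⟩ := Finset.exists_min_image Finset.univ (fun i => P.ord (lf (ℓ i) x))
    ⟨B0.1 0, Finset.mem_univ _⟩
  obtain ⟨a, ha⟩ : ∃ a, a = P.ord (lf (ℓ i1) x) := ⟨_, rfl⟩
  let v : Fin q → ℕ := fun i => (P.ord (lf (ℓ i) x) - a).toNat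
  have hvi : ∀ i, P.ord (lf (ℓ i) x) = a + v i := by
    intro i
    have h3 := hmin i (Finset.mem_univ i)
    have h4 : (v i : ℤ) = P.ord (lf (ℓ i) x) - a := by
      show (((P.ord (lf (ℓ i) x) - a).toNat : ℕ) : ℤ) = _
      rw [Int.toNat_of_nonneg]
      rw [ha]
      linarith
    rw [h4]
    ring
  have hi1 : v i1 = 0 := by
    have := hvi i1
    omega
  have hreg : ∀ j, Ge P a (x j) := by
    intro j
    have h3 := ge_span P a (Set.range ℓ) x (by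
      rintro _ ⟨i, rfl⟩
      right
      rw [hvi i]
      linarith [Int.natCast_nonneg (v i)]) (LinearMap.proj j) (by rw [hspan]; trivial)
    rwa [lf_proj] at h3
  have hsp : Submodule.span ℂ (ℓ '' {i | v i ≠ 0}) ≠ ⊤ := by
    intro htop
    have h3 := ge_span P (a + 1) (ℓ '' {i | v i ≠ 0}) x (by
      rintro _ ⟨i, hi, rfl⟩
      right
      rw [hvi i]
      have : v i ≠ 0 := hi
      omega) (ℓ i1) (by rw [htop]; trivial)
    rcases h3 with h3 | h3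
    · exact hx i1 h3
    · rw [hvi i1, hi1] at h3
      push_cast at h3
      linarith
  obtain ⟨B', hB'⟩ := hp v hsp
  exact ⟨a, v, B', hvi, hreg, hsp, hB'⟩

end factor

variable {r N : ℕ} {n : Fin r → ℕ} {K : Type} [Field K] [Algebra ℂ K]
  (e : ((i : Fin r) × Fin (n i)) ≃ Fin N) {q : Fin r → ℕ} {ℓ : ∀ i, Fin (q i) → Form (n i)}

theorem pp_ordW (p : ∀ i, Bases (ℓ i) → ℕ) (g : ∀ i, (Fin (q i) → ℕ) → ℚ)
    (hp : ∀ i, ∀ v : Fin (q i) → ℕ,
      Submodule.span ℂ (ℓ i '' {k | v k ≠ 0}) ≠ ⊤ → ∃ B' : Bases (ℓ i),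
        (∑ B, (p i B : ℚ)) * g i v + ∑ B, (p i B : ℚ) * ∑ a, (v (B.1 a) : ℚ) ≤
          (∑ B, (p i B : ℚ)) * ∑ a, (v (B'.1 a) : ℚ))
    (hspan : ∀ i, Submodule.span ℂ (Set.range (ℓ i)) = ⊤) (t : Fin r → ℕ) (T : ℕ)
    (hT : ∀ i, t i * ∑ B, p i B = T) {x : ∀ i, Fin (n i + 1) → K}
    (hlx : ∀ i k, lf (ℓ i k) (x i) ≠ 0) (hx0 : ∀ i, x i 0 ≠ 0)
    (hbas : IsTranscendenceBasis ℂ (uu e x)) (P : Place ℂ K)
    (D : Fin N → Derivation ℂ K K) (ε : ℕ)
    (h1 : ∀ f : ∀ i, Fin (n i + 1) → K, (∀ i j, f i j ≠ 0) →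
      Ge P ((∑ i, ∑ j, P.ord (f i j)) - ε) (om e D f))
    (h2 : ∀ (f : ∀ i, Fin (n i + 1) → K) (a : Fin r → ℤ), (∀ i j, f i j ≠ 0) →
      (∀ i j, P.ord (f i j) = a i) → Ge P (∑ i, ((n i : ℤ) + 1) * a i) (om e D f)) :
    ∃ (a : Fin r → ℤ) (v : ∀ i, Fin (q i) → ℕ),
      (∀ i k, P.ord (lf (ℓ i k) (x i)) = a i + v i k) ∧ (∀ i j, Ge P (a i) (x i j)) ∧
      (∀ i, Submodule.span ℂ (ℓ i '' {k | v i k ≠ 0}) ≠ ⊤) ∧
      ∃ c : ℤ, Ge P c (pp e ℓ x p t T D) ∧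
        (((∀ i, v i = 0) ∧ 0 ≤ c) ∨ ((∃ i, v i ≠ 0) ∧
          (T : ℚ) * ∑ i, g i (v i) ≤ c + ε * T)) := by
  choose a v B' hv hx hsp hB using fun i =>
    factorW (p i) (g i) (hp i) (hspan i) (hlx i) P
  refine ⟨a, v, hv, hx, hsp, ?_⟩
  -- the coordinates of the bases
  obtain ⟨c, hc⟩ : ∃ c : ∀ i, Matrix (Fin (n i + 1)) (Fin (n i + 1)) ℂ,
    c = fun i => Matrix.of fun j l : Fin (n i + 1) => ℓ i ((B' i).1 j) (Pi.single l 1) :=
    ⟨_, rfl⟩
  have hdet : ∀ i, (c i).det ≠ 0 := by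
    intro i
    rw [hc]
    exact det_ne_zero (m := fun j => ℓ i ((B' i).1 j)) (B' i).2
  have hf : ∀ i j, chg c x i j = lf (ℓ i ((B' i).1 j)) (x i) := by
    intro i j
    rw [hc]
    rfl
  have hfne : ∀ i j, chg c x i j ≠ 0 := fun i j => by
    rw [hf]
    exact hlx i _
  have hchg := om_change e hx0 hbas c (fun i => hfne i 0) D
  have hprod : (∏ i, (c i).det) ≠ 0 := Finset.prod_ne_zero_iff.2 fun i _ => hdet i
  have hback : ∀ L : ℤ, Ge P L (om e D (chg c x)) → Ge P L (om e D x) := by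
    intro L hL
    rw [hchg] at hL
    have h4 := (Ge.const (P := P) (∏ i, (c i).det)⁻¹).mul hL
    rw [← mul_assoc, ← map_mul, inv_mul_cancel₀ hprod, map_one, one_mul, zero_add] at h4
    exact h4
  have hordf : ∀ i j, P.ord (chg c x i j) = a i + v i ((B' i).1 j) := fun i j => by
    rw [hf, hv]
  have hden : P.ord (∏ i, den (ℓ i) (x i) (p i) (t i)) =
      ∑ i, (t i : ℤ) * ∑ B, (p i B : ℤ) * ∑ b, (a i + v i (B.1 b)) := by
    rw [ord_prod' P Finset.univ _ fun i _ => den_ne (hlx i) (p i) (t i)]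
    refine Finset.sum_congr rfl fun i _ => ?_
    rw [ord_den P (hlx i)]
    simp only [hv]
  have hterm : ∀ i, (t i : ℤ) * ∑ B, (p i B : ℤ) * ∑ b, (a i + v i (B.1 b)) =
      T * (((n i : ℤ) + 1) * a i) + t i * ∑ B, (p i B : ℤ) * ∑ b, (v i (B.1 b) : ℤ) := by
    intro i
    have e1 : ∀ B : Bases (ℓ i), ∑ b, (a i + (v i (B.1 b) : ℤ)) =
        ((n i : ℤ) + 1) * a i + ∑ b, (v i (B.1 b) : ℤ) := by
      intro B
      rw [Finset.sum_add_distrib, Finset.sum_const, Finset.card_univ, Fintype.card_fin]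
      simp
    simp only [e1, mul_add, Finset.sum_add_distrib]
    rw [← Finset.sum_mul, ← mul_assoc (t i : ℤ), ← hT i]
    push_cast
    ring
  by_cases hv0 : ∀ i, v i = 0
  · have h5 : Ge P (∑ i, ((n i : ℤ) + 1) * a i) (om e D x) := by
      refine hback _ (h2 _ a hfne fun i j => ?_)
      rw [hordf, hv0 i]
      simp
    have h6 := ge_div (dens_ne hlx p t) (h5.pow T)
    rw [hden] at h6
    refine ⟨_, h6, Or.inl ⟨hv0, ?_⟩⟩
    rw [Finset.sum_congr rfl fun i _ => hterm i]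
    simp [hv0, Finset.mul_sum]
  · push Not at hv0
    have h5 := hback _ (h1 _ hfne)
    have h6 := ge_div (dens_ne hlx p t) (h5.pow T)
    rw [hden] at h6
    refine ⟨_, h6, Or.inr ⟨hv0, ?_⟩⟩
    -- the inequality for each factor
    have h7 : ∀ i, (T : ℚ) * g i (v i) ≤
        T * ∑ b, (v i ((B' i).1 b) : ℚ) - t i * ∑ B, (p i B : ℚ) * ∑ b, (v i (B.1 b) : ℚ) := by
      intro i
      have h9 := hB i
      have hTi : (T : ℚ) = t i * ∑ B, (p i B : ℚ) := by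
        rw [← hT i]
        push_cast
        rfl
      have h10 := mul_le_mul_of_nonneg_left h9 (by positivity : (0 : ℚ) ≤ t i)
      rw [hTi]
      nlinarith [h10]
    have h11 : (T : ℚ) * ∑ i, g i (v i) ≤ ∑ i, ((T : ℚ) *
        ∑ b, (v i ((B' i).1 b) : ℚ) - t i * ∑ B, (p i B : ℚ) * ∑ b, (v i (B.1 b) : ℚ)) := by
      rw [Finset.mul_sum]
      exact Finset.sum_le_sum fun i _ => h7 i
    refine h11.trans (le_of_eq ?_)
    simp only [hterm, hordf]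
    have e2 : ∀ i, ∑ j : Fin (n i + 1), (a i + (v i ((B' i).1 j) : ℤ)) =
        ((n i : ℤ) + 1) * a i + ∑ b, (v i ((B' i).1 b) : ℤ) := by
      intro i
      rw [Finset.sum_add_distrib, Finset.sum_const, Finset.card_univ, Fintype.card_fin]
      simp
    simp only [e2]
    push_cast
    simp only [Finset.sum_add_distrib, Finset.sum_sub_distrib, Finset.mul_sum, mul_add, mul_sub]
    ring

/-- **The Kodaira dimension.** -/
theorem kodGeW (hspan : ∀ i, Submodule.span ℂ (Set.range (ℓ i)) = ⊤)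
    (p : ∀ i, Bases (ℓ i) → ℕ) (hp0 : ∀ i, 0 < ∑ B, p i B) (g : ∀ i, (Fin (q i) → ℕ) → ℚ)
    (hp : ∀ i, ∀ v : Fin (q i) → ℕ,
      Submodule.span ℂ (ℓ i '' {k | v k ≠ 0}) ≠ ⊤ → ∃ B' : Bases (ℓ i),
        (∑ B, (p i B : ℚ)) * g i v + ∑ B, (p i B : ℚ) * ∑ a, (v (B.1 a) : ℚ) ≤
          (∑ B, (p i B : ℚ)) * ∑ a, (v (B'.1 a) : ℚ))
    {x : ∀ i, Fin (n i + 1) → K} (A : ℕ) (hA : 1 ≤ A)
    (hgA : ∀ (P : Place ℂ K) (a : Fin r → ℤ) (v : ∀ i, Fin (q i) → ℕ),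
      (∀ i k, P.ord (lf (ℓ i k) (x i)) = a i + v i k) → ∀ i k, (v i k : ℚ) ≤ A * g i (v i))
    (hlx : ∀ i k, lf (ℓ i k) (x i) ≠ 0) (hx0 : ∀ i, x i 0 ≠ 0)
    (hbas : IsTranscendenceBasis ℂ (uu e x)) (Bd : Place ℂ K → Prop) (I : Finset (Fin r))
    (M : ℕ) (hM : 1 ≤ M)
    (hP : ∀ P : Place ℂ K, Divisorial N P → ¬ Bd P →
      ∀ (a : Fin r → ℤ) (v : ∀ i, Fin (q i) → ℕ), (∀ i k, P.ord (lf (ℓ i k) (x i)) = a i + v i k) →
        (∀ i, Submodule.span ℂ (ℓ i '' {k | v i k ≠ 0}) ≠ ⊤) → (∃ i, v i ≠ 0) →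
          (1 : ℚ) ≤ ∑ i, g i (v i) ∧
          ((∃ i ∈ I, v i ≠ 0) → (M : ℚ) + 1 ≤ M * ∑ i, g i (v i)))
    (h : ℕ) (f : Fin h → Fin N) (hf : Function.Injective f) (hfI : ∀ a, (e.symm (f a)).1 ∈ I) :
    KodGe ℂ K N Bd h := by
  classical
  have B0 : ∀ i, Bases (ℓ i) := fun i => Classical.choice (exists_bases (hspan i))
  have k0 : ∀ i, Fin (q i) := fun i => (B0 i).1 0
  obtain ⟨t, T, hTeq, hT⟩ := exists_weights (A * (M + 1)) p
  have hS : 0 < ∏ i, ∑ B, p i B := Finset.prod_pos fun i _ => hp0 i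
  have hTpos : 0 < T := by
    rw [hTeq]
    positivity
  have hTM : A * (M + 1) ≤ T := by
    rw [hTeq]
    exact Nat.le_mul_of_pos_right _ hS
  have hgnn : ∀ (P : Place ℂ K) (a : Fin r → ℤ) (v : ∀ i, Fin (q i) → ℕ),
      (∀ i k, P.ord (lf (ℓ i k) (x i)) = a i + v i k) → ∀ i, 0 ≤ g i (v i) := by
    intro P a v hv i
    have h1 := hgA P a v hv i (k0 i)
    have h2 : (0 : ℚ) ≤ A * g i (v i) := le_trans (by positivity) h1
    have h3 : (0 : ℚ) < A := by exact_mod_cast hA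
    exact nonneg_of_mul_nonneg_right h2 h3
  obtain ⟨D, hD⟩ := exists_om_ne e hx0 hbas
  have hTq : (0 : ℚ) < T := by exact_mod_cast hTpos
  have hMq : (0 : ℚ) < M := by exact_mod_cast hM
  obtain ⟨L, hL⟩ : ∃ L : Fin r → K, L = fun i => lf (ℓ i (k0 i)) (x i) := ⟨_, rfl⟩
  have hLne : ∀ i, L i ≠ 0 := fun i => by
    rw [hL]
    exact hlx i _
  -- the final estimate
  have hfin : ∀ (P : Place ℂ K) (D : Fin N → Derivation ℂ K K) (a : Fin r → ℤ) (c : ℤ)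
      (v : ∀ i, Fin (q i) → ℕ) (y : ∀ i, Fin (n i + 1)),
      (∀ i k, P.ord (lf (ℓ i k) (x i)) = a i + v i k) → (∀ i j, Ge P (a i) (x i j)) →
      Ge P c (pp e ℓ x p t T D) → (∑ i ∈ I, (v i (k0 i) : ℤ)) ≤ c →
      P.Reg (pp e ℓ x p t T D * ∏ i ∈ I, x i (y i) / L i) := by
    intro P D a c v y h1 h2 h3 h4
    rw [reg_iff_ge]
    have h5 : ∀ i, Ge P (-(v i (k0 i) : ℤ)) (x i (y i) / L i) := by
      intro i
      have h6 := ge_div (hLne i) (h2 i (y i))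
      rw [hL] at h6
      rw [hL]
      simp only [h1] at h6
      exact h6.mono (by linarith)
    have h7 := h3.mul (Ge.prod I (fun i => x i (y i) / L i)
      (fun i => -(v i (k0 i) : ℤ)) (fun i _ => h5 i))
    refine h7.mono ?_
    rw [Finset.sum_neg_distrib]
    linarith
  have hsub : ∀ v : ∀ i, Fin (q i) → ℕ, (∑ i ∈ I, (v i (k0 i) : ℤ)) ≤ ∑ i, (v i (k0 i) : ℤ) :=
    fun v => Finset.sum_le_univ_sum_of_nonneg fun i => by positivity
  let F : Fin (h + 1) → Fin (N + 1) := Fin.cases 0 fun a => (f a).succ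
  refine ⟨T, hTpos, fun a D => pp e ℓ x p t T D * ∏ i ∈ I, x i (pick e (F a) i) / L i,
    fun a => ⟨?_, ?_, ?_⟩, D, ?_, ?_⟩
  · intro A D'
    change pp e ℓ x p t T _ * _ = _
    rw [pp_pluri e x p t T A D']
    ring
  · intro P _ D hD
    obtain ⟨a, v, hv, hx, -, c, hc, hc2⟩ := pp_ordW e p g hp hspan t T hT hlx hx0 hbas P D 0
      (om_log e P hD).1 (om_log e P hD).2
    refine hfin P D a c v _ hv hx hc (le_trans (hsub v) ?_)
    rcases hc2 with ⟨hv0, h⟩ | ⟨-, h⟩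
    · simpa [hv0] using h
    · rw [Nat.cast_zero, zero_mul, add_zero, Finset.mul_sum] at h
      have h2 : ∑ i, (v i (k0 i) : ℚ) ≤ ∑ i, (T : ℚ) * g i (v i) := by
        refine Finset.sum_le_sum fun i _ => (hgA P a v hv i (k0 i)).trans ?_
        have h3 : (A : ℚ) ≤ T := by
          have h4 : A ≤ T := le_trans (Nat.le_mul_of_pos_right _ (by omega)) hTM
          exact_mod_cast h4
        exact mul_le_mul_of_nonneg_right h3 (hgnn P a v hv i)
      exact_mod_cast h2.trans h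
  · intro P hPd hPB D hD
    obtain ⟨a, v, hv, hx, hsp, c, hc, hc2⟩ := pp_ordW e p g hp hspan t T hT hlx hx0 hbas P D 1
      (om_reg e P hD).1 (om_reg e P hD).2
    refine hfin P D a c v _ hv hx hc ?_
    rcases hc2 with ⟨hv0, h⟩ | ⟨hv0, h⟩
    · refine le_trans (hsub v) ?_
      simpa [hv0] using h
    · obtain ⟨hge1, hgt1⟩ := hP P hPd hPB a v hv hsp hv0
      by_cases hvI : ∃ i ∈ I, v i ≠ 0
      · refine le_trans (hsub v) ?_
        have hge := hgt1 hvI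
        rw [Nat.cast_one, one_mul] at h
        obtain ⟨S, hSdef⟩ : ∃ S : ℚ, S = ∑ i, g i (v i) := ⟨_, rfl⟩
        rw [← hSdef] at h hge
        have h2 : (T : ℚ) * S ≤ (M + 1) * c := by nlinarith
        have h3 : (((M : ℚ) + 1) * ∑ i, (v i (k0 i) : ℚ)) ≤ T * S := by
          rw [hSdef, Finset.mul_sum, Finset.mul_sum]
          refine Finset.sum_le_sum fun i _ => ?_
          have h5 : (A : ℚ) * (M + 1) ≤ T := by exact_mod_cast hTM
          calc ((M : ℚ) + 1) * v i (k0 i) ≤ (M + 1) * (A * g i (v i)) :=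
                mul_le_mul_of_nonneg_left (hgA P a v hv i (k0 i)) (by positivity)
            _ = (A * (M + 1)) * g i (v i) := by ring
            _ ≤ T * g i (v i) := mul_le_mul_of_nonneg_right h5 (hgnn P a v hv i)
        have h4 : ((M : ℚ) + 1) * ∑ i, (v i (k0 i) : ℚ) ≤ (M + 1) * c := h3.trans h2
        have h5 : ∑ i, (v i (k0 i) : ℚ) ≤ c := le_of_mul_le_mul_left h4 (by positivity)
        exact_mod_cast h5
      · push Not at hvI
        rw [Finset.sum_eq_zero fun i hi => by rw [hvI i hi]; rfl]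
        rw [Nat.cast_one, one_mul] at h
        have h2 : (T : ℚ) * 1 ≤ T * ∑ i, g i (v i) :=
          mul_le_mul_of_nonneg_left hge1 hTq.le
        have h3 : (0 : ℚ) ≤ c := by linarith
        exact_mod_cast h3
  · change pp e ℓ x p t T D * ∏ i ∈ I, x i (pick e 0 i) / L i ≠ 0
    refine mul_ne_zero ?_ (Finset.prod_ne_zero_iff.2 fun i _ => div_ne_zero (hx0 i) (hLne i))
    unfold pp
    exact div_ne_zero (pow_ne_zero _ hD) (dens_ne hlx p t)
  · have hpf : pp e ℓ x p t T D ≠ 0 := by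
      unfold pp
      exact div_ne_zero (pow_ne_zero _ hD) (dens_ne hlx p t)
    have e1 : (fun a : Fin h => pp e ℓ x p t T D * (∏ i ∈ I, x i (pick e (f a).succ i) / L i) /
        (pp e ℓ x p t T D * ∏ i ∈ I, x i (pick e 0 i) / L i)) = uu e x ∘ f := by
      funext a
      rw [mul_div_mul_left _ _ hpf, pick_ratioI e hx0 hLne I _ (hfI a)]
      rfl
    change AlgebraicIndependent ℂ (fun a : Fin h =>
      pp e ℓ x p t T D * (∏ i ∈ I, x i (pick e (f a).succ i) / L i) /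
        (pp e ℓ x p t T D * ∏ i ∈ I, x i (pick e 0 i) / L i))
    rw [e1]
    exact hbas.1.comp f hf


end Pool.Agent.TH756.PN
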