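import Pool.Agent.TH122.AB.Fin
import Pool.Agent.TH756.PN.Wt

/-!
Weights on the bases of an arrangement, with the extra weight needed for the Kodaira dimension of
covers of products.
-/

set_option autoImplicit false

open Module Pool.Agent.W602.Cov Pool.Agent.TH152.AC Pool.Agent.TH122.AB

namespace Pool.Agent.TH756.PN

variable {n q : ℕ} {ℓ : Fin q → Form n}

/-- equal multiplicities for equal hyperplanes -/
def Par (ℓ : Fin q → Form n) (v : Fin q → ℕ) : Prop :=
  ∀ k k', (∃ t : ℂ, ℓ k = t • ℓ k') → v k = v k'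

/-- the inequality for the weights `p` and the bound `g` -/
def Hp (ℓ : Fin q → Form n) (p : Bases ℓ → ℕ) (g : (Fin q → ℕ) → ℚ) : Prop :=
  ∀ v : Fin q → ℕ, Submodule.span ℂ (ℓ '' {k | v k ≠ 0}) ≠ ⊤ → ∃ B' : Bases ℓ,
    (∑ B, (p B : ℚ)) * g v + ∑ B, (p B : ℚ) * ∑ a, (v (B.1 a) : ℚ) ≤
      (∑ B, (p B : ℚ)) * ∑ a, (v (B'.1 a) : ℚ)

open scoped Classical in
/-- the multiplicities `n + 2` for the hyperplane `ℓ (c j) = 0` and `0` for the others -/
noncomputable def pat (ℓ : Fin q → Form n) (c : Fin (n + 2) → Fin q) (j : Fin (n + 2)) :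
    Fin q → ℕ := fun k => if ∃ t : ℂ, ℓ k = t • ℓ (c j) then n + 2 else 0

theorem circ_w {c : Fin (n + 2) → Fin q} (hc : General ℓ c) (pj : Fin (n + 2) → ℕ)
    (hpj : ∀ j, 1 ≤ pj j) : ∃ p : Bases ℓ → ℕ, ∑ B, p B = ∑ j, pj j ∧
      Hp ℓ p fun v => (∑ j, (pj j : ℚ) * v (c j)) / ∑ j, (pj j : ℚ) := by
  classical
  let p : Bases ℓ → ℕ := fun B => ∑ j, if B = gb hc j then pj j else 0
  have hsum : ∀ g : Bases ℓ → ℕ, ∑ B, p B * g B = ∑ j, pj j * g (gb hc j) := by
    intro g
    simp only [p, Finset.sum_mul]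
    rw [Finset.sum_comm]
    refine Finset.sum_congr rfl fun j _ => ?_
    rw [Finset.sum_eq_single (gb hc j)]
    · rw [if_pos rfl]
    · intro B _ hB
      rw [if_neg hB, zero_mul]
    · intro h
      exact absurd (Finset.mem_univ _) h
  have hsum1 : ∑ B, p B = ∑ j, pj j := by
    have := hsum fun _ => 1
    simpa using this
  refine ⟨p, hsum1, fun v hsp => ?_⟩
  obtain ⟨j1, hj1⟩ : ∃ j, v (c j) = 0 := by
    by_contra hcon
    push Not at hcon
    apply hsp
    rw [eq_top_iff, ← (bas (gb hc 0)).span_eq]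
    apply Submodule.span_mono
    rintro _ ⟨a, rfl⟩
    rw [bas_apply]
    exact ⟨_, hcon _, rfl⟩
  obtain ⟨U, hU⟩ : ∃ U, U = ∑ j, v (c j) := ⟨_, rfl⟩
  have hUj : ∀ j, (∑ a, v ((gb hc j).1 a)) + v (c j) = U := by
    intro j
    rw [hU, Fin.sum_univ_succAbove _ j, add_comm]
    rfl
  have hB1 : ∑ a, v ((gb hc j1).1 a) = U := by
    have := hUj j1
    omega
  have hmain : (∑ j, pj j * ∑ a, v ((gb hc j).1 a)) + ∑ j, pj j * v (c j) =
      (∑ j, pj j) * U := by
    rw [← Finset.sum_add_distrib, Finset.sum_mul]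
    refine Finset.sum_congr rfl fun j _ => ?_
    rw [← mul_add, hUj]
  have hpos : 0 < ∑ j, pj j :=
    Finset.sum_pos (fun j _ => by have := hpj j; omega) ⟨0, Finset.mem_univ _⟩
  have hposq : (0 : ℚ) < ∑ j, (pj j : ℚ) := by exact_mod_cast hpos
  refine ⟨gb hc j1, le_of_eq ?_⟩
  have e1 : (∑ B, (p B : ℚ)) = ∑ j, (pj j : ℚ) := by exact_mod_cast hsum1
  have e2 : ∑ B, (p B : ℚ) * ∑ a, (v (B.1 a) : ℚ) =
      ∑ j, (pj j : ℚ) * ∑ a, (v ((gb hc j).1 a) : ℚ) := by
    have := hsum fun B => ∑ a, v (B.1 a)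
    exact_mod_cast this
  have e3 : ∑ a, (v ((gb hc j1).1 a) : ℚ) = U := by exact_mod_cast hB1
  have e4 : (∑ j, (pj j : ℚ) * ∑ a, (v ((gb hc j).1 a) : ℚ)) + ∑ j, (pj j : ℚ) * v (c j) =
      (∑ j, (pj j : ℚ)) * U := by exact_mod_cast hmain
  rw [e1, e2, e3, mul_div_cancel₀ _ hposq.ne', ← e4]
  ring

/-- the weights for `n + 2` hyperplanes in general position -/
theorem fd_cy {c : Fin (n + 2) → Fin q} (hc : General ℓ c) :
    ∃ (p : Bases ℓ → ℕ) (g : (Fin q → ℕ) → ℚ), 0 < ∑ B, p B ∧ Hp ℓ p g ∧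
      ∀ v, Par ℓ v → ∀ k, (v k : ℚ) ≤ ((n : ℚ) + 2) * g v := by
  obtain ⟨p, hp1, hp2⟩ := circ_w hc (fun _ => 1) fun _ => le_rfl
  refine ⟨p, _, ?_, hp2, fun v hv k => ?_⟩
  · rw [hp1]
    simp
  · obtain ⟨j, hj⟩ := hc.2 k
    have h1 : v k = v (c j) := hv k (c j) hj
    have h2 : v (c j) ≤ ∑ j, v (c j) :=
      Finset.single_le_sum (f := fun j => v (c j)) (fun _ _ => Nat.zero_le _) (Finset.mem_univ j)
    have h3 : (∑ _j : Fin (n + 2), ((1 : ℕ) : ℚ)) = (n : ℚ) + 2 := by simp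
    have h4 : (0 : ℚ) < (n : ℚ) + 2 := by positivity
    rw [h3, mul_div_cancel₀ _ h4.ne', h1]
    have h5 : ((v (c j) : ℕ) : ℚ) ≤ ((∑ j, v (c j) : ℕ) : ℚ) := by exact_mod_cast h2
    refine h5.trans (le_of_eq ?_)
    push_cast
    exact Finset.sum_congr rfl fun j _ => by rw [one_mul]

/-- the weights for the other factors -/
theorem fd_big (hn : 1 ≤ n) (hℓ : ∀ i, ℓ i ≠ 0) (hr : ¬ Reducible ℓ) (Ok : (Fin q → ℕ) → Prop)
    (hno : ¬ ∃ c, General ℓ c ∧ ∀ j, Ok (pat ℓ c j)) (a : ℕ) (ha : n + 2 ≤ a) :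
    ∃ (p : Bases ℓ → ℕ) (g : (Fin q → ℕ) → ℚ) (M : ℕ), 0 < ∑ B, p B ∧ 1 ≤ M ∧ Hp ℓ p g ∧
      (∀ v, Par ℓ v → ∀ k, ((a : ℚ) - 1) * v k ≤ a * (((n : ℚ) + 2) * g v)) ∧
      ∀ v, Par ℓ v → Ok v → (∃ k, n + 2 ≤ v k) → (M : ℚ) + 1 ≤ M * g v := by
  classical
  by_cases hG : ∃ c, General ℓ c
  · obtain ⟨c, hc⟩ := hG
    obtain ⟨j0, hj0⟩ : ∃ j, ¬ Ok (pat ℓ c j) := by
      by_contra hcon
      push Not at hcon
      exact hno ⟨c, hc, hcon⟩
    let pj : Fin (n + 2) → ℕ := fun j => if j = j0 then a else a + 1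
    have hpj : ∀ j, a ≤ pj j := by
      intro j
      simp only [pj]
      split_ifs <;> omega
    have hsumpj : ∑ j, pj j + 1 = (n + 2) * (a + 1) := by
      rw [Fin.sum_univ_succAbove _ j0]
      have h1 : ∀ b, pj (j0.succAbove b) = a + 1 := by
        intro b
        simp only [pj, if_neg (Fin.succAbove_ne j0 b)]
      simp only [h1, Finset.sum_const, Finset.card_univ, Fintype.card_fin, smul_eq_mul]
      simp only [pj, if_true]
      ring
    obtain ⟨p, hp1, hp2⟩ := circ_w hc pj fun j => by have := hpj j; omega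
    have hSpos : 0 < ∑ j, pj j := by
      have : 2 * 1 ≤ (n + 2) * (a + 1) := Nat.mul_le_mul (by omega) (by omega)
      omega
    have hSq : (0 : ℚ) < ∑ j, (pj j : ℚ) := by exact_mod_cast hSpos
    have hSval : (∑ j, (pj j : ℚ)) + 1 = ((n : ℚ) + 2) * (a + 1) := by exact_mod_cast hsumpj
    have hge1 : ∀ (v : Fin q → ℕ) j, pj j * v (c j) ≤ ∑ j, pj j * v (c j) := fun v j =>
      Finset.single_le_sum (f := fun j => pj j * v (c j)) (fun _ _ => Nat.zero_le _)
        (Finset.mem_univ j)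
    refine ⟨p, _, ∑ j, pj j, by rw [hp1]; exact hSpos, hSpos, hp2, fun v hv k => ?_,
      fun v hv hok hk => ?_⟩
    · obtain ⟨j, hj⟩ := hc.2 k
      have h1 : v k = v (c j) := hv k (c j) hj
      have h2 : a * v (c j) ≤ ∑ j, pj j * v (c j) :=
        (Nat.mul_le_mul_right _ (hpj j)).trans (hge1 v j)
      have h3 : (a : ℚ) * v (c j) ≤ ∑ j, (pj j : ℚ) * v (c j) := by exact_mod_cast h2
      have h4 : ((a : ℚ) - 1) * (v (c j) : ℚ) * (∑ j, (pj j : ℚ)) ≤
          a * (((n : ℚ) + 2) * ∑ j, (pj j : ℚ) * v (c j)) := by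
        have h5 : (a : ℚ) * (((n : ℚ) + 2) * (a * v (c j))) ≤
            a * (((n : ℚ) + 2) * ∑ j, (pj j : ℚ) * v (c j)) := by
          apply mul_le_mul_of_nonneg_left _ (by positivity)
          exact mul_le_mul_of_nonneg_left h3 (by positivity)
        refine le_trans ?_ h5
        have h6 : (∑ j, (pj j : ℚ)) = ((n : ℚ) + 2) * (a + 1) - 1 := by linarith
        rw [h6]
        have h7 : (0 : ℚ) ≤ v (c j) := by positivity
        have h8 : (1 : ℚ) ≤ a := by
          have : 1 ≤ a := by omega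
          exact_mod_cast this
        have h9 : ((a : ℚ) - 1) * (((n : ℚ) + 2) * (a + 1) - 1) ≤ a * (((n : ℚ) + 2) * a) := by
          have h10 : (0 : ℚ) ≤ n := by positivity
          nlinarith
        calc ((a : ℚ) - 1) * (v (c j) : ℚ) * (((n : ℚ) + 2) * (a + 1) - 1)
            = ((a : ℚ) - 1) * (((n : ℚ) + 2) * (a + 1) - 1) * v (c j) := by ring
          _ ≤ a * (((n : ℚ) + 2) * a) * v (c j) := mul_le_mul_of_nonneg_right h9 h7
          _ = _ := by ring
      rw [h1]
      rw [← mul_div_assoc, ← mul_div_assoc, le_div_iff₀ hSq]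
      exact h4
    · obtain ⟨i1, hi1⟩ := hk
      obtain ⟨js, hjs⟩ := hc.2 i1
      have hjs' : n + 2 ≤ v (c js) := by
        rw [← hv i1 (c js) hjs]
        exact hi1
      have hkey : (n + 2) * (a + 1) ≤ ∑ j, pj j * v (c j) := by
        by_cases hex : ∃ j, j ≠ js ∧ v (c j) ≠ 0
        · obtain ⟨j2, hj2, hj2'⟩ := hex
          have h1 : pj js * v (c js) + pj j2 * v (c j2) ≤ ∑ j, pj j * v (c j) := by
            rw [← Finset.add_sum_erase Finset.univ _ (Finset.mem_univ js)]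
            refine Nat.add_le_add_left ?_ _
            exact Finset.single_le_sum (f := fun j => pj j * v (c j)) (fun _ _ => Nat.zero_le _)
              (Finset.mem_erase.2 ⟨hj2, Finset.mem_univ j2⟩)
          refine le_trans ?_ h1
          have h2 := hpj js
          have h3 := hpj j2
          have h4 : a * (n + 2) ≤ pj js * v (c js) := Nat.mul_le_mul h2 hjs'
          have h5 : a * 1 ≤ pj j2 * v (c j2) := Nat.mul_le_mul h3 (by omega)
          nlinarith
        · push Not at hex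
          refine le_trans ?_ (hge1 v js)
          by_cases hjj : js = j0
          · have h6 : v (c js) ≠ n + 2 := by
              intro h7
              apply hj0
              have h8 : pat ℓ c j0 = v := by
                funext i
                unfold pat
                by_cases hi : ∃ t : ℂ, ℓ i = t • ℓ (c j0)
                · rw [if_pos hi, hv i (c j0) hi, ← hjj, h7]
                · rw [if_neg hi]
                  obtain ⟨j, hj⟩ := hc.2 i
                  have hjne : j ≠ js := by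
                    rintro rfl
                    exact hi (hjj ▸ hj)
                  rw [hv i (c j) hj]
                  exact (hex j hjne).symm
              rw [h8]
              exact hok
            have h7 : n + 3 ≤ v (c js) := by omega
            have h8 : a * (n + 3) ≤ pj js * v (c js) := Nat.mul_le_mul (hpj js) h7
            nlinarith
          · have h6 : pj js = a + 1 := by simp only [pj, if_neg hjj]
            rw [h6, mul_comm (n + 2)]
            exact Nat.mul_le_mul_left _ hjs'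
      have h1 : (∑ j, (pj j : ℚ)) + 1 ≤ ∑ j, (pj j : ℚ) * v (c j) := by
        rw [hSval]
        exact_mod_cast hkey
      push_cast
      rw [mul_div_cancel₀ _ hSq.ne']
      exact h1
  · have hspan := Pool.Agent.W392.CG.span_top hn ℓ hr
    obtain ⟨p, hp⟩ := weights_strict hn hℓ hr hG
    have hne := exists_bases hspan
    have hpos : 0 < ∑ B, p B := by
      obtain ⟨B0⟩ := hne
      have hprop : Proper ℓ {B0.1 0} := by
        refine ⟨⟨_, Finset.mem_singleton_self _⟩, fun htop => ?_⟩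
        have h1 : Module.finrank ℂ (Submodule.span ℂ
            (ℓ '' (({B0.1 0} : Finset (Fin q)) : Set (Fin q)))) = n + 1 := by
          rw [htop, finrank_top, finrank_form]
        rw [Finset.coe_singleton, Set.image_singleton, finrank_span_singleton (hℓ _)] at h1
        omega
      have h1 := hp _ hprop
      by_contra hcon
      have h2 : ∑ B, p B = 0 := by omega
      rw [h2] at h1
      simp at h1
    obtain ⟨S, hS⟩ : ∃ S, S = ∑ B, p B := ⟨_, rfl⟩
    have hSq : (0 : ℚ) < S := by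
      rw [hS]
      exact_mod_cast hpos
    have hS' : (∑ B, (p B : ℚ)) = S := by
      rw [hS]
      push_cast
      rfl
    have hsup : ∀ (v : Fin q → ℕ) k, v k ≤ Finset.univ.sup v := fun v k =>
      Finset.le_sup (Finset.mem_univ k)
    refine ⟨p, fun v => ((S : ℚ) + 1) * ((Finset.univ.sup v : ℕ) : ℚ) / (S * ((n : ℚ) + 2)), S,
      hpos, by rw [hS]; exact hpos, fun v hsp => ?_, fun v _ k => ?_, fun v _ _ hk => ?_⟩
    · obtain ⟨B0⟩ := hne
      obtain ⟨B', hB'⟩ := orders_strict p hp ⟨B0⟩ v hsp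
      obtain ⟨k, -, hk⟩ := Finset.exists_mem_eq_sup Finset.univ ⟨B0.1 0, Finset.mem_univ _⟩ v
      refine ⟨B', ?_⟩
      have h1 := hB' k
      rw [← hS] at h1
      have h2 : ((n : ℚ) + 2) * (∑ B, (p B : ℚ) * ∑ a, (v (B.1 a) : ℚ)) + ((S : ℚ) + 1) * v k ≤
          ((n : ℚ) + 2) * ((S : ℚ) * ∑ a, (v (B'.1 a) : ℚ)) := by exact_mod_cast h1
      rw [hS']
      dsimp only
      rw [hk]
      have h3 : (0 : ℚ) < (n : ℚ) + 2 := by positivity
      have h4 : (S : ℚ) * (((S : ℚ) + 1) * (v k : ℚ) / (S * ((n : ℚ) + 2))) =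
          ((S : ℚ) + 1) * (v k : ℚ) / ((n : ℚ) + 2) := by
        field_simp
      rw [h4, div_add' _ _ _ h3.ne', div_le_iff₀ h3]
      linarith
    · have h1 : ((v k : ℕ) : ℚ) ≤ ((Finset.univ.sup v : ℕ) : ℚ) := by exact_mod_cast hsup v k
      have h3 : (0 : ℚ) < (n : ℚ) + 2 := by positivity
      have h4 : ((n : ℚ) + 2) * (((S : ℚ) + 1) * ((Finset.univ.sup v : ℕ) : ℚ) /
          (S * ((n : ℚ) + 2))) = ((S : ℚ) + 1) * ((Finset.univ.sup v : ℕ) : ℚ) / S := by
        field_simp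
      dsimp only
      rw [h4]
      have h5 : ((Finset.univ.sup v : ℕ) : ℚ) ≤
          ((S : ℚ) + 1) * ((Finset.univ.sup v : ℕ) : ℚ) / S := by
        rw [le_div_iff₀ hSq]
        have h6 : (0 : ℚ) ≤ ((Finset.univ.sup v : ℕ) : ℚ) := by positivity
        nlinarith
      have h6 : (0 : ℚ) ≤ (v k : ℚ) := by positivity
      have h7 : (0 : ℚ) ≤ a := by positivity
      have h8 : (v k : ℚ) ≤ ((S : ℚ) + 1) * ((Finset.univ.sup v : ℕ) : ℚ) / S := h1.trans h5
      nlinarith
    · obtain ⟨k, hk⟩ := hk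
      have h1 : n + 2 ≤ Finset.univ.sup v := hk.trans (hsup v k)
      have h2 : (n : ℚ) + 2 ≤ ((Finset.univ.sup v : ℕ) : ℚ) := by exact_mod_cast h1
      have h3 : (0 : ℚ) < (n : ℚ) + 2 := by positivity
      have h4 : (S : ℚ) * (((S : ℚ) + 1) * ((Finset.univ.sup v : ℕ) : ℚ) /
          (S * ((n : ℚ) + 2))) = ((S : ℚ) + 1) * ((Finset.univ.sup v : ℕ) : ℚ) / ((n : ℚ) + 2) := by
        field_simp
      dsimp only
      rw [h4, le_div_iff₀ h3]
      have h5 : (0 : ℚ) < (S : ℚ) + 1 := by positivity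
      nlinarith

end Pool.Agent.TH756.PN
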