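import Pool.Agent.TH756.PN.LinB
import Pool.Agent.TH756.PN.Cy

/-!
Kodaira dimension and numerical dimension of open covers of a product of projective spaces.
-/

set_option autoImplicit false
set_option linter.overlappingInstances false
set_option linter.unusedSectionVars false

open FF IntermediateField Pool.Agent.W603.LV Pool.Agent.W602.GT Pool.Agent.W602.Cov
open Pool.Agent.W602.Cov.G Pool.Agent.TH152.AC Pool.Agent.W619.PQ
open Pool.Agent.TH122.AB Pool.Agent.TH756.PR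

namespace Pool.Agent.TH756.PN

variable {r N Q R : ℕ} {n q : Fin r → ℕ}
  {ℓ : ∀ i, Fin (q i) → Form (n i)} {K : Type} [Field K] [Algebra ℂ K]

/-- the multiplicities of the cover outside `U` are at least `n i + 2` -/
def MultU (X : Cover N Q R) (e' : ((i : Fin r) × Fin (q i)) ≃ Fin Q)
    (ℓ : ∀ i, Fin (q i) → Form (n i)) (U : ∀ i, Fin (q i) → Prop) : Prop :=
  ∀ v : ∀ i, Fin (q i) → ℕ, (∃ i, v i ≠ 0) →
    (∀ i, ∃ x : Fin (n i + 1) → ℂ, x ≠ 0 ∧ ∀ k, v i k ≠ 0 → ℓ i k x = 0) →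
    (∀ j, X.m j ∣ ∑ i, ∑ k, X.e j (e' ⟨i, k⟩) * v i k) → (∀ i k, U i k → v i k = 0) →
    ∃ i k, n i + 2 ≤ v i k

theorem kodPB (e : ((i : Fin r) × Fin (n i)) ≃ Fin (N + 1))
    (e' : ((i : Fin r) × Fin (q i)) ≃ Fin Q) {z : Fin (N + 1 + 1) → K} {y : Fin R → K}
    (hr : 1 ≤ r) (hn : ∀ i, 1 ≤ n i) (X : Cover (N + 1) Q R) (hF : X.Free)
    (hK : X.FunctionField K z y) (hX : ∀ i k, X.ℓ (e' ⟨i, k⟩) = lift e i (ℓ i k))
    (hdeg : ∀ j i, X.m j ∣ ∑ k, X.e j (e' ⟨i, k⟩)) (hirr : ∀ i, ¬ Reducible (ℓ i))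
    (U : ∀ i, Fin (q i) → Prop) (h : MultU X e' ℓ U) (I : Finset (Fin r))
    (hI : ∀ i, i ∈ I ↔ ¬ ((∃ c, General (ℓ i) c ∧ CalabiP X e' ℓ i c) ∧ ∀ k, ¬ U i k)) :
    KodGe ℂ K (N + 1) (OffD U ℓ (cc e z)) (∑ i ∈ I, n i) := by
  classical
  obtain ⟨h1, h2, h3⟩ := coords X hK
  have hspan : ∀ i, Submodule.span ℂ (Set.range (ℓ i)) = ⊤ := fun i =>
    Pool.Agent.W392.CG.span_top (hn i) (ℓ i) (hirr i)
  have hℓ : ∀ i k, ℓ i k ≠ 0 := forms_ne e e' hX
  obtain ⟨nn, hnn⟩ : ∃ nn, nn = ∑ i, n i := ⟨_, rfl⟩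
  have hnle : ∀ i, n i ≤ nn := fun i => by
    rw [hnn]
    exact Finset.single_le_sum (f := n) (fun _ _ => Nat.zero_le _) (Finset.mem_univ i)
  have B0 : ∀ i, Bases (ℓ i) := fun i => Classical.choice (exists_bases (hspan i))
  have k0 : ∀ i, Fin (q i) := fun i => (B0 i).1 0
  -- the weights
  have hdata : ∀ i, ∃ (p : Bases (ℓ i) → ℕ) (g : (Fin (q i) → ℕ) → ℚ) (M : ℕ),
      0 < ∑ B, p B ∧ 1 ≤ M ∧ Hp (ℓ i) p g ∧
      (∀ v, Par (ℓ i) v → ∀ k, (((nn + 4 : ℕ) : ℚ) - 1) * v k ≤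
        ((nn + 4 : ℕ) : ℚ) * (((n i : ℚ) + 2) * g v)) ∧
      (i ∉ I → ∀ v, Par (ℓ i) v → ∀ k, (v k : ℚ) ≤ ((n i : ℚ) + 2) * g v) ∧
      (i ∈ I → ∀ v, Par (ℓ i) v → ((∀ j, X.m j ∣ ∑ k, X.e j (e' ⟨i, k⟩) * v k) ∧
        ∀ k, U i k → v k = 0) → (∃ k, n i + 2 ≤ v k) → (M : ℚ) + 1 ≤ M * g v) := by
    intro i
    by_cases hi : i ∈ I
    · obtain ⟨p, g, M, a1, a2, a3, a4, a5⟩ := fd_big (hn i) (hℓ i) (hirr i)
        (fun v => (∀ j, X.m j ∣ ∑ k, X.e j (e' ⟨i, k⟩) * v k) ∧ ∀ k, U i k → v k = 0)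
        (fun ⟨c, hc, hok⟩ => (hI i).1 hi ⟨⟨c, hc, fun j k => (hok j).1 k⟩, fun k hk => by
          obtain ⟨j, hj⟩ := hc.2 k
          have h4 := (hok j).2 k hk
          unfold pat at h4
          rw [if_pos hj] at h4
          omega⟩) (nn + 4) (by have := hnle i; omega)
      exact ⟨p, g, M, a1, a2, a3, a4, fun h' => absurd hi h', fun _ => a5⟩
    · have hex : (∃ c, General (ℓ i) c ∧ CalabiP X e' ℓ i c) ∧ ∀ k, ¬ U i k := by
        by_contra hcon
        exact hi ((hI i).2 hcon)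
      obtain ⟨⟨c, hc, -⟩, -⟩ := hex
      obtain ⟨p, g, a1, a2, a3⟩ := fd_cy hc
      refine ⟨p, g, 1, a1, le_rfl, a2, fun v hv k => ?_, fun _ => a3, fun h' => absurd h' hi⟩
      have h4 := a3 v hv k
      have h5 : (0 : ℚ) ≤ (v k : ℚ) := by positivity
      push_cast
      nlinarith
  choose p g Mi hp0 hMi hp hθ hcy hbig using hdata
  obtain ⟨A, hA⟩ : ∃ A : ℕ, A = (nn + 4) * (nn + 2) := ⟨_, rfl⟩
  obtain ⟨M, hM⟩ : ∃ M : ℕ, M = A + ∑ i, Mi i := ⟨_, rfl⟩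
  have hApos : 1 ≤ A := by
    rw [hA]
    nlinarith
  have hMA : A ≤ M := by omega
  have hMM : ∀ i, Mi i ≤ M := fun i => by
    have := Finset.single_le_sum (f := Mi) (fun _ _ => Nat.zero_le _) (Finset.mem_univ i)
    omega
  have hlx : ∀ i k, lf (ℓ i k) (cc e z i) ≠ 0 := fun i k => by
    have h4 := h1 (e' ⟨i, k⟩)
    rw [hX, lf_lift] at h4
    exact h4
  -- equal hyperplanes have equal multiplicities
  have hPar : ∀ (P : Place ℂ K) (a : Fin r → ℤ) (v : ∀ i, Fin (q i) → ℕ),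
      (∀ i k, P.ord (lf (ℓ i k) (cc e z i)) = a i + v i k) → ∀ i, Par (ℓ i) (v i) := by
    rintro P a v hv i k k' ⟨t, ht⟩
    have h4 := ord_par (hlx i k') ht (hlx i k) P
    rw [hv, hv] at h4
    omega
  have hgnn : ∀ (i : Fin r) (v : Fin (q i) → ℕ), Par (ℓ i) v → 0 ≤ g i v := by
    intro i v hv
    have h4 := hθ i v hv (k0 i)
    have h5 : (0 : ℚ) ≤ ((((nn + 4 : ℕ) : ℚ) - 1) * v (k0 i)) := by
      push_cast
      have h6 : (0 : ℚ) ≤ (nn : ℚ) + 4 - 1 := by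
        have : (0 : ℚ) ≤ (nn : ℚ) := by positivity
        linarith
      exact mul_nonneg h6 (by positivity)
    have h6 : (0 : ℚ) < ((nn + 4 : ℕ) : ℚ) * ((n i : ℚ) + 2) := by positivity
    have h7 : (0 : ℚ) ≤ ((nn + 4 : ℕ) : ℚ) * ((n i : ℚ) + 2) * g i v := by
      rw [mul_assoc]
      exact h5.trans h4
    exact nonneg_of_mul_nonneg_right h7 h6
  have hle1 : ∀ i, ((nn + 4 : ℕ) : ℚ) * ((n i : ℚ) + 2) ≤ A := by
    intro i
    rw [hA]
    have h4 : (nn + 4) * (n i + 2) ≤ (nn + 4) * (nn + 2) :=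
      Nat.mul_le_mul_left _ (by have := hnle i; omega)
    exact_mod_cast h4
  -- the embedding
  have hcard := card_free e I
  obtain ⟨s, hs⟩ : ∃ s : Finset (Fin (N + 1)), s = Finset.univ.filter
    fun b : Fin (N + 1) => ∀ t : {i : Fin r // i ∉ I}, b ∉ bk e t.1 := ⟨_, rfl⟩
  rw [← hs] at hcard
  refine kodGeW e (x := cc e z) hspan p hp0 g hp A hApos (fun P a v hv i k => ?_) hlx
    (fun i => h2) (basis_cc e X hK) _ I M (by omega) (fun P _ hPB a v hv hsp hv0 => ?_)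
    (∑ i ∈ I, n i) (s.orderEmbOfFin hcard) (s.orderEmbOfFin hcard).injective fun b => ?_
  · have hpar := hPar P a v hv i
    have h4 := hθ i (v i) hpar k
    have h5 := hgnn i (v i) hpar
    have h6 : (0 : ℚ) ≤ (v i k : ℚ) := by positivity
    have h7 : ((nn + 4 : ℕ) : ℚ) * ((n i : ℚ) + 2) * g i (v i) ≤ A * g i (v i) :=
      mul_le_mul_of_nonneg_right (hle1 i) h5
    have h8 : (v i k : ℚ) ≤ (((nn + 4 : ℕ) : ℚ) - 1) * v i k := by
      push_cast
      have : (0 : ℚ) ≤ (nn : ℚ) := by positivity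
      nlinarith
    calc (v i k : ℚ) ≤ _ := h8
      _ ≤ _ := h4
      _ = ((nn + 4 : ℕ) : ℚ) * ((n i : ℚ) + 2) * g i (v i) := by ring
      _ ≤ _ := h7
  · have hpar := hPar P a v hv
    obtain ⟨h5, h6⟩ := compatP e e' hr X hF hK hX hdeg hspan P a v hv hsp
    have hvU : ∀ i k, U i k → v i k = 0 := by
      intro i k hk
      by_contra hne
      obtain ⟨k', hk'⟩ := exists_zero (hspan i) (hsp i)
      refine hPB ⟨i, k, hk, ℓ i k', hlx i k', ?_⟩
      rw [hv, hv, hk']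
      push_cast
      omega
    obtain ⟨i1, k1, hk1⟩ := h v hv0 h5 h6 hvU
    have hnn' : ∀ i, 0 ≤ g i (v i) := fun i => hgnn i (v i) (hpar i)
    have hk1' : (n i1 : ℚ) + 2 ≤ v i1 k1 := by exact_mod_cast hk1
    have hMq : (1 : ℚ) ≤ M := by
      have : 1 ≤ M := by omega
      exact_mod_cast this
    have key : (∃ i ∈ I, v i ≠ 0) → (M : ℚ) + 1 ≤ M * ∑ i, g i (v i) := by
      rintro ⟨i0, hi0, hvi0⟩
      by_cases hex : ∃ i2, i2 ≠ i1 ∧ v i2 ≠ 0
      · obtain ⟨i2, hi2, hvi2⟩ := hex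
        obtain ⟨k2, hk2⟩ := Function.ne_iff.1 hvi2
        have hk2' : (1 : ℚ) ≤ v i2 k2 := by
          have : 1 ≤ v i2 k2 := Nat.one_le_iff_ne_zero.2 hk2
          exact_mod_cast this
        have e1 := hθ i1 (v i1) (hpar i1) k1
        have e2 := hθ i2 (v i2) (hpar i2) k2
        have hsum : g i1 (v i1) + g i2 (v i2) ≤ ∑ i, g i (v i) := by
          rw [← Finset.add_sum_erase Finset.univ _ (Finset.mem_univ i1)]
          refine add_le_add le_rfl ?_
          exact Finset.single_le_sum (f := fun i => g i (v i)) (fun i _ => hnn' i)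
            (Finset.mem_erase.2 ⟨hi2, Finset.mem_univ i2⟩)
        have hL := hle1 i2
        obtain ⟨a0, ha0⟩ : ∃ a0 : ℚ, a0 = ((nn + 4 : ℕ) : ℚ) := ⟨_, rfl⟩
        rw [← ha0] at e1 e2 hL
        have ha1 : (n i2 : ℚ) + 4 ≤ a0 := by
          rw [ha0]
          have : n i2 + 4 ≤ nn + 4 := by have := hnle i2; omega
          exact_mod_cast this
        have hn1 : (0 : ℚ) ≤ n i1 := by positivity
        have hn2 : (0 : ℚ) ≤ n i2 := by positivity
        have hg1 := hnn' i1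
        have hg2 := hnn' i2
        have f1 : (a0 - 1) * ((n i1 : ℚ) + 2) ≤ a0 * ((n i1 : ℚ) + 2) * g i1 (v i1) := by
          have : (a0 - 1) * ((n i1 : ℚ) + 2) ≤ (a0 - 1) * v i1 k1 :=
            mul_le_mul_of_nonneg_left hk1' (by linarith)
          linarith
        have f2 : a0 - 1 ≤ a0 * g i1 (v i1) := by
          have h7 : (0 : ℚ) < (n i1 : ℚ) + 2 := by positivity
          have h8 : ((n i1 : ℚ) + 2) * (a0 - 1) ≤ ((n i1 : ℚ) + 2) * (a0 * g i1 (v i1)) := by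
            linarith
          exact le_of_mul_le_mul_left h8 h7
        have f3 : a0 - 1 ≤ a0 * (((n i2 : ℚ) + 2) * g i2 (v i2)) := by
          have : (a0 - 1) * 1 ≤ (a0 - 1) * v i2 k2 :=
            mul_le_mul_of_nonneg_left hk2' (by linarith)
          linarith
        have f4 : 1 ≤ a0 * ((n i2 : ℚ) + 2) * (g i1 (v i1) + g i2 (v i2) - 1) := by
          have h7 : ((n i2 : ℚ) + 2) * (a0 - 1) ≤ ((n i2 : ℚ) + 2) * (a0 * g i1 (v i1)) :=
            mul_le_mul_of_nonneg_left f2 (by linarith)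
          nlinarith
        have f5 : 0 ≤ g i1 (v i1) + g i2 (v i2) - 1 := by
          have h7 : (0 : ℚ) < a0 * ((n i2 : ℚ) + 2) := by
            apply mul_pos <;> linarith
          have h8 : 0 ≤ a0 * ((n i2 : ℚ) + 2) * (g i1 (v i1) + g i2 (v i2) - 1) := by linarith
          exact nonneg_of_mul_nonneg_right h8 h7
        have f6 : a0 * ((n i2 : ℚ) + 2) ≤ M := hL.trans (by exact_mod_cast hMA)
        have f7 : a0 * ((n i2 : ℚ) + 2) * (g i1 (v i1) + g i2 (v i2) - 1) ≤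
            M * (g i1 (v i1) + g i2 (v i2) - 1) := mul_le_mul_of_nonneg_right f6 f5
        have f8 : (M : ℚ) * (g i1 (v i1) + g i2 (v i2)) ≤ M * ∑ i, g i (v i) :=
          mul_le_mul_of_nonneg_left hsum (by linarith)
        linarith
      · push Not at hex
        have hi1 : i1 ∈ I := by
          by_contra hcon
          apply hvi0
          apply hex
          rintro rfl
          exact hcon hi0
        have hok : ∀ j, X.m j ∣ ∑ k, X.e j (e' ⟨i1, k⟩) * v i1 k := by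
          intro j
          have h7 := h6 j
          rw [Finset.sum_eq_single i1] at h7
          · exact h7
          · intro i _ hi
            refine Finset.sum_eq_zero fun k _ => ?_
            rw [hex i hi]
            exact mul_zero _
          · intro h'
            exact absurd (Finset.mem_univ _) h'
        have h7 := hbig i1 hi1 (v i1) (hpar i1) ⟨hok, hvU i1⟩ ⟨k1, hk1⟩
        have h8 : (1 : ℚ) ≤ Mi i1 := by exact_mod_cast hMi i1
        have h9 : (Mi i1 : ℚ) ≤ M := by exact_mod_cast hMM i1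
        have h10 : 0 ≤ g i1 (v i1) - 1 := by
          have h11 : (0 : ℚ) ≤ Mi i1 * (g i1 (v i1) - 1) := by linarith
          exact nonneg_of_mul_nonneg_right h11 (by linarith)
        have h11 : (Mi i1 : ℚ) * (g i1 (v i1) - 1) ≤ M * (g i1 (v i1) - 1) :=
          mul_le_mul_of_nonneg_right h9 h10
        have h12 : g i1 (v i1) ≤ ∑ i, g i (v i) :=
          Finset.single_le_sum (f := fun i => g i (v i)) (fun i _ => hnn' i) (Finset.mem_univ i1)
        have h13 : (M : ℚ) * g i1 (v i1) ≤ M * ∑ i, g i (v i) :=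
          mul_le_mul_of_nonneg_left h12 (by linarith)
        linarith
    refine ⟨?_, key⟩
    by_cases hi1 : i1 ∈ I
    · have hvi : v i1 ≠ 0 := by
        intro h0
        rw [h0] at hk1
        simp at hk1
      have h7 := key ⟨i1, hi1, hvi⟩
      have h8 : (0 : ℚ) ≤ M * (∑ i, g i (v i) - 1) := by linarith
      have h9 := nonneg_of_mul_nonneg_right h8 (by linarith : (0 : ℚ) < M)
      linarith
    · have h7 := hcy i1 hi1 (v i1) (hpar i1) k1
      have h8 : (0 : ℚ) < (n i1 : ℚ) + 2 := by positivity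
      have h9 : ((n i1 : ℚ) + 2) * 1 ≤ ((n i1 : ℚ) + 2) * g i1 (v i1) := by linarith
      have h10 := le_of_mul_le_mul_left h9 h8
      have h12 : g i1 (v i1) ≤ ∑ i, g i (v i) :=
        Finset.single_le_sum (f := fun i => g i (v i)) (fun i _ => hnn' i) (Finset.mem_univ i1)
      linarith
  · have hb : s.orderEmbOfFin hcard b ∈ s := Finset.orderEmbOfFin_mem s hcard b
    obtain ⟨c, hc⟩ : ∃ c, c = s.orderEmbOfFin hcard b := ⟨_, rfl⟩
    rw [← hc] at hb ⊢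
    rw [hs, Finset.mem_filter] at hb
    by_contra hcon
    exact hb.2 ⟨_, hcon⟩ ((mem_bk e).2 rfl)

/-- **Abundance for open covers of products.** -/
theorem abundancePB (e : ((i : Fin r) × Fin (n i)) ≃ Fin N)
    (e' : ((i : Fin r) × Fin (q i)) ≃ Fin Q) {z : Fin (N + 1) → K} {y : Fin R → K}
    (hr : 1 ≤ r) (hn : ∀ i, 1 ≤ n i) (X : Cover N Q R) (hF : X.Free)
    (hK : X.FunctionField K z y) (hX : ∀ i k, X.ℓ (e' ⟨i, k⟩) = lift e i (ℓ i k))
    (h0 : ∀ i, ∃ (k : Fin (q i)) (c : ℂ), ℓ i k = c • LinearMap.proj 0)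
    (hdeg : ∀ j i, X.m j ∣ ∑ k, X.e j (e' ⟨i, k⟩)) (hirr : ∀ i, ¬ Reducible (ℓ i))
    (U : ∀ i, Fin (q i) → Prop) (h : MultU X e' ℓ U) (I : Finset (Fin r))
    (hI : ∀ i, i ∈ I ↔ ¬ ((∃ c, General (ℓ i) c ∧ CalabiP X e' ℓ i c) ∧ ∀ k, ¬ U i k)) :
    KodGe ℂ K N (OffD U ℓ (cc e z)) (∑ i ∈ I, n i) ∧
      Pool.Agent.W619.TW.NumLe ℂ K N (OffD U ℓ (cc e z)) (∑ i ∈ I, n i) := by
  classical
  obtain ⟨N, rfl⟩ : ∃ N', N = N' + 1 := by
    have h1 := (e ⟨⟨0, hr⟩, ⟨0, hn _⟩⟩).2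
    exact ⟨N - 1, by omega⟩
  refine ⟨kodPB e e' hr hn X hF hK hX hdeg hirr U h I hI, ?_⟩
  choose kinf cinf hinf using h0
  have hex : ∀ i, ∃ c : Fin (n i + 2) → Fin (q i), i ∉ I →
      (General (ℓ i) c ∧ CalabiP X e' ℓ i c) ∧ ∀ k, ¬ U i k := by
    intro i
    by_cases hi : i ∈ I
    · exact ⟨fun _ => kinf i, fun h' => absurd hi h'⟩
    · have h4 : (∃ c, General (ℓ i) c ∧ CalabiP X e' ℓ i c) ∧ ∀ k, ¬ U i k := by
        by_contra hcon
        exact hi ((hI i).2 hcon)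
      obtain ⟨⟨c, hc⟩, hu⟩ := h4
      exact ⟨c, fun _ => ⟨hc, hu⟩⟩
  choose c hc using hex
  exact nuPB e e' hn X hF hK hX (fun i => ⟨kinf i, cinf i, hinf i⟩) hdeg I c
    (fun i hi => (hc i hi).1.1) (fun i hi => (hc i hi).1.2) U fun i hi => (hc i hi).2

end Pool.Agent.TH756.PN
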