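import Pool.Agent.TH756.PN.NuP
import Pool.Agent.TH122.AB.Gal

/-!
The Galois closure of a finite cover, and the numerical dimension of pairs on finite covers.
-/

set_option autoImplicit false
set_option linter.overlappingInstances false
set_option linter.unusedSectionVars false

open FF MvPolynomial IntermediateField Pool.Agent.TH122.AB

namespace Pool.Agent.TH756.PN

theorem exists_normal (E K : Type) [Field E] [Field K] [Algebra E K] [CharZero E]
    [FiniteDimensional E K] :
    ∃ (K' : Type) (_ : Field K') (_ : Algebra E K') (_ : Algebra K K'),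
      IsScalarTower E K K' ∧ FiniteDimensional E K' ∧ IsGalois E K' := by
  have h1 : Algebra.IsAlgebraic E (AlgebraicClosure K) :=
    Algebra.IsAlgebraic.trans E K (AlgebraicClosure K)
  have h2 : Normal E (AlgebraicClosure K) := by
    have : IsAlgClosure E (AlgebraicClosure K) := ⟨inferInstance, h1⟩
    exact IsAlgClosure.normal E (AlgebraicClosure K)
  refine ⟨normalClosure E K (AlgebraicClosure K), inferInstance, inferInstance, inferInstance,
    inferInstance, inferInstance, ⟨⟩⟩

theorem exists_normal' (E K : Type) [Field E] [Field K] [Algebra E K] [CharZero E]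
    [FiniteDimensional E K] :
    ∃ (K' : Type) (_ : Field K') (_ : Algebra K K'),
      ∀ j : Algebra E K', (∀ r : E, algebraMap E K' r = algebraMap K K' (algebraMap E K r)) →
      FiniteDimensional E K' ∧ IsGalois E K' := by
  obtain ⟨K', iF, iE, iK, hT, hfin, hgal⟩ := exists_normal E K
  refine ⟨K', iF, iK, fun j hj => ?_⟩
  have h : iE = j := Algebra.algebra_ext _ _ fun r => by
    rw [hj]
    exact @IsScalarTower.algebraMap_apply E K K' _ _ _ _ _ iE hT r
  subst h
  exact ⟨hfin, hgal⟩

section

variable {k K : Type} [Field k] [CharZero k] [Field K] [Algebra k K]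

/-- **The Galois closure.** -/
theorem exists_closure {d : ℕ} {Z : Fin d → K} (hZ : IsTranscendenceBasis k Z)
    (hfd : FiniteDimensional (IntermediateField.adjoin k (Set.range Z)) K) :
    ∃ (K' : Type) (_ : Field K') (_ : Algebra k K') (_ : Algebra K K')
      (_ : IsScalarTower k K K') (G : Subgroup (K' ≃ₐ[k] K')) (_ : Finite G)
      (_ : Algebra (fixedField G) K) (_ : IsScalarTower k (fixedField G) K)
      (_ : IsScalarTower (fixedField G) K K') (_ : FiniteDimensional (fixedField G) K)
      (X : Fin d → fixedField G), Gens (k := k) X ∧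
        (∀ j, algebraMap (fixedField G) K (X j) = Z j) ∧
        IsTranscendenceBasis k fun j => (X j : K') := by
  classical
  obtain ⟨E, hE⟩ : ∃ E, E = IntermediateField.adjoin k (Set.range Z) := ⟨_, rfl⟩
  rw [← hE] at hfd
  have hcE : CharZero E := charZero_of_injective_algebraMap (algebraMap k E).injective
  obtain ⟨K', iF, iK, key⟩ := exists_normal' E K
  obtain ⟨hfin, hgal⟩ := key inferInstance fun r => rfl
  let iA : Algebra k K' := ((algebraMap K K').comp (algebraMap k K)).toAlgebra
  have hT1 : IsScalarTower k K K' := IsScalarTower.of_algebraMap_eq fun _ => rfl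
  obtain ⟨f, hf⟩ : ∃ f : K →ₐ[k] K', f = IsScalarTower.toAlgHom k K K' := ⟨_, rfl⟩
  have hfa : ∀ z, f z = algebraMap K K' z := fun z => by
    rw [hf]
    rfl
  obtain ⟨E', hE'⟩ : ∃ E' : IntermediateField k K', E' = E.map f := ⟨_, rfl⟩
  let ε : E ≃ₐ[k] E' := (IntermediateField.equivMap E f).trans
    (IntermediateField.equivOfEq hE'.symm)
  have hε : ∀ z : E, ((ε z : E') : K') = algebraMap K K' z := by
    intro z
    rw [← hfa]
    rfl
  -- `K'` is Galois over `E'`
  let iEE' : Algebra E E' := ε.toRingEquiv.toRingHom.toAlgebra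
  have hTE : IsScalarTower E E' K' := IsScalarTower.of_algebraMap_eq fun z => by
    rw [IsScalarTower.algebraMap_apply E K K']
    exact (hε z).symm
  have hfin' : FiniteDimensional E' K' := Module.Finite.right E E' K'
  have hgal' : IsGalois E' K' := IsGalois.tower_top_of_isGalois E E' K'
  obtain ⟨hfinG, hfix⟩ := fixing_props E'
  obtain ⟨G, hG⟩ : ∃ G, G = E'.fixingSubgroup := ⟨_, rfl⟩
  rw [← hG] at hfinG hfix
  let φ : fixedField G →ₐ[k] K :=
    (E.val.comp ε.symm.toAlgHom).comp (IntermediateField.inclusion (le_of_eq hfix))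
  have hφ : ∀ z : fixedField G, algebraMap K K' (φ z) = z := by
    intro z
    have h1 := hε (ε.symm (IntermediateField.inclusion (le_of_eq hfix) z))
    rw [AlgEquiv.apply_symm_apply] at h1
    exact h1.symm
  let iG : Algebra (fixedField G) K := φ.toRingHom.toAlgebra
  have hTG1 : IsScalarTower k (fixedField G) K := IsScalarTower.of_algebraMap_eq fun c =>
    (φ.commutes c).symm
  have hTG2 : IsScalarTower (fixedField G) K K' := IsScalarTower.of_algebraMap_eq fun z =>
    (hφ z).symm
  have hfd2 : FiniteDimensional (fixedField G) K' := by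
    have hGal : IsGaloisGroup G (fixedField G) K' := Pool.Agent.W619.PQ.isGaloisGroup_fixed G
    exact IsGaloisGroup.finiteDimensional G _ K'
  have hfd3 : FiniteDimensional (fixedField G) K := FiniteDimensional.left (fixedField G) K K'
  have hZmem : ∀ j, algebraMap K K' (Z j) ∈ fixedField G := by
    intro j
    rw [hfix, hE', IntermediateField.mem_map]
    refine ⟨Z j, ?_, hfa _⟩
    rw [hE]
    exact IntermediateField.subset_adjoin k _ ⟨j, rfl⟩
  let X : Fin d → fixedField G := fun j => ⟨algebraMap K K' (Z j), hZmem j⟩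
  have hXZ : ∀ j, algebraMap (fixedField G) K (X j) = Z j := by
    intro j
    apply (algebraMap K K').injective
    exact hφ (X j)
  have hind : AlgebraicIndependent k fun j => algebraMap K K' (Z j) :=
    hZ.1.map' (f := IsScalarTower.toAlgHom k K K') (algebraMap K K').injective
  have hgens : Gens (k := k) X := by
    refine gens_of (Z := fun j => algebraMap K K' (Z j)) hind (E := fixedField G) ?_ fun j => rfl
    rw [hfix, hE', hE, IntermediateField.adjoin_map]
    congr 1
    ext z
    simp only [Set.mem_image, Set.mem_range]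
    constructor
    · rintro ⟨_, ⟨j, rfl⟩, rfl⟩
      exact ⟨j, (hfa _).symm⟩
    · rintro ⟨j, rfl⟩
      exact ⟨Z j, ⟨j, rfl⟩, hfa _⟩
  have hbas : IsTranscendenceBasis k fun j => (X j : K') := by
    have hft : Algebra.IsAlgebraic K K' := by
      have : Module.Finite K K' := Module.Finite.right (fixedField G) K K'
      exact Algebra.IsAlgebraic.of_finite K K'
    have h2 : Algebra.trdeg k K' = d := by
      rw [← trdeg_add_eq k K (A := K'), trdeg_eq_zero (R := K) (A := K'), add_zero,
        Pool.Agent.W602.GT.trdeg_of_basis hZ]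
    exact hind.isTranscendenceBasis_of_trdeg_le_of_finite (by rw [h2]; simp)
  exact ⟨K', iF, iA, iK, hT1, G, hfinG, iG, hTG1, hTG2, hfd3, X, hgens, hXZ, hbas⟩

/-- finitely generated extensions are finite over all purely transcendental subextensions -/
theorem fin_all {d : ℕ} {Z : Fin d → K}
    (hfd : FiniteDimensional (IntermediateField.adjoin k (Set.range Z)) K) {y : Fin d → K}
    (hy : IsTranscendenceBasis k y) :
    FiniteDimensional (IntermediateField.adjoin k (Set.range y)) K := by
  classical
  obtain ⟨E, hE⟩ : ∃ E, E = IntermediateField.adjoin k (Set.range Z) := ⟨_, rfl⟩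
  rw [← hE] at hfd
  obtain ⟨S, hS⟩ := (Module.finite_def.1 hfd : (⊤ : Submodule E K).FG)
  have halg : Algebra.IsAlgebraic (IntermediateField.adjoin k (Set.range y)) K :=
    hy.isAlgebraic_field
  refine (fin_of_gen (IntermediateField.adjoin k (Set.range y))
    (S := (S : Set K) ∪ Set.range Z) ((S.finite_toSet).union (Set.finite_range _))
    (fun L _ hSL => ?_) (fun z _ => (Algebra.IsAlgebraic.isAlgebraic z).isIntegral)).1
  have hEL : E ≤ L := by
    rw [hE, IntermediateField.adjoin_le_iff]
    exact fun z hz => hSL (Or.inr hz)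
  rw [eq_top_iff]
  intro z _
  have hz : z ∈ Submodule.span E (S : Set K) := by
    rw [hS]
    trivial
  induction hz using Submodule.span_induction with
  | mem x hx => exact hSL (Or.inl hx)
  | zero => exact L.zero_mem
  | add x y _ _ hx hy => exact L.add_mem (hx trivial) (hy trivial)
  | smul a x _ hx => exact L.mul_mem (hEL a.2) (hx trivial)

/-- **The numerical dimension of pairs on finite covers.** -/
theorem numLe_pairs {n : ℕ} {Z : Fin (n + 1) → K} (hZ : IsTranscendenceBasis k Z)
    (hfd : FiniteDimensional (IntermediateField.adjoin k (Set.range Z)) K)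
    {κ α : Type} [Fintype κ] [Fintype α] (B : κ → Finset (Fin (n + 1))) (c : κ → Fin (n + 1))
    (hc : ∀ t, c t ∈ B t) (g : κ → ℕ) (hg : ∀ t, (B t).card = g t + 1)
    (τ : Fin (n + 1) → κ) (hτ : ∀ b, b ∈ B (τ b)) (I : κ → Prop) [DecidablePred I]
    (lam : α → MvPolynomial (Fin (n + 1)) k) (hlam0 : ∀ a, lam a ≠ 0) (bl : α → κ)
    (hdeg1 : ∀ t a, bl a ≠ t → degB (B t) (lam a) = 0)
    (hdeg2 : ∀ t, ¬ I t → ∑ a, degB (B t) (lam a) ≤ g t + 2) (V : Set (Place k K))
    (δ : Place k K → ℝ)
    (H1 : ∀ p : MvPolynomial (Fin (n + 1)) k, Irreducible p → ∀ P : Place k K,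
      (∀ f, f ≠ 0 → 0 ≤ P.ord (aeval Z f) ∧ (P.ord (aeval Z f) = 0 ↔ ¬ p ∣ f)) →
      P ∈ V ∧ ((P.ord (aeval Z p) = 1 ∧ δ P ≤ 0) ∨ ∃ a, p ∣ lam a ∧ δ P ≤ 1 ∧
          (¬ I (bl a) → (P.ord (aeval Z p) : ℝ) ≤ ((g (bl a) : ℝ) + 3) * (1 - δ P))))
    (H0 : ∀ t, ∀ (P : Place k K) (e : ℕ), 0 < e →
      (∀ f : MvPolynomial (Fin (n + 1)) k, f ≠ 0 →
        P.ord (aeval Z f) = - ((e : ℤ) * (degB (B t) f : ℤ))) →
      P ∈ V ∧ δ P ≤ 1 ∧ (¬ I t → (e : ℝ) ≤ ((g t : ℝ) + 3) * (1 - δ P))) :
    NumLeP k K (n + 1) V δ (Finset.univ.filter fun b => I (τ b)).card := by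
  obtain ⟨K', iF, iA, iK, hT, G, hfin, iG, hT1, hT2, hfd', X, hX, hXZ, hbas⟩ :=
    exists_closure hZ hfd
  have hXZ' : (fun j => algebraMap (fixedField G) K (X j)) = Z := funext hXZ
  have hae : ∀ f : MvPolynomial (Fin (n + 1)) k,
      algebraMap (fixedField G) K (aeval X f) = aeval Z f := by
    intro f
    rw [← hXZ']
    exact (MvPolynomial.aeval_algebraMap_apply K X f).symm
  refine numLe_P G hX hbas (by rw [hXZ']; exact hZ) (fun y hy => fin_all hfd hy) B c hc g hg τ hτ I
    lam hlam0 bl hdeg1 hdeg2 V δ ?_ ?_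
  · intro p hp v hvp hv P e hPv
    have he := hPv.1
    have h1 : P.ord (aeval Z p) = e := by
      rw [← hae, hPv.2, hvp, mul_one]
    have h2 := H1 p hp P fun f hf => by
      rw [← hae, hPv.2]
      obtain ⟨h3, h4⟩ := hv f hf
      refine ⟨mul_nonneg (by positivity) h3, ?_⟩
      rw [← h4]
      constructor
      · intro h5
        rcases mul_eq_zero.1 h5 with h6 | h6
        · omega
        · exact h6
      · intro h5
        rw [h5, mul_zero]
    rw [h1] at h2
    refine ⟨h2.1, ?_⟩
    rcases h2.2 with ⟨h3, h4⟩ | ⟨a, ha, h3, h4⟩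
    · exact Or.inl ⟨by exact_mod_cast h3, h4⟩
    · exact Or.inr ⟨a, ha, h3, fun h => by exact_mod_cast h4 h⟩
  · intro t v hv P e hPv
    refine H0 t P e hPv.1 fun f hf => ?_
    rw [← hae, hPv.2, hv f hf]
    ring

end

end Pool.Agent.TH756.PN
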