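import Pool.Agent.TH122.AB.Inf

/-!
The place at infinity of one factor of a product of projective spaces (following
`Pool.Agent.TH122.AB.Inf`, which treats projective space).
-/

set_option autoImplicit false
set_option linter.overlappingInstances false
set_option linter.unusedSectionVars false

open FF MvPolynomial Pool.Agent.W603.LV Pool.Agent.W619.PQ Pool.Agent.TH122.AB

namespace Pool.Agent.TH756.PN

section

variable {k F : Type} [Field k] [Field F] [Algebra k F] {n : ℕ} (B : Finset (Fin (n + 1)))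

/-- the new exponents -/
noncomputable def fx (c : Fin (n + 1)) (N : ℕ) (m : Fin (n + 1) →₀ ℕ) : Fin (n + 1) →₀ ℕ :=
  Finsupp.equivFunOnFinite.symm (fun i => if i = c then N - ∑ b ∈ B, m b else m i)

theorem fx_zero (c : Fin (n + 1)) (N : ℕ) (m : Fin (n + 1) →₀ ℕ) :
    fx B c N m c = N - ∑ b ∈ B, m b := by
  change (if c = c then N - ∑ b ∈ B, m b else m c) = _
  rw [if_pos rfl]

theorem fx_ne {c : Fin (n + 1)} (N : ℕ) (m : Fin (n + 1) →₀ ℕ) {j : Fin (n + 1)} (hj : j ≠ c) :
    fx B c N m j = m j := by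
  change (if j = c then N - ∑ b ∈ B, m b else m j) = _
  rw [if_neg hj]

variable {B} {c : Fin (n + 1)}

theorem fx_inj (hB : c ∈ B) {N : ℕ} {m m' : Fin (n + 1) →₀ ℕ} (h : ∑ b ∈ B, m b ≤ N)
    (h' : ∑ b ∈ B, m' b ≤ N) (hm : fx B c N m = fx B c N m') : m = m' := by
  have h1 : ∀ j, j ≠ c → m j = m' j := fun j hj => by
    rw [← fx_ne B N m hj, ← fx_ne B N m' hj, hm]
  have h2 := congrArg (fun f => f c) hm
  simp only [fx_zero] at h2
  rw [← Finset.add_sum_erase B _ hB] at h h' h2
  rw [← Finset.add_sum_erase B (fun b => m' b) hB] at h2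
  have h3 : ∑ b ∈ B.erase c, m b = ∑ b ∈ B.erase c, m' b :=
    Finset.sum_congr rfl fun b hb => h1 b (Finset.ne_of_mem_erase hb)
  rw [h3] at h h2
  ext i
  by_cases hi : i = c
  · subst hi
    omega
  · exact h1 i hi

variable (B)

/-- the degree in the variables of `B` -/
noncomputable def degB (P : MvPolynomial (Fin (n + 1)) k) : ℕ := P.support.sup fun m => ∑ b ∈ B, m b

variable {B}

theorem sum_le_degB {P : MvPolynomial (Fin (n + 1)) k} {m : Fin (n + 1) →₀ ℕ}
    (hm : m ∈ P.support) : ∑ b ∈ B, m b ≤ degB B P :=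
  Finset.le_sup (f := fun m : Fin (n + 1) →₀ ℕ => ∑ b ∈ B, m b) hm

variable (B c)

/-- the polynomial in the new coordinates -/
noncomputable def fp (N : ℕ) (P : MvPolynomial (Fin (n + 1)) k) : MvPolynomial (Fin (n + 1)) k :=
  ∑ m ∈ P.support, monomial (fx B c N m) (coeff m P)

variable {B c}

theorem coeff_fp (hB : c ∈ B) {N : ℕ} {P : MvPolynomial (Fin (n + 1)) k} (hN : degB B P ≤ N)
    {m : Fin (n + 1) →₀ ℕ} (hm : m ∈ P.support) : coeff (fx B c N m) (fp B c N P) = coeff m P := by
  classical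
  unfold fp
  rw [coeff_sum, Finset.sum_eq_single m]
  · rw [coeff_monomial, if_pos rfl]
  · intro m' hm' hne
    rw [coeff_monomial, if_neg]
    intro h
    exact hne (fx_inj hB ((sum_le_degB hm').trans hN) ((sum_le_degB hm).trans hN) h)
  · intro h
    exact absurd hm h

theorem fp_ne (hB : c ∈ B) {N : ℕ} {P : MvPolynomial (Fin (n + 1)) k} (hN : degB B P ≤ N)
    (hP : P ≠ 0) : fp B c N P ≠ 0 := by
  obtain ⟨m, hm⟩ := support_nonempty.2 hP
  intro h0
  have h1 := coeff_fp hB hN hm
  rw [h0, coeff_zero] at h1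
  exact (mem_support_iff.1 hm) h1.symm

/-- the new coordinates -/
structure Flip (B : Finset (Fin (n + 1))) (c : Fin (n + 1)) (U V : Fin (n + 1) → F) : Prop where
  zero : V c = (U c)⁻¹
  mem : ∀ j ∈ B, j ≠ c → V j = U j / U c
  not_mem : ∀ j, j ∉ B → V j = U j

theorem aeval_fp (hB : c ∈ B) {U V : Fin (n + 1) → F} (hU : U c ≠ 0) (hV : Flip B c U V) {N : ℕ}
    {P : MvPolynomial (Fin (n + 1)) k} (hN : degB B P ≤ N) :
    aeval V P * U c ^ N = aeval U (fp B c N P) := by
  classical
  unfold fp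
  rw [map_sum, aeval_def, eval₂_eq', Finset.sum_mul]
  refine Finset.sum_congr rfl fun m hm => ?_
  rw [aeval_monomial, mul_assoc]
  congr 1
  rw [Finsupp.prod_fintype _ _ fun i => pow_zero _]
  have h1 : ∀ i, V i ^ m i = (if i = c then 1 else U i ^ m i) *
      (if i ∈ B then (U c)⁻¹ ^ m i else 1) := by
    intro i
    by_cases hi : i = c
    · subst hi
      rw [if_pos rfl, if_pos hB, hV.zero, one_mul]
    · rw [if_neg hi]
      by_cases hiB : i ∈ B
      · rw [if_pos hiB, hV.mem i hiB hi, div_eq_mul_inv, mul_pow]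
      · rw [if_neg hiB, hV.not_mem i hiB, mul_one]
  have h2 : ∀ i, U i ^ (fx B c N m) i = (if i = c then U c ^ (N - ∑ b ∈ B, m b) else 1) *
      (if i = c then 1 else U i ^ m i) := by
    intro i
    by_cases hi : i = c
    · subst hi
      rw [if_pos rfl, if_pos rfl, fx_zero, mul_one]
    · rw [if_neg hi, if_neg hi, fx_ne B N m hi, one_mul]
  rw [Finset.prod_congr rfl fun i _ => h1 i, Finset.prod_congr rfl fun i _ => h2 i,
    Finset.prod_mul_distrib, Finset.prod_mul_distrib]
  have h3 : ∏ i, (if i ∈ B then (U c)⁻¹ ^ m i else 1) = (U c)⁻¹ ^ (∑ b ∈ B, m b) := by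
    rw [← Finset.prod_pow_eq_pow_sum, Finset.prod_ite_mem, Finset.univ_inter]
  have h4 : ∏ i : Fin (n + 1), (if i = c then U c ^ (N - ∑ b ∈ B, m b) else 1) =
      U c ^ (N - ∑ b ∈ B, m b) := by
    rw [Finset.prod_ite_eq' Finset.univ c, if_pos (Finset.mem_univ _)]
  rw [h3, h4]
  have h5 : ∑ b ∈ B, m b ≤ N := (sum_le_degB hm).trans hN
  obtain ⟨a, ha⟩ : ∃ a, N = a + ∑ b ∈ B, m b := ⟨N - ∑ b ∈ B, m b, by omega⟩
  have h6 : N - ∑ b ∈ B, m b = a := by omega
  rw [h6, ha, inv_pow, pow_add]
  field_simp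

theorem Flip.symm {X X' : Fin (n + 1) → F} (hX0 : X c ≠ 0) (h : Flip B c X X') :
    Flip B c X' X := by
  refine ⟨by rw [h.zero, inv_inv], fun j hj hj0 => ?_, fun j hj => (h.not_mem j hj).symm⟩
  rw [h.mem j hj hj0, h.zero]
  field_simp

theorem flip_gens (hB : c ∈ B) {X X' : Fin (n + 1) → F} (h : Gens (k := k) X)
    (hf : Flip B c X X') :
    Gens (k := k) X' := by
  have hX0 : X c ≠ 0 := by
    have := h.ne (X_ne_zero (R := k) c)
    rwa [aeval_X] at this
  have hX'0 : X' c ≠ 0 := by
    rw [hf.zero]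
    exact inv_ne_zero hX0
  have hf' := hf.symm hX0
  refine ⟨?_, fun z => ?_⟩
  · refine (injective_iff_map_eq_zero _).2 fun R hR => ?_
    by_contra hR0
    have h2 := aeval_fp hB hX0 hf (le_refl (degB B R))
    rw [hR, zero_mul] at h2
    exact h.ne (fp_ne hB le_rfl hR0) h2.symm
  · obtain ⟨P, Q, hQ, hz⟩ := h.gen z
    have h2 := aeval_fp hB hX'0 hf' (le_max_left (degB B P) (degB B Q))
    have h3 := aeval_fp hB hX'0 hf' (le_max_right (degB B P) (degB B Q))
    refine ⟨fp B c (max (degB B P) (degB B Q)) P, fp B c (max (degB B P) (degB B Q)) Q,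
      fp_ne hB (le_max_right (degB B P) (degB B Q)) hQ, ?_⟩
    rw [← h2, ← h3, mul_div_mul_right _ _ (pow_ne_zero _ hX'0)]
    exact hz

/-- the degree place -/
theorem ord_deg (hB : c ∈ B) {X X' : Fin (n + 1) → F} (h : Gens (k := k) X) (hf : Flip B c X X')
    {v : Place k F} (hv1 : v.ord (X' c) = 1)
    (hv : ∀ P : MvPolynomial (Fin (n + 1)) k, P ≠ 0 →
      0 ≤ v.ord (aeval X' P) ∧ (v.ord (aeval X' P) = 0 ↔ ¬ MvPolynomial.X c ∣ P))
    {P : MvPolynomial (Fin (n + 1)) k} (hP : P ≠ 0) :
    v.ord (aeval X P) = - (degB B P : ℤ) := by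
  classical
  have hX0 : X c ≠ 0 := by
    have := h.ne (X_ne_zero (R := k) c)
    rwa [aeval_X] at this
  have hX'0 : X' c ≠ 0 := by
    rw [hf.zero]
    exact inv_ne_zero hX0
  have hf' := hf.symm hX0
  have h2 := aeval_fp hB hX'0 hf' (le_refl (degB B P))
  have h3 : ¬ MvPolynomial.X c ∣ fp B c (degB B P) P := by
    rintro ⟨R, hR⟩
    obtain ⟨m, hm, hmd⟩ := Finset.exists_mem_eq_sup P.support
      (support_nonempty.2 hP) fun m => ∑ b ∈ B, m b
    have hmd' : degB B P = ∑ b ∈ B, m b := hmd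
    have h4 := coeff_fp hB le_rfl hm
    rw [hR, coeff_X_mul', if_neg] at h4
    · exact (mem_support_iff.1 hm) h4.symm
    · rw [Finsupp.notMem_support_iff, fx_zero, ← hmd']
      omega
  have h4 := (hv _ (fp_ne hB le_rfl hP)).2.2 h3
  rw [← h2, v.ord_mul (h.ne hP) (pow_ne_zero _ hX'0), v.ord_pow, hv1] at h4
  linarith

end

section

variable {k : Type} [Field k] [CharZero k] {K : Type} [Field K] [Algebra k K] {n : ℕ}

open scoped Classical in
/-- the matrix of the change of the coordinate vector fields -/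
noncomputable def mB (B : Finset (Fin (n + 1))) (c : Fin (n + 1)) (Z : Fin (n + 1) → K) :
    Matrix (Fin (n + 1)) (Fin (n + 1)) K :=
  Matrix.of fun i j => if i = c then (if j ∈ B then - (Z c * Z j) else 0) else
    if i = j then (if i ∈ B then Z c else 1) else 0

theorem det_mB0 {B : Finset (Fin (n + 1))} (hB : 0 ∈ B) (Z : Fin (n + 1) → K) :
    (mB B 0 Z).det = - Z 0 ^ (B.card + 1) := by
  classical
  rw [Matrix.det_of_isUpperTriangular]
  · rw [← Finset.mul_prod_erase Finset.univ _ (Finset.mem_univ (0 : Fin (n + 1)))]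
    have h1 : ∀ j ∈ Finset.univ.erase (0 : Fin (n + 1)), mB B 0 Z j j =
        if j ∈ B.erase 0 then Z 0 else 1 := by
      intro j hj
      have hj0 : j ≠ 0 := Finset.ne_of_mem_erase hj
      simp only [mB, Matrix.of_apply, if_neg hj0, if_true, Finset.mem_erase]
      by_cases hjB : j ∈ B
      · rw [if_pos hjB, if_pos ⟨hj0, hjB⟩]
      · rw [if_neg hjB, if_neg fun h => hjB h.2]
    rw [Finset.prod_congr rfl h1, Finset.prod_ite_mem, Finset.prod_const]
    have h2 : Finset.univ.erase (0 : Fin (n + 1)) ∩ B.erase 0 = B.erase 0 := by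
      ext j
      simp only [Finset.mem_inter, Finset.mem_erase, Finset.mem_univ]
      tauto
    rw [h2, Finset.card_erase_of_mem hB]
    have h3 : mB B 0 Z 0 0 = - (Z 0 * Z 0) := by
      simp [mB, hB]
    rw [h3]
    have h4 : 1 ≤ B.card := Finset.card_pos.2 ⟨0, hB⟩
    obtain ⟨c, hc⟩ : ∃ c, B.card = c + 1 := ⟨B.card - 1, by omega⟩
    rw [hc, Nat.add_sub_cancel]
    ring
  · intro i j hij
    have hij' : j < i := hij
    have h1 : i ≠ 0 := by
      rintro rfl
      exact absurd hij' (Fin.not_lt_zero _)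
    simp only [mB, Matrix.of_apply, if_neg h1, if_neg (ne_of_gt hij')]

theorem det_mB {B : Finset (Fin (n + 1))} {c : Fin (n + 1)} (hB : c ∈ B)
    (Z : Fin (n + 1) → K) : (mB B c Z).det = - Z c ^ (B.card + 1) := by
  classical
  obtain ⟨σ, hσ⟩ : ∃ σ : Equiv.Perm (Fin (n + 1)), σ 0 = c := ⟨Equiv.swap 0 c, by simp⟩
  have h0 : (0 : Fin (n + 1)) ∈ B.map σ.symm.toEmbedding := by
    rw [Finset.mem_map]
    exact ⟨c, hB, by
      change σ.symm c = 0
      rw [← hσ, Equiv.symm_apply_apply]⟩
  have h1 : (mB B c Z).submatrix σ σ = mB (B.map σ.symm.toEmbedding) 0 (fun i => Z (σ i)) := by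
    have hi0 : ∀ i, σ i = c ↔ i = 0 := by
      intro i
      rw [← hσ]
      exact σ.injective.eq_iff
    have hmem : ∀ i, σ i ∈ B ↔ i ∈ B.map σ.symm.toEmbedding := by
      intro i
      rw [Finset.mem_map]
      constructor
      · intro h
        exact ⟨σ i, h, by
          change σ.symm (σ i) = i
          exact σ.symm_apply_apply i⟩
      · rintro ⟨a, ha, hai⟩
        have h2 : σ.symm a = i := hai
        rw [← h2, Equiv.apply_symm_apply]
        exact ha
    ext i j
    simp only [Matrix.submatrix_apply, mB, Matrix.of_apply, hi0, hmem, σ.injective.eq_iff, hσ]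
  rw [← Matrix.det_submatrix_equiv_self σ, h1, det_mB0 h0, Finset.card_map, hσ]

theorem dual_mB {B : Finset (Fin (n + 1))} {c : Fin (n + 1)} (hB : c ∈ B)
    {Z Z' : Fin (n + 1) → K} (hZ0 : Z c ≠ 0) (hf : Flip B c Z Z') {D : Fin (n + 1) → Derivation k K K}
    (hD : ∀ i j, D i (Z j) = if i = j then 1 else 0) (i j : Fin (n + 1)) :
    (∑ b, mB B c Z i b • D b) (Z' j) = if i = j then 1 else 0 := by
  classical
  have hs : (∑ b, mB B c Z i b • D b) (Z' j) = ∑ b, mB B c Z i b * D b (Z' j) := by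
    have hg : ∀ s : Finset (Fin (n + 1)), (∑ b ∈ s, mB B c Z i b • D b) (Z' j) =
        ∑ b ∈ s, mB B c Z i b * D b (Z' j) := by
      intro s
      induction s using Finset.induction_on with
      | empty => simp
      | insert a s ha ih =>
        rw [Finset.sum_insert ha, Finset.sum_insert ha, Derivation.add_apply, ih,
          Derivation.smul_apply, smul_eq_mul]
    exact hg _
  have hD0 : ∀ b, D b (Z' c) = if b = c then - (Z c ^ 2)⁻¹ else 0 := by
    intro b
    rw [hf.zero, (D b).leibniz_inv, hD]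
    by_cases hb : b = c
    · rw [if_pos hb, if_pos hb]
      simp
    · rw [if_neg hb, if_neg hb]
      simp
  have hDs : ∀ b, ∀ l ∈ B, l ≠ c → D b (Z' l) =
      (if b = l then (Z c)⁻¹ else 0) + (if b = c then - (Z l * (Z c ^ 2)⁻¹) else 0) := by
    intro b l hl hl0
    rw [hf.mem l hl hl0, div_eq_mul_inv, (D b).leibniz, ← hf.zero, hD0, hD, smul_eq_mul,
      smul_eq_mul, hf.zero]
    by_cases hb : b = l
    · rw [if_pos hb, if_pos hb]
      by_cases hb0 : b = c
      · rw [if_pos hb0, if_pos hb0]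
        ring
      · rw [if_neg hb0, if_neg hb0]
        ring
    · rw [if_neg hb, if_neg hb]
      by_cases hb0 : b = c
      · rw [if_pos hb0, if_pos hb0]
        ring
      · rw [if_neg hb0, if_neg hb0]
        ring
  have hDn : ∀ b, ∀ l, l ∉ B → D b (Z' l) = if b = l then 1 else 0 := by
    intro b l hl
    rw [hf.not_mem l hl, hD]
  have hrow0 : ∀ b, mB B c Z c b = if b ∈ B then - (Z c * Z b) else 0 := by
    intro b
    simp [mB]
  have hrow : ∀ i, i ≠ c → ∀ b, mB B c Z i b = if b = i then (if i ∈ B then Z c else 1) else 0 := by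
    intro i hi b
    simp only [mB, Matrix.of_apply, if_neg hi]
    by_cases hb : i = b
    · rw [if_pos hb, if_pos hb.symm]
    · rw [if_neg hb, if_neg fun h => hb h.symm]
  rw [hs]
  clear hs
  by_cases hi : i = c
  · rw [hi]
    simp only [hrow0]
    by_cases hj : j = c
    · rw [hj]
      simp only [hD0, mul_ite, mul_zero]
      rw [Finset.sum_ite_eq' Finset.univ c, if_pos (Finset.mem_univ _), if_pos hB,
        if_pos trivial]
      field_simp
    · rw [if_neg (Ne.symm hj)]
      by_cases hjB : j ∈ B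
      · simp only [hDs _ j hjB hj, mul_add, mul_ite, mul_zero]
        rw [Finset.sum_add_distrib, Finset.sum_ite_eq' Finset.univ j,
          Finset.sum_ite_eq' Finset.univ c, if_pos (Finset.mem_univ _),
          if_pos (Finset.mem_univ _), if_pos hjB, if_pos hB]
        field_simp
        ring
      · simp only [hDn _ j hjB, mul_ite, mul_zero]
        rw [Finset.sum_ite_eq' Finset.univ j, if_pos (Finset.mem_univ _), if_neg hjB]
        ring
  · simp only [hrow i hi, ite_mul, zero_mul]
    rw [Finset.sum_ite_eq' Finset.univ i, if_pos (Finset.mem_univ _)]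
    by_cases hj : j = c
    · rw [hj, hD0, if_neg hi, if_neg hi]
      by_cases hiB : i ∈ B
      · rw [if_pos hiB, mul_zero]
      · rw [if_neg hiB, mul_zero]
    · by_cases hjB : j ∈ B
      · rw [hDs i j hjB hj, if_neg hi, add_zero]
        by_cases hij : i = j
        · subst hij
          rw [if_pos hjB, if_pos rfl, if_pos rfl]
          field_simp
        · rw [if_neg hij, if_neg hij]
          by_cases hiB : i ∈ B
          · rw [if_pos hiB, mul_zero]
          · rw [if_neg hiB, mul_zero]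
      · rw [hDn i j hjB]
        by_cases hij : i = j
        · subst hij
          rw [if_neg hjB, if_pos rfl, mul_one]
        · rw [if_neg hij]
          by_cases hiB : i ∈ B
          · rw [if_pos hiB, mul_zero]
          · rw [if_neg hiB, mul_zero]

end

end Pool.Agent.TH756.PN
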