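import Pool.Agent.TH122.AB.Fd
import Pool.Agent.TH756.PN.Inf

/-!
Spaces of functions with bounded poles: a bound for the dimension which takes the degrees in the
single variables into account (following `Pool.Agent.TH122.AB.Fd`).
-/

set_option autoImplicit false
set_option linter.overlappingInstances false
set_option linter.unusedSectionVars false

open FF MvPolynomial IntermediateField Pool.Agent.W603.LV Pool.Agent.W619.PQ
open Pool.Agent.TH122.AB

namespace Pool.Agent.TH756.PN

section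

variable {k K : Type} [Field k] [CharZero k] [Field K] [Algebra k K] {d : ℕ}

/-- the span of the monomials with bounded exponents -/
noncomputable def Wsp (Z : Fin (d + 1) → K) (E : Fin (d + 1) → ℕ) : Submodule k K :=
  Submodule.span k (Set.range fun m : (∀ b : Fin (d + 1), Fin (E b + 1)) => ∏ b, Z b ^ (m b : ℕ))

theorem finrank_Wsp (Z : Fin (d + 1) → K) (E : Fin (d + 1) → ℕ) :
    Module.finrank k (Wsp (k := k) Z E) ≤ ∏ b, (E b + 1) := by
  classical
  refine (finrank_range_le_card _).trans (le_of_eq ?_)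
  rw [Fintype.card_pi]
  exact Finset.prod_congr rfl fun b _ => Fintype.card_fin _

instance finite_Wsp (Z : Fin (d + 1) → K) (E : Fin (d + 1) → ℕ) :
    FiniteDimensional k (Wsp (k := k) Z E) :=
  FiniteDimensional.span_of_finite k (Set.finite_range _)

theorem mem_Wsp (Z : Fin (d + 1) → K) (E : Fin (d + 1) → ℕ) {P : MvPolynomial (Fin (d + 1)) k}
    (hP : ∀ m ∈ P.support, ∀ b, m b ≤ E b) : aeval Z P ∈ Wsp (k := k) Z E := by
  classical
  rw [aeval_def, eval₂_eq']
  refine Submodule.sum_mem _ fun m hm => ?_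
  rw [← Algebra.smul_def]
  refine Submodule.smul_mem _ _ (Submodule.subset_span ?_)
  exact ⟨fun b => ⟨m b, by have := hP m hm b; omega⟩, rfl⟩

theorem fin_bound (G : Subgroup (K ≃ₐ[k] K)) [Finite G] {X : Fin (d + 1) → fixedField G}
    (hX : Gens (k := k) X) (hZ : IsTranscendenceBasis k fun j => (X j : K))
    {ι : Type} [Fintype ι] (B : ι → Finset (Fin (d + 1)))
    {v0 : ι → Place k (fixedField G)}
    (hv0 : ∀ t, ∀ P : MvPolynomial (Fin (d + 1)) k, P ≠ 0 →
      (v0 t).ord (aeval X P) = - (degB (B t) P : ℤ))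
    {w0 : ι → Place k K} {e0 : ι → ℕ} (h0 : ∀ t, Over (w0 t) (v0 t) (e0 t))
    (τ : Fin (d + 1) → ι) (hτ : ∀ b, b ∈ B (τ b)) (S : Finset K) :
    ∃ C c : ℕ, ∀ (D : ι → ℕ) (N : ℕ) (f : Fin N → K), LinearIndependent k f →
      (∀ l, Fine G X S (f l)) → (∀ l t, ∀ g ∈ G, Ge (w0 t) (- (D t : ℤ)) (g (f l))) →
        N ≤ C * ∏ b, (D (τ b) + c) := by
  classical
  have hGal : IsGaloisGroup G (fixedField G) K := isGaloisGroup_fixed G
  have hfd : FiniteDimensional (fixedField G) K := IsGaloisGroup.finiteDimensional G _ K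
  have hfix : ∀ g ∈ G, ∀ z : fixedField G, g (z : K) = z := fun g hg z => z.2 ⟨g, hg⟩
  have hcK : CharZero K := charZero_of_injective_algebraMap (algebraMap k K).injective
  let Z : Fin (d + 1) → K := fun j => (X j : K)
  have hXZ : ∀ P : MvPolynomial (Fin (d + 1)) k, ((aeval X P : fixedField G) : K) = aeval Z P := by
    intro P
    exact (MvPolynomial.aeval_algebraMap_apply K X P).symm
  let b := Module.finBasis (fixedField G) K
  let δ := Module.finrank (fixedField G) K
  -- a common denominator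
  obtain ⟨Q, hQ0, hQS, hQb⟩ : ∃ Q : MvPolynomial (Fin (d + 1)) k, Q ≠ 0 ∧
      (∀ s ∈ S, ∀ g ∈ G, ∀ w : Place k K, (∀ P : MvPolynomial (Fin (d + 1)) k, w.Reg (aeval Z P)) →
        w.Reg (aeval Z Q * g s)) ∧
      (∀ i, ∀ g ∈ G, ∀ w : Place k K, (∀ P : MvPolynomial (Fin (d + 1)) k, w.Reg (aeval Z P)) →
        w.Reg (aeval Z Q * g (b i))) := by
    have hGfin : (G : Set (K ≃ₐ[k] K)).Finite := Set.toFinite _
    let T : Finset K := (hGfin.toFinset.biUnion fun g => S.image fun s => g s) ∪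
      (hGfin.toFinset.biUnion fun g => Finset.univ.image fun i => g (b i))
    choose q hq0 hq using fun z : K => exists_mult hZ z
    have hmain : ∀ z ∈ T, ∀ w : Place k K, (∀ P : MvPolynomial (Fin (d + 1)) k, w.Reg (aeval Z P)) →
        w.Reg (aeval Z (∏ t ∈ T, q t) * z) := by
      intro z hz w hw
      rw [← Finset.mul_prod_erase T q hz, map_mul, mul_comm (aeval Z (q z)), mul_assoc]
      exact w.reg_mul (hw _) (reg_of_int hw (hq z))
    refine ⟨∏ t ∈ T, q t, Finset.prod_ne_zero_iff.2 fun t _ => hq0 t, ?_, ?_⟩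
    · intro s hs g hg w hw
      refine hmain _ ?_ w hw
      refine Finset.mem_union_left _ (Finset.mem_biUnion.2 ⟨g, by simpa using hg, ?_⟩)
      exact Finset.mem_image_of_mem _ hs
    · intro i g hg w hw
      refine hmain _ ?_ w hw
      refine Finset.mem_union_right _ (Finset.mem_biUnion.2 ⟨g, by simpa using hg, ?_⟩)
      exact Finset.mem_image_of_mem _ (Finset.mem_univ i)
  have hQK : aeval Z Q ≠ 0 := by
    rw [← hXZ]
    have := hX.ne hQ0
    simpa using this
  have hgQ : ∀ g ∈ G, g (aeval Z Q) = aeval Z Q := by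
    intro g hg
    rw [← hXZ]
    exact hfix g hg _
  -- the trace
  let _ : Fintype G := Fintype.ofFinite G
  let Tr : K →ₗ[k] K :=
    { toFun := fun z => ∑ g : G, (g : K ≃ₐ[k] K) z
      map_add' := by
        intro a b
        simp only [map_add, Finset.sum_add_distrib]
      map_smul' := by
        intro c a
        rw [RingHom.id_apply, Finset.smul_sum]
        refine Finset.sum_congr rfl fun g _ => ?_
        rw [Algebra.smul_def, Algebra.smul_def, map_mul, AlgEquiv.commutes] }
  have hTr : ∀ z, Tr z = ∑ g : G, (g : K ≃ₐ[k] K) z := fun z => rfl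
  have hTrfix : ∀ z, Tr z ∈ fixedField G := by
    intro z g
    change (g : K ≃ₐ[k] K) (Tr z) = Tr z
    rw [hTr, map_sum]
    exact Fintype.sum_equiv (Equiv.mulLeft g) _ _ fun h => rfl
  have hTrlin : ∀ (c : fixedField G) z, Tr (z * c) = Tr z * c := by
    intro c z
    rw [hTr, hTr, Finset.sum_mul]
    refine Finset.sum_congr rfl fun g _ => ?_
    rw [map_mul, hfix g g.2 c]
  let Ψ : K →ₗ[k] (Fin δ → K) := LinearMap.pi fun i =>
    Tr.comp (LinearMap.mulRight k (aeval Z Q ^ 2 * b i))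
  have hΨ : ∀ f i, Ψ f i = Tr (f * (aeval Z Q ^ 2 * b i)) := fun f i => rfl
  have hΨinj : Function.Injective Ψ := by
    rw [← LinearMap.ker_eq_bot, LinearMap.ker_eq_bot']
    intro f hf
    by_contra hf0
    have h1 : ∀ z, Tr (f * (aeval Z Q ^ 2 * z)) = 0 := by
      intro z
      rw [← b.sum_repr z, Finset.mul_sum, Finset.mul_sum, map_sum]
      refine Finset.sum_eq_zero fun i _ => ?_
      have h2 : f * (aeval Z Q ^ 2 * (b.repr z i • b i)) =
          (f * (aeval Z Q ^ 2 * b i)) * (b.repr z i : fixedField G) := by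
        rw [Algebra.smul_def]
        change f * (aeval Z Q ^ 2 * ((b.repr z i : K) * b i)) = _
        ring
      rw [h2, hTrlin, ← hΨ, congrFun hf i]
      simp
    have h2 := h1 ((f * aeval Z Q ^ 2)⁻¹)
    have h3 : f * (aeval Z Q ^ 2 * (f * aeval Z Q ^ 2)⁻¹) = 1 := by
      field_simp
    rw [h3, hTr] at h2
    simp only [map_one, Finset.sum_const, Finset.card_univ, nsmul_eq_mul, mul_one] at h2
    have h4 : Fintype.card G ≠ 0 := Fintype.card_ne_zero
    exact h4 (by exact_mod_cast h2)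
  -- the bound at infinity
  obtain ⟨c0, hc0⟩ : ∃ c0 : ℕ, ∀ t i, ∀ g ∈ G, Ge (w0 t) (- (c0 : ℤ)) (g (aeval Z Q ^ 2 * b i)) := by
    have hGfin : (G : Set (K ≃ₐ[k] K)).Finite := Set.toFinite _
    let T : Finset K := hGfin.toFinset.biUnion fun g => Finset.univ.image fun i =>
      g (aeval Z Q ^ 2 * b i)
    refine ⟨(∑ t, ∑ z ∈ T, |(w0 t).ord z|).toNat, fun t i g hg => Or.inr ?_⟩
    have hz : g (aeval Z Q ^ 2 * b i) ∈ T := by
      refine Finset.mem_biUnion.2 ⟨g, by simpa using hg, ?_⟩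
      exact Finset.mem_image_of_mem _ (Finset.mem_univ i)
    have h1 : |(w0 t).ord (g (aeval Z Q ^ 2 * b i))| ≤ ∑ z ∈ T, |(w0 t).ord z| :=
      Finset.single_le_sum (f := fun z => |(w0 t).ord z|) (fun _ _ => abs_nonneg _) hz
    have h2 : ∑ z ∈ T, |(w0 t).ord z| ≤ ∑ t, ∑ z ∈ T, |(w0 t).ord z| :=
      Finset.single_le_sum (f := fun t => ∑ z ∈ T, |(w0 t).ord z|)
        (fun _ _ => Finset.sum_nonneg fun _ _ => abs_nonneg _) (Finset.mem_univ t)
    have h3 := neg_abs_le ((w0 t).ord (g (aeval Z Q ^ 2 * b i)))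
    have h4 := Int.self_le_toNat (∑ t, ∑ z ∈ T, |(w0 t).ord z|)
    linarith
  refine ⟨δ, c0 + 1, fun D N f hf hfine hinf => ?_⟩
  let W : Submodule k K := Wsp Z fun b => D (τ b) + c0
  have hmem : ∀ l i, Ψ (f l) i ∈ W := by
    intro l i
    rw [hΨ]
    obtain ⟨t, ht⟩ : ∃ t : fixedField G, (t : K) = Tr (f l * (aeval Z Q ^ 2 * b i)) :=
      ⟨⟨_, hTrfix _⟩, rfl⟩
    have hreg : ∃ P : MvPolynomial (Fin (d + 1)) k, t = aeval X P := by
      refine poly_of_reg hX fun p hp v hv1 hv2 => ?_
      obtain ⟨w, e, hwv, hdom⟩ := hfine l p hp v hv1 hv2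
      have hwZ : ∀ P : MvPolynomial (Fin (d + 1)) k, w.Reg (aeval Z P) := by
        intro P
        rw [← hXZ]
        refine hwv.reg.2 ?_
        by_cases hP : P = 0
        · rw [hP, map_zero]
          exact v.reg_zero
        · exact Or.inr (hv2 P hP).1
      have h1 : w.Reg (t : K) := by
        rw [ht, hTr]
        refine Ge.sum _ _ fun g _ => ?_
        have h2 : (g : K ≃ₐ[k] K) (f l * (aeval Z Q ^ 2 * b i)) =
            (aeval Z Q * (g : K ≃ₐ[k] K) (f l)) * (aeval Z Q * (g : K ≃ₐ[k] K) (b i)) := by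
          rw [map_mul, map_mul, map_pow, hgQ g g.2]
          ring
        rw [h2]
        refine w.reg_mul ?_ (hQb i g g.2 w hwZ)
        rcases hdom g g.2 with h3 | ⟨s, hs, hs0, hle⟩
        · rw [h3, map_zero, mul_zero]
          exact w.reg_zero
        · by_cases hf0 : f l = 0
          · rw [hf0, map_zero, mul_zero]
            exact w.reg_zero
          have hgf : (g : K ≃ₐ[k] K) (f l) ≠ 0 := by simpa using hf0
          have hgs : (g : K ≃ₐ[k] K) s ≠ 0 := by simpa using hs0
          have h4 := (hQS s hs g g.2 w hwZ).resolve_left (mul_ne_zero hQK hgs)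
          right
          rw [w.ord_mul hQK hgf]
          rw [w.ord_mul hQK hgs] at h4
          linarith
      exact hwv.reg.1 h1
    obtain ⟨P, hP⟩ := hreg
    rw [← ht, hP, hXZ]
    refine mem_Wsp Z _ fun m hm b' => ?_
    have hP0 : P ≠ 0 := by
      rintro rfl
      simp at hm
    have h1 : Ge (w0 (τ b')) (- (D (τ b') : ℤ) + - (c0 : ℤ)) (t : K) := by
      rw [ht, hTr]
      refine Ge.sum _ _ fun g _ => ?_
      rw [map_mul]
      exact (hinf l _ g g.2).mul (hc0 _ i g g.2)
    have ht0 : (t : K) ≠ 0 := by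
      rw [hP]
      have := hX.ne hP0
      simpa using this
    have h2 := h1.resolve_left ht0
    have h3 : (w0 (τ b')).ord (t : K) = e0 (τ b') * (v0 (τ b')).ord t := (h0 _).2 t
    rw [h3, hP, hv0 _ P hP0] at h2
    have he : 0 < e0 (τ b') := (h0 _).1
    have h4 : ((degB (B (τ b')) P : ℕ) : ℤ) ≤ e0 (τ b') * (degB (B (τ b')) P : ℤ) := by
      have h5 : (1 : ℤ) ≤ e0 (τ b') := by exact_mod_cast he
      nlinarith [Int.natCast_nonneg (degB (B (τ b')) P)]
    have h5 : ((degB (B (τ b')) P : ℕ) : ℤ) ≤ D (τ b') + c0 := by linarith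
    have h6 : degB (B (τ b')) P ≤ D (τ b') + c0 := by exact_mod_cast h5
    have h7 : m b' ≤ ∑ b ∈ B (τ b'), m b := Finset.single_le_sum (fun _ _ => Nat.zero_le _) (hτ b')
    exact h7.trans ((sum_le_degB hm).trans h6)
  have hlin : LinearIndependent k fun l => (fun i => ⟨Ψ (f l) i, hmem l i⟩ : Fin δ → W) := by
    have h1 : LinearIndependent k (Ψ ∘ f) := hf.map' Ψ (LinearMap.ker_eq_bot.2 hΨinj)
    exact LinearIndependent.of_comp (W.subtype.compLeft (Fin δ)) h1
  have h1 := hlin.fintype_card_le_finrank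
  rw [Fintype.card_fin, Module.finrank_pi_fintype, Finset.sum_const, Finset.card_univ,
    Fintype.card_fin, smul_eq_mul] at h1
  exact h1.trans (Nat.mul_le_mul_left _ (finrank_Wsp Z _))

end

end Pool.Agent.TH756.PN
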