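import Pool.Agent.TH756.PN.LinW

/-!
Abundance for pairs on finite covers of a product of projective spaces.
-/

set_option autoImplicit false
set_option linter.overlappingInstances false
set_option linter.unusedSectionVars false

open FF IntermediateField Pool.Agent.W603.LV Pool.Agent.W602.GT Pool.Agent.W602.Cov
open Pool.Agent.W602.Cov.G Pool.Agent.TH152.AC Pool.Agent.W619.PQ
open Pool.Agent.TH122.AB Pool.Agent.TH756.AR Pool.Agent.TH756.PR
open MvPolynomial Module

namespace Pool.Agent.TH756.PN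

section weights

variable {n q : ℕ} {ℓ : Fin q → Form n}

/-- there are weights on the bases for the bound `g` -/
def Wtd (ℓ : Fin q → Form n) (g : (Fin q → ℕ) → ℚ) : Prop :=
  ∃ p : Bases ℓ → ℕ, 0 < ∑ B, p B ∧ Hp ℓ p g

theorem Wtd.span {g : (Fin q → ℕ) → ℚ} (h : Wtd ℓ g) :
    Submodule.span ℂ (Set.range ℓ) = ⊤ := by
  obtain ⟨p, hp, -⟩ := h
  obtain ⟨B, -, -⟩ := Finset.exists_ne_zero_of_sum_ne_zero hp.ne'
  rw [eq_top_iff, ← (bas B).span_eq]
  apply Submodule.span_mono
  rintro _ ⟨a, rfl⟩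
  rw [bas_apply]
  exact ⟨_, rfl⟩

/-- the largest multiplicity divided by `d` -/
noncomputable def mx (d : ℕ) (v : Fin q → ℕ) : ℚ := ((Finset.univ.sup v : ℕ) : ℚ) / d

theorem wtd_slack {d : ℕ} (hd : 1 ≤ d) (h : Slack ℓ d) (hspan : Submodule.span ℂ (Set.range ℓ) = ⊤) :
    Wtd ℓ (mx d) := by
  obtain ⟨p, hp0, hp⟩ := h
  have hne := exists_bases hspan
  refine ⟨p, hp0, fun v hsp => ?_⟩
  obtain ⟨B', hB'⟩ := ordersD d p hp hne v hsp
  obtain ⟨B0⟩ := hne
  obtain ⟨k, -, hk⟩ := Finset.exists_mem_eq_sup Finset.univ ⟨B0.1 0, Finset.mem_univ _⟩ v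
  refine ⟨B', ?_⟩
  have h1 := hB' k
  have h2 : (d : ℚ) * (∑ B, (p B : ℚ) * ∑ a, (v (B.1 a) : ℚ)) + (∑ B, (p B : ℚ)) * v k ≤
      (d : ℚ) * ((∑ B, (p B : ℚ)) * ∑ a, (v (B'.1 a) : ℚ)) := by exact_mod_cast h1
  have hdq : (0 : ℚ) < d := by exact_mod_cast hd
  unfold mx
  rw [hk, mul_div_assoc', div_add' _ _ _ hdq.ne', div_le_iff₀ hdq]
  linarith

/-- `w` is a rational convex combination of bases -/
def BasePt (ℓ : Fin q → Form n) (w : Fin q → ℚ) : Prop :=
  ∃ p : Bases ℓ → ℕ, 0 < ∑ B, p B ∧ ∀ k, (∑ B, (p B : ℚ)) * w k =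
    ∑ B, (p B : ℚ) * ((Finset.univ.filter fun a => B.1 a = k).card : ℚ)

/-- the log discrepancy -/
noncomputable def disc (ℓ : Fin q → Form n) (w : Fin q → ℚ) (v : Fin q → ℕ) : ℚ :=
  ((Finset.univ.sup fun B : Bases ℓ => ∑ a, v (B.1 a) : ℕ) : ℚ) - ∑ k, w k * v k

theorem sum_base (p : Bases ℓ → ℕ) {w : Fin q → ℚ} (hw : ∀ k, (∑ B, (p B : ℚ)) * w k =
    ∑ B, (p B : ℚ) * ((Finset.univ.filter fun a => B.1 a = k).card : ℚ)) (v : Fin q → ℚ) :
    (∑ B, (p B : ℚ)) * ∑ k, w k * v k = ∑ B, (p B : ℚ) * ∑ a, v (B.1 a) := by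
  classical
  rw [Finset.mul_sum]
  have h1 : ∀ k, (∑ B, (p B : ℚ)) * (w k * v k) =
      ∑ B, (p B : ℚ) * (((Finset.univ.filter fun a => B.1 a = k).card : ℚ) * v k) := by
    intro k
    rw [← mul_assoc, hw k, Finset.sum_mul]
    exact Finset.sum_congr rfl fun B _ => by ring
  rw [Finset.sum_congr rfl fun k _ => h1 k, Finset.sum_comm]
  refine Finset.sum_congr rfl fun B _ => ?_
  rw [← Finset.mul_sum]
  congr 1
  rw [← Finset.sum_fiberwise Finset.univ B.1 fun a => v (B.1 a)]
  refine Finset.sum_congr rfl fun k _ => ?_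
  rw [Finset.sum_congr rfl (g := fun _ => v k) fun a ha => by rw [(Finset.mem_filter.1 ha).2],
    Finset.sum_const, nsmul_eq_mul]

theorem BasePt.wtd {w : Fin q → ℚ} (h : BasePt ℓ w) : Wtd ℓ (disc ℓ w) := by
  classical
  obtain ⟨p, hp0, hw⟩ := h
  refine ⟨p, hp0, fun v _ => ?_⟩
  obtain ⟨B0, -, -⟩ := Finset.exists_ne_zero_of_sum_ne_zero hp0.ne'
  obtain ⟨B', -, hB'⟩ := Finset.exists_mem_eq_sup Finset.univ ⟨B0, Finset.mem_univ _⟩
    fun B : Bases ℓ => ∑ a, v (B.1 a)
  refine ⟨B', le_of_eq ?_⟩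
  unfold disc
  rw [hB', mul_sub, sum_base p hw fun k => (v k : ℚ)]
  push_cast
  ring

theorem BasePt.nonneg {w : Fin q → ℚ} (h : BasePt ℓ w) (k : Fin q) : 0 ≤ w k := by
  obtain ⟨p, hp0, hw⟩ := h
  have h1 : (0 : ℚ) < ∑ B, (p B : ℚ) := by exact_mod_cast hp0
  have h2 : 0 ≤ (∑ B, (p B : ℚ)) * w k := by
    rw [hw k]
    positivity
  exact nonneg_of_mul_nonneg_right h2 h1

theorem BasePt.sum {w : Fin q → ℚ} (h : BasePt ℓ w) : ∑ k, w k = (n : ℚ) + 1 := by
  obtain ⟨p, hp0, hw⟩ := h
  have h1 : (0 : ℚ) < ∑ B, (p B : ℚ) := by exact_mod_cast hp0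
  have h2 := sum_base p hw fun _ => 1
  simp only [mul_one, Finset.sum_const, Finset.card_univ, Fintype.card_fin, nsmul_eq_mul] at h2
  rw [← Finset.sum_mul] at h2
  have h3 := mul_left_cancel₀ h1.ne' h2
  rw [h3]
  push_cast
  ring

end weights

section

variable {r : ℕ} {n q : Fin r → ℕ} {ℓ : ∀ i, Fin (q i) → Form (n i)} {K : Type} [Field K]
  [Algebra ℂ K] {x : ∀ i, Fin (n i + 1) → K}

/-- the degree in the variables of the `i`-th factor -/
def degI (i : Fin r) (f : MvPolynomial ((i : Fin r) × Fin (n i)) ℂ) : ℕ :=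
  f.support.sup fun m => ∑ j : Fin (n i), m ⟨i, j⟩

/-- `P` lies over a prime divisor of the product, with ramification index `m` -/
def LiesOver (x : ∀ i, Fin (n i + 1) → K) (P : Place ℂ K) (m : ℕ) : Prop :=
  (∃ p : MvPolynomial ((i : Fin r) × Fin (n i)) ℂ, Irreducible p ∧
    P.ord (aeval (aff x) p) = m ∧ ∀ f, f ≠ 0 → 0 ≤ P.ord (aeval (aff x) f) ∧
      (P.ord (aeval (aff x) f) = 0 ↔ ¬ p ∣ f)) ∨
  (0 < m ∧ ∃ i, ∀ f, f ≠ 0 → P.ord (aeval (aff x) f) = - ((m : ℤ) * (degI i f : ℤ)))

theorem degI_rename {N : ℕ} (e : ((i : Fin r) × Fin (n i)) ≃ Fin (N + 1)) (i : Fin r)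
    (f : MvPolynomial (Fin (N + 1)) ℂ) : degI i (rename e.symm f) = degB (bk e i) f := by
  classical
  unfold degI degB
  rw [support_rename_of_injective e.symm.injective, Finset.sup_image]
  congr 1
  funext m
  change ∑ j : Fin (n i), Finsupp.mapDomain e.symm m ⟨i, j⟩ = _
  have h1 : ∀ j : Fin (n i), Finsupp.mapDomain e.symm m ⟨i, j⟩ = m (e ⟨i, j⟩) := by
    intro j
    have h2 := Finsupp.mapDomain_apply e.symm.injective m (e ⟨i, j⟩)
    rwa [e.symm_apply_apply] at h2
  rw [Finset.sum_congr rfl fun j _ => h1 j]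
  have h3 : bk e i = (Finset.univ : Finset (Fin (n i))).map
      ⟨fun j => e ⟨i, j⟩, fun j j' h => by simpa using h⟩ := by
    ext b
    rw [mem_bk, Finset.mem_map]
    constructor
    · rintro rfl
      exact ⟨(e.symm b).2, Finset.mem_univ _, e.apply_symm_apply b⟩
    · rintro ⟨j, -, rfl⟩
      change (e.symm (e ⟨i, j⟩)).1 = i
      rw [e.symm_apply_apply]
  rw [h3, Finset.sum_map]
  rfl

/-- the Kodaira dimension of the pair is at least `h` -/
def KodP (K : Type) [Field K] [Algebra ℂ K] (N : ℕ) (V : Set (Place ℂ K)) (δ : Place ℂ K → ℝ)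
    (h : ℕ) : Prop :=
  ∃ T : ℕ, 0 < T ∧ ∃ ω : Fin (h + 1) → (Fin N → Derivation ℂ K K) → K,
    (∀ b, PSec N V δ T (ω b)) ∧
    ∃ D, ω 0 D ≠ 0 ∧ AlgebraicIndependent ℂ (fun b : Fin h => ω b.succ D / ω 0 D)

/-- **Abundance for pairs.** -/
theorem pairs_main {N : ℕ} (hr : 1 ≤ r) (hn : ∀ i, 1 ≤ n i) (hN : N = ∑ i, n i)
    (hℓ : ∀ i k, ℓ i k ≠ 0) (g : ∀ i, (Fin (q i) → ℕ) → ℚ) (hg : ∀ i, Wtd (ℓ i) (g i))
    (I : Finset (Fin r)) (k0 : ∀ i, Fin (q i)) (w : ∀ i, Fin (q i) → ℚ)
    (hw0 : ∀ i, i ∉ I → ∀ k, 0 ≤ w i k) (hw1 : ∀ i, i ∉ I → ∑ k, w i k = (n i : ℚ) + 1)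
    (F : Finset (MvPolynomial ((i : Fin r) × Fin (n i)) ℂ)) (hF0 : ∀ f ∈ F, f ≠ 0)
    (hF : ∀ f ∈ F, ∀ i, i ∉ I → degI i f = 0)
    (hx0 : ∀ i, x i 0 ≠ 0) (hbas : IsTranscendenceBasis ℂ (aff x))
    (hfd : FiniteDimensional (IntermediateField.adjoin ℂ (Set.range (aff x))) K)
    (V : Set (Place ℂ K)) (hV : ∀ f : K, f ≠ 0 → {P ∈ V | P.ord f ≠ 0}.Finite)
    (hVL : ∀ P m, LiesOver x P m → P ∈ V) (δ : Place ℂ K → ℝ) (hδ0 : ∀ P ∈ V, 0 ≤ δ P)
    (hδ1 : ∀ P ∈ V, δ P ≤ 1)
    (hlow : ∀ P ∈ V, Divisorial N P → ∀ (a : Fin r → ℤ) (v : ∀ i, Fin (q i) → ℕ), Nrm ℓ x P a v →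
      (∃ i, v i ≠ 0) → 1 - δ P ≤ ((∑ i, g i (v i) : ℚ) : ℝ) ∧
        ((∃ i ∈ I, v i (k0 i) ≠ 0) → 1 - δ P < ((∑ i, g i (v i) : ℚ) : ℝ)))
    (hup : ∀ P m, LiesOver x P m → ∀ (a : Fin r → ℤ) (v : ∀ i, Fin (q i) → ℕ), Nrm ℓ x P a v →
      ((∀ i, v i = 0) → (∀ f ∈ F, P.ord (aeval (aff x) f) = 0) → m = 1 ∧ δ P ≤ 0) ∧
        ∀ i, i ∉ I → v i ≠ 0 → (m : ℝ) - ((∑ k, w i k * v i k : ℚ) : ℝ) ≤ 1 - δ P) :
    KodP K N V δ (∑ i ∈ I, n i) ∧ NumLeP ℂ K N V δ (∑ i ∈ I, n i) := by
  classical
  obtain ⟨N', rfl⟩ : ∃ N', N = N' + 1 := by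
    have h1 : n ⟨0, hr⟩ ≤ ∑ i, n i :=
      Finset.single_le_sum (f := n) (fun _ _ => Nat.zero_le _) (Finset.mem_univ _)
    have h2 := hn ⟨0, hr⟩
    exact ⟨N - 1, by omega⟩
  let e : ((i : Fin r) × Fin (n i)) ≃ Fin (N' + 1) :=
    finSigmaFinEquiv.trans (finCongr hN.symm)
  have hspan : ∀ i, Submodule.span ℂ (Set.range (ℓ i)) = ⊤ := fun i => (hg i).span
  have hlx : ∀ i k, lf (ℓ i k) (x i) ≠ 0 := fun i k => lfs_ne hx0 hbas i (hℓ i k)
  have hbas' : IsTranscendenceBasis ℂ (uu e x) := basis_uu e hbas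
  have hrange : Set.range (uu e x) = Set.range (aff x) := by
    ext z
    constructor
    · rintro ⟨b, rfl⟩
      exact ⟨e.symm b, rfl⟩
    · rintro ⟨a, rfl⟩
      refine ⟨e a, ?_⟩
      change aff x (e.symm (e a)) = _
      rw [e.symm_apply_apply]
  have hae : ∀ f : MvPolynomial (Fin (N' + 1)) ℂ,
      aeval (aff x) (rename e.symm f) = aeval (uu e x) f := by
    intro f
    rw [aeval_rename]
    rfl
  have hren : ∀ f : MvPolynomial ((i : Fin r) × Fin (n i)) ℂ, rename e.symm (rename e f) = f := by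
    intro f
    rw [rename_rename]
    have : (e.symm ∘ e : ((i : Fin r) × Fin (n i)) → _) = id := by
      funext a
      simp
    rw [this, rename_id_apply]
  have hren0 : ∀ f : MvPolynomial (Fin (N' + 1)) ℂ, f ≠ 0 → rename e.symm f ≠ 0 := by
    intro f hf h0
    exact hf (rename_injective _ e.symm.injective (by rw [h0, map_zero]))
  have hdvd : ∀ f g : MvPolynomial (Fin (N' + 1)) ℂ, rename e.symm f ∣ rename e.symm g ↔ f ∣ g := by
    intro f g
    exact map_dvd_iff (renameEquiv ℂ e.symm)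
  have hlift : ∀ i (ψ : Form (n i)), ψ ≠ 0 → lift e i ψ ≠ 0 := by
    intro i ψ hψ h0
    apply hψ
    apply lift_inj e
    rw [h0]
    ext z
    simp [lift_apply]
  have hval : ∀ (P : Place ℂ K) i (φ : Form (n i)), φ ≠ 0 →
      P.ord (lf φ (x i)) = P.ord (aeval (uu e x) (lp (lift e i φ))) + P.ord (x i 0) := by
    intro P i φ hφ
    have h1 := aeval_lift e hx0 i φ
    have h2 : lf φ (x i) ≠ 0 := lfs_ne hx0 hbas i hφ
    rw [h1, P.ord_div h2 (hx0 i)]
    ring
  have hlf0 : ∀ i, lf (0 : Form (n i)) (x i) = 0 := fun i => by simp [lf]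
  have hproj : ∀ i, lf (LinearMap.proj 0 : Form (n i)) (x i) = x i 0 := fun i => Pool.Agent.W168.CG.PGR.lf_proj _ _
  have hproj0 : ∀ i, (LinearMap.proj 0 : Form (n i)) ≠ 0 := by
    intro i h0
    have := hproj i
    rw [h0, hlf0] at this
    exact hx0 i this.symm
  constructor
  · -- the Kodaira dimension
    choose p hp0 hp using hg
    have hcard := card_free e I
    obtain ⟨s, hs⟩ : ∃ s : Finset (Fin (N' + 1)), s = Finset.univ.filter
      fun b : Fin (N' + 1) => ∀ t : {i : Fin r // i ∉ I}, b ∉ bk e t.1 := ⟨_, rfl⟩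
    rw [← hs] at hcard
    refine kodGeP e hspan p hp0 g hp hlx hx0 hbas' V hV δ hδ0 I k0
      (fun P hPV hPd a v hord hsp hv0 => hlow P hPV hPd a v (nrm hspan hlx hord hsp) hv0)
      (∑ i ∈ I, n i) (s.orderEmbOfFin hcard) (s.orderEmbOfFin hcard).injective fun b => ?_
    have hb : s.orderEmbOfFin hcard b ∈ s := Finset.orderEmbOfFin_mem s hcard b
    obtain ⟨c, hc⟩ : ∃ c, c = s.orderEmbOfFin hcard b := ⟨_, rfl⟩
    rw [← hc] at hb ⊢
    rw [hs, Finset.mem_filter] at hb
    by_contra hcon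
    exact hb.2 ⟨_, hcon⟩ ((mem_bk e).2 rfl)
  · -- the numerical dimension
    refine nuW e hn hℓ hbas' (by rw [hrange]; exact hfd) I
      (fun i k => if i ∈ I then 0 else (w i k : ℝ)) (fun i k => ?_) (fun i hi => ?_)
      (fun b : F => rename e b.1) (fun b h0 => hF0 b.1 b.2 (rename_injective _ e.injective
        (by rw [h0, map_zero]))) (fun b i hi => ?_) V δ hδ1 ?_ ?_
    · split_ifs with h
      · exact le_rfl
      · exact_mod_cast hw0 i h k
    · simp only [if_neg hi]
      have := hw1 i hi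
      exact_mod_cast this
    · rw [← degI_rename, hren]
      exact hF b.1 b.2 i hi
    · -- the places of the irreducible polynomials
      intro p hp P hP
      obtain ⟨m, hm⟩ : ∃ m : ℕ, P.ord (aeval (uu e x) p) = m :=
        ⟨(P.ord (aeval (uu e x) p)).toNat, by have := (hP p hp.ne_zero).1; omega⟩
      have hm0 : m ≠ 0 := by
        rintro rfl
        exact (hP p hp.ne_zero).2.1 hm (dvd_refl p)
      have hlo : LiesOver x P m := by
        left
        refine ⟨rename e.symm p, ?_, by rw [hae]; exact hm, fun f hf => ?_⟩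
        · exact (MulEquiv.irreducible_iff (renameEquiv ℂ e.symm)).2 hp
        · rw [← hren f, hae, hdvd]
          refine hP _ fun h0 => hf ?_
          rw [← hren f, h0, map_zero]
      have hPV := hVL P m hlo
      have hordp : ∀ i (φ : Form (n i)), φ ≠ 0 → p ∣ lp (lift e i φ) →
          P.ord (aeval (uu e x) (lp (lift e i φ))) = m := by
        intro i φ hφ hd
        obtain ⟨c, hc, h1⟩ := dvd_lp hp (hlift i φ hφ) hd
        have hp0 : aeval (uu e x) p ≠ 0 := by
          intro h0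
          rw [h0, P.ord_zero] at hm
          exact hm0 (by exact_mod_cast hm.symm)
        have hc0 : algebraMap ℂ K c ≠ 0 := by
          rw [Ne, map_eq_zero]
          exact hc
        rw [h1, map_mul, aeval_C, P.ord_mul hc0 hp0, P.ord_const hc, hm, zero_add]
      have hnrm : Nrm ℓ x P (fun i => P.ord (x i 0))
          fun i k => if p ∣ lp (lift e i (ℓ i k)) then m else 0 := by
        refine ⟨fun i φ => ?_, fun i => ⟨LinearMap.proj 0, ?_, ?_⟩, fun i k => ?_⟩
        · by_cases hφ : φ = 0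
          · left
            rw [hφ, hlf0]
          · right
            rw [hval P i φ hφ]
            have := (hP _ (lp_ne (hlift i φ hφ))).1
            linarith
        · rw [hproj]
          exact hx0 i
        · rw [hproj]
        · rw [hval P i _ (hℓ i k)]
          dsimp only
          by_cases hd : p ∣ lp (lift e i (ℓ i k))
          · rw [if_pos hd, hordp i _ (hℓ i k) hd]
            ring
          · rw [if_neg hd, (hP _ (lp_ne (hlift i _ (hℓ i k)))).2.2 hd]
            simp
      obtain ⟨hu1, hu2⟩ := hup P m hlo _ _ hnrm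
      refine ⟨hPV, fun hno hnoF => ?_, fun i hi hex => ?_⟩
      · obtain ⟨h1, h2⟩ := hu1 (fun i => by
          funext k
          exact if_neg (hno i k)) (fun f hf => by
          rw [← hren f, hae]
          refine (hP _ fun h0 => hF0 f hf ?_).2.2 (hnoF ⟨f, hf⟩)
          rw [← hren f, h0, map_zero])
        rw [hm, h1]
        exact ⟨rfl, h2⟩
      · obtain ⟨k, hk⟩ := hex
        have h1 := hu2 i hi (by
          intro h0
          have h2 := congrFun h0 k
          simp only [if_pos hk, Pi.zero_apply] at h2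
          exact hm0 h2)
        have h2 : ((∑ k, w i k * ((if p ∣ lp (lift e i (ℓ i k)) then m else 0 : ℕ) : ℚ) : ℚ) : ℝ) =
            m * ∑ k, if p ∣ lp (lift e i (ℓ i k)) then (w i k : ℝ) else 0 := by
          push_cast
          rw [Finset.mul_sum]
          refine Finset.sum_congr rfl fun k _ => ?_
          split_ifs <;> simp [mul_comm]
        rw [h2] at h1
        rw [hm]
        simp only [if_neg hi]
        push_cast
        linarith
    · -- the places at infinity
      intro i P m hm hP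
      have hlo : LiesOver x P m := by
        right
        refine ⟨hm, i, fun f hf => ?_⟩
        rw [← hren f, hae, degI_rename]
        refine hP _ fun h0 => hf ?_
        rw [← hren f, h0, map_zero]
      have hPV := hVL P m hlo
      refine ⟨hPV, fun hi => ?_⟩
      have hne : ∀ j (φ : Form (n j)), φ ≠ 0 → j ≠ i → P.ord (lf φ (x j)) = P.ord (x j 0) := by
        intro j φ hφ hj
        rw [hval P j φ hφ, hP _ (lp_ne (hlift j φ hφ)), degB_lift_ne e hj]
        simp
      have hnrm : Nrm ℓ x P (fun j => P.ord (x j 0) - (if j = i then (m : ℤ) else 0))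
          fun j k => if j = i then (if (∃ s : ℂ, ℓ j k = s • LinearMap.proj 0) then m else 0)
            else 0 := by
        refine ⟨fun j φ => ?_, fun j => ?_, fun j k => ?_⟩
        · by_cases hφ : φ = 0
          · left
            rw [hφ, hlf0]
          · right
            dsimp only
            by_cases hj : j = i
            · subst hj
              rw [if_pos rfl, hval P j φ hφ, hP _ (lp_ne (hlift j φ hφ))]
              have h1 := degB_lp_le (bk e j) (lift e j φ)
              have h2 : (m : ℤ) * (degB (bk e j) (lp (lift e j φ)) : ℤ) ≤ m * 1 := by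
                apply mul_le_mul_of_nonneg_left _ (by positivity)
                exact_mod_cast h1
              linarith
            · rw [if_neg hj, hne j φ hφ hj, sub_zero]
        · dsimp only
          by_cases hj : j = i
          · subst hj
            refine ⟨LinearMap.proj (⟨0, hn j⟩ : Fin (n j)).succ, ?_, ?_⟩
            · refine lfs_ne hx0 hbas j ?_
              intro h0
              have h1 := LinearMap.congr_fun h0 (Pi.single (⟨0, hn j⟩ : Fin (n j)).succ 1)
              simp at h1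
            · have h0 : (LinearMap.proj (⟨0, hn j⟩ : Fin (n j)).succ : Form (n j)) ≠ 0 := by
                intro h0
                have h1 := LinearMap.congr_fun h0 (Pi.single (⟨0, hn j⟩ : Fin (n j)).succ 1)
                simp at h1
              have h1 : ¬ ∃ s : ℂ, (LinearMap.proj (⟨0, hn j⟩ : Fin (n j)).succ : Form (n j)) =
                  s • LinearMap.proj 0 := by
                rintro ⟨s, hs⟩
                have h1 := LinearMap.congr_fun hs (Pi.single (⟨0, hn j⟩ : Fin (n j)).succ 1)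
                simp at h1
              rw [if_pos rfl, hval P j _ h0, hP _ (lp_ne (hlift j _ h0)), degB_lift_one e h1]
              push_cast
              ring
          · refine ⟨LinearMap.proj 0, ?_, ?_⟩
            · rw [hproj]
              exact hx0 j
            · rw [hproj, if_neg hj, sub_zero]
        · dsimp only
          by_cases hj : j = i
          · subst hj
            rw [if_pos rfl, if_pos rfl, hval P j _ (hℓ j k), hP _ (lp_ne (hlift j _ (hℓ j k)))]
            by_cases hs : ∃ s : ℂ, ℓ j k = s • LinearMap.proj 0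
            · rw [if_pos hs, degB_lift_zero e hs]
              push_cast
              ring
            · rw [if_neg hs, degB_lift_one e hs]
              push_cast
              ring
          · rw [if_neg hj, if_neg hj, hne j _ (hℓ j k) hj]
            simp
      obtain ⟨hu1, hu2⟩ := hup P m hlo _ _ hnrm
      simp only [if_neg hi]
      by_cases hex : ∃ k, ∃ s : ℂ, ℓ i k = s • LinearMap.proj 0
      · obtain ⟨k, hk⟩ := hex
        have h1 := hu2 i hi (by
          intro h0
          have h2 := congrFun h0 k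
          simp only [if_pos hk, if_true, Pi.zero_apply] at h2
          omega)
        have h2 : ((∑ k, w i k * ((if i = i then (if (∃ s : ℂ, ℓ i k = s • LinearMap.proj 0) then m
            else 0) else 0 : ℕ) : ℚ) : ℚ) : ℝ) =
            m * ∑ k, if (∃ s : ℂ, ℓ i k = s • LinearMap.proj 0) then (w i k : ℝ) else 0 := by
          push_cast
          rw [Finset.mul_sum]
          refine Finset.sum_congr rfl fun k _ => ?_
          rw [if_pos rfl]
          split_ifs <;> simp [mul_comm]
        rw [h2] at h1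
        linarith
      · push Not at hex
        obtain ⟨h1, h2⟩ := hu1 (fun j => by
          funext k
          by_cases hj : j = i
          · subst hj
            simp only [if_true]
            rw [if_neg]
            · rfl
            · rintro ⟨s, hs⟩
              exact hex k s hs
          · simp only [if_neg hj]
            rfl) (fun f hf => by
          rw [← hren f, hae, hP _ fun h0 => hF0 f hf (by rw [← hren f, h0, map_zero]),
            ← degI_rename, hren, hF f hf i hi]
          simp)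
        have h3 : (∑ k, if (∃ s : ℂ, ℓ i k = s • LinearMap.proj 0) then (w i k : ℝ) else 0) = 0 := by
          refine Finset.sum_eq_zero fun k _ => ?_
          rw [if_neg]
          rintro ⟨s, hs⟩
          exact hex k s hs
        rw [h3, h1]
        push_cast
        linarith

end

end Pool.Agent.TH756.PN
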