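import Pool.Agent.TH756.PR.Gen

/-!
The Kodaira dimension of varieties with a generically finite map to a product of projective spaces
is at least the sum of the dimensions of the factors with large multiplicities.
-/

set_option autoImplicit false

open FF Module Pool.Agent.W603.LV Pool.Agent.W602.GT Pool.Agent.W602.Cov Pool.Agent.W602.Cov.G
open Pool.Agent.W168.CG.PGR Pool.Agent.TH152.AC Pool.Agent.TH756.AR Pool.Agent.TH756.PR

namespace Pool.Agent.TH756.PN

variable {r N : ℕ} {n : Fin r → ℕ} {K : Type} [Field K] [Algebra ℂ K]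
  (e : ((i : Fin r) × Fin (n i)) ≃ Fin N) {q : Fin r → ℕ} {ℓ : ∀ i, Fin (q i) → Form (n i)}

theorem pick_ratioI {x : ∀ i, Fin (n i + 1) → K} (hx0 : ∀ i, x i 0 ≠ 0) {L : Fin r → K}
    (hL : ∀ i, L i ≠ 0) (I : Finset (Fin r)) (b : Fin N) (hb : (e.symm b).1 ∈ I) :
    (∏ i ∈ I, x i (pick e b.succ i) / L i) / (∏ i ∈ I, x i (pick e 0 i) / L i) = uu e x b := by
  rw [← Finset.prod_div_distrib]
  have h1 : ∀ i, (x i (pick e b.succ i) / L i) / (x i (pick e 0 i) / L i) =
      x i (pick e b.succ i) / x i 0 := by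
    intro i
    have h2 : pick e 0 i = 0 := rfl
    rw [h2]
    have := hx0 i
    have := hL i
    field_simp
  rw [Finset.prod_congr rfl fun i _ => h1 i, Finset.prod_eq_single (e.symm b).1]
  · have h2 : pick e b.succ (e.symm b).1 = (e.symm b).2.succ := by
      unfold pick
      simp
    rw [h2]
    rfl
  · intro i _ hi
    have h2 : pick e b.succ i = 0 := by
      unfold pick
      simp [Function.update_of_ne hi]
    rw [h2, div_self (hx0 i)]
  · intro h
    exact absurd hb h

/-- **The Kodaira dimension.** -/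
theorem kodGeI (d : Fin r → ℕ) (hd : ∀ i, 1 ≤ d i)
    (hspan : ∀ i, Submodule.span ℂ (Set.range (ℓ i)) = ⊤) (hsl : ∀ i, Slack (ℓ i) (d i))
    {x : ∀ i, Fin (n i + 1) → K} (hlx : ∀ i k, lf (ℓ i k) (x i) ≠ 0) (hx0 : ∀ i, x i 0 ≠ 0)
    (hbas : IsTranscendenceBasis ℂ (uu e x)) (Bd : Place ℂ K → Prop) (I : Finset (Fin r))
    (hP : ∀ P : Place ℂ K, Divisorial N P → ¬ Bd P →
      ∀ (a : Fin r → ℤ) (v : ∀ i, Fin (q i) → ℕ), (∀ i k, P.ord (lf (ℓ i k) (x i)) = a i + v i k) →
        (∀ i, Submodule.span ℂ (ℓ i '' {k | v i k ≠ 0}) ≠ ⊤) → (∃ i, v i ≠ 0) →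
          (∃ k : ∀ i, Fin (q i), (1 : ℚ) ≤ ∑ i, (v i (k i) : ℚ) / d i) ∧
          ((∃ i ∈ I, v i ≠ 0) → ∃ k : ∀ i, Fin (q i), (1 : ℚ) < ∑ i, (v i (k i) : ℚ) / d i))
    (h : ℕ) (f : Fin h → Fin N) (hf : Function.Injective f) (hfI : ∀ a, (e.symm (f a)).1 ∈ I) :
    KodGe ℂ K N Bd h := by
  classical
  choose p hp0 hp using hsl
  have B0 : ∀ i, Bases (ℓ i) := fun i => Classical.choice (exists_bases (hspan i))
  have k0 : ∀ i, Fin (q i) := fun i => (B0 i).1 0
  obtain ⟨M, hM⟩ : ∃ M, M = ∏ i, d i := ⟨_, rfl⟩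
  have hMpos : 0 < M := by
    rw [hM]
    exact Finset.prod_pos fun i _ => hd i
  obtain ⟨t, T, hTeq, hT⟩ := exists_weights (M * (M + 1)) p
  have hS : 0 < ∏ i, ∑ B, p i B := Finset.prod_pos fun i _ => hp0 i
  have hTpos : 0 < T := by
    rw [hTeq]
    positivity
  have hTM : M * (M + 1) ≤ T := by
    rw [hTeq]
    exact Nat.le_mul_of_pos_right _ hS
  have hdM : ∀ i, d i ≤ M := by
    intro i
    rw [hM]
    exact Nat.le_of_dvd (Finset.prod_pos fun i _ => hd i) (Finset.dvd_prod_of_mem d (Finset.mem_univ i))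
  obtain ⟨D, hD⟩ := exists_om_ne e hx0 hbas
  have hTq : (0 : ℚ) < T := by exact_mod_cast hTpos
  have hMq : (0 : ℚ) < M := by exact_mod_cast hMpos
  obtain ⟨L, hL⟩ : ∃ L : Fin r → K, L = fun i => lf (ℓ i (k0 i)) (x i) := ⟨_, rfl⟩
  have hLne : ∀ i, L i ≠ 0 := fun i => by
    rw [hL]
    exact hlx i _
  -- the final estimate
  have hfin : ∀ (P : Place ℂ K) (D : Fin N → Derivation ℂ K K) (a : Fin r → ℤ) (c : ℤ)
      (v : ∀ i, Fin (q i) → ℕ) (y : ∀ i, Fin (n i + 1)),
      (∀ i k, P.ord (lf (ℓ i k) (x i)) = a i + v i k) → (∀ i j, Ge P (a i) (x i j)) →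
      Ge P c (pp e ℓ x p t T D) → (∑ i ∈ I, (v i (k0 i) : ℤ)) ≤ c →
      P.Reg (pp e ℓ x p t T D * ∏ i ∈ I, x i (y i) / L i) := by
    intro P D a c v y h1 h2 h3 h4
    rw [reg_iff_ge]
    have h5 : ∀ i, Ge P (-(v i (k0 i) : ℤ)) (x i (y i) / L i) := by
      intro i
      have h6 := ge_div (hLne i) (h2 i (y i))
      rw [hL] at h6
      rw [hL]
      simp only [h1] at h6
      exact h6.mono (by linarith)
    have h7 := h3.mul (Ge.prod I (fun i => x i (y i) / L i)
      (fun i => -(v i (k0 i) : ℤ)) (fun i _ => h5 i))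
    refine h7.mono ?_
    rw [Finset.sum_neg_distrib]
    linarith
  have hsub : ∀ v : ∀ i, Fin (q i) → ℕ, (∑ i ∈ I, (v i (k0 i) : ℤ)) ≤ ∑ i, (v i (k0 i) : ℤ) :=
    fun v => Finset.sum_le_univ_sum_of_nonneg fun i => by positivity
  let F : Fin (h + 1) → Fin (N + 1) := Fin.cases 0 fun a => (f a).succ
  refine ⟨T, hTpos, fun a D => pp e ℓ x p t T D * ∏ i ∈ I, x i (pick e (F a) i) / L i,
    fun a => ⟨?_, ?_, ?_⟩, D, ?_, ?_⟩
  · intro A D'
    change pp e ℓ x p t T _ * _ = _
    rw [pp_pluri e x p t T A D']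
    ring
  · intro P _ D hD
    obtain ⟨a, v, hv, hx, -, c, hc, hc2⟩ := pp_ord e d hd p hp hspan t T hT hlx hx0 hbas P D 0
      (om_log e P hD).1 (om_log e P hD).2
    refine hfin P D a c v _ hv hx hc (le_trans (hsub v) ?_)
    rcases hc2 with ⟨hv0, h⟩ | ⟨-, h⟩
    · simpa [hv0] using h
    · have h1 := h k0
      rw [Nat.cast_zero, zero_mul, add_zero, Finset.mul_sum] at h1
      have h2 : ∑ i, (v i (k0 i) : ℚ) ≤ ∑ i, (T : ℚ) * ((v i (k0 i) : ℚ) / d i) := by
        refine Finset.sum_le_sum fun i _ => ?_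
        have hdi : (0 : ℚ) < d i := by exact_mod_cast hd i
        have h3 : (d i : ℚ) ≤ T := by
          have h4 : d i ≤ T := (hdM i).trans (le_trans (Nat.le_mul_of_pos_right _ (by omega)) hTM)
          exact_mod_cast h4
        rw [mul_div_assoc', le_div_iff₀ hdi, mul_comm]
        exact mul_le_mul_of_nonneg_right h3 (by positivity)
      exact_mod_cast h2.trans h1
  · intro P hPd hPB D hD
    obtain ⟨a, v, hv, hx, hsp, c, hc, hc2⟩ := pp_ord e d hd p hp hspan t T hT hlx hx0 hbas P D 1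
      (om_reg e P hD).1 (om_reg e P hD).2
    refine hfin P D a c v _ hv hx hc ?_
    rcases hc2 with ⟨hv0, h⟩ | ⟨hv0, h⟩
    · refine le_trans (hsub v) ?_
      simpa [hv0] using h
    · obtain ⟨hge1, hgt1⟩ := hP P hPd hPB a v hv hsp hv0
      by_cases hvI : ∃ i ∈ I, v i ≠ 0
      · refine le_trans (hsub v) ?_
        obtain ⟨k1, hk1⟩ := hgt1 hvI
        -- the larger one of the two multiplicities
        obtain ⟨k, hkdef⟩ : ∃ k : ∀ i, Fin (q i),
          k = fun i => if v i (k0 i) ≤ v i (k1 i) then k1 i else k0 i := ⟨_, rfl⟩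
        have hka : ∀ i, v i (k0 i) ≤ v i (k i) := by
          intro i
          rw [hkdef]
          dsimp only
          split_ifs with h'
          · exact h'
          · exact le_rfl
        have hkb : ∀ i, v i (k1 i) ≤ v i (k i) := by
          intro i
          rw [hkdef]
          dsimp only
          split_ifs with h'
          · exact le_rfl
          · omega
        have hSgt : (1 : ℚ) < ∑ i, (v i (k i) : ℚ) / d i := by
          refine lt_of_lt_of_le hk1 (Finset.sum_le_sum fun i _ => ?_)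
          have hdi : (0 : ℚ) < d i := by exact_mod_cast hd i
          exact div_le_div_of_nonneg_right (by exact_mod_cast hkb i) hdi.le
        -- integrality
        have hint : ∑ i, (v i (k i) : ℚ) / d i =
            ((∑ i, v i (k i) * ∏ j ∈ Finset.univ.erase i, d j : ℕ) : ℚ) / M := by
          push_cast
          rw [Finset.sum_div]
          refine Finset.sum_congr rfl fun i _ => ?_
          have hdi : (d i : ℚ) ≠ 0 := by
            have := hd i
            positivity
          have h5 : (M : ℚ) = (∏ j ∈ Finset.univ.erase i, (d j : ℚ)) * d i := by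
            rw [hM, ← Finset.prod_erase_mul _ _ (Finset.mem_univ i)]
            push_cast
            rfl
          have h6 : (∏ j ∈ Finset.univ.erase i, (d j : ℚ)) ≠ 0 := by
            intro h6
            rw [h6, zero_mul] at h5
            exact hMq.ne' h5
          rw [h5]
          field_simp
        have hge : (M : ℚ) + 1 ≤ M * ∑ i, (v i (k i) : ℚ) / d i := by
          rw [hint] at hSgt ⊢
          rw [lt_div_iff₀ hMq, one_mul] at hSgt
          rw [mul_div_cancel₀ _ hMq.ne']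
          exact_mod_cast hSgt
        have h1 := h k
        rw [Nat.cast_one, one_mul] at h1
        obtain ⟨S, hSdef⟩ : ∃ S : ℚ, S = ∑ i, (v i (k i) : ℚ) / d i := ⟨_, rfl⟩
        rw [← hSdef] at h1 hge
        have h2 : (T : ℚ) * S ≤ (M + 1) * c := by nlinarith
        have h3 : (((M : ℚ) + 1) * ∑ i, (v i (k0 i) : ℚ)) ≤ T * S := by
          rw [hSdef, Finset.mul_sum, Finset.mul_sum]
          refine Finset.sum_le_sum fun i _ => ?_
          have hdi : (0 : ℚ) < d i := by exact_mod_cast hd i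
          rw [mul_div_assoc', le_div_iff₀ hdi]
          have h5 : ((M : ℚ) + 1) * d i ≤ T := by
            have h6 : (M + 1) * d i ≤ T := by
              refine le_trans ?_ hTM
              rw [mul_comm]
              exact Nat.mul_le_mul_right _ (hdM i)
            exact_mod_cast h6
          have h7 : (v i (k0 i) : ℚ) ≤ v i (k i) := by exact_mod_cast hka i
          calc ((M : ℚ) + 1) * v i (k0 i) * d i = (((M : ℚ) + 1) * d i) * v i (k0 i) := by ring
            _ ≤ T * v i (k i) := mul_le_mul h5 h7 (by positivity) hTq.le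
        have h4 : ((M : ℚ) + 1) * ∑ i, (v i (k0 i) : ℚ) ≤ (M + 1) * c := h3.trans h2
        have h5 : ∑ i, (v i (k0 i) : ℚ) ≤ c := le_of_mul_le_mul_left h4 (by positivity)
        exact_mod_cast h5
      · push Not at hvI
        rw [Finset.sum_eq_zero fun i hi => by rw [hvI i hi]; rfl]
        obtain ⟨k, hk⟩ := hge1
        have h1 := h k
        rw [Nat.cast_one, one_mul] at h1
        have h2 : (T : ℚ) * 1 ≤ T * ∑ i, (v i (k i) : ℚ) / d i :=
          mul_le_mul_of_nonneg_left hk hTq.le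
        have h3 : (0 : ℚ) ≤ c := by linarith
        exact_mod_cast h3
  · change pp e ℓ x p t T D * ∏ i ∈ I, x i (pick e 0 i) / L i ≠ 0
    refine mul_ne_zero ?_ (Finset.prod_ne_zero_iff.2 fun i _ => div_ne_zero (hx0 i) (hLne i))
    unfold pp
    exact div_ne_zero (pow_ne_zero _ hD) (dens_ne hlx p t)
  · have hpf : pp e ℓ x p t T D ≠ 0 := by
      unfold pp
      exact div_ne_zero (pow_ne_zero _ hD) (dens_ne hlx p t)
    have e1 : (fun a : Fin h => pp e ℓ x p t T D * (∏ i ∈ I, x i (pick e (f a).succ i) / L i) /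
        (pp e ℓ x p t T D * ∏ i ∈ I, x i (pick e 0 i) / L i)) = uu e x ∘ f := by
      funext a
      rw [mul_div_mul_left _ _ hpf, pick_ratioI e hx0 hLne I _ (hfI a)]
      rfl
    change AlgebraicIndependent ℂ (fun a : Fin h =>
      pp e ℓ x p t T D * (∏ i ∈ I, x i (pick e (f a).succ i) / L i) /
        (pp e ℓ x p t T D * ∏ i ∈ I, x i (pick e 0 i) / L i))
    rw [e1]
    exact hbas.1.comp f hf

end Pool.Agent.TH756.PN
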