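import Pool.Agent.TH756.PN.Cy

/-!
The Kodaira dimension of pairs on varieties over a product of projective spaces, for general
weights.
-/

set_option autoImplicit false

open FF Module Pool.Agent.W603.LV Pool.Agent.W602.GT Pool.Agent.W602.Cov Pool.Agent.W602.Cov.G
open Pool.Agent.W168.CG.PGR Pool.Agent.TH152.AC Pool.Agent.TH756.AR Pool.Agent.TH756.PR

namespace Pool.Agent.TH756.PN

variable {r N : ℕ} {n : Fin r → ℕ} {K : Type} [Field K] [Algebra ℂ K]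
  (e : ((i : Fin r) × Fin (n i)) ≃ Fin N) {q : Fin r → ℕ} {ℓ : ∀ i, Fin (q i) → Form (n i)}

/-- `ω` is a section of `T (K_X + Δ)`; `V` is the set of the prime divisors of the model, `δ P` is
the coefficient of `Δ` at `P`. -/
def PSec (N : ℕ) (V : Set (Place ℂ K)) (δ : Place ℂ K → ℝ) (T : ℕ)
    (ω : (Fin N → Derivation ℂ K K) → K) : Prop :=
  IsPluri T ω ∧ ∀ P ∈ V, Divisorial N P → ∀ D : Fin N → Derivation ℂ K K,
    (∀ i, DerReg P (D i)) → ω D = 0 ∨ -(T * δ P) ≤ (P.ord (ω D) : ℝ)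

/-- some hyperplane has the multiplicity `0` -/
theorem exists_zeroP {n q : ℕ} {ℓ : Fin q → Form n}
    (hspan : Submodule.span ℂ (Set.range ℓ) = ⊤) {v : Fin q → ℕ}
    (hsp : Submodule.span ℂ (ℓ '' {k | v k ≠ 0}) ≠ ⊤) : ∃ k, v k = 0 := by
  by_contra hcon
  push Not at hcon
  apply hsp
  rw [← hspan]
  congr 1
  ext φ
  constructor
  · rintro ⟨k, -, rfl⟩
    exact ⟨k, rfl⟩
  · rintro ⟨k, rfl⟩
    exact ⟨k, hcon k, rfl⟩

/-- a uniform bound for finitely many places -/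
theorem uniformP {α : Type} {S : Set α} (hS : S.Finite) (Q : α → ℕ → Prop)
    (h : ∀ P ∈ S, ∃ M : ℕ, ∀ M', M ≤ M' → Q P M') :
    ∃ M : ℕ, ∀ M', M ≤ M' → ∀ P ∈ S, Q P M' := by
  induction S, hS using Set.Finite.induction_on with
  | empty => exact ⟨0, fun _ _ P hP => absurd hP (Set.notMem_empty P)⟩
  | @insert a S _ _ ih =>
    obtain ⟨M1, h2⟩ := ih fun P hP => h P (Set.mem_insert_of_mem _ hP)
    obtain ⟨M3, h4⟩ := h a (Set.mem_insert _ _)
    refine ⟨max M1 M3, fun M' h6 P hP => ?_⟩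
    rcases Set.mem_insert_iff.1 hP with rfl | hP
    · exact h4 M' ((le_max_right _ _).trans h6)
    · exact h2 M' ((le_max_left _ _).trans h6) P hP

/-- **The Kodaira dimension of pairs.** -/
theorem kodGeP (hspan : ∀ i, Submodule.span ℂ (Set.range (ℓ i)) = ⊤)
    (p : ∀ i, Bases (ℓ i) → ℕ) (hp0 : ∀ i, 0 < ∑ B, p i B) (g : ∀ i, (Fin (q i) → ℕ) → ℚ)
    (hp : ∀ i, Hp (ℓ i) (p i) (g i)) {x : ∀ i, Fin (n i + 1) → K}
    (hlx : ∀ i k, lf (ℓ i k) (x i) ≠ 0) (hx0 : ∀ i, x i 0 ≠ 0)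
    (hbas : IsTranscendenceBasis ℂ (uu e x)) (V : Set (Place ℂ K))
    (hV : ∀ f : K, f ≠ 0 → {P ∈ V | P.ord f ≠ 0}.Finite) (δ : Place ℂ K → ℝ)
    (hδ : ∀ P ∈ V, 0 ≤ δ P) (I : Finset (Fin r)) (k0 : ∀ i, Fin (q i))
    (hP : ∀ P ∈ V, Divisorial N P → ∀ (a : Fin r → ℤ) (v : ∀ i, Fin (q i) → ℕ),
      (∀ i k, P.ord (lf (ℓ i k) (x i)) = a i + v i k) →
      (∀ i, Submodule.span ℂ (ℓ i '' {k | v i k ≠ 0}) ≠ ⊤) → (∃ i, v i ≠ 0) →
      1 - δ P ≤ ((∑ i, g i (v i) : ℚ) : ℝ) ∧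
        ((∃ i ∈ I, v i (k0 i) ≠ 0) → 1 - δ P < ((∑ i, g i (v i) : ℚ) : ℝ)))
    (h : ℕ) (f : Fin h → Fin N) (hf : Function.Injective f) (hfI : ∀ a, (e.symm (f a)).1 ∈ I) :
    ∃ T : ℕ, 0 < T ∧ ∃ ω : Fin (h + 1) → (Fin N → Derivation ℂ K K) → K,
      (∀ b, PSec N V δ T (ω b)) ∧
      ∃ D, ω 0 D ≠ 0 ∧ AlgebraicIndependent ℂ (fun b : Fin h => ω b.succ D / ω 0 D) := by
  classical
  -- the finitely many places with positive multiplicities
  obtain ⟨S, hSdef⟩ : ∃ S : Set (Place ℂ K), S = ⋃ (i : Fin r) (k : Fin (q i)) (k' : Fin (q i)),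
      {P ∈ V | P.ord (lf (ℓ i k) (x i) / lf (ℓ i k') (x i)) ≠ 0} := ⟨_, rfl⟩
  have hSfin : S.Finite := by
    rw [hSdef]
    exact Set.finite_iUnion fun i => Set.finite_iUnion fun k => Set.finite_iUnion fun k' =>
      hV _ (div_ne_zero (hlx i k) (hlx i k'))
  have hmem : ∀ P ∈ V, ∀ (a : Fin r → ℤ) (v : ∀ i, Fin (q i) → ℕ),
      (∀ i k, P.ord (lf (ℓ i k) (x i)) = a i + v i k) →
      (∀ i, Submodule.span ℂ (ℓ i '' {k | v i k ≠ 0}) ≠ ⊤) → (∃ i, v i ≠ 0) → P ∈ S := by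
    rintro P hPX a v hv hsp ⟨i, hi⟩
    obtain ⟨k, hk⟩ : ∃ k, v i k ≠ 0 := by
      by_contra hcon
      push Not at hcon
      exact hi (funext hcon)
    obtain ⟨k', hk'⟩ := exists_zeroP (hspan i) (hsp i)
    rw [hSdef]
    simp only [Set.mem_iUnion]
    refine ⟨i, k, k', hPX, ?_⟩
    rw [P.ord_div (hlx i k) (hlx i k'), hv, hv, hk']
    push_cast
    intro h
    apply hk
    have : (v i k : ℤ) = 0 := by linarith
    exact_mod_cast this
  have huniq : ∀ (P : Place ℂ K) (a a' : Fin r → ℤ) (v v' : ∀ i, Fin (q i) → ℕ),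
      (∀ i k, P.ord (lf (ℓ i k) (x i)) = a i + v i k) →
      (∀ i, Submodule.span ℂ (ℓ i '' {k | v i k ≠ 0}) ≠ ⊤) →
      (∀ i k, P.ord (lf (ℓ i k) (x i)) = a' i + v' i k) →
      (∀ i, Submodule.span ℂ (ℓ i '' {k | v' i k ≠ 0}) ≠ ⊤) → v = v' := by
    intro P a a' v v' hv hsp hv' hsp'
    have ha : ∀ i, a i = a' i := by
      intro i
      obtain ⟨k1, hk1⟩ := exists_zeroP (hspan i) (hsp i)
      obtain ⟨k2, hk2⟩ := exists_zeroP (hspan i) (hsp' i)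
      have e1 := hv i k1
      have e2 := hv' i k1
      have e3 := hv i k2
      have e4 := hv' i k2
      rw [hk1] at e1
      rw [hk2] at e4
      have e5 : (0 : ℤ) ≤ v' i k1 := by positivity
      have e6 : (0 : ℤ) ≤ v i k2 := by positivity
      push_cast at e1 e4
      linarith
    funext i k
    have e1 := hv i k
    have e2 := hv' i k
    rw [ha i] at e1
    have : (v i k : ℤ) = v' i k := by linarith
    exact_mod_cast this
  obtain ⟨M, hM⟩ := uniformP hSfin (fun P M => P ∈ V → Divisorial N P →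
      ∀ (a : Fin r → ℤ) (v : ∀ i, Fin (q i) → ℕ),
      (∀ i k, P.ord (lf (ℓ i k) (x i)) = a i + v i k) →
      (∀ i, Submodule.span ℂ (ℓ i '' {k | v i k ≠ 0}) ≠ ⊤) → (∃ i ∈ I, v i (k0 i) ≠ 0) →
      (∑ i ∈ I, (v i (k0 i) : ℝ)) ≤ M * (((∑ i, g i (v i) : ℚ) : ℝ) - (1 - δ P))) (by
    intro P _
    by_cases hex : P ∈ V ∧ Divisorial N P ∧ ∃ (a : Fin r → ℤ) (v : ∀ i, Fin (q i) → ℕ),
      (∀ i k, P.ord (lf (ℓ i k) (x i)) = a i + v i k) ∧
      (∀ i, Submodule.span ℂ (ℓ i '' {k | v i k ≠ 0}) ≠ ⊤) ∧ (∃ i ∈ I, v i (k0 i) ≠ 0)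
    · obtain ⟨hPX, hPd, a, v, hv, hsp, hv0⟩ := hex
      have hk := (hP P hPX hPd a v hv hsp (by
        obtain ⟨i, -, hi⟩ := hv0
        exact ⟨i, fun h => hi (by rw [h]; rfl)⟩)).2 hv0
      have hpos : 0 < ((∑ i, g i (v i) : ℚ) : ℝ) - (1 - δ P) := by linarith
      obtain ⟨M, hM⟩ := exists_nat_ge
        ((∑ i ∈ I, (v i (k0 i) : ℝ)) / (((∑ i, g i (v i) : ℚ) : ℝ) - (1 - δ P)))
      refine ⟨M, fun M' hM' _ _ a' v' hv' hsp' _ => ?_⟩
      rw [← huniq P a a' v v' hv hsp hv' hsp']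
      have h1 : (M : ℝ) ≤ M' := by exact_mod_cast hM'
      have h2 := hM.trans h1
      rwa [div_le_iff₀ hpos] at h2
    · refine ⟨0, fun M' _ hPX hPd a v hv hsp hv0 => ?_⟩
      exact absurd ⟨hPX, hPd, a, v, hv, hsp, hv0⟩ hex)
  obtain ⟨t, T, hTeq, hT⟩ := exists_weights (M + 1) p
  have hS : 0 < ∏ i, ∑ B, p i B := Finset.prod_pos fun i _ => hp0 i
  have hTpos : 0 < T := by
    rw [hTeq]
    positivity
  have hTM : M ≤ T := by
    rw [hTeq]
    exact (Nat.le_succ M).trans (Nat.le_mul_of_pos_right _ hS)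
  have hTR : (0 : ℝ) < T := by exact_mod_cast hTpos
  obtain ⟨D, hD⟩ := exists_om_ne e hx0 hbas
  obtain ⟨L, hL⟩ : ∃ L : Fin r → K, L = fun i => lf (ℓ i (k0 i)) (x i) := ⟨_, rfl⟩
  have hLne : ∀ i, L i ≠ 0 := fun i => by
    rw [hL]
    exact hlx i _
  let F : Fin (h + 1) → Fin (N + 1) := Fin.cases 0 fun a => (f a).succ
  refine ⟨T, hTpos, fun a D => pp e ℓ x p t T D * ∏ i ∈ I, x i (pick e (F a) i) / L i,
    fun b => ⟨?_, ?_⟩, D, ?_, ?_⟩
  · intro A D'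
    change pp e ℓ x p t T _ * _ = _
    rw [pp_pluri e x p t T A D']
    ring
  · intro P hPX hPd D hD
    obtain ⟨a, v, hv, hx, hsp, c, hc, hc2⟩ := pp_ordW e p g hp hspan t T hT hlx hx0 hbas P D 1
      (om_reg e P hD).1 (om_reg e P hD).2
    have h5 : ∀ i, Ge P (-(v i (k0 i) : ℤ)) (x i (pick e (F b) i) / L i) := by
      intro i
      have h6 := ge_div (hLne i) (hx i (pick e (F b) i))
      rw [hL] at h6
      rw [hL]
      simp only [hv] at h6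
      exact h6.mono (by linarith)
    have h7 := hc.mul (Ge.prod I (fun i => x i (pick e (F b) i) / L i)
      (fun i => -(v i (k0 i) : ℤ)) (fun i _ => h5 i))
    rcases h7 with h7 | h7
    · exact Or.inl h7
    right
    have h8 : ((c + ∑ i ∈ I, -(v i (k0 i) : ℤ) : ℤ) : ℝ) ≤
        P.ord (pp e ℓ x p t T D * ∏ i ∈ I, x i (pick e (F b) i) / L i) := by exact_mod_cast h7
    refine le_trans ?_ h8
    push_cast
    rw [Finset.sum_neg_distrib]
    have hTδ := mul_nonneg hTR.le (hδ P hPX)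
    rcases hc2 with ⟨hv0, h⟩ | ⟨hv0, h⟩
    · have h2 : (0 : ℝ) ≤ c := by exact_mod_cast h
      have h3 : ∑ i ∈ I, (v i (k0 i) : ℝ) = 0 := by
        refine Finset.sum_eq_zero fun i _ => ?_
        rw [hv0 i]
        simp
      rw [h3]
      linarith
    · have h1 : (T : ℝ) * ((∑ i, g i (v i) : ℚ) : ℝ) ≤ c + 1 * T := by
        have h2 : (((T : ℚ) * ∑ i, g i (v i) : ℚ) : ℝ) ≤ ((c + (1 : ℕ) * T : ℚ) : ℝ) :=
          Rat.cast_le.2 h
        push_cast at h2 ⊢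
        exact h2
      obtain ⟨hge, -⟩ := hP P hPX hPd a v hv hsp hv0
      by_cases hvI : ∃ i ∈ I, v i (k0 i) ≠ 0
      · have h2 := hM T hTM P (hmem P hPX a v hv hsp hv0) hPX hPd a v hv hsp hvI
        linarith
      · push Not at hvI
        have h3 : ∑ i ∈ I, (v i (k0 i) : ℝ) = 0 := by
          refine Finset.sum_eq_zero fun i hi => ?_
          rw [hvI i hi]
          simp
        rw [h3]
        have h2 := mul_le_mul_of_nonneg_left hge hTR.le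
        linarith
  · change pp e ℓ x p t T D * ∏ i ∈ I, x i (pick e 0 i) / L i ≠ 0
    refine mul_ne_zero ?_ (Finset.prod_ne_zero_iff.2 fun i _ => div_ne_zero (hx0 i) (hLne i))
    unfold pp
    exact div_ne_zero (pow_ne_zero _ hD) (dens_ne hlx p t)
  · have hpf : pp e ℓ x p t T D ≠ 0 := by
      unfold pp
      exact div_ne_zero (pow_ne_zero _ hD) (dens_ne hlx p t)
    have e1 : (fun a : Fin h => pp e ℓ x p t T D * (∏ i ∈ I, x i (pick e (f a).succ i) / L i) /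
        (pp e ℓ x p t T D * ∏ i ∈ I, x i (pick e 0 i) / L i)) = uu e x ∘ f := by
      funext a
      rw [mul_div_mul_left _ _ hpf, pick_ratioI e hx0 hLne I _ (hfI a)]
      rfl
    change AlgebraicIndependent ℂ (fun a : Fin h =>
      pp e ℓ x p t T D * (∏ i ∈ I, x i (pick e (f a).succ i) / L i) /
        (pp e ℓ x p t T D * ∏ i ∈ I, x i (pick e 0 i) / L i))
    rw [e1]
    exact hbas.1.comp f hf

end Pool.Agent.TH756.PN
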