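import Pool.Agent.TH122.AB.Nu
import Pool.Agent.TH756.PN.Fd

/-!
The numerical dimension of Galois covers of a product of projective spaces with small ramification
in some of the factors (following `Pool.Agent.TH122.AB.Nu`, which treats projective space).
-/

set_option autoImplicit false
set_option linter.overlappingInstances false
set_option linter.unusedSectionVars false

open FF MvPolynomial IntermediateField Pool.Agent.W603.LV Pool.Agent.W619.PQ
open Pool.Agent.W619.TW Pool.Agent.W602.GT Pool.Agent.TH122.AB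

namespace Pool.Agent.TH756.PN

section

variable {k K : Type} [Field k] [CharZero k] [Field K] [Algebra k K] {n : ℕ}

/-- the place at infinity in the variables of `B`, and the order of the sections there -/
theorem exists_inf (G : Subgroup (K ≃ₐ[k] K)) [Finite G] {X : Fin (n + 1) → fixedField G}
    (hX : Gens (k := k) X) (hZ : IsTranscendenceBasis k fun j => (X j : K))
    (hfd : ∀ y : Fin (n + 1) → K, IsTranscendenceBasis k y →
      FiniteDimensional (IntermediateField.adjoin k (Set.range y)) K)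
    {D : Fin (n + 1) → Derivation k K K} (hD : ∀ i j, D i (X j : K) = if i = j then 1 else 0)
    {B : Finset (Fin (n + 1))} {c : Fin (n + 1)} (hB : c ∈ B) :
    ∃ v0 : Place k (fixedField G),
      (∀ P : MvPolynomial (Fin (n + 1)) k, P ≠ 0 →
        v0.ord (aeval X P) = - (degB B P : ℤ)) ∧
      ∀ (w : Place k K) (e : ℕ), Over w v0 e → ∀ (S : Finset K) (m : ℕ)
        (ω : (Fin (n + 1) → Derivation k K K) → K),
        IsSec k K (n + 1) (fun _ => False) S m 1 ω →
        ω D = 0 ∨ ∃ s ∈ S, w.ord s ≤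
          w.ord (ω D) + m * ((e : ℤ) - 1) - m * (((B.card : ℤ) + 1) * e) := by
  classical
  have hGal : IsGaloisGroup G (fixedField G) K := isGaloisGroup_fixed G
  have hfdG : FiniteDimensional (fixedField G) K := IsGaloisGroup.finiteDimensional G _ K
  have htr := Pool.Agent.W602.GT.trdeg_of_basis hZ
  let X' : Fin (n + 1) → fixedField G := fun j =>
    if j = c then (X c)⁻¹ else if j ∈ B then X j / X c else X j
  have hf : Flip B c X X' := by
    refine ⟨if_pos rfl, fun j hj hj0 => ?_, fun j hj => ?_⟩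
    · change (if j = c then (X c)⁻¹ else if j ∈ B then X j / X c else X j) = _
      rw [if_neg hj0, if_pos hj]
    · change (if j = c then (X c)⁻¹ else if j ∈ B then X j / X c else X j) = _
      rw [if_neg (by rintro rfl; exact hj hB), if_neg hj]
  have hX' : Gens (k := k) X' := flip_gens hB hX hf
  have hX0 : X c ≠ 0 := by
    have := hX.ne (X_ne_zero (R := k) c)
    rwa [aeval_X] at this
  have hZ0 : (X c : K) ≠ 0 := by simpa using hX0
  have hirr : Irreducible (MvPolynomial.X c : MvPolynomial (Fin (n + 1)) k) :=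
    (MvPolynomial.X_prime (R := k) (i := c)).irreducible
  obtain ⟨v0, hv1, hv0⟩ := exists_adic hX' hirr
  rw [aeval_X] at hv1
  have hdeg : ∀ P : MvPolynomial (Fin (n + 1)) k, P ≠ 0 →
      v0.ord (aeval X P) = - (degB B P : ℤ) := fun P hP => ord_deg hB hX hf hv1 hv0 hP
  have hfZ : Flip B c (fun j => (X j : K)) (fun j => (X' j : K)) := by
    refine ⟨?_, fun j hj hj0 => ?_, fun j hj => ?_⟩
    · change ((X' c : fixedField G) : K) = _
      rw [hf.zero]
      rfl
    · change ((X' j : fixedField G) : K) = _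
      rw [hf.mem j hj hj0]
      rfl
    · change ((X' j : fixedField G) : K) = _
      rw [hf.not_mem j hj]
  have hbasZ' : IsTranscendenceBasis k fun j => (X' j : K) := by
    have h1 : AlgebraicIndependent k fun j => (X' j : K) := hX'.ind.map' (f := (fixedField G).val)
      (fixedField G).val.injective
    exact h1.isTranscendenceBasis_of_trdeg_le_of_finite (by rw [htr]; simp)
  obtain ⟨D', hD'⟩ : ∃ D' : Fin (n + 1) → Derivation k K K,
      D' = fun i => ∑ b, mB B c (fun j => (X j : K)) i b • D b := ⟨_, rfl⟩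
  have hD'dual : ∀ i j, D' i ((X' j : fixedField G) : K) = if i = j then 1 else 0 := by
    intro i j
    rw [hD']
    exact dual_mB hB (Z := fun j => (X j : K)) (Z' := fun j => (X' j : K)) hZ0 hfZ hD i j
  refine ⟨v0, hdeg, fun w e h' S m ω hω => ?_⟩
  have hDb : D' c (algebraMap (fixedField G) K (X' c)) = 1 := by
    have := hD'dual c c
    rw [if_pos rfl] at this
    exact this
  have hjac := jac htr hfd h' (div_adic hX' hirr hv0 h') D' (fun j => (X' j : K)) hbasZ'
    hD'dual (fun i z hz => pres_adic hX' hirr hv0 h' (hD'dual i) hz) hv1 c (by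
      rw [hDb]
      exact one_ne_zero) (by
      rw [hDb]
      exact w.ord_one) S m ω hω
  have hpl : ω D' = (- (X c : K) ^ (B.card + 1)) ^ m * ω D := by
    rw [hD', hω.1 (mB B c fun j => (X j : K)) D, det_mB hB]
  by_cases hz : ω D = 0
  · exact Or.inl hz
  right
  have hneg : - (X c : K) ^ (B.card + 1) ≠ 0 := neg_ne_zero.2 (pow_ne_zero _ hZ0)
  have hordX0 : w.ord (X c : K) = - (e : ℤ) := by
    have h1 := h'.2 (X c)
    have h2 := hdeg (MvPolynomial.X c) (X_ne_zero _)
    have h3 : degB B (MvPolynomial.X c : MvPolynomial (Fin (n + 1)) k) = 1 := by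
      unfold degB
      rw [support_X, Finset.sup_singleton, Finset.sum_eq_single c]
      · simp
      · intro b _ hb
        rw [Finsupp.single_apply, if_neg (Ne.symm hb)]
      · intro h
        exact absurd hB h
    rw [aeval_X, h3] at h2
    rw [h2] at h1
    change w.ord (X c : K) = _ at h1
    rw [h1]
    push_cast
    ring
  rcases hjac with h1 | ⟨s, hs, hs0, hle⟩
  · rw [hpl] at h1
    exact absurd h1 (mul_ne_zero (pow_ne_zero _ hneg) hz)
  · refine ⟨s, hs, ?_⟩
    rw [hpl, w.ord_mul (pow_ne_zero _ hneg) hz, w.ord_pow, w.ord_neg, w.ord_pow, hordX0] at hle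
    push_cast at hle
    linarith

/-- **The numerical dimension.** In each of the blocks of variables `B t`, with `g t + 1` variables,
there are at most `g t + 3` linear forms, and the ramification along them is at most `g t + 3`. -/
theorem numLe_blocks (G : Subgroup (K ≃ₐ[k] K)) [Finite G] {X : Fin (n + 1) → fixedField G}
    (hX : Gens (k := k) X) (hZ : IsTranscendenceBasis k fun j => (X j : K))
    (hfd : ∀ y : Fin (n + 1) → K, IsTranscendenceBasis k y →
      FiniteDimensional (IntermediateField.adjoin k (Set.range y)) K)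
    {κ α : Type} [Fintype κ] [Fintype α] (B : κ → Finset (Fin (n + 1))) (c : κ → Fin (n + 1))
    (hc : ∀ t, c t ∈ B t) (g : κ → ℕ) (hg : ∀ t, (B t).card = g t + 1)
    (lam : α → MvPolynomial (Fin (n + 1)) k) (hlam0 : ∀ a, lam a ≠ 0) (bl : α → Option κ)
    (hdeg1 : ∀ t a, bl a ≠ some t → degB (B t) (lam a) = 0)
    (hdeg2 : ∀ t, ∑ a, degB (B t) (lam a) ≤ g t + 3)
    (H1 : ∀ p : MvPolynomial (Fin (n + 1)) k, Irreducible p → ∀ v : Place k (fixedField G),
      v.ord (aeval X p) = 1 →
      (∀ P, P ≠ 0 → 0 ≤ v.ord (aeval X P) ∧ (v.ord (aeval X P) = 0 ↔ ¬ p ∣ P)) →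
      ∃ (w : Place k K) (e : ℕ), Over w v e ∧
        (e = 1 ∨ ∃ a, p ∣ lam a ∧ ∀ t, bl a = some t → e ≤ g t + 3))
    (H0 : ∀ t, ∀ v : Place k (fixedField G),
      (∀ P : MvPolynomial (Fin (n + 1)) k, P ≠ 0 → v.ord (aeval X P) = - (degB (B t) P : ℤ)) →
      ∃ (w : Place k K) (e : ℕ), Over w v e ∧
        (e = 1 ∨ (e ≤ g t + 3 ∧ ∑ a, degB (B t) (lam a) ≤ g t + 2))) :
    NumLe k K (n + 1) (fun _ => False) (Finset.univ.filter fun b => ∀ t, b ∉ B t).card := by
  classical
  intro S
  have hGal : IsGaloisGroup G (fixedField G) K := isGaloisGroup_fixed G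
  have hfdG : FiniteDimensional (fixedField G) K := IsGaloisGroup.finiteDimensional G _ K
  have htr := Pool.Agent.W602.GT.trdeg_of_basis hZ
  obtain ⟨D, hD0⟩ := Pool.Agent.W602.GT.exists_dual hZ
  have hD : ∀ i j, D i (X j : K) = if i = j then 1 else 0 := by
    intro i j
    have h1 := congrFun (congrFun hD0 i) j
    rw [Matrix.of_apply, Matrix.one_apply] at h1
    exact h1
  -- the places at infinity
  have hinf : ∀ t : Option κ, ∃ (v0 : Place k (fixedField G)) (w0 : Place k K) (e0 : ℕ),
      Over w0 v0 e0 ∧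
      (∀ P : MvPolynomial (Fin (n + 1)) k, P ≠ 0 →
        v0.ord (aeval X P) = - (degB (t.elim Finset.univ B) P : ℤ)) ∧
      (∀ t', t = some t' → (e0 = 1 ∨ (e0 ≤ g t' + 3 ∧ ∑ a, degB (B t') (lam a) ≤ g t' + 2))) ∧
      ∀ (w : Place k K), Over w v0 e0 → ∀ (S : Finset K) (m : ℕ)
        (ω : (Fin (n + 1) → Derivation k K K) → K),
        IsSec k K (n + 1) (fun _ => False) S m 1 ω →
        ω D = 0 ∨ ∃ s ∈ S, w.ord s ≤ w.ord (ω D) + m * ((e0 : ℤ) - 1) -
          m * ((((t.elim Finset.univ B : Finset (Fin (n + 1))).card : ℤ) + 1) * e0) := by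
    intro t
    rcases t with _ | t
    · obtain ⟨v0, h1, h2⟩ := exists_inf G hX hZ hfd hD (B := Finset.univ) (c := 0)
        (Finset.mem_univ _)
      obtain ⟨w0, e0, I, hwv, -, -⟩ := exists_inertia G v0
      exact ⟨v0, w0, e0, hwv, h1, fun t' h => by simp at h, fun w hw => h2 w e0 hw⟩
    · obtain ⟨v0, h1, h2⟩ := exists_inf G hX hZ hfd hD (hc t)
      obtain ⟨w0, e0, hwv, hcase⟩ := H0 t v0 h1
      refine ⟨v0, w0, e0, hwv, h1, fun t' h => ?_, fun w hw => h2 w e0 hw⟩
      have h3 : t = t' := by simpa using h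
      subst h3
      exact hcase
  choose v0 w0 e0 h0 hdeg hcase0 hjac0 using hinf
  -- the lower bound
  obtain ⟨M0, hM0⟩ : ∃ M0 : ℕ, ∀ t, ∀ g ∈ G, ∀ s ∈ S, -(M0 : ℤ) ≤ (w0 t).ord (g s) := by
    have hfin : (⋃ t, Set.image2 (fun (g : K ≃ₐ[k] K) (s : K) => (w0 t).ord (g s))
        (G : Set (K ≃ₐ[k] K)) (S : Set K)).Finite :=
      Set.finite_iUnion fun t => Set.Finite.image2 _ (Set.toFinite _) (Set.toFinite _)
    obtain ⟨M0, hM0⟩ := hfin.bddBelow
    refine ⟨M0.natAbs, fun t g hg s hs => ?_⟩
    have h1 := hM0 (Set.mem_iUnion.2 ⟨t, Set.mem_image2_of_mem hg hs⟩)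
    have h2 : -(M0.natAbs : ℤ) ≤ M0 := by omega
    exact h2.trans h1
  let τ : Fin (n + 1) → Option κ := fun b => if h : ∃ t, b ∈ B t then some h.choose else none
  have hτ : ∀ b, b ∈ (τ b).elim Finset.univ B := by
    intro b
    by_cases h : ∃ t, b ∈ B t
    · have h1 : τ b = some h.choose := dif_pos h
      rw [h1]
      exact h.choose_spec
    · have h1 : τ b = none := dif_neg h
      rw [h1]
      exact Finset.mem_univ b
  obtain ⟨C, c1, hC⟩ := fin_bound G hX hZ (fun t : Option κ => t.elim Finset.univ B) hdeg h0 τ hτ S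
  -- the constants
  obtain ⟨dt, hdt⟩ : ∃ dt : ℕ, dt = ∑ a, degB Finset.univ (lam a) := ⟨_, rfl⟩
  obtain ⟨gg, hgg⟩ : ∃ gg : ℕ, gg = ∑ t, (g t + 2) := ⟨_, rfl⟩
  have hgle : ∀ t, g t + 2 ≤ gg := by
    intro t
    rw [hgg]
    exact Finset.single_le_sum (f := fun t => g t + 2) (fun _ _ => Nat.zero_le _)
      (Finset.mem_univ t)
  obtain ⟨A, hA⟩ : ∃ A : ℕ, A = ∑ t : Option κ, (M0 + (gg + 2) ^ 2 * e0 t + c1) := ⟨_, rfl⟩
  obtain ⟨A', hA'⟩ : ∃ A' : ℕ, A' = M0 + (1 + gg) * dt * e0 none + c1 := ⟨_, rfl⟩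
  refine ⟨C * ((A + 1) ^ (n + 1) * (A' + 1) ^ (n + 1)), fun m N hm1 hind => ?_⟩
  obtain ⟨ω, hlin, hsec⟩ := hind
  -- the exponents
  have hex : ∀ t, ∃ mm : ℕ, m ≤ mm * (g t + 3) ∧ mm * (g t + 3) ≤ m + g t + 2 := by
    intro t
    refine ⟨(m + g t + 2) / (g t + 3), ?_, ?_⟩
    · have h1 := Nat.div_add_mod (m + g t + 2) (g t + 3)
      have h2 := Nat.mod_lt (m + g t + 2) (by omega : 0 < g t + 3)
      have h3 : (m + g t + 2) / (g t + 3) * (g t + 3) =
        (g t + 3) * ((m + g t + 2) / (g t + 3)) := mul_comm _ _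
      omega
    · exact Nat.div_mul_le_self _ _
  choose mm hmm1 hmm2 using hex
  obtain ⟨E, hEn, hEs⟩ : ∃ E : α → ℕ, (∀ a, bl a = none → E a = m) ∧
      ∀ a t, bl a = some t → E a = mm t * (g t + 2) :=
    ⟨fun a => (bl a).elim m fun t => mm t * (g t + 2), fun a h => by
      dsimp only
      rw [h]
      rfl, fun a t h => by
      dsimp only
      rw [h]
      rfl⟩
  have hEle : ∀ a, E a ≤ m + gg := by
    intro a
    rcases hb : bl a with _ | t
    · rw [hEn a hb]
      omega
    · rw [hEs a t hb]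
      have h1 := hmm2 t
      have h2 := hgle t
      have h3 : mm t * (g t + 2) ≤ mm t * (g t + 3) := Nat.mul_le_mul_left _ (by omega)
      omega
  obtain ⟨Λ, hΛ⟩ : ∃ Λ : K, Λ = ∏ a, ((aeval X (lam a) : fixedField G) : K) ^ E a :=
    ⟨_, rfl⟩
  have hlamK : ∀ a, ((aeval X (lam a) : fixedField G) : K) ≠ 0 := by
    intro a
    have := hX.ne (hlam0 a)
    simpa using this
  have hΛ0 : Λ ≠ 0 := by
    rw [hΛ]
    exact Finset.prod_ne_zero_iff.2 fun j _ => pow_ne_zero _ (hlamK j)
  have hordΛ : ∀ (v : Place k (fixedField G)) (w : Place k K) (e : ℕ), Over w v e →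
      w.ord Λ = e * ∑ a, (E a : ℤ) * v.ord (aeval X (lam a)) := by
    intro v w e h
    rw [hΛ, ord_prod' w Finset.univ _ fun j _ => pow_ne_zero _ (hlamK j), Finset.mul_sum]
    refine Finset.sum_congr rfl fun j _ => ?_
    rw [w.ord_pow]
    have := h.2 (aeval X (lam j))
    change w.ord ((aeval X (lam j) : fixedField G) : K) = _ at this
    rw [this]
    ring
  have hmain := hC (fun t => t.elim (M0 + (m + gg) * dt * e0 none)
    fun t => M0 + (gg + 2) ^ 2 * e0 (some t)) N
    (fun l => ω l D * Λ) (lin_sec hZ hD hlin (fun l => (hsec l).1) hΛ0) ?_ ?_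
  · -- the final count
    refine hmain.trans ?_
    have hfac : ∀ b : Fin (n + 1), (((τ b).elim (M0 + (m + gg) * dt * e0 none)
        fun t => M0 + (gg + 2) ^ 2 * e0 (some t)) + c1) ≤
          (A + 1) * (A' + 1) * (if (∀ t, b ∉ B t) then m else 1) := by
      intro b
      by_cases h : ∃ t, b ∈ B t
      · have h1 : τ b = some h.choose := dif_pos h
        have h2 : ¬ ∀ t, b ∉ B t := by
          push Not
          exact h
        rw [h1, if_neg h2, mul_one]
        have h3 : M0 + (gg + 2) ^ 2 * e0 (some h.choose) + c1 ≤ A := by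
          rw [hA]
          exact Finset.single_le_sum (f := fun t : Option κ => M0 + (gg + 2) ^ 2 * e0 t + c1)
            (fun _ _ => Nat.zero_le _) (Finset.mem_univ (some h.choose))
        calc _ ≤ A := h3
          _ ≤ (A + 1) * 1 := by omega
          _ ≤ (A + 1) * (A' + 1) := Nat.mul_le_mul_left _ (by omega)
      · have h1 : τ b = none := dif_neg h
        have h2 : ∀ t, b ∉ B t := by
          push Not at h
          exact h
        rw [h1, if_pos h2]
        change M0 + (m + gg) * dt * e0 none + c1 ≤ _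
        have h3 : m + gg ≤ (1 + gg) * m := by nlinarith
        have h4 : (m + gg) * (dt * e0 none) ≤ (1 + gg) * m * (dt * e0 none) :=
          Nat.mul_le_mul_right _ h3
        have h5 : M0 ≤ M0 * m := Nat.le_mul_of_pos_right _ (by omega)
        have h6 : c1 ≤ c1 * m := Nat.le_mul_of_pos_right _ (by omega)
        calc M0 + (m + gg) * dt * e0 none + c1
            = M0 + (m + gg) * (dt * e0 none) + c1 := by ring
          _ ≤ M0 * m + (1 + gg) * m * (dt * e0 none) + c1 * m := by omega
          _ = A' * m := by rw [hA']; ring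
          _ ≤ (A' + 1) * m := Nat.mul_le_mul_right _ (by omega)
          _ ≤ (A + 1) * ((A' + 1) * m) := Nat.le_mul_of_pos_left _ (by omega)
          _ = _ := by ring
    calc C * ∏ b, (((τ b).elim (M0 + (m + gg) * dt * e0 none)
          fun t => M0 + (gg + 2) ^ 2 * e0 (some t)) + c1)
        ≤ C * ∏ b : Fin (n + 1), ((A + 1) * (A' + 1) * (if (∀ t, b ∉ B t) then m else 1)) :=
          Nat.mul_le_mul_left _ (Finset.prod_le_prod' fun b _ => hfac b)
      _ = _ := by
          rw [Finset.prod_mul_distrib, Finset.prod_const, Finset.card_univ, Fintype.card_fin,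
            Finset.prod_ite, Finset.prod_const, Finset.prod_const_one, mul_one, mul_pow]
          ring
  · -- the places of the irreducible polynomials
    intro l p hp v hvp hv
    obtain ⟨w, e, h, hcase⟩ := H1 p hp v hvp hv
    refine ⟨w, e, h, fun g' hg' => ?_⟩
    have h' := over_comp h hg'
    obtain ⟨b, hb0, hb⟩ := exists_pderiv hp
    have hDb : D b (algebraMap (fixedField G) K (aeval X p)) =
        algebraMap (fixedField G) K (aeval X (pderiv b p)) := by
      rw [← Pool.Agent.TH122.AB.aeval_coe, ← Pool.Agent.TH122.AB.aeval_coe]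
      exact der_aeval (hD b) p
    have hjac := jac htr hfd h' (div_adic hX hp hv h') D (fun j => (X j : K)) hZ hD
      (fun i z hz => pres_adic hX hp hv h' (hD i) hz) hvp b (by
        rw [hDb, Ne, map_eq_zero]
        exact hX.ne hb0) (by
        rw [hDb, h'.2, (hv _ hb0).2.2 hb, mul_zero]) S m (ω l) (hsec l)
    rcases hjac with h1 | ⟨s, hs, hs0, hle⟩
    · left
      rw [h1, zero_mul]
    · by_cases hz : ω l D = 0
      · left
        rw [hz, zero_mul]
      right
      refine ⟨s, hs, hs0, ?_⟩
      rw [← Place.comp_ord, ← Place.comp_ord, (w.comp g').ord_mul hz hΛ0, hordΛ v _ e h']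
      have hnn : ∀ a, 0 ≤ v.ord (aeval X (lam a)) := fun a => (hv _ (hlam0 a)).1
      have he1 : (1 : ℤ) ≤ e := by exact_mod_cast h.1
      have hm0 : (0 : ℤ) ≤ m := by positivity
      have hterm : ∀ a, 0 ≤ (E a : ℤ) * v.ord (aeval X (lam a)) := fun a =>
        mul_nonneg (by positivity) (hnn a)
      rcases hcase with he | ⟨a, ha, he⟩
      · have h2 : 0 ≤ (e : ℤ) * ∑ a, (E a : ℤ) * v.ord (aeval X (lam a)) :=
          mul_nonneg (by positivity) (Finset.sum_nonneg fun a _ => hterm a)
        rw [he] at hle h2 ⊢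
        push_cast at hle h2 ⊢
        linarith
      · have h2 : (E a : ℤ) * v.ord (aeval X (lam a)) ≤
            ∑ a, (E a : ℤ) * v.ord (aeval X (lam a)) :=
          Finset.single_le_sum (f := fun a => (E a : ℤ) * v.ord (aeval X (lam a)))
            (fun a _ => hterm a) (Finset.mem_univ a)
        have h3 : 1 ≤ v.ord (aeval X (lam a)) := by
          have h4 : v.ord (aeval X (lam a)) ≠ 0 := fun h5 => (hv _ (hlam0 a)).2.1 h5 ha
          have h5 := hnn a
          omega
        have h4 : (m : ℤ) * ((e : ℤ) - 1) ≤ e * ((E a : ℤ) * v.ord (aeval X (lam a))) := by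
          rcases hb : bl a with _ | t
          · rw [hEn a hb]
            have h5 : (m : ℤ) * 1 ≤ m * v.ord (aeval X (lam a)) :=
              mul_le_mul_of_nonneg_left h3 hm0
            have h6 : (e : ℤ) * (m * 1) ≤ e * (m * v.ord (aeval X (lam a))) :=
              mul_le_mul_of_nonneg_left h5 (by positivity)
            nlinarith
          · rw [hEs a t hb]
            have h5 : (m : ℤ) ≤ mm t * ((g t : ℤ) + 3) := by exact_mod_cast hmm1 t
            have h6 : (e : ℤ) ≤ (g t : ℤ) + 3 := by exact_mod_cast he t hb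
            have h7 := ineq_adic hm0 h5 he1 h6 h3 (by positivity) (by positivity)
            push_cast
            calc (m : ℤ) * ((e : ℤ) - 1) ≤ _ := h7
              _ = _ := by ring
        have h5 : (e : ℤ) * ((E a : ℤ) * v.ord (aeval X (lam a))) ≤
            e * ∑ a, (E a : ℤ) * v.ord (aeval X (lam a)) :=
          mul_le_mul_of_nonneg_left h2 (by positivity)
        linarith
  · -- the places at infinity
    intro l t g' hg'
    have h' := over_comp (h0 t) hg'
    by_cases hz : ω l D = 0
    · left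
      rw [hz, zero_mul, map_zero]
    right
    obtain ⟨s, hs, hle⟩ := (hjac0 t _ h' S m (ω l) (hsec l)).resolve_left hz
    have hMs := hM0 t g' hg' s hs
    rw [Place.comp_ord] at hle
    rw [← Place.comp_ord, ((w0 t).comp g').ord_mul hz hΛ0, hordΛ (v0 t) _ (e0 t) h']
    have he1 : (1 : ℤ) ≤ e0 t := by exact_mod_cast (h0 t).1
    have hm0 : (0 : ℤ) ≤ m := by positivity
    rcases t with _ | t
    · -- the whole space
      have hsum : -(((m + gg) * dt : ℕ) : ℤ) ≤ ∑ a, (E a : ℤ) * (v0 none).ord (aeval X (lam a)) := by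
        have h1 : ∀ a, (E a : ℤ) * (v0 none).ord (aeval X (lam a)) =
            - ((E a * degB Finset.univ (lam a) : ℕ) : ℤ) := by
          intro a
          rw [hdeg none _ (hlam0 a)]
          push_cast
          have h2 : (none : Option κ).elim Finset.univ B = Finset.univ := rfl
          rw [h2]
          ring
        rw [Finset.sum_congr rfl fun a _ => h1 a, Finset.sum_neg_distrib, neg_le_neg_iff,
          ← Nat.cast_sum, Nat.cast_le, hdt, Finset.mul_sum]
        exact Finset.sum_le_sum fun a _ => Nat.mul_le_mul_right _ (hEle a)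
      have h2 : (e0 none : ℤ) * (-(((m + gg) * dt : ℕ) : ℤ)) ≤
          e0 none * ∑ a, (E a : ℤ) * (v0 none).ord (aeval X (lam a)) :=
        mul_le_mul_of_nonneg_left hsum (by positivity)
      have h3 : (m : ℤ) * ((e0 none : ℤ) - 1) ≤ m * ((((none : Option κ).elim Finset.univ B :
          Finset (Fin (n + 1))).card + 1 : ℤ) * e0 none) := by
        apply mul_le_mul_of_nonneg_left _ hm0
        nlinarith [Int.natCast_nonneg ((none : Option κ).elim Finset.univ B :
          Finset (Fin (n + 1))).card]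
      change -(((M0 + (m + gg) * dt * e0 none : ℕ)) : ℤ) ≤ _
      push_cast at h2 ⊢
      linarith
    · -- a block
      have hsum : ∑ a, (E a : ℤ) * (v0 (some t)).ord (aeval X (lam a)) =
          - ((mm t : ℤ) * (g t + 2) * ((∑ a, degB (B t) (lam a) : ℕ) : ℤ)) := by
        push_cast
        rw [Finset.mul_sum, ← Finset.sum_neg_distrib]
        refine Finset.sum_congr rfl fun a _ => ?_
        rw [hdeg (some t) _ (hlam0 a)]
        change (E a : ℤ) * - (degB (B t) (lam a) : ℤ) = _
        by_cases hb : bl a = some t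
        · rw [hEs a t hb]
          push_cast
          ring
        · rw [hdeg1 t a hb]
          simp
      rw [hsum]
      obtain ⟨δ, hδ⟩ : ∃ δ : ℕ, δ = ∑ a, degB (B t) (lam a) := ⟨_, rfl⟩
      rw [← hδ]
      have hδ1 : δ ≤ g t + 3 := by
        rw [hδ]
        exact hdeg2 t
      have hmm1' : (m : ℤ) ≤ mm t * ((g t : ℤ) + 3) := by exact_mod_cast hmm1 t
      have hmm2' : (mm t : ℤ) * ((g t : ℤ) + 3) ≤ m + g t + 2 := by exact_mod_cast hmm2 t
      have key := ineq_inf (δ := δ) hm0 hmm1' hmm2' he1 (by positivity : (0 : ℤ) ≤ g t)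
        (by positivity) (by
        rcases hcase0 (some t) t rfl with he | ⟨he, hj⟩
        · exact Or.inl ⟨by exact_mod_cast he, by exact_mod_cast hδ1⟩
        · refine Or.inr ⟨by exact_mod_cast he, ?_⟩
          rw [← hδ] at hj
          exact_mod_cast hj)
      have hcard : ((((some t : Option κ).elim Finset.univ B : Finset (Fin (n + 1))).card : ℤ)) =
          (g t : ℤ) + 1 := by
        change ((B t).card : ℤ) = _
        rw [hg t]
        push_cast
        ring
      rw [hcard] at hle
      have h4 : ((g t : ℤ) + 2) ^ 2 * e0 (some t) ≤ ((gg : ℤ) + 2) ^ 2 * e0 (some t) := by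
        apply mul_le_mul_of_nonneg_right _ (by positivity)
        have h5 : (g t : ℤ) + 2 ≤ (gg : ℤ) + 2 := by
          have := hgle t
          have h6 : (g t : ℤ) + 2 ≤ gg := by exact_mod_cast this
          linarith
        exact pow_le_pow_left₀ (by positivity) h5 2
      change -(((M0 + (gg + 2) ^ 2 * e0 (some t) : ℕ)) : ℤ) ≤ _
      push_cast
      nlinarith

end

end Pool.Agent.TH756.PN
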