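import Pool.Agent.TH122.AB.Lin
import Pool.Agent.TH756.PN.Nu
import Pool.Agent.TH756.PR.Cov

/-!
The numerical dimension of covers of a product of projective spaces.
-/

set_option autoImplicit false
set_option linter.overlappingInstances false
set_option linter.unusedSectionVars false

open FF IntermediateField Pool.Agent.W603.LV Pool.Agent.W602.GT Pool.Agent.W602.Cov
open Pool.Agent.W602.Cov.G Pool.Agent.TH152.AC Pool.Agent.W619.PQ
open Pool.Agent.TH122.AB Pool.Agent.TH756.PR
open MvPolynomial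

namespace Pool.Agent.TH756.PN

section

variable {n : ℕ}

theorem degB_lp_le (B : Finset (Fin (n + 1))) (φ : Form (n + 1)) : degB B (lp φ) ≤ 1 := by
  classical
  unfold degB
  refine Finset.sup_le fun m hm => ?_
  refine le_trans ?_ (lp_deg φ)
  refine le_trans ?_ (le_totalDegree hm)
  rw [Finsupp.sum_fintype _ _ fun _ => rfl]
  exact Finset.sum_le_univ_sum_of_nonneg fun _ => Nat.zero_le _

theorem degB_lp_zero {B : Finset (Fin (n + 1))} {φ : Form (n + 1)}
    (h : ∀ j ∈ B, φ (Pi.single j.succ 1) = 0) : degB B (lp φ) = 0 := by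
  classical
  apply Nat.eq_zero_of_le_zero
  unfold degB
  refine Finset.sup_le fun m hm => ?_
  by_contra hcon
  have h1 : ∑ b ∈ B, m b ≠ 0 := by omega
  obtain ⟨b, hb, hmb⟩ := Finset.exists_ne_zero_of_sum_ne_zero h1
  have h2 : m = Finsupp.single b 1 := by
    have h3 : ∑ b, m b ≤ 1 := by
      refine le_trans ?_ (lp_deg φ)
      refine le_trans ?_ (le_totalDegree hm)
      rw [Finsupp.sum_fintype _ _ fun _ => rfl]
    rw [← Finset.add_sum_erase _ _ (Finset.mem_univ b)] at h3
    ext a
    by_cases ha : a = b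
    · subst ha
      rw [Finsupp.single_eq_same]
      omega
    · rw [Finsupp.single_apply, if_neg (Ne.symm ha)]
      have h4 : m a ≤ ∑ b ∈ Finset.univ.erase b, m b :=
        Finset.single_le_sum (f := fun a => m a) (fun _ _ => Nat.zero_le _)
          (Finset.mem_erase.2 ⟨ha, Finset.mem_univ a⟩)
      omega
  rw [mem_support_iff, h2, coeff_lp_single] at hm
  exact hm (h b hb)

theorem degB_lp_pos {B : Finset (Fin (n + 1))} {φ : Form (n + 1)} {j : Fin (n + 1)} (hj : j ∈ B)
    (h : φ (Pi.single j.succ 1) ≠ 0) : degB B (lp φ) = 1 := by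
  classical
  refine le_antisymm (degB_lp_le B φ) ?_
  have h1 : Finsupp.single j 1 ∈ (lp φ).support := by
    rw [mem_support_iff, coeff_lp_single]
    exact h
  refine le_trans ?_ (sum_le_degB h1)
  rw [Finset.sum_eq_single j]
  · rw [Finsupp.single_eq_same]
  · intro b _ hb
    rw [Finsupp.single_apply, if_neg (Ne.symm hb)]
  · intro h2
    exact absurd hj h2

theorem lp_const {φ : Form (n + 1)} (h : ∀ j : Fin (n + 1), φ (Pi.single j.succ 1) = 0) :
    lp φ = C (φ (Pi.single 0 1)) := by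
  unfold Pool.Agent.TH122.AB.lp
  rw [Finset.sum_eq_zero, add_zero]
  intro j _
  rw [h j, C_0, zero_mul]

end

open scoped Classical in
/-- all multiplicities of the hyperplanes in the factor `t` are `n t + 2` -/
def CalabiP {r N Q R : ℕ} {n q : Fin r → ℕ} (X : Cover N Q R)
    (e' : ((i : Fin r) × Fin (q i)) ≃ Fin Q)
    (ℓ : ∀ i, Fin (q i) → Form (n i)) (t : Fin r) (c : Fin (n t + 2) → Fin (q t)) : Prop :=
  ∀ j k, X.m k ∣ ∑ i, X.e k (e' ⟨t, i⟩) *
    (if ∃ s : ℂ, ℓ t i = s • ℓ t (c j) then n t + 2 else 0)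

section

variable {r N Q R : ℕ} {n q : Fin r → ℕ} (e : ((i : Fin r) × Fin (n i)) ≃ Fin (N + 1))
  (e' : ((i : Fin r) × Fin (q i)) ≃ Fin Q) {ℓ : ∀ i, Fin (q i) → Form (n i)}

theorem pos_ne {i : Fin r} {j : Fin (n i + 1)} {b : Fin (N + 1)} (h : (e.symm b).1 ≠ i) :
    pos e i j ≠ b.succ := by
  intro h1
  have h2 : pos e (e.symm b).1 (e.symm b).2.succ = pos e i j := by
    rw [h1, pos_succ]
    congr 1
    exact e.apply_symm_apply b
  exact h (pos_inj e h2)

theorem lift_single_ne {i : Fin r} (φ : Form (n i)) {b : Fin (N + 1)} (h : (e.symm b).1 ≠ i) :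
    lift e i φ (Pi.single b.succ 1) = 0 := by
  rw [lift_apply]
  have h1 : (fun j => (Pi.single b.succ 1 : Fin (N + 1 + 1) → ℂ) (pos e i j)) = 0 := by
    funext j
    rw [Pi.single_apply, if_neg (pos_ne e h)]
    rfl
  rw [h1, map_zero]

theorem lift_single (i : Fin r) (φ : Form (n i)) (j : Fin (n i)) :
    lift e i φ (Pi.single (e ⟨i, j⟩).succ 1) = φ (Pi.single j.succ 1) := by
  rw [lift_apply]
  congr 1
  funext j'
  rw [Pi.single_apply, Pi.single_apply]
  by_cases h : j' = j.succ
  · subst h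
    rw [if_pos rfl, pos_succ, if_pos rfl]
  · rw [if_neg h, if_neg]
    revert h
    refine Fin.cases (fun _ => ?_) (fun j' h => ?_) j'
    · rw [pos_zero]
      exact (Fin.succ_ne_zero _).symm
    · rw [pos_succ]
      intro h1
      have h2 := e.injective (Fin.succ_injective _ h1)
      apply h
      have h3 : j' = j := by simpa using h2
      rw [h3]

theorem lift_smul (i : Fin r) (s : ℂ) (φ : Form (n i)) : lift e i (s • φ) = s • lift e i φ := by
  ext z
  simp [lift_apply]

theorem lift_single_zero (i : Fin r) (φ : Form (n i)) :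
    lift e i φ (Pi.single 0 1) = φ (Pi.single 0 1) := by
  rw [lift_apply]
  congr 1
  funext j'
  rw [Pi.single_apply, Pi.single_apply]
  refine Fin.cases ?_ (fun j' => ?_) j'
  · rw [pos_zero, if_pos rfl, if_pos rfl]
  · rw [pos_succ, if_neg (Fin.succ_ne_zero _), if_neg (Fin.succ_ne_zero _)]

theorem lift_inj {i : Fin r} {φ φ' : Form (n i)} (h : lift e i φ = lift e i φ') : φ = φ' := by
  apply LinearMap.pi_ext'
  intro j
  apply LinearMap.ext_ring
  refine Fin.cases ?_ (fun j => ?_) j
  · have h1 := lift_single_zero e i φ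
    rw [h, lift_single_zero] at h1
    simpa using h1.symm
  · have h1 := lift_single e i φ j
    rw [h, lift_single] at h1
    simpa using h1.symm

/-- the block of variables of a factor -/
def bk (t : Fin r) : Finset (Fin (N + 1)) := Finset.univ.filter fun b => (e.symm b).1 = t

theorem mem_bk {t : Fin r} {b : Fin (N + 1)} : b ∈ bk e t ↔ (e.symm b).1 = t := by
  unfold bk
  simp

theorem card_bk (t : Fin r) : (bk e t).card = n t := by
  classical
  have h1 : bk e t = (Finset.univ : Finset (Fin (n t))).map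
      ⟨fun j => e ⟨t, j⟩, fun j j' h => by simpa using h⟩ := by
    ext b
    rw [mem_bk, Finset.mem_map]
    constructor
    · rintro rfl
      exact ⟨(e.symm b).2, Finset.mem_univ _, e.apply_symm_apply b⟩
    · rintro ⟨j, -, rfl⟩
      change (e.symm (e ⟨t, j⟩)).1 = t
      rw [e.symm_apply_apply]
  rw [h1, Finset.card_map, Finset.card_univ, Fintype.card_fin]

theorem card_free (I : Finset (Fin r)) :
    (Finset.univ.filter fun b : Fin (N + 1) => ∀ t : {i : Fin r // i ∉ I}, b ∉ bk e t.1).card =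
      ∑ i ∈ I, n i := by
  classical
  have h1 : (Finset.univ.filter fun b : Fin (N + 1) => ∀ t : {i : Fin r // i ∉ I}, b ∉ bk e t.1) =
      I.biUnion fun t => bk e t := by
    ext b
    rw [Finset.mem_filter, Finset.mem_biUnion]
    constructor
    · rintro ⟨-, h⟩
      refine ⟨(e.symm b).1, ?_, (mem_bk e).2 rfl⟩
      by_contra h2
      exact h ⟨_, h2⟩ ((mem_bk e).2 rfl)
    · rintro ⟨i, hi, hb⟩
      refine ⟨Finset.mem_univ _, fun t ht => t.2 ?_⟩
      rw [mem_bk] at hb ht
      rw [← ht, hb]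
      exact hi
  rw [h1, Finset.card_biUnion]
  · exact Finset.sum_congr rfl fun i _ => card_bk e i
  · intro i _ i' _ hne
    rw [Function.onFun, Finset.disjoint_left]
    intro b hb hb'
    rw [mem_bk] at hb hb'
    exact hne (hb.symm.trans hb')

theorem degB_lift_ne {t i : Fin r} (h : i ≠ t) (φ : Form (n i)) :
    degB (bk e t) (lp (lift e i φ)) = 0 := by
  apply degB_lp_zero
  intro b hb
  rw [mem_bk] at hb
  exact lift_single_ne e φ (by rw [hb]; exact h.symm)

theorem degB_lift_zero {i : Fin r} {φ : Form (n i)} (h : ∃ s : ℂ, φ = s • LinearMap.proj 0) :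
    degB (bk e i) (lp (lift e i φ)) = 0 := by
  obtain ⟨s, rfl⟩ := h
  apply degB_lp_zero
  intro b hb
  rw [mem_bk] at hb
  subst hb
  have h1 : b = e ⟨(e.symm b).1, (e.symm b).2⟩ := (e.apply_symm_apply b).symm
  have h2 := lift_single e (e.symm b).1 (s • LinearMap.proj 0) (e.symm b).2
  rw [← h1] at h2
  rw [h2]
  simp

theorem degB_lift_one {i : Fin r} {φ : Form (n i)} (h : ¬ ∃ s : ℂ, φ = s • LinearMap.proj 0) :
    degB (bk e i) (lp (lift e i φ)) = 1 := by
  obtain ⟨j, hj⟩ : ∃ j : Fin (n i), φ (Pi.single j.succ 1) ≠ 0 := by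
    by_contra hcon
    push Not at hcon
    apply h
    refine ⟨φ (Pi.single 0 1), ?_⟩
    apply LinearMap.pi_ext'
    intro j
    apply LinearMap.ext_ring
    refine Fin.cases ?_ (fun j => ?_) j
    · simp
    · simp [hcon j]
  refine degB_lp_pos (j := e ⟨i, j⟩) ?_ ?_
  · rw [mem_bk, e.symm_apply_apply]
  · rw [lift_single]
    exact hj

variable {K : Type} [Field K] [Algebra ℂ K] {z : Fin (N + 1 + 1) → K} {y : Fin R → K}

theorem nuP (hn : ∀ i, 1 ≤ n i) (X : Cover (N + 1) Q R) (hF : X.Free)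
    (hK : X.FunctionField K z y) (hX : ∀ i k, X.ℓ (e' ⟨i, k⟩) = lift e i (ℓ i k))
    (h0 : ∀ i, ∃ (k : Fin (q i)) (c : ℂ), ℓ i k = c • LinearMap.proj 0)
    (hdeg : ∀ j i, X.m j ∣ ∑ k, X.e j (e' ⟨i, k⟩)) (I : Finset (Fin r))
    (c : ∀ i, Fin (n i + 2) → Fin (q i)) (hc : ∀ i, i ∉ I → General (ℓ i) (c i))
    (hcal : ∀ i, i ∉ I → CalabiP X e' ℓ i (c i)) :
    Pool.Agent.W619.TW.NumLe ℂ K (N + 1) (fun _ => False) (∑ i ∈ I, n i) := by
  classical
  have hcK : CharZero K := charZero_of_injective_algebraMap (algebraMap ℂ K).injective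
  obtain ⟨hlx, hx0, hbas⟩ := coords X hK
  have hr : Nonempty (Fin r) := ⟨(e.symm 0).1⟩
  obtain ⟨r0⟩ := hr
  choose kinf cinf hinf using h0
  have hℓ : ∀ i k, ℓ i k ≠ 0 := forms_ne e e' hX
  have hcinf : ∀ i, cinf i ≠ 0 := by
    intro i h
    apply hℓ i (kinf i)
    rw [hinf i, h, zero_smul]
  -- divisibility by an irreducible polynomial
  have hunit : ∀ p : MvPolynomial (Fin (N + 1)) ℂ, Irreducible p → ∀ ψ : Form (N + 1), ψ ≠ 0 →
      (∀ j : Fin (N + 1), ψ (Pi.single j.succ 1) = 0) → ¬ p ∣ lp ψ := by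
    intro p hp ψ hψ h hd
    rw [lp_const h] at hd
    apply hp.not_isUnit
    refine isUnit_of_dvd_unit hd ((isUnit_iff_ne_zero.2 fun h1 => ?_).map C)
    apply lp_ne hψ
    rw [lp_const h, h1, C_0]
  have hliftinf : ∀ i, ∀ j : Fin (N + 1),
      lift e i (ℓ i (kinf i)) (Pi.single j.succ 1) = 0 := by
    intro i j
    rw [hinf i, lift_apply]
    simp [pos_zero]
  obtain ⟨S, hSfin, hS0, hgen, hS⟩ := exists_gens X hF hK (e' ⟨r0, kinf r0⟩)
  obtain ⟨E, hE⟩ : ∃ E, E = IntermediateField.adjoin ℂ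
    (Set.range fun j : Fin (N + 1) => z j.succ / z 0) := ⟨_, rfl⟩
  have hEmem : ∀ j : Fin (N + 1), z j.succ / z 0 ∈ E := by
    intro j
    rw [hE]
    exact IntermediateField.subset_adjoin ℂ _ ⟨j, rfl⟩
  have hM := pow_mem_of X (hF := hF) hK (e' ⟨r0, kinf r0⟩) hS hEmem
  have hMpos : 0 < X.d * ∏ k, X.m k :=
    Nat.mul_pos X.hd (Finset.prod_pos fun k _ => X.hm k)
  have hgen' : ∀ L : IntermediateField ℂ K, E ≤ L → S ⊆ L → L = ⊤ := fun L hL hSL =>
    hgen L (fun j => hL (hEmem j)) hSL
  obtain ⟨hfd, hgal⟩ := galois_of_roots E hSfin hgen' hMpos hM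
  obtain ⟨hfinG, hfix⟩ := fixing_props E
  obtain ⟨G, hG⟩ : ∃ G, G = E.fixingSubgroup := ⟨_, rfl⟩
  rw [← hG] at hfinG hfix
  have hGmem : ∀ j : Fin (N + 1), z j.succ / z 0 ∈ fixedField G := by
    intro j
    rw [hfix]
    exact hEmem j
  let X0 : Fin (N + 1) → fixedField G := fun j => ⟨z j.succ / z 0, hGmem j⟩
  have hX0 : Gens (k := ℂ) X0 := gens_of hbas.1 (hfix.trans hE) fun j => rfl
  have hcoe : ∀ P : MvPolynomial (Fin (N + 1)) ℂ, ((aeval X0 P : fixedField G) : K) =
      aeval (fun j : Fin (N + 1) => z j.succ / z 0) P := by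
    intro P
    exact (MvPolynomial.aeval_algebraMap_apply K X0 P).symm
  let L : Fin Q → fixedField G := fun i => aeval X0 (lp (X.ℓ i))
  have hL : ∀ i, (L i : K) = lf (X.ℓ i) z / z 0 := by
    intro i
    change ((aeval X0 (lp (X.ℓ i)) : fixedField G) : K) = _
    rw [hcoe, lp_aeval hx0]
  -- the forms in a block with `n + 2` hyperplanes
  have hsumdeg : ∀ t : {i : Fin r // i ∉ I},
      ∑ j, degB (bk e t.1) (lp (lift e t.1 (ℓ t.1 (c t.1 j)))) ≤ n t.1 + 1 := by
    intro t
    obtain ⟨j, s, hs⟩ := (hc t.1 t.2).2 (kinf t.1)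
    have hs0 : s ≠ 0 := by
      rintro rfl
      apply hℓ t.1 (kinf t.1)
      rw [hs, zero_smul]
    have h1 : degB (bk e t.1) (lp (lift e t.1 (ℓ t.1 (c t.1 j)))) = 0 := by
      apply degB_lift_zero
      refine ⟨s⁻¹ * cinf t.1, ?_⟩
      rw [mul_smul, ← hinf, hs, smul_smul, inv_mul_cancel₀ hs0, one_smul]
    rw [← Finset.add_sum_erase _ _ (Finset.mem_univ j), h1, zero_add]
    calc ∑ j ∈ Finset.univ.erase j, degB (bk e t.1) (lp (lift e t.1 (ℓ t.1 (c t.1 j))))
        ≤ ∑ j ∈ Finset.univ.erase j, 1 := Finset.sum_le_sum fun j _ => degB_lp_le _ _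
      _ = n t.1 + 1 := by simp
  obtain ⟨lam, hlam⟩ : ∃ lam : ((t : {i : Fin r // i ∉ I}) × Fin (n t.1 + 2)) ⊕
      ((t : {i : Fin r // i ∈ I}) × Fin (q t.1)) → MvPolynomial (Fin (N + 1)) ℂ,
      lam = Sum.elim (fun a => lp (lift e a.1.1 (ℓ a.1.1 (c a.1.1 a.2))))
        fun a => lp (lift e a.1.1 (ℓ a.1.1 a.2)) := ⟨_, rfl⟩
  have hlaml : ∀ a, lam (Sum.inl a) = lp (lift e a.1.1 (ℓ a.1.1 (c a.1.1 a.2))) := by
    intro a
    rw [hlam]
    rfl
  have hlamr : ∀ a, lam (Sum.inr a) = lp (lift e a.1.1 (ℓ a.1.1 a.2)) := by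
    intro a
    rw [hlam]
    rfl
  clear hlam
  have hdegsum : ∀ t : {i : Fin r // i ∉ I}, ∑ a, degB (bk e t.1) (lam a) ≤ n t.1 + 1 := by
    intro t
    rw [Fintype.sum_sum_type]
    have h2 : ∑ a, degB (bk e t.1) (lam (Sum.inr a)) = 0 := by
      refine Finset.sum_eq_zero fun a _ => ?_
      rw [hlamr]
      refine degB_lift_ne e ?_ _
      intro h2
      apply t.2
      rw [← h2]
      exact a.1.2
    have h1 : ∑ a, degB (bk e t.1) (lam (Sum.inl a)) =
        ∑ j, degB (bk e t.1) (lp (lift e t.1 (ℓ t.1 (c t.1 j)))) := by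
      rw [Fintype.sum_sigma, Finset.sum_eq_single t]
      · exact Finset.sum_congr rfl fun j _ => by rw [hlaml]
      · intro t' _ ht'
        refine Finset.sum_eq_zero fun j _ => ?_
        rw [hlaml]
        exact degB_lift_ne e (fun h2 => ht' (Subtype.ext h2)) _
      · intro h
        exact absurd (Finset.mem_univ _) h
    rw [h2, h1, add_zero]
    exact hsumdeg t
  have hlp : ∀ i (s : ℂ) (φ : Form (n i)), lp (lift e i (s • φ)) = C s * lp (lift e i φ) := by
    intro i s φ
    rw [lift_smul, lp_smul]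
  rw [← card_free e I]
  refine numLe_blocks G hX0 hbas ?_ (fun t : {i : Fin r // i ∉ I} => bk e t.1)
    (fun t => e ⟨t.1, ⟨0, hn t.1⟩⟩) (fun t => ?_) (fun t => n t.1 - 1)
    (fun t => ?_) lam
    (fun a => ?_) (Sum.elim (fun a => some a.1) fun _ => none) (fun t a ha => ?_) (fun t => ?_)
    ?_ ?_
  · -- finiteness
    intro t ht
    have halg : Algebra.IsAlgebraic (IntermediateField.adjoin ℂ (Set.range t)) K :=
      ht.isAlgebraic_field
    refine (fin_of_gen (IntermediateField.adjoin ℂ (Set.range t))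
      (S := S ∪ Set.range fun j : Fin (N + 1) => z j.succ / z 0)
      (hSfin.union (Set.finite_range _)) (fun L _ hSL => ?_)
      (fun z _ => (Algebra.IsAlgebraic.isAlgebraic z).isIntegral)).1
    exact hgen L (fun j => hSL (Or.inr ⟨j, rfl⟩)) (fun z hz => hSL (Or.inl hz))
  · rw [mem_bk, e.symm_apply_apply]
  · rw [card_bk]
    have := hn t.1
    omega
  · rcases a with a | a
    · rw [hlaml]
      apply lp_ne
      rw [← hX]
      exact X.hℓ _
    · rw [hlamr]
      apply lp_ne
      rw [← hX]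
      exact X.hℓ _
  · rcases a with a | a
    · rw [hlaml]
      have h1 : a.1 ≠ t := by
        intro h1
        apply ha
        rw [← h1]
        rfl
      exact degB_lift_ne e (fun h2 => h1 (Subtype.ext h2)) _
    · rw [hlamr]
      refine degB_lift_ne e ?_ _
      intro h2
      apply t.2
      rw [← h2]
      exact a.1.2
  · have h1 := hdegsum t
    have h2 := hn t.1
    omega
  · -- the places of the irreducible polynomials
    intro p hp v hvp hv
    have hpinf : ¬ p ∣ lp (X.ℓ (e' ⟨r0, kinf r0⟩)) := by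
      refine hunit p hp _ (X.hℓ _) fun j => ?_
      rw [hX]
      exact hliftinf r0 j
    obtain ⟨w, ee, hwv, hdvd⟩ := ram X hF hK G hGmem L hL v 0
      (fun b => if p ∣ lp (X.ℓ b) then 1 else 0) (by
        intro i
        change v.ord (aeval X0 (lp (X.ℓ i))) = _
        by_cases hi : p ∣ lp (X.ℓ i)
        · rw [if_pos hi]
          obtain ⟨a, ha, hlp⟩ := dvd_lp hp (X.hℓ i) hi
          have ha1 : algebraMap ℂ (fixedField G) a ≠ 0 := by
            rw [Ne, map_eq_zero]
            exact ha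
          rw [hlp, map_mul, aeval_C, v.ord_mul ha1 (hX0.ne hp.ne_zero), v.ord_const ha, hvp]
          norm_num
        · rw [if_neg hi, (hv _ (lp_ne (X.hℓ i))).2.2 hi]
          norm_num) (e' ⟨r0, kinf r0⟩) (if_neg hpinf) (by
        intro htop
        have hmem : X.ℓ (e' ⟨r0, kinf r0⟩) ∈ Submodule.span ℂ
            (X.ℓ '' {b | (if p ∣ lp (X.ℓ b) then 1 else 0) ≠ 0}) := by
          rw [htop]
          trivial
        have hiff : ∀ b, (if p ∣ lp (X.ℓ b) then 1 else 0) ≠ 0 ↔ p ∣ lp (X.ℓ b) := by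
          intro b
          split_ifs with h <;> simp [h]
        by_cases hex : ∃ b, p ∣ lp (X.ℓ b)
        · obtain ⟨b1, hb1⟩ := hex
          have h2 : Submodule.span ℂ (X.ℓ '' {b | (if p ∣ lp (X.ℓ b) then 1 else 0) ≠ 0}) ≤
              Submodule.span ℂ {X.ℓ b1} := by
            rw [Submodule.span_le]
            rintro _ ⟨i, hi, rfl⟩
            obtain ⟨t, ht⟩ := par_of_dvd hp (X.hℓ b1) (X.hℓ i) hb1 ((hiff i).1 hi)
            exact Submodule.mem_span_singleton.2 ⟨t, ht.symm⟩
          obtain ⟨t, ht⟩ := Submodule.mem_span_singleton.1 (h2 hmem)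
          apply hpinf
          rw [← ht, lp_smul]
          exact Dvd.dvd.mul_left hb1 _
        · push Not at hex
          have h2 : {b | (if p ∣ lp (X.ℓ b) then 1 else 0) ≠ 0} = (∅ : Set (Fin Q)) := by
            ext b
            simp [hex b]
          rw [h2, Set.image_empty, Submodule.span_empty, Submodule.mem_bot] at hmem
          exact X.hℓ _ hmem)
    refine ⟨w, ee, hwv, ?_⟩
    by_cases hex : ∃ b, p ∣ lp (X.ℓ b)
    · right
      obtain ⟨b, hb⟩ := hex
      obtain ⟨⟨i, k⟩, rfl⟩ := e'.surjective b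
      rw [hX] at hb
      by_cases hi : i ∈ I
      · refine ⟨Sum.inr ⟨⟨i, hi⟩, k⟩, ?_, fun t ht => ?_⟩
        · rw [hlamr]
          exact hb
        · rw [Sum.elim_inr] at ht
          exact absurd ht (by simp)
      · obtain ⟨j, s, hs⟩ := (hc i hi).2 k
        have hs0 : s ≠ 0 := by
          rintro rfl
          exact hℓ i k (by rw [hs, zero_smul])
        have hj : p ∣ lp (lift e i (ℓ i (c i j))) := by
          have h1 : ℓ i (c i j) = s⁻¹ • ℓ i k := by
            rw [hs, smul_smul, inv_mul_cancel₀ hs0, one_smul]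
          rw [h1, hlp]
          exact Dvd.dvd.mul_left hb _
        refine ⟨Sum.inl ⟨⟨i, hi⟩, j⟩, ?_, fun t ht => ?_⟩
        · rw [hlaml]
          exact hj
        · rw [Sum.elim_inl] at ht
          have h1 : (⟨i, hi⟩ : {i : Fin r // i ∉ I}) = t := by simpa using ht
          subst h1
          have h2 : n i - 1 + 3 = n i + 2 := by
            have := hn i
            omega
          change ee ≤ n i - 1 + 3
          rw [h2]
          refine Nat.le_of_dvd (by omega) (hdvd (n i + 2) fun k' => ?_)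
          rw [← Equiv.sum_comp e', Fintype.sum_sigma, Finset.sum_eq_single i]
          · have h3 := hcal i hi j k'
            convert h3 using 1
            rw [Finset.mul_sum]
            refine Finset.sum_congr rfl fun k'' _ => ?_
            rw [hX]
            by_cases hd : p ∣ lp (lift e i (ℓ i k''))
            · have h4 : ∃ s : ℂ, ℓ i k'' = s • ℓ i (c i j) := by
                obtain ⟨s', hs'⟩ := par_of_dvd hp (by rw [← hX]; exact X.hℓ _)
                  (by rw [← hX]; exact X.hℓ _) hj hd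
                refine ⟨s', lift_inj e ?_⟩
                rw [hs', lift_smul]
              rw [if_pos hd, if_pos h4]
              ring
            · have h4 : ¬ ∃ s : ℂ, ℓ i k'' = s • ℓ i (c i j) := by
                rintro ⟨s', hs'⟩
                apply hd
                rw [hs', hlp]
                exact Dvd.dvd.mul_left hj _
              rw [if_neg hd, if_neg h4]
              ring
          · intro i' _ hne
            refine Finset.sum_eq_zero fun k'' _ => ?_
            rw [hX, if_neg, mul_zero]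
            intro hd
            obtain ⟨s', hs'⟩ := par_of_dvd hp (by rw [← hX]; exact X.hℓ _)
              (by rw [← hX]; exact X.hℓ _) hj hd
            refine hunit p hp _ (by rw [← hX]; exact X.hℓ _) (fun b => ?_) hd
            by_cases hbi : (e.symm b).1 = i'
            · rw [hs', LinearMap.smul_apply, lift_single_ne e _ (by rw [hbi]; exact hne),
                smul_zero]
            · exact lift_single_ne e _ hbi
          · intro h
            exact absurd (Finset.mem_univ _) h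
    · left
      push Not at hex
      refine Nat.dvd_one.1 (hdvd 1 fun k => ?_)
      rw [Finset.sum_eq_zero fun b _ => by rw [if_neg (hex b), mul_zero]]
      simp
  · -- the places at infinity
    intro t v hv
    have hpar : ∀ k, (∃ s : ℂ, ℓ t.1 k = s • LinearMap.proj 0) ↔
        degB (bk e t.1) (lp (lift e t.1 (ℓ t.1 k))) = 0 := by
      intro k
      constructor
      · exact fun h => degB_lift_zero e h
      · intro h
        by_contra h1
        rw [degB_lift_one e h1] at h
        exact one_ne_zero h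
    obtain ⟨k1, hk1⟩ : ∃ k1, ¬ ∃ s : ℂ, ℓ t.1 k1 = s • LinearMap.proj 0 := by
      by_contra hcon
      push Not at hcon
      obtain ⟨s0, hs0⟩ := hcon (c t.1 0)
      obtain ⟨s1, hs1⟩ := hcon (c t.1 1)
      have h1 : s0 ≠ 0 := by
        rintro rfl
        exact hℓ _ _ (by rw [hs0, zero_smul])
      refine not_par (hn t.1) (hc t.1 t.2) (j := 0) (j' := 1) (by simp) (s1 * s0⁻¹) ?_
      rw [hs1, hs0, smul_smul, mul_assoc, inv_mul_cancel₀ h1, mul_one]
    obtain ⟨j0, s0, hs0⟩ := (hc t.1 t.2).2 (kinf t.1)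
    have hs00 : s0 ≠ 0 := by
      rintro rfl
      apply hℓ t.1 (kinf t.1)
      rw [hs0, zero_smul]
    have hj0 : ℓ t.1 (c t.1 j0) = (s0⁻¹ * cinf t.1) • LinearMap.proj 0 := by
      rw [mul_smul, ← hinf, hs0, smul_smul, inv_mul_cancel₀ hs00, one_smul]
    have hpar' : ∀ k, (∃ s : ℂ, ℓ t.1 k = s • ℓ t.1 (c t.1 j0)) ↔
        ∃ s : ℂ, ℓ t.1 k = s • LinearMap.proj 0 := by
      intro k
      constructor
      · rintro ⟨s, hs⟩
        exact ⟨s * (s0⁻¹ * cinf t.1), by rw [hs, hj0, smul_smul]⟩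
      · rintro ⟨s, hs⟩
        refine ⟨s * (s0⁻¹ * cinf t.1)⁻¹, ?_⟩
        have h1 : s0⁻¹ * cinf t.1 ≠ 0 := mul_ne_zero (inv_ne_zero hs00) (hcinf _)
        rw [hj0, smul_smul, mul_assoc, inv_mul_cancel₀ h1, mul_one, hs]
    obtain ⟨w, ee, hwv, hdvd⟩ := ram X hF hK G hGmem L hL v (-1)
      (fun b => 1 - degB (bk e t.1) (lp (X.ℓ b))) (by
        intro b
        change v.ord (aeval X0 (lp (X.ℓ b))) = _
        rw [hv _ (lp_ne (X.hℓ b))]
        have := degB_lp_le (bk e t.1) (X.ℓ b)
        omega) (e' ⟨t.1, k1⟩) (by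
        change 1 - degB (bk e t.1) (lp (X.ℓ (e' ⟨t.1, k1⟩))) = 0
        rw [hX, degB_lift_one e hk1]) (by
        intro htop
        have hmem : X.ℓ (e' ⟨t.1, k1⟩) ∈ Submodule.span ℂ
            (X.ℓ '' {b | 1 - degB (bk e t.1) (lp (X.ℓ b)) ≠ 0}) := by
          rw [htop]
          trivial
        have h2 : ∀ ψ ∈ Submodule.span ℂ
            (X.ℓ '' {b | 1 - degB (bk e t.1) (lp (X.ℓ b)) ≠ 0}),
            ∀ b ∈ bk e t.1, ψ (Pi.single b.succ 1) = 0 := by
          intro ψ hψ b hb
          induction hψ using Submodule.span_induction with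
          | mem x hx =>
            obtain ⟨b', hb', rfl⟩ := hx
            by_contra h3
            have h4 : 1 - degB (bk e t.1) (lp (X.ℓ b')) ≠ 0 := hb'
            rw [degB_lp_pos hb h3] at h4
            exact h4 rfl
          | zero => rfl
          | add x y _ _ hx hy => rw [LinearMap.add_apply, hx, hy, add_zero]
          | smul a x _ hx => rw [LinearMap.smul_apply, hx, smul_zero]
        have h3 := degB_lp_zero (h2 _ hmem)
        rw [hX, degB_lift_one e hk1] at h3
        exact one_ne_zero h3)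
    refine ⟨w, ee, hwv, Or.inr ⟨?_, ?_⟩⟩
    · have h2 : n t.1 - 1 + 3 = n t.1 + 2 := by
        have := hn t.1
        omega
      rw [h2]
      refine Nat.le_of_dvd (by omega) (hdvd (n t.1 + 2) fun k' => ?_)
      rw [← Equiv.sum_comp e', Fintype.sum_sigma, Finset.mul_sum]
      refine Finset.dvd_sum fun i _ => ?_
      by_cases hi : i = t.1
      · subst hi
        have h3 := hcal t.1 t.2 j0 k'
        have h5 : (n t.1 + 2) * ∑ k'', X.e k' (e' ⟨t.1, k''⟩) *
            (1 - degB (bk e t.1) (lp (X.ℓ (e' ⟨t.1, k''⟩)))) =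
            ∑ i, X.e k' (e' ⟨t.1, i⟩) *
              (if ∃ s : ℂ, ℓ t.1 i = s • ℓ t.1 (c t.1 j0) then n t.1 + 2 else 0) := by
          rw [Finset.mul_sum]
          refine Finset.sum_congr rfl fun k'' _ => ?_
          rw [hX]
          by_cases hd : ∃ s : ℂ, ℓ t.1 k'' = s • LinearMap.proj 0
          · rw [if_pos ((hpar' k'').2 hd), (hpar k'').1 hd]
            ring
          · rw [if_neg fun h => hd ((hpar' k'').1 h), degB_lift_one e hd]
            ring
        rw [h5]
        exact h3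
      · have h3 : ∑ k'', X.e k' (e' ⟨i, k''⟩) * (1 - degB (bk e t.1) (lp (X.ℓ (e' ⟨i, k''⟩)))) =
            ∑ k'', X.e k' (e' ⟨i, k''⟩) := by
          refine Finset.sum_congr rfl fun k'' _ => ?_
          rw [hX, degB_lift_ne e hi]
          ring
        rw [h3]
        exact Dvd.dvd.mul_left (hdeg k' i) _
    · have h1 := hdegsum t
      have h2 := hn t.1
      omega

end

end Pool.Agent.TH756.PN
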