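import Pool.Agent.TH756.PN.Lin
import Pool.Agent.TH756.PN.NuB

/-!
The numerical dimension of open covers of a product of projective spaces.
-/

set_option autoImplicit false
set_option linter.overlappingInstances false
set_option linter.unusedSectionVars false

open FF IntermediateField Pool.Agent.W603.LV Pool.Agent.W602.GT Pool.Agent.W602.Cov
open Pool.Agent.W602.Cov.G Pool.Agent.TH152.AC Pool.Agent.W619.PQ
open Pool.Agent.TH122.AB Pool.Agent.TH756.PR
open MvPolynomial

namespace Pool.Agent.TH756.PN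

/-- the places over the hyperplanes in `U` -/
def OffD {r : ℕ} {n q : Fin r → ℕ} {K : Type} [Field K] [Algebra ℂ K]
    (U : ∀ i, Fin (q i) → Prop) (ℓ : ∀ i, Fin (q i) → Form (n i))
    (x : ∀ i, Fin (n i + 1) → K) (P : Place ℂ K) : Prop :=
  ∃ i k, U i k ∧ ∃ φ : Form (n i), lf φ (x i) ≠ 0 ∧
    P.ord (lf φ (x i)) < P.ord (lf (ℓ i k) (x i))

section

variable {r N Q R : ℕ} {n q : Fin r → ℕ} (e : ((i : Fin r) × Fin (n i)) ≃ Fin (N + 1))
  (e' : ((i : Fin r) × Fin (q i)) ≃ Fin Q) {ℓ : ∀ i, Fin (q i) → Form (n i)}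
  {K : Type} [Field K] [Algebra ℂ K] {z : Fin (N + 1 + 1) → K} {y : Fin R → K}

theorem nuPB (hn : ∀ i, 1 ≤ n i) (X : Cover (N + 1) Q R) (hF : X.Free)
    (hK : X.FunctionField K z y) (hX : ∀ i k, X.ℓ (e' ⟨i, k⟩) = lift e i (ℓ i k))
    (h0 : ∀ i, ∃ (k : Fin (q i)) (c : ℂ), ℓ i k = c • LinearMap.proj 0)
    (hdeg : ∀ j i, X.m j ∣ ∑ k, X.e j (e' ⟨i, k⟩)) (I : Finset (Fin r))
    (c : ∀ i, Fin (n i + 2) → Fin (q i)) (hc : ∀ i, i ∉ I → General (ℓ i) (c i))
    (hcal : ∀ i, i ∉ I → CalabiP X e' ℓ i (c i)) (U : ∀ i, Fin (q i) → Prop)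
    (hU : ∀ i, i ∉ I → ∀ k, ¬ U i k) :
    Pool.Agent.W619.TW.NumLe ℂ K (N + 1) (OffD U ℓ (cc e z)) (∑ i ∈ I, n i) := by
  classical
  have hcK : CharZero K := charZero_of_injective_algebraMap (algebraMap ℂ K).injective
  obtain ⟨hlx, hx0, hbas⟩ := coords X hK
  have hr : Nonempty (Fin r) := ⟨(e.symm 0).1⟩
  obtain ⟨r0⟩ := hr
  choose kinf cinf hinf using h0
  have hℓ : ∀ i k, ℓ i k ≠ 0 := forms_ne e e' hX
  have hcinf : ∀ i, cinf i ≠ 0 := by
    intro i h
    apply hℓ i (kinf i)
    rw [hinf i, h, zero_smul]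
  -- divisibility by an irreducible polynomial
  have hunit : ∀ p : MvPolynomial (Fin (N + 1)) ℂ, Irreducible p → ∀ ψ : Form (N + 1), ψ ≠ 0 →
      (∀ j : Fin (N + 1), ψ (Pi.single j.succ 1) = 0) → ¬ p ∣ lp ψ := by
    intro p hp ψ hψ h hd
    rw [lp_const h] at hd
    apply hp.not_isUnit
    refine isUnit_of_dvd_unit hd ((isUnit_iff_ne_zero.2 fun h1 => ?_).map C)
    apply lp_ne hψ
    rw [lp_const h, h1, C_0]
  have hliftinf : ∀ i, ∀ j : Fin (N + 1),
      lift e i (ℓ i (kinf i)) (Pi.single j.succ 1) = 0 := by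
    intro i j
    rw [hinf i, lift_apply]
    simp [pos_zero]
  obtain ⟨S, hSfin, hS0, hgen, hS⟩ := exists_gens X hF hK (e' ⟨r0, kinf r0⟩)
  obtain ⟨E, hE⟩ : ∃ E, E = IntermediateField.adjoin ℂ
    (Set.range fun j : Fin (N + 1) => z j.succ / z 0) := ⟨_, rfl⟩
  have hEmem : ∀ j : Fin (N + 1), z j.succ / z 0 ∈ E := by
    intro j
    rw [hE]
    exact IntermediateField.subset_adjoin ℂ _ ⟨j, rfl⟩
  have hM := pow_mem_of X (hF := hF) hK (e' ⟨r0, kinf r0⟩) hS hEmem
  have hMpos : 0 < X.d * ∏ k, X.m k :=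
    Nat.mul_pos X.hd (Finset.prod_pos fun k _ => X.hm k)
  have hgen' : ∀ L : IntermediateField ℂ K, E ≤ L → S ⊆ L → L = ⊤ := fun L hL hSL =>
    hgen L (fun j => hL (hEmem j)) hSL
  obtain ⟨hfd, hgal⟩ := galois_of_roots E hSfin hgen' hMpos hM
  obtain ⟨hfinG, hfix⟩ := fixing_props E
  obtain ⟨G, hG⟩ : ∃ G, G = E.fixingSubgroup := ⟨_, rfl⟩
  rw [← hG] at hfinG hfix
  have hGmem : ∀ j : Fin (N + 1), z j.succ / z 0 ∈ fixedField G := by
    intro j
    rw [hfix]
    exact hEmem j
  let X0 : Fin (N + 1) → fixedField G := fun j => ⟨z j.succ / z 0, hGmem j⟩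
  have hX0 : Gens (k := ℂ) X0 := gens_of hbas.1 (hfix.trans hE) fun j => rfl
  have hcoe : ∀ P : MvPolynomial (Fin (N + 1)) ℂ, ((aeval X0 P : fixedField G) : K) =
      aeval (fun j : Fin (N + 1) => z j.succ / z 0) P := by
    intro P
    exact (MvPolynomial.aeval_algebraMap_apply K X0 P).symm
  let L : Fin Q → fixedField G := fun i => aeval X0 (lp (X.ℓ i))
  have hL : ∀ i, (L i : K) = lf (X.ℓ i) z / z 0 := by
    intro i
    change ((aeval X0 (lp (X.ℓ i)) : fixedField G) : K) = _
    rw [hcoe, lp_aeval hx0]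
  -- the places outside the boundary
  have hoff : ∀ (w : Place ℂ K) (v : Place ℂ (fixedField G)) (ee : ℕ), Over w v ee →
      (∀ i k, U i k → v.ord (aeval X0 (lp (lift e i (ℓ i k)))) = 0 ∧
        ∀ φ : Form (n i), φ ≠ 0 → 0 ≤ v.ord (aeval X0 (lp (lift e i φ)))) →
      ∀ g' ∈ G, ¬ OffD U ℓ (cc e z) (w.comp g') := by
    rintro w v ee hw h g' hg' ⟨i, k, hk, φ, hφ0, hlt⟩
    have h' := over_comp hw hg'
    have hφ : φ ≠ 0 := by
      rintro rfl
      exact hφ0 (by simp [lf])
    have hval : ∀ ψ : Form (n i), ψ ≠ 0 → (w.comp g').ord (lf ψ (cc e z i)) =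
        (w.comp g').ord (z 0) + ee * v.ord (aeval X0 (lp (lift e i ψ))) := by
      intro ψ hψ
      have h1 : lift e i ψ ≠ 0 := by
        intro h0
        apply hψ
        apply lift_inj e
        rw [h0]
        ext z
        simp [lift_apply]
      have h2 : lf ψ (cc e z i) = ((aeval X0 (lp (lift e i ψ)) : fixedField G) : K) * z 0 := by
        rw [hcoe, lp_aeval hx0, div_mul_cancel₀ _ hx0, lf_lift]
        rfl
      have h3 : ((aeval X0 (lp (lift e i ψ)) : fixedField G) : K) ≠ 0 := by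
        have := hX0.ne (lp_ne h1)
        simpa using this
      rw [h2, (w.comp g').ord_mul h3 hx0]
      have h4 := h'.2 (aeval X0 (lp (lift e i ψ)))
      change (w.comp g').ord ((aeval X0 (lp (lift e i ψ)) : fixedField G) : K) = _ at h4
      rw [h4]
      ring
    obtain ⟨h5, h6⟩ := h i k hk
    rw [hval φ hφ, hval _ (hℓ i k), h5] at hlt
    have h7 := h6 φ hφ
    have h8 : (0 : ℤ) ≤ ee * v.ord (aeval X0 (lp (lift e i φ))) := mul_nonneg (by positivity) h7
    linarith
  -- the forms in a block with `n + 2` hyperplanes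
  have hsumdeg : ∀ t : {i : Fin r // i ∉ I},
      ∑ j, degB (bk e t.1) (lp (lift e t.1 (ℓ t.1 (c t.1 j)))) ≤ n t.1 + 1 := by
    intro t
    obtain ⟨j, s, hs⟩ := (hc t.1 t.2).2 (kinf t.1)
    have hs0 : s ≠ 0 := by
      rintro rfl
      apply hℓ t.1 (kinf t.1)
      rw [hs, zero_smul]
    have h1 : degB (bk e t.1) (lp (lift e t.1 (ℓ t.1 (c t.1 j)))) = 0 := by
      apply degB_lift_zero
      refine ⟨s⁻¹ * cinf t.1, ?_⟩
      rw [mul_smul, ← hinf, hs, smul_smul, inv_mul_cancel₀ hs0, one_smul]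
    rw [← Finset.add_sum_erase _ _ (Finset.mem_univ j), h1, zero_add]
    calc ∑ j ∈ Finset.univ.erase j, degB (bk e t.1) (lp (lift e t.1 (ℓ t.1 (c t.1 j))))
        ≤ ∑ j ∈ Finset.univ.erase j, 1 := Finset.sum_le_sum fun j _ => degB_lp_le _ _
      _ = n t.1 + 1 := by simp
  obtain ⟨lam, hlam⟩ : ∃ lam : ((t : {i : Fin r // i ∉ I}) × Fin (n t.1 + 2)) ⊕
      ((t : {i : Fin r // i ∈ I}) × Fin (q t.1)) → MvPolynomial (Fin (N + 1)) ℂ,
      lam = Sum.elim (fun a => lp (lift e a.1.1 (ℓ a.1.1 (c a.1.1 a.2))))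
        fun a => lp (lift e a.1.1 (ℓ a.1.1 a.2)) := ⟨_, rfl⟩
  have hlaml : ∀ a, lam (Sum.inl a) = lp (lift e a.1.1 (ℓ a.1.1 (c a.1.1 a.2))) := by
    intro a
    rw [hlam]
    rfl
  have hlamr : ∀ a, lam (Sum.inr a) = lp (lift e a.1.1 (ℓ a.1.1 a.2)) := by
    intro a
    rw [hlam]
    rfl
  clear hlam
  have hdegsum : ∀ t : {i : Fin r // i ∉ I}, ∑ a, degB (bk e t.1) (lam a) ≤ n t.1 + 1 := by
    intro t
    rw [Fintype.sum_sum_type]
    have h2 : ∑ a, degB (bk e t.1) (lam (Sum.inr a)) = 0 := by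
      refine Finset.sum_eq_zero fun a _ => ?_
      rw [hlamr]
      refine degB_lift_ne e ?_ _
      intro h2
      apply t.2
      rw [← h2]
      exact a.1.2
    have h1 : ∑ a, degB (bk e t.1) (lam (Sum.inl a)) =
        ∑ j, degB (bk e t.1) (lp (lift e t.1 (ℓ t.1 (c t.1 j)))) := by
      rw [Fintype.sum_sigma, Finset.sum_eq_single t]
      · exact Finset.sum_congr rfl fun j _ => by rw [hlaml]
      · intro t' _ ht'
        refine Finset.sum_eq_zero fun j _ => ?_
        rw [hlaml]
        exact degB_lift_ne e (fun h2 => ht' (Subtype.ext h2)) _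
      · intro h
        exact absurd (Finset.mem_univ _) h
    rw [h2, h1, add_zero]
    exact hsumdeg t
  have hlp : ∀ i (s : ℂ) (φ : Form (n i)), lp (lift e i (s • φ)) = C s * lp (lift e i φ) := by
    intro i s φ
    rw [lift_smul, lp_smul]
  rw [← card_free e I]
  refine numLe_blocksB G hX0 hbas ?_ (fun t : {i : Fin r // i ∉ I} => bk e t.1)
    (fun t => e ⟨t.1, ⟨0, hn t.1⟩⟩) (fun t => ?_) (fun t => n t.1 - 1)
    (fun t => ?_) lam
    (fun a => ?_) (Sum.elim (fun a => some a.1) fun _ => none) (fun t a ha => ?_) (fun t => ?_)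
    _ ?_ ?_
  · -- finiteness
    intro t ht
    have halg : Algebra.IsAlgebraic (IntermediateField.adjoin ℂ (Set.range t)) K :=
      ht.isAlgebraic_field
    refine (fin_of_gen (IntermediateField.adjoin ℂ (Set.range t))
      (S := S ∪ Set.range fun j : Fin (N + 1) => z j.succ / z 0)
      (hSfin.union (Set.finite_range _)) (fun L _ hSL => ?_)
      (fun z _ => (Algebra.IsAlgebraic.isAlgebraic z).isIntegral)).1
    exact hgen L (fun j => hSL (Or.inr ⟨j, rfl⟩)) (fun z hz => hSL (Or.inl hz))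
  · rw [mem_bk, e.symm_apply_apply]
  · rw [card_bk]
    have := hn t.1
    omega
  · rcases a with a | a
    · rw [hlaml]
      apply lp_ne
      rw [← hX]
      exact X.hℓ _
    · rw [hlamr]
      apply lp_ne
      rw [← hX]
      exact X.hℓ _
  · rcases a with a | a
    · rw [hlaml]
      have h1 : a.1 ≠ t := by
        intro h1
        apply ha
        rw [← h1]
        rfl
      exact degB_lift_ne e (fun h2 => h1 (Subtype.ext h2)) _
    · rw [hlamr]
      refine degB_lift_ne e ?_ _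
      intro h2
      apply t.2
      rw [← h2]
      exact a.1.2
  · have h1 := hdegsum t
    have h2 := hn t.1
    omega
  · -- the places of the irreducible polynomials
    intro p hp v hvp hv
    have hpinf : ¬ p ∣ lp (X.ℓ (e' ⟨r0, kinf r0⟩)) := by
      refine hunit p hp _ (X.hℓ _) fun j => ?_
      rw [hX]
      exact hliftinf r0 j
    obtain ⟨w, ee, hwv, hdvd⟩ := ram X hF hK G hGmem L hL v 0
      (fun b => if p ∣ lp (X.ℓ b) then 1 else 0) (by
        intro i
        change v.ord (aeval X0 (lp (X.ℓ i))) = _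
        by_cases hi : p ∣ lp (X.ℓ i)
        · rw [if_pos hi]
          obtain ⟨a, ha, hlp⟩ := dvd_lp hp (X.hℓ i) hi
          have ha1 : algebraMap ℂ (fixedField G) a ≠ 0 := by
            rw [Ne, map_eq_zero]
            exact ha
          rw [hlp, map_mul, aeval_C, v.ord_mul ha1 (hX0.ne hp.ne_zero), v.ord_const ha, hvp]
          norm_num
        · rw [if_neg hi, (hv _ (lp_ne (X.hℓ i))).2.2 hi]
          norm_num) (e' ⟨r0, kinf r0⟩) (if_neg hpinf) (by
        intro htop
        have hmem : X.ℓ (e' ⟨r0, kinf r0⟩) ∈ Submodule.span ℂ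
            (X.ℓ '' {b | (if p ∣ lp (X.ℓ b) then 1 else 0) ≠ 0}) := by
          rw [htop]
          trivial
        have hiff : ∀ b, (if p ∣ lp (X.ℓ b) then 1 else 0) ≠ 0 ↔ p ∣ lp (X.ℓ b) := by
          intro b
          split_ifs with h <;> simp [h]
        by_cases hex : ∃ b, p ∣ lp (X.ℓ b)
        · obtain ⟨b1, hb1⟩ := hex
          have h2 : Submodule.span ℂ (X.ℓ '' {b | (if p ∣ lp (X.ℓ b) then 1 else 0) ≠ 0}) ≤
              Submodule.span ℂ {X.ℓ b1} := by
            rw [Submodule.span_le]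
            rintro _ ⟨i, hi, rfl⟩
            obtain ⟨t, ht⟩ := par_of_dvd hp (X.hℓ b1) (X.hℓ i) hb1 ((hiff i).1 hi)
            exact Submodule.mem_span_singleton.2 ⟨t, ht.symm⟩
          obtain ⟨t, ht⟩ := Submodule.mem_span_singleton.1 (h2 hmem)
          apply hpinf
          rw [← ht, lp_smul]
          exact Dvd.dvd.mul_left hb1 _
        · push Not at hex
          have h2 : {b | (if p ∣ lp (X.ℓ b) then 1 else 0) ≠ 0} = (∅ : Set (Fin Q)) := by
            ext b
            simp [hex b]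
          rw [h2, Set.image_empty, Submodule.span_empty, Submodule.mem_bot] at hmem
          exact X.hℓ _ hmem)
    have hlift : ∀ i (ψ : Form (n i)), ψ ≠ 0 → lift e i ψ ≠ 0 := by
      intro i ψ hψ h0
      apply hψ
      apply lift_inj e
      rw [h0]
      ext z
      simp [lift_apply]
    have hblock : ∀ i i' (φ : Form (n i)) (φ' : Form (n i')), φ ≠ 0 → φ' ≠ 0 → i' ≠ i →
        p ∣ lp (lift e i φ) → ¬ p ∣ lp (lift e i' φ') := by
      intro i i' φ φ' hφ hφ' hne hj hd
      obtain ⟨s', hs'⟩ := par_of_dvd hp (hlift i φ hφ) (hlift i' φ' hφ') hj hd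
      refine hunit p hp _ (hlift i' φ' hφ') (fun b => ?_) hd
      by_cases hbi : (e.symm b).1 = i'
      · rw [hs', LinearMap.smul_apply, lift_single_ne e _ (by rw [hbi]; exact hne),
          smul_zero]
      · exact lift_single_ne e _ hbi
    refine ⟨w, ee, hwv, ?_⟩
    by_cases hex : ∃ b, p ∣ lp (X.ℓ b)
    · right
      obtain ⟨b, hb⟩ := hex
      obtain ⟨⟨i, k⟩, rfl⟩ := e'.surjective b
      rw [hX] at hb
      by_cases hi : i ∈ I
      · refine ⟨Sum.inr ⟨⟨i, hi⟩, k⟩, ?_, fun t ht => ?_⟩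
        · rw [hlamr]
          exact hb
        · rw [Sum.elim_inr] at ht
          exact absurd ht (by simp)
      · obtain ⟨j, s, hs⟩ := (hc i hi).2 k
        have hs0 : s ≠ 0 := by
          rintro rfl
          exact hℓ i k (by rw [hs, zero_smul])
        have hj : p ∣ lp (lift e i (ℓ i (c i j))) := by
          have h1 : ℓ i (c i j) = s⁻¹ • ℓ i k := by
            rw [hs, smul_smul, inv_mul_cancel₀ hs0, one_smul]
          rw [h1, hlp]
          exact Dvd.dvd.mul_left hb _
        refine ⟨Sum.inl ⟨⟨i, hi⟩, j⟩, ?_, fun t ht => ?_⟩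
        · rw [hlaml]
          exact hj
        · rw [Sum.elim_inl] at ht
          have h1 : (⟨i, hi⟩ : {i : Fin r // i ∉ I}) = t := by simpa using ht
          subst h1
          have h2 : n i - 1 + 3 = n i + 2 := by
            have := hn i
            omega
          refine ⟨?_, hoff w v ee hwv fun i' k' hk' => ⟨?_, fun φ hφ =>
            (hv _ (lp_ne (hlift i' φ hφ))).1⟩⟩
          swap
          · have h3 : i' ≠ i := by
              rintro rfl
              exact hU i' hi k' hk'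
            exact (hv _ (lp_ne (hlift i' _ (hℓ i' k')))).2.2
              (hblock i i' _ _ (hℓ i _) (hℓ i' k') h3 hj)
          change ee ≤ n i - 1 + 3
          rw [h2]
          refine Nat.le_of_dvd (by omega) (hdvd (n i + 2) fun k' => ?_)
          rw [← Equiv.sum_comp e', Fintype.sum_sigma, Finset.sum_eq_single i]
          · have h3 := hcal i hi j k'
            convert h3 using 1
            rw [Finset.mul_sum]
            refine Finset.sum_congr rfl fun k'' _ => ?_
            rw [hX]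
            by_cases hd : p ∣ lp (lift e i (ℓ i k''))
            · have h4 : ∃ s : ℂ, ℓ i k'' = s • ℓ i (c i j) := by
                obtain ⟨s', hs'⟩ := par_of_dvd hp (by rw [← hX]; exact X.hℓ _)
                  (by rw [← hX]; exact X.hℓ _) hj hd
                refine ⟨s', lift_inj e ?_⟩
                rw [hs', lift_smul]
              rw [if_pos hd, if_pos h4]
              ring
            · have h4 : ¬ ∃ s : ℂ, ℓ i k'' = s • ℓ i (c i j) := by
                rintro ⟨s', hs'⟩
                apply hd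
                rw [hs', hlp]
                exact Dvd.dvd.mul_left hj _
              rw [if_neg hd, if_neg h4]
              ring
          · intro i' _ hne
            refine Finset.sum_eq_zero fun k'' _ => ?_
            rw [hX, if_neg, mul_zero]
            intro hd
            obtain ⟨s', hs'⟩ := par_of_dvd hp (by rw [← hX]; exact X.hℓ _)
              (by rw [← hX]; exact X.hℓ _) hj hd
            refine hunit p hp _ (by rw [← hX]; exact X.hℓ _) (fun b => ?_) hd
            by_cases hbi : (e.symm b).1 = i'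
            · rw [hs', LinearMap.smul_apply, lift_single_ne e _ (by rw [hbi]; exact hne),
                smul_zero]
            · exact lift_single_ne e _ hbi
          · intro h
            exact absurd (Finset.mem_univ _) h
    · left
      push Not at hex
      refine ⟨?_, hoff w v ee hwv fun i' k' _ => ⟨?_, fun φ hφ =>
        (hv _ (lp_ne (hlift i' φ hφ))).1⟩⟩
      swap
      · have h3 := hex (e' ⟨i', k'⟩)
        rw [hX] at h3
        exact (hv _ (lp_ne (hlift i' _ (hℓ i' k')))).2.2 h3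
      refine Nat.dvd_one.1 (hdvd 1 fun k => ?_)
      rw [Finset.sum_eq_zero fun b _ => by rw [if_neg (hex b), mul_zero]]
      simp
  · -- the places at infinity
    intro t v hv
    have hpar : ∀ k, (∃ s : ℂ, ℓ t.1 k = s • LinearMap.proj 0) ↔
        degB (bk e t.1) (lp (lift e t.1 (ℓ t.1 k))) = 0 := by
      intro k
      constructor
      · exact fun h => degB_lift_zero e h
      · intro h
        by_contra h1
        rw [degB_lift_one e h1] at h
        exact one_ne_zero h
    obtain ⟨k1, hk1⟩ : ∃ k1, ¬ ∃ s : ℂ, ℓ t.1 k1 = s • LinearMap.proj 0 := by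
      by_contra hcon
      push Not at hcon
      obtain ⟨s0, hs0⟩ := hcon (c t.1 0)
      obtain ⟨s1, hs1⟩ := hcon (c t.1 1)
      have h1 : s0 ≠ 0 := by
        rintro rfl
        exact hℓ _ _ (by rw [hs0, zero_smul])
      refine not_par (hn t.1) (hc t.1 t.2) (j := 0) (j' := 1) (by simp) (s1 * s0⁻¹) ?_
      rw [hs1, hs0, smul_smul, mul_assoc, inv_mul_cancel₀ h1, mul_one]
    obtain ⟨j0, s0, hs0⟩ := (hc t.1 t.2).2 (kinf t.1)
    have hs00 : s0 ≠ 0 := by
      rintro rfl
      apply hℓ t.1 (kinf t.1)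
      rw [hs0, zero_smul]
    have hj0 : ℓ t.1 (c t.1 j0) = (s0⁻¹ * cinf t.1) • LinearMap.proj 0 := by
      rw [mul_smul, ← hinf, hs0, smul_smul, inv_mul_cancel₀ hs00, one_smul]
    have hpar' : ∀ k, (∃ s : ℂ, ℓ t.1 k = s • ℓ t.1 (c t.1 j0)) ↔
        ∃ s : ℂ, ℓ t.1 k = s • LinearMap.proj 0 := by
      intro k
      constructor
      · rintro ⟨s, hs⟩
        exact ⟨s * (s0⁻¹ * cinf t.1), by rw [hs, hj0, smul_smul]⟩
      · rintro ⟨s, hs⟩
        refine ⟨s * (s0⁻¹ * cinf t.1)⁻¹, ?_⟩
        have h1 : s0⁻¹ * cinf t.1 ≠ 0 := mul_ne_zero (inv_ne_zero hs00) (hcinf _)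
        rw [hj0, smul_smul, mul_assoc, inv_mul_cancel₀ h1, mul_one, hs]
    obtain ⟨w, ee, hwv, hdvd⟩ := ram X hF hK G hGmem L hL v (-1)
      (fun b => 1 - degB (bk e t.1) (lp (X.ℓ b))) (by
        intro b
        change v.ord (aeval X0 (lp (X.ℓ b))) = _
        rw [hv _ (lp_ne (X.hℓ b))]
        have := degB_lp_le (bk e t.1) (X.ℓ b)
        omega) (e' ⟨t.1, k1⟩) (by
        change 1 - degB (bk e t.1) (lp (X.ℓ (e' ⟨t.1, k1⟩))) = 0
        rw [hX, degB_lift_one e hk1]) (by
        intro htop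
        have hmem : X.ℓ (e' ⟨t.1, k1⟩) ∈ Submodule.span ℂ
            (X.ℓ '' {b | 1 - degB (bk e t.1) (lp (X.ℓ b)) ≠ 0}) := by
          rw [htop]
          trivial
        have h2 : ∀ ψ ∈ Submodule.span ℂ
            (X.ℓ '' {b | 1 - degB (bk e t.1) (lp (X.ℓ b)) ≠ 0}),
            ∀ b ∈ bk e t.1, ψ (Pi.single b.succ 1) = 0 := by
          intro ψ hψ b hb
          induction hψ using Submodule.span_induction with
          | mem x hx =>
            obtain ⟨b', hb', rfl⟩ := hx
            by_contra h3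
            have h4 : 1 - degB (bk e t.1) (lp (X.ℓ b')) ≠ 0 := hb'
            rw [degB_lp_pos hb h3] at h4
            exact h4 rfl
          | zero => rfl
          | add x y _ _ hx hy => rw [LinearMap.add_apply, hx, hy, add_zero]
          | smul a x _ hx => rw [LinearMap.smul_apply, hx, smul_zero]
        have h3 := degB_lp_zero (h2 _ hmem)
        rw [hX, degB_lift_one e hk1] at h3
        exact one_ne_zero h3)
    refine ⟨w, ee, hwv, hoff w v ee hwv fun i' k' hk' => ?_, Or.inr ⟨?_, ?_⟩⟩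
    · have h3 : i' ≠ t.1 := by
        rintro rfl
        exact hU _ t.2 k' hk'
      have h4 : ∀ φ : Form (n i'), φ ≠ 0 → v.ord (aeval X0 (lp (lift e i' φ))) = 0 := by
        intro φ hφ
        have h5 : lift e i' φ ≠ 0 := by
          intro h0
          apply hφ
          apply lift_inj e
          rw [h0]
          ext z
          simp [lift_apply]
        rw [hv _ (lp_ne h5), degB_lift_ne e h3]
        simp
      exact ⟨h4 _ (hℓ i' k'), fun φ hφ => (h4 φ hφ).ge⟩
    · have h2 : n t.1 - 1 + 3 = n t.1 + 2 := by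
        have := hn t.1
        omega
      rw [h2]
      refine Nat.le_of_dvd (by omega) (hdvd (n t.1 + 2) fun k' => ?_)
      rw [← Equiv.sum_comp e', Fintype.sum_sigma, Finset.mul_sum]
      refine Finset.dvd_sum fun i _ => ?_
      by_cases hi : i = t.1
      · subst hi
        have h3 := hcal t.1 t.2 j0 k'
        have h5 : (n t.1 + 2) * ∑ k'', X.e k' (e' ⟨t.1, k''⟩) *
            (1 - degB (bk e t.1) (lp (X.ℓ (e' ⟨t.1, k''⟩)))) =
            ∑ i, X.e k' (e' ⟨t.1, i⟩) *
              (if ∃ s : ℂ, ℓ t.1 i = s • ℓ t.1 (c t.1 j0) then n t.1 + 2 else 0) := by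
          rw [Finset.mul_sum]
          refine Finset.sum_congr rfl fun k'' _ => ?_
          rw [hX]
          by_cases hd : ∃ s : ℂ, ℓ t.1 k'' = s • LinearMap.proj 0
          · rw [if_pos ((hpar' k'').2 hd), (hpar k'').1 hd]
            ring
          · rw [if_neg fun h => hd ((hpar' k'').1 h), degB_lift_one e hd]
            ring
        rw [h5]
        exact h3
      · have h3 : ∑ k'', X.e k' (e' ⟨i, k''⟩) * (1 - degB (bk e t.1) (lp (X.ℓ (e' ⟨i, k''⟩)))) =
            ∑ k'', X.e k' (e' ⟨i, k''⟩) := by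
          refine Finset.sum_congr rfl fun k'' _ => ?_
          rw [hX, degB_lift_ne e hi]
          ring
        rw [h3]
        exact Dvd.dvd.mul_left (hdeg k' i) _
    · have h1 := hdegsum t
      have h2 := hn t.1
      omega

end

end Pool.Agent.TH756.PN
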