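import Pool.Agent.TH756.PN.Cl

/-!
The numerical dimension of pairs on finite covers (not necessarily Galois) of a product of
projective spaces, for general weights.
-/

set_option autoImplicit false
set_option linter.overlappingInstances false
set_option linter.unusedSectionVars false

open FF MvPolynomial IntermediateField Pool.Agent.W603.LV Pool.Agent.W619.PQ
open Pool.Agent.W619.TW Pool.Agent.W602.GT Pool.Agent.TH122.AB

namespace Pool.Agent.TH756.PN

section

variable {k K K' : Type} [Field k] [CharZero k] [Field K] [Field K'] [Algebra k K] [Algebra k K']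
  [Algebra K K'] [IsScalarTower k K K'] {n : ℕ}

/-- **The numerical dimension.** Every variable is in one of the blocks `B t`, with `g t + 1`
variables. -/
theorem numLe_W (G : Subgroup (K' ≃ₐ[k] K')) [Finite G] [Algebra (fixedField G) K]
    [IsScalarTower k (fixedField G) K] [IsScalarTower (fixedField G) K K']
    [FiniteDimensional (fixedField G) K] {X : Fin (n + 1) → fixedField G}
    (hX : Gens (k := k) X) (hZ' : IsTranscendenceBasis k fun j => (X j : K'))
    (hZ : IsTranscendenceBasis k fun j => algebraMap (fixedField G) K (X j))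
    (hfd : ∀ y : Fin (n + 1) → K, IsTranscendenceBasis k y →
      FiniteDimensional (IntermediateField.adjoin k (Set.range y)) K)
    {κ α : Type} [Fintype κ] [Fintype α] (B : κ → Finset (Fin (n + 1))) (c : κ → Fin (n + 1))
    (hc : ∀ t, c t ∈ B t) (g : κ → ℕ) (hg : ∀ t, (B t).card = g t + 1)
    (τ : Fin (n + 1) → κ) (hτ : ∀ b, b ∈ B (τ b)) (I : κ → Prop) [DecidablePred I]
    (lam : α → MvPolynomial (Fin (n + 1)) k) (hlam0 : ∀ a, lam a ≠ 0) (J : α → Prop)
    (hJ : ∀ a, J a → ∀ t, ¬ I t → degB (B t) (lam a) = 0)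
    (hJ' : ∀ a, ¬ J a → ∀ t, I t → degB (B t) (lam a) = 0)
    (wt : α → ℝ) (hwt : ∀ a, 0 ≤ wt a) (V : Set (Place k K)) (δ : Place k K → ℝ)
    (H1 : ∀ p : MvPolynomial (Fin (n + 1)) k, Irreducible p → ∀ v : Place k (fixedField G),
      v.ord (aeval X p) = 1 →
      (∀ P, P ≠ 0 → 0 ≤ v.ord (aeval X P) ∧ (v.ord (aeval X P) = 0 ↔ ¬ p ∣ P)) →
      ∀ (P : Place k K) (e : ℕ), Over P v e → P ∈ V ∧
        ((e = 1 ∧ δ P ≤ 0) ∨ (∃ a, p ∣ lam a ∧ J a ∧ δ P ≤ 1) ∨
          ∃ s : Finset α, (∀ a ∈ s, p ∣ lam a ∧ ¬ J a) ∧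
            (e : ℝ) - 1 + δ P ≤ e * ∑ a ∈ s, wt a))
    (H0 : ∀ t, ∀ v : Place k (fixedField G),
      (∀ P : MvPolynomial (Fin (n + 1)) k, P ≠ 0 → v.ord (aeval X P) = - (degB (B t) P : ℤ)) →
      ∀ (P : Place k K) (e : ℕ), Over P v e → P ∈ V ∧ δ P ≤ 1 ∧
        (¬ I t → (e : ℝ) - 1 + δ P + e * ∑ a, wt a * degB (B t) (lam a) ≤
          ((g t : ℝ) + 2) * e)) :
    NumLeP k K (n + 1) V δ (Finset.univ.filter fun b => I (τ b)).card := by
  classical
  intro S
  have hGal : IsGaloisGroup G (fixedField G) K' := isGaloisGroup_fixed G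
  have hfdG : FiniteDimensional (fixedField G) K' := IsGaloisGroup.finiteDimensional G _ K'
  have htr := Pool.Agent.W602.GT.trdeg_of_basis hZ
  obtain ⟨D, hD0⟩ := Pool.Agent.W602.GT.exists_dual hZ
  have hD : ∀ i j, D i (algebraMap (fixedField G) K (X j)) = if i = j then 1 else 0 := by
    intro i j
    have h1 := congrFun (congrFun hD0 i) j
    rw [Matrix.of_apply, Matrix.one_apply] at h1
    exact h1
  -- the places at infinity
  have hinf : ∀ t : κ, ∃ (v0 : Place k (fixedField G)) (w0 : Place k K') (e0 : ℕ),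
      Over w0 v0 e0 ∧
      (∀ P : MvPolynomial (Fin (n + 1)) k, P ≠ 0 →
        v0.ord (aeval X P) = - (degB (B t) P : ℤ)) ∧
      ∀ (w : Place k K) (e : ℕ), Over w v0 e → ∀ (m : ℕ)
        (ω : (Fin (n + 1) → Derivation k K K) → K),
        w ∈ V → SecP (n + 1) V δ S m ω →
        ω D = 0 ∨ ∃ s ∈ S, s ≠ 0 ∧ (w.ord s : ℝ) ≤
          w.ord (ω D) + m * ((e : ℝ) - 1 + δ w) - m * ((((B t).card : ℝ) + 1) * e) := by
    intro t
    obtain ⟨v0, h1, h2⟩ := exists_infP hX hZ hfd hD (hc t)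
    obtain ⟨w0, e0, J, hwv, -, -⟩ := exists_inertia G v0
    exact ⟨v0, w0, e0, hwv, h1, fun w e hw m ω => h2 w e hw S m ω V δ⟩
  choose v0 w0 e0 h0 hdeg hjac0 using hinf
  obtain ⟨S', hS'⟩ : ∃ S' : Finset K', S' = S.image (algebraMap K K') := ⟨_, rfl⟩
  -- the lower bound
  obtain ⟨M0, hM0⟩ : ∃ M0 : ℕ, ∀ t, ∀ g ∈ G, ∀ s ∈ S', -(M0 : ℤ) ≤ (w0 t).ord (g s) := by
    have hfin : (⋃ t, Set.image2 (fun (g : K' ≃ₐ[k] K') (s : K') => (w0 t).ord (g s))
        (G : Set (K' ≃ₐ[k] K')) (S' : Set K')).Finite :=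
      Set.finite_iUnion fun t => Set.Finite.image2 _ (Set.toFinite _) (Set.toFinite _)
    obtain ⟨M0, hM0⟩ := hfin.bddBelow
    refine ⟨M0.natAbs, fun t g hg s hs => ?_⟩
    have h1 := hM0 (Set.mem_iUnion.2 ⟨t, Set.mem_image2_of_mem hg hs⟩)
    have h2 : -(M0.natAbs : ℤ) ≤ M0 := by omega
    exact h2.trans h1
  obtain ⟨C, c1, hC⟩ := fin_bound G hX hZ' B hdeg h0 τ hτ S'
  -- the constants
  obtain ⟨dt, hdt⟩ : ∃ dt : κ → ℕ, dt = fun t => ∑ a, degB (B t) (lam a) := ⟨_, rfl⟩
  obtain ⟨A, hA⟩ : ∃ A : ℕ, A = ∑ t : κ, (M0 + dt t * e0 t + c1) := ⟨_, rfl⟩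
  refine ⟨C * (A + 1) ^ (n + 1), fun m N hm1 hind => ?_⟩
  obtain ⟨ω, hlin, hsec⟩ := hind
  -- the exponents
  obtain ⟨E, hEI, hEn⟩ : ∃ E : α → ℕ, (∀ a, J a → E a = m) ∧
      ∀ a, ¬ J a → E a = ⌈(m : ℝ) * wt a⌉₊ :=
    ⟨fun a => if J a then m else ⌈(m : ℝ) * wt a⌉₊, fun a h => if_pos h,
      fun a h => if_neg h⟩
  have hEge : ∀ a, ¬ J a → (m : ℝ) * wt a ≤ E a := by
    intro a ha
    rw [hEn a ha]
    exact Nat.le_ceil _
  have hEle : ∀ a, ¬ J a → (E a : ℝ) ≤ m * wt a + 1 := by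
    intro a ha
    rw [hEn a ha]
    exact (Nat.ceil_lt_add_one (mul_nonneg (by positivity) (hwt a))).le
  obtain ⟨Λ, hΛ⟩ : ∃ Λ : K, Λ = ∏ a, (algebraMap (fixedField G) K (aeval X (lam a))) ^ E a :=
    ⟨_, rfl⟩
  have hlamK : ∀ a, algebraMap (fixedField G) K (aeval X (lam a)) ≠ 0 := by
    intro a
    rw [Ne, map_eq_zero]
    exact hX.ne (hlam0 a)
  have hΛ0 : Λ ≠ 0 := by
    rw [hΛ]
    exact Finset.prod_ne_zero_iff.2 fun j _ => pow_ne_zero _ (hlamK j)
  have hordΛ : ∀ (v : Place k (fixedField G)) (w : Place k K) (e : ℕ), Over w v e →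
      w.ord Λ = e * ∑ a, (E a : ℤ) * v.ord (aeval X (lam a)) := by
    intro v w e h
    rw [hΛ, ord_prod' w Finset.univ _ fun j _ => pow_ne_zero _ (hlamK j), Finset.mul_sum]
    refine Finset.sum_congr rfl fun j _ => ?_
    rw [w.ord_pow, h.2 (aeval X (lam j))]
    ring
  have hm0 : (0 : ℝ) ≤ m := by positivity
  -- linear independence
  have hlin' : LinearIndependent k fun l => algebraMap K K' (ω l D * Λ) := by
    have h1 := lin_sec hZ hD hlin (fun l => (hsec l).1) hΛ0
    exact h1.map' (IsScalarTower.toAlgHom k K K').toLinearMap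
      (LinearMap.ker_eq_bot.2 (algebraMap K K').injective)
  have hmain := hC (fun t => M0 + (if I t then m * dt t else dt t) * e0 t) N
    (fun l => algebraMap K K' (ω l D * Λ)) hlin' ?_ ?_
  · -- the final count
    refine hmain.trans ?_
    have hfac : ∀ b : Fin (n + 1), (M0 + (if I (τ b) then m * dt (τ b) else dt (τ b)) *
        e0 (τ b) + c1) ≤ (A + 1) * (if I (τ b) then m else 1) := by
      intro b
      have h3 : M0 + dt (τ b) * e0 (τ b) + c1 ≤ A := by
        rw [hA]
        exact Finset.single_le_sum (f := fun t : κ => M0 + dt t * e0 t + c1)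
          (fun _ _ => Nat.zero_le _) (Finset.mem_univ (τ b))
      by_cases h : I (τ b)
      · rw [if_pos h, if_pos h]
        have h5 : M0 ≤ M0 * m := Nat.le_mul_of_pos_right _ (by omega)
        have h6 : c1 ≤ c1 * m := Nat.le_mul_of_pos_right _ (by omega)
        calc M0 + m * dt (τ b) * e0 (τ b) + c1
            = M0 + dt (τ b) * e0 (τ b) * m + c1 := by ring
          _ ≤ M0 * m + dt (τ b) * e0 (τ b) * m + c1 * m := by omega
          _ = (M0 + dt (τ b) * e0 (τ b) + c1) * m := by ring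
          _ ≤ (A + 1) * m := Nat.mul_le_mul_right _ (by omega)
      · rw [if_neg h, if_neg h, mul_one]
        omega
    calc C * ∏ b, (M0 + (if I (τ b) then m * dt (τ b) else dt (τ b)) * e0 (τ b) + c1)
        ≤ C * ∏ b : Fin (n + 1), ((A + 1) * (if I (τ b) then m else 1)) :=
          Nat.mul_le_mul_left _ (Finset.prod_le_prod' fun b _ => hfac b)
      _ = _ := by
          rw [Finset.prod_mul_distrib, Finset.prod_const, Finset.card_univ, Fintype.card_fin,
            Finset.prod_ite, Finset.prod_const, Finset.prod_const_one, mul_one]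
          ring
  · -- the places of the irreducible polynomials
    intro l p hp v hvp hv
    obtain ⟨w, e, J, h, -, -⟩ := exists_inertia G v
    refine ⟨w, e, h, fun g' hg' => ?_⟩
    have h' := over_comp h hg'
    obtain ⟨P, e1, e2, hP1, hP2, hee⟩ := exists_restr (K := K) h'
    obtain ⟨hPV, hcase⟩ := H1 p hp v hvp hv P e2 hP2
    obtain ⟨b, hb0, hb⟩ := exists_pderiv hp
    have hDb : D b (algebraMap (fixedField G) K (aeval X p)) =
        algebraMap (fixedField G) K (aeval X (pderiv b p)) := by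
      rw [← Pool.Agent.TH122.AB.aeval_coe, ← Pool.Agent.TH122.AB.aeval_coe]
      exact der_aeval (hD b) p
    have hjac := jacP htr hfd hP2 (div_adic hX hp hv hP2) D
          (fun j => algebraMap (fixedField G) K (X j)) hZ hD
          (fun i z hz => pres_adic hX hp hv hP2 (hD i) hz) hvp b (by
            rw [hDb, Ne, map_eq_zero]
            exact hX.ne hb0) (by
            rw [hDb, hP2.2, (hv _ hb0).2.2 hb, mul_zero]) S m (ω l) V δ hPV (hsec l)
    by_cases hz : ω l D = 0
    · left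
      rw [hz, zero_mul, map_zero]
    right
    obtain ⟨s, hs, hs0, hle⟩ := hjac.resolve_left hz
    refine ⟨algebraMap K K' s, ?_, ?_, ?_⟩
    · rw [hS']
      exact Finset.mem_image_of_mem _ hs
    · simpa using hs0
    rw [← Place.comp_ord, ← Place.comp_ord, hP1.2, hP1.2]
    refine mul_le_mul_of_nonneg_left ?_ (by positivity)
    rw [P.ord_mul hz hΛ0, hordΛ v P e2 hP2]
    have hnn : ∀ a, 0 ≤ v.ord (aeval X (lam a)) := fun a => (hv _ (hlam0 a)).1
    have he1 : (1 : ℝ) ≤ e2 := by exact_mod_cast hP2.1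
    have hterm : ∀ a, 0 ≤ (E a : ℤ) * v.ord (aeval X (lam a)) := fun a =>
      mul_nonneg (by positivity) (hnn a)
    have hone : ∀ a, p ∣ lam a → 1 ≤ v.ord (aeval X (lam a)) := by
      intro a ha
      have h4 : v.ord (aeval X (lam a)) ≠ 0 := fun h5 => (hv _ (hlam0 a)).2.1 h5 ha
      have h5 := hnn a
      omega
    have hgoal : (P.ord s : ℝ) ≤ P.ord (ω l D) +
        ((e2 * ∑ a, (E a : ℤ) * v.ord (aeval X (lam a)) : ℤ) : ℝ) := by
      rcases hcase with ⟨he, hδ⟩ | ⟨a, ha, hb, hδ1⟩ | ⟨s', hs', hle'⟩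
      · have h2 : 0 ≤ (e2 : ℤ) * ∑ a, (E a : ℤ) * v.ord (aeval X (lam a)) :=
          mul_nonneg (by positivity) (Finset.sum_nonneg fun a _ => hterm a)
        have h3 : (0 : ℝ) ≤ ((e2 * ∑ a, (E a : ℤ) * v.ord (aeval X (lam a)) : ℤ) : ℝ) := by
          exact_mod_cast h2
        have h4 : (m : ℝ) * ((e2 : ℝ) - 1 + δ P) ≤ 0 := by
          rw [he]
          push_cast
          rw [sub_self, zero_add]
          exact mul_nonpos_of_nonneg_of_nonpos hm0 hδ
        linarith
      · have h2 : (E a : ℤ) * v.ord (aeval X (lam a)) ≤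
            ∑ a, (E a : ℤ) * v.ord (aeval X (lam a)) :=
          Finset.single_le_sum (f := fun a => (E a : ℤ) * v.ord (aeval X (lam a)))
            (fun a _ => hterm a) (Finset.mem_univ a)
        have h3' : (1 : ℝ) ≤ v.ord (aeval X (lam a)) := by exact_mod_cast hone a ha
        have h4 : (m : ℝ) * ((e2 : ℝ) - 1 + δ P) ≤
            e2 * ((E a : ℝ) * v.ord (aeval X (lam a))) := by
          rw [hEI a hb]
          have h5 : (m : ℝ) * 1 ≤ m * v.ord (aeval X (lam a)) :=
            mul_le_mul_of_nonneg_left h3' hm0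
          have h6 : (e2 : ℝ) * (m * 1) ≤ e2 * (m * v.ord (aeval X (lam a))) :=
            mul_le_mul_of_nonneg_left h5 (by positivity)
          have h8 : (m : ℝ) * ((e2 : ℝ) - 1 + δ P) ≤ m * e2 :=
            mul_le_mul_of_nonneg_left (by linarith) hm0
          nlinarith
        have h5 : (e2 : ℤ) * ((E a : ℤ) * v.ord (aeval X (lam a))) ≤
            e2 * ∑ a, (E a : ℤ) * v.ord (aeval X (lam a)) :=
          mul_le_mul_of_nonneg_left h2 (by positivity)
        have h6 : (e2 : ℝ) * ((E a : ℝ) * v.ord (aeval X (lam a))) ≤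
            ((e2 * ∑ a, (E a : ℤ) * v.ord (aeval X (lam a)) : ℤ) : ℝ) := by
          exact_mod_cast h5
        linarith
      · have h2 : ∑ a ∈ s', (E a : ℤ) * v.ord (aeval X (lam a)) ≤
            ∑ a, (E a : ℤ) * v.ord (aeval X (lam a)) :=
          Finset.sum_le_univ_sum_of_nonneg hterm
        have h3 : (m : ℝ) * ∑ a ∈ s', wt a ≤
            ∑ a ∈ s', (E a : ℝ) * v.ord (aeval X (lam a)) := by
          rw [Finset.mul_sum]
          refine Finset.sum_le_sum fun a ha => ?_
          have h4 : (1 : ℝ) ≤ v.ord (aeval X (lam a)) := by exact_mod_cast hone a (hs' a ha).1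
          have h5 : (E a : ℝ) * 1 ≤ E a * v.ord (aeval X (lam a)) :=
            mul_le_mul_of_nonneg_left h4 (by positivity)
          have h6 := hEge a (hs' a ha).2
          linarith
        have h4 : (m : ℝ) * ((e2 : ℝ) - 1 + δ P) ≤
            e2 * ∑ a ∈ s', (E a : ℝ) * v.ord (aeval X (lam a)) := by
          have h5 := mul_le_mul_of_nonneg_left hle' hm0
          have h6 := mul_le_mul_of_nonneg_left h3 (by positivity : (0 : ℝ) ≤ (e2 : ℝ))
          nlinarith
        have h5 : (e2 : ℤ) * (∑ a ∈ s', (E a : ℤ) * v.ord (aeval X (lam a))) ≤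
            e2 * ∑ a, (E a : ℤ) * v.ord (aeval X (lam a)) :=
          mul_le_mul_of_nonneg_left h2 (by positivity)
        have h6 : (e2 : ℝ) * (∑ a ∈ s', (E a : ℝ) * v.ord (aeval X (lam a))) ≤
            ((e2 * ∑ a, (E a : ℤ) * v.ord (aeval X (lam a)) : ℤ) : ℝ) := by
          exact_mod_cast h5
        linarith
    exact_mod_cast hgoal
  · -- the places at infinity
    intro l t g' hg'
    have h' := over_comp (h0 t) hg'
    obtain ⟨P, e1, e2, hP1, hP2, hee⟩ := exists_restr (K := K) h'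
    obtain ⟨hPV, hδ1, hcase⟩ := H0 t (v0 t) (hdeg t) P e2 hP2
    by_cases hz : ω l D = 0
    · left
      rw [hz, zero_mul, map_zero, map_zero]
    right
    obtain ⟨s, hs, hs0, hle⟩ := (hjac0 t P e2 hP2 m (ω l) hPV (hsec l)).resolve_left hz
    have hMs := hM0 t g' hg' (algebraMap K K' s) (by
      rw [hS']
      exact Finset.mem_image_of_mem _ hs)
    rw [← Place.comp_ord, hP1.2] at hMs
    rw [← Place.comp_ord, hP1.2, P.ord_mul hz hΛ0, hordΛ (v0 t) P e2 hP2]
    have he1 : (1 : ℝ) ≤ e2 := by exact_mod_cast hP2.1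
    have hcard : (((B t).card : ℝ)) = (g t : ℝ) + 1 := by
      rw [hg t]
      push_cast
      ring
    rw [hcard] at hle
    obtain ⟨F, hF⟩ : ∃ F : ℕ, F = if I t then m * dt t else dt t := ⟨_, rfl⟩
    have hgoal : (P.ord s : ℝ) ≤ P.ord (ω l D) +
        ((e2 * ∑ a, (E a : ℤ) * (v0 t).ord (aeval X (lam a)) : ℤ) : ℝ) + F * e2 := by
      by_cases hI : I t
      · rw [if_pos hI] at hF
        have hsum : ∑ a, (E a : ℤ) * (v0 t).ord (aeval X (lam a)) = - ((m * dt t : ℕ) : ℤ) := by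
          rw [hdt]
          push_cast
          rw [Finset.mul_sum, ← Finset.sum_neg_distrib]
          refine Finset.sum_congr rfl fun a _ => ?_
          rw [hdeg t _ (hlam0 a)]
          by_cases hb : J a
          · rw [hEI a hb]
            ring
          · rw [hJ' a hb t hI]
            simp
        rw [hsum, hF]
        have h8 : (m : ℝ) * ((e2 : ℝ) - 1 + δ P) ≤ m * (((g t : ℝ) + 1 + 1) * e2) := by
          apply mul_le_mul_of_nonneg_left _ hm0
          have : (0 : ℝ) ≤ g t := by positivity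
          nlinarith
        push_cast
        linarith
      · rw [if_neg hI] at hF
        have hsum : ((∑ a, (E a : ℤ) * (v0 t).ord (aeval X (lam a)) : ℤ) : ℝ) =
            - ∑ a, (E a : ℝ) * degB (B t) (lam a) := by
          push_cast
          rw [← Finset.sum_neg_distrib]
          refine Finset.sum_congr rfl fun a _ => ?_
          rw [hdeg t _ (hlam0 a)]
          push_cast
          ring
        have hsum2 : ∑ a, (E a : ℝ) * degB (B t) (lam a) ≤
            m * (∑ a, wt a * degB (B t) (lam a)) + dt t := by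
          rw [hdt, Finset.mul_sum]
          push_cast
          rw [← Finset.sum_add_distrib]
          refine Finset.sum_le_sum fun a _ => ?_
          by_cases hb : ¬ J a
          · have h5 := hEle a hb
            have h6 : (E a : ℝ) * degB (B t) (lam a) ≤
                (m * wt a + 1) * degB (B t) (lam a) :=
              mul_le_mul_of_nonneg_right h5 (by positivity)
            linarith
          · rw [hJ a (not_not.1 hb) t hI]
            simp
        have key := mul_le_mul_of_nonneg_left (hcase hI) hm0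
        have h7 := mul_le_mul_of_nonneg_left hsum2 (by positivity : (0 : ℝ) ≤ (e2 : ℝ))
        rw [Int.cast_mul, hsum, hF]
        push_cast
        nlinarith
    have hgoal' : (P.ord s : ℤ) ≤ P.ord (ω l D) +
        (e2 * ∑ a, (E a : ℤ) * (v0 t).ord (aeval X (lam a)) : ℤ) + F * e2 := by
      exact_mod_cast hgoal
    change -(((M0 + (if I t then m * dt t else dt t) * e0 t : ℕ)) : ℤ) ≤ _
    rw [← hF, hee]
    have h9 := mul_le_mul_of_nonneg_left hgoal' (by positivity : (0 : ℤ) ≤ (e1 : ℤ))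
    push_cast
    push_cast at h9
    linarith

end

section

variable {k K : Type} [Field k] [CharZero k] [Field K] [Algebra k K]

/-- **The numerical dimension of pairs on finite covers.** -/
theorem numLe_W' {n : ℕ} {Z : Fin (n + 1) → K} (hZ : IsTranscendenceBasis k Z)
    (hfd : FiniteDimensional (IntermediateField.adjoin k (Set.range Z)) K)
    {κ α : Type} [Fintype κ] [Fintype α] (B : κ → Finset (Fin (n + 1))) (c : κ → Fin (n + 1))
    (hc : ∀ t, c t ∈ B t) (g : κ → ℕ) (hg : ∀ t, (B t).card = g t + 1)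
    (τ : Fin (n + 1) → κ) (hτ : ∀ b, b ∈ B (τ b)) (I : κ → Prop) [DecidablePred I]
    (lam : α → MvPolynomial (Fin (n + 1)) k) (hlam0 : ∀ a, lam a ≠ 0) (J : α → Prop)
    (hJ : ∀ a, J a → ∀ t, ¬ I t → degB (B t) (lam a) = 0)
    (hJ' : ∀ a, ¬ J a → ∀ t, I t → degB (B t) (lam a) = 0)
    (wt : α → ℝ) (hwt : ∀ a, 0 ≤ wt a) (V : Set (Place k K)) (δ : Place k K → ℝ)
    (H1 : ∀ p : MvPolynomial (Fin (n + 1)) k, Irreducible p → ∀ P : Place k K,
      (∀ f, f ≠ 0 → 0 ≤ P.ord (aeval Z f) ∧ (P.ord (aeval Z f) = 0 ↔ ¬ p ∣ f)) →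
      P ∈ V ∧ ((P.ord (aeval Z p) = 1 ∧ δ P ≤ 0) ∨ (∃ a, p ∣ lam a ∧ J a ∧ δ P ≤ 1) ∨
          ∃ s : Finset α, (∀ a ∈ s, p ∣ lam a ∧ ¬ J a) ∧
            (P.ord (aeval Z p) : ℝ) - 1 + δ P ≤ P.ord (aeval Z p) * ∑ a ∈ s, wt a))
    (H0 : ∀ t, ∀ (P : Place k K) (e : ℕ), 0 < e →
      (∀ f : MvPolynomial (Fin (n + 1)) k, f ≠ 0 →
        P.ord (aeval Z f) = - ((e : ℤ) * (degB (B t) f : ℤ))) →
      P ∈ V ∧ δ P ≤ 1 ∧ (¬ I t → (e : ℝ) - 1 + δ P + e * ∑ a, wt a * degB (B t) (lam a) ≤
        ((g t : ℝ) + 2) * e)) :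
    NumLeP k K (n + 1) V δ (Finset.univ.filter fun b => I (τ b)).card := by
  obtain ⟨K', iF, iA, iK, hT, G, hfin, iG, hT1, hT2, hfd', X, hX, hXZ, hbas⟩ :=
    exists_closure hZ hfd
  have hXZ' : (fun j => algebraMap (fixedField G) K (X j)) = Z := funext hXZ
  have hae : ∀ f : MvPolynomial (Fin (n + 1)) k,
      algebraMap (fixedField G) K (aeval X f) = aeval Z f := by
    intro f
    rw [← hXZ']
    exact (MvPolynomial.aeval_algebraMap_apply K X f).symm
  refine numLe_W G hX hbas (by rw [hXZ']; exact hZ) (fun y hy => fin_all hfd hy) B c hc g hg τ hτ I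
    lam hlam0 J hJ hJ' wt hwt V δ ?_ ?_
  · intro p hp v hvp hv P e hPv
    have he := hPv.1
    have h1 : P.ord (aeval Z p) = e := by
      rw [← hae, hPv.2, hvp, mul_one]
    have h2 := H1 p hp P fun f hf => by
      rw [← hae, hPv.2]
      obtain ⟨h3, h4⟩ := hv f hf
      refine ⟨mul_nonneg (by positivity) h3, ?_⟩
      rw [← h4]
      constructor
      · intro h5
        rcases mul_eq_zero.1 h5 with h6 | h6
        · omega
        · exact h6
      · intro h5
        rw [h5, mul_zero]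
    rw [h1] at h2
    refine ⟨h2.1, ?_⟩
    rcases h2.2 with ⟨h3, h4⟩ | h3 | ⟨s, h3, h4⟩
    · exact Or.inl ⟨by exact_mod_cast h3, h4⟩
    · exact Or.inr (Or.inl h3)
    · exact Or.inr (Or.inr ⟨s, h3, by exact_mod_cast h4⟩)
  · intro t v hv P e hPv
    refine H0 t P e hPv.1 fun f hf => ?_
    rw [← hae, hPv.2, hv f hf]
    ring

end

end Pool.Agent.TH756.PN
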