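import Pool.Agent.TH756.PN.Lin
import Pool.Agent.TH756.PN.NuW
import Pool.Agent.TH756.PN.KodP

/-!
The numerical dimension of pairs on finite covers of a product of projective spaces, in terms of
the arrangements.
-/

set_option autoImplicit false
set_option linter.overlappingInstances false
set_option linter.unusedSectionVars false

open FF IntermediateField Pool.Agent.W603.LV Pool.Agent.W602.GT Pool.Agent.W602.Cov
open Pool.Agent.W602.Cov.G Pool.Agent.TH152.AC Pool.Agent.W619.PQ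
open Pool.Agent.TH122.AB Pool.Agent.TH756.PR
open MvPolynomial

namespace Pool.Agent.TH756.PN

section

variable {r N : ℕ} {n q : Fin r → ℕ} (e : ((i : Fin r) × Fin (n i)) ≃ Fin (N + 1))
  {ℓ : ∀ i, Fin (q i) → Form (n i)} {K : Type} [Field K] [Algebra ℂ K]
  {x : ∀ i, Fin (n i + 1) → K}

theorem aeval_lift (hx0 : ∀ i, x i 0 ≠ 0) (i : Fin r) (φ : Form (n i)) :
    aeval (uu e x) (lp (lift e i φ)) = lf φ (x i) / x i 0 := by
  obtain ⟨z, hz0, hz⟩ : ∃ z : Fin (N + 1 + 1) → K, z 0 = 1 ∧ ∀ b, z b.succ = uu e x b :=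
    ⟨Fin.cases 1 (uu e x), rfl, fun b => rfl⟩
  have h1 := lp_aeval (x := z) (by rw [hz0]; exact one_ne_zero) (lift e i φ)
  have h2 : (fun j : Fin (N + 1) => z j.succ / z 0) = uu e x := by
    funext b
    rw [hz0, hz, div_one]
  rw [h2, hz0, div_one, lf_lift] at h1
  rw [h1]
  have h3 : ∀ j, z (pos e i j) = x i j / x i 0 := by
    intro j
    refine Fin.cases ?_ (fun j => ?_) j
    · rw [pos_zero, hz0, div_self (hx0 i)]
    · rw [pos_succ, hz]
      change x (e.symm (e ⟨i, j⟩)).1 (e.symm (e ⟨i, j⟩)).2.succ /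
        x (e.symm (e ⟨i, j⟩)).1 0 = _
      rw [e.symm_apply_apply]
  unfold lf
  rw [Finset.sum_div]
  refine Finset.sum_congr rfl fun j _ => ?_
  dsimp only
  rw [h3, mul_div_assoc]

open scoped Classical in
/-- **The numerical dimension of pairs.** -/
theorem nuW (hn : ∀ i, 1 ≤ n i) (hℓ : ∀ i k, ℓ i k ≠ 0)
    (hbas : IsTranscendenceBasis ℂ (uu e x))
    (hfd : FiniteDimensional (IntermediateField.adjoin ℂ (Set.range (uu e x))) K)
    (I : Finset (Fin r)) (w : ∀ i, Fin (q i) → ℝ) (hw0 : ∀ i k, 0 ≤ w i k)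
    (hw1 : ∀ i, i ∉ I → ∑ k, w i k = (n i : ℝ) + 1) {β : Type} [Fintype β]
    (F : β → MvPolynomial (Fin (N + 1)) ℂ) (hF0 : ∀ b, F b ≠ 0)
    (hF : ∀ b, ∀ i, i ∉ I → degB (bk e i) (F b) = 0) (V : Set (Place ℂ K))
    (δ : Place ℂ K → ℝ) (hδ : ∀ P ∈ V, δ P ≤ 1)
    (H1 : ∀ p : MvPolynomial (Fin (N + 1)) ℂ, Irreducible p → ∀ P : Place ℂ K,
      (∀ f, f ≠ 0 → 0 ≤ P.ord (aeval (uu e x) f) ∧ (P.ord (aeval (uu e x) f) = 0 ↔ ¬ p ∣ f)) →
      P ∈ V ∧ ((∀ i k, ¬ p ∣ lp (lift e i (ℓ i k))) → (∀ b, ¬ p ∣ F b) →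
        P.ord (aeval (uu e x) p) = 1 ∧ δ P ≤ 0) ∧
      ∀ i, i ∉ I → (∃ k, p ∣ lp (lift e i (ℓ i k))) →
        (P.ord (aeval (uu e x) p) : ℝ) - 1 + δ P ≤
          P.ord (aeval (uu e x) p) * ∑ k, if p ∣ lp (lift e i (ℓ i k)) then w i k else 0)
    (H0 : ∀ i, ∀ (P : Place ℂ K) (m : ℕ), 0 < m →
      (∀ f : MvPolynomial (Fin (N + 1)) ℂ, f ≠ 0 →
        P.ord (aeval (uu e x) f) = - ((m : ℤ) * (degB (bk e i) f : ℤ))) →
      P ∈ V ∧ (i ∉ I → (m : ℝ) - 1 + δ P ≤
        m * ∑ k, if (∃ s : ℂ, ℓ i k = s • LinearMap.proj 0) then w i k else 0)) :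
    NumLeP ℂ K (N + 1) V δ (∑ i ∈ I, n i) := by
  have hlift : ∀ i (ψ : Form (n i)), ψ ≠ 0 → lift e i ψ ≠ 0 := by
    intro i ψ hψ h0
    apply hψ
    apply lift_inj e
    rw [h0]
    ext z
    simp [lift_apply]
  have hcard : (Finset.univ.filter fun b : Fin (N + 1) => (e.symm b).1 ∈ I).card =
      ∑ i ∈ I, n i := by
    rw [← card_free e I]
    congr 1
    ext b
    simp only [Finset.mem_filter, Finset.mem_univ, true_and]
    constructor
    · intro h t ht
      rw [mem_bk] at ht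
      exact t.2 (ht ▸ h)
    · intro h
      by_contra h2
      exact h ⟨_, h2⟩ ((mem_bk e).2 rfl)
  rw [← hcard]
  have key := numLe_W' hbas hfd (fun t : Fin r => bk e t) (fun t => e ⟨t, ⟨0, hn t⟩⟩)
    (fun t => ?_) (fun t => n t - 1) (fun t => ?_) (fun b => (e.symm b).1) (fun b => ?_)
    (fun t => t ∈ I) (Sum.elim (fun a : (i : Fin r) × Fin (q i) => lp (lift e a.1 (ℓ a.1 a.2))) F)
    (fun a => ?_) (Sum.elim (fun a => a.1 ∈ I) fun _ => True) (fun a ha t ht => ?_)
    (fun a ha t ht => ?_) (Sum.elim (fun a => w a.1 a.2) fun _ => 0) (fun a => ?_) V δ ?_ ?_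
  · convert key
  · rw [mem_bk, e.symm_apply_apply]
  · rw [card_bk]
    have := hn t
    omega
  · rw [mem_bk]
  · rcases a with a | b
    · exact lp_ne (hlift _ _ (hℓ _ _))
    · exact hF0 b
  · rcases a with a | b
    · rw [Sum.elim_inl] at ha ⊢
      refine degB_lift_ne e ?_ _
      intro h
      exact ht (h ▸ ha)
    · rw [Sum.elim_inr]
      exact hF b t ht
  · rcases a with a | b
    · rw [Sum.elim_inl] at ha ⊢
      refine degB_lift_ne e ?_ _
      intro h
      exact ha (h ▸ ht)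
    · rw [Sum.elim_inr] at ha
      exact absurd trivial ha
  · rcases a with a | b
    · exact hw0 _ _
    · exact le_rfl
  · -- the places of the irreducible polynomials
    intro p hp P hP
    obtain ⟨h1, h2, h3⟩ := H1 p hp P hP
    refine ⟨h1, ?_⟩
    by_cases hex : ∃ i k, p ∣ lp (lift e i (ℓ i k))
    · obtain ⟨i, k, hk⟩ := hex
      right
      by_cases hi : i ∈ I
      · exact Or.inl ⟨Sum.inl ⟨i, k⟩, hk, hi, hδ P h1⟩
      · right
        refine ⟨(Finset.univ.filter fun k => p ∣ lp (lift e i (ℓ i k))).map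
          ⟨fun k => (Sum.inl ⟨i, k⟩ : ((i : Fin r) × Fin (q i)) ⊕ β), fun k k' h => by simpa using h⟩,
          fun a ha => ?_, ?_⟩
        · obtain ⟨k', hk', rfl⟩ := Finset.mem_map.1 ha
          rw [Finset.mem_filter] at hk'
          exact ⟨hk'.2, hi⟩
        · rw [Finset.sum_map, Finset.sum_filter]
          exact h3 i hi ⟨k, hk⟩
    · push Not at hex
      by_cases hexF : ∃ b, p ∣ F b
      · obtain ⟨b, hb⟩ := hexF
        exact Or.inr (Or.inl ⟨Sum.inr b, hb, trivial, hδ P h1⟩)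
      · push Not at hexF
        exact Or.inl (h2 hex hexF)
  · -- the places at infinity
    intro t P m hm hP
    obtain ⟨h1, h2⟩ := H0 t P m hm hP
    refine ⟨h1, hδ P h1, fun ht => ?_⟩
    have h3 := h2 ht
    have h4 : ∑ a : ((i : Fin r) × Fin (q i)) ⊕ β, (Sum.elim (fun a => w a.1 a.2) (fun _ => 0) a : ℝ) *
        (degB (bk e t) (Sum.elim (fun a : (i : Fin r) × Fin (q i) =>
          lp (lift e a.1 (ℓ a.1 a.2))) F a) : ℝ) =
        ∑ k, (if (∃ s : ℂ, ℓ t k = s • LinearMap.proj 0) then 0 else w t k) := by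
      rw [Fintype.sum_sum_type]
      have h5 : ∑ b : β, (Sum.elim (fun a : (i : Fin r) × Fin (q i) => w a.1 a.2) (fun _ => 0)
          (Sum.inr b) : ℝ) * (degB (bk e t) (Sum.elim (fun a : (i : Fin r) × Fin (q i) =>
          lp (lift e a.1 (ℓ a.1 a.2))) F (Sum.inr b)) : ℝ) = 0 :=
        Finset.sum_eq_zero fun b _ => by rw [Sum.elim_inr, zero_mul]
      rw [h5, add_zero]
      simp only [Sum.elim_inl]
      rw [Fintype.sum_sigma, Finset.sum_eq_single t]
      · refine Finset.sum_congr rfl fun k _ => ?_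
        by_cases hk : ∃ s : ℂ, ℓ t k = s • LinearMap.proj 0
        · rw [if_pos hk]
          have := degB_lift_zero e hk
          simp only at this ⊢
          rw [this]
          simp
        · rw [if_neg hk]
          have := degB_lift_one e hk
          simp only at this ⊢
          rw [this]
          simp
      · intro i _ hi
        refine Finset.sum_eq_zero fun k _ => ?_
        have := degB_lift_ne e hi (ℓ i k)
        simp only at this ⊢
        rw [this]
        simp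
      · intro h
        exact absurd (Finset.mem_univ _) h
    have h5 : (∑ k, (if (∃ s : ℂ, ℓ t k = s • LinearMap.proj 0) then 0 else w t k)) +
        ∑ k, (if (∃ s : ℂ, ℓ t k = s • LinearMap.proj 0) then w t k else 0) = (n t : ℝ) + 1 := by
      rw [← hw1 t ht, ← Finset.sum_add_distrib]
      refine Finset.sum_congr rfl fun k _ => ?_
      split_ifs <;> ring
    rw [h4]
    have h6 : (((n t - 1 : ℕ) : ℝ) + 2) = (n t : ℝ) + 1 := by
      have := hn t
      rw [Nat.cast_sub this]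
      push_cast
      ring
    rw [h6, ← h5]
    nlinarith

end

end Pool.Agent.TH756.PN
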