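import Pool.Agent.TH122.AB.Nu

/-!
Restriction of places to intermediate fields.
-/

set_option autoImplicit false
set_option linter.overlappingInstances false
set_option linter.unusedSectionVars false

open FF

namespace Pool.Agent.TH756.PN

section

variable {k K0 K K' : Type} [Field k] [Field K0] [Field K] [Field K'] [Algebra k K0] [Algebra k K]
  [Algebra k K'] [Algebra K0 K] [Algebra K0 K'] [Algebra K K'] [IsScalarTower k K0 K]
  [IsScalarTower k K0 K'] [IsScalarTower k K K'] [IsScalarTower K0 K K']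

/-- **Restriction of a place to an intermediate field.** -/
theorem exists_restr {v : Place k K0} {w : Place k K'} {e : ℕ} (h : Over w v e) :
    ∃ (P : Place k K) (e1 e2 : ℕ), Over w P e1 ∧ Over P v e2 ∧ e = e1 * e2 := by
  classical
  have hinj : ∀ f : K, f ≠ 0 → algebraMap K K' f ≠ 0 := fun f hf => by simpa using hf
  let H : AddSubgroup ℤ :=
    { carrier := {z | ∃ f : K, f ≠ 0 ∧ w.ord (algebraMap K K' f) = z}
      add_mem' := by
        rintro a b ⟨f, hf, rfl⟩ ⟨g, hg, rfl⟩
        exact ⟨f * g, mul_ne_zero hf hg, by rw [map_mul, w.ord_mul (hinj f hf) (hinj g hg)]⟩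
      zero_mem' := ⟨1, one_ne_zero, by rw [map_one, w.ord_one]⟩
      neg_mem' := by
        rintro a ⟨f, hf, rfl⟩
        exact ⟨f⁻¹, inv_ne_zero hf, by rw [map_inv₀, w.ord_inv]⟩ }
  obtain ⟨a, ha⟩ := Int.subgroup_cyclic H
  have hmem : ∀ f : K, f ≠ 0 → ∃ c : ℤ, w.ord (algebraMap K K' f) = c * a := by
    intro f hf
    have h1 : w.ord (algebraMap K K' f) ∈ H := ⟨f, hf, rfl⟩
    rw [ha, AddSubgroup.mem_closure_singleton] at h1
    obtain ⟨c, hc⟩ := h1
    exact ⟨c, by rw [← hc, smul_eq_mul]⟩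
  obtain ⟨t, ht0, ht⟩ := v.surj
  have htK : algebraMap K0 K t ≠ 0 := by simpa using ht0
  have htw : w.ord (algebraMap K K' (algebraMap K0 K t)) = e := by
    rw [← IsScalarTower.algebraMap_apply K0 K K', h.2, ht, mul_one]
  have hepos := h.1
  have ha0 : a ≠ 0 := by
    rintro rfl
    obtain ⟨c, hc⟩ := hmem _ htK
    rw [htw, mul_zero] at hc
    omega
  obtain ⟨e1, he1, hpos⟩ : ∃ e1 : ℕ, (a = e1 ∨ a = - (e1 : ℤ)) ∧ 0 < e1 :=
    ⟨a.natAbs, Int.natAbs_eq a, Int.natAbs_pos.2 ha0⟩
  have hmem' : ∀ f : K, f ≠ 0 → ∃ c : ℤ, w.ord (algebraMap K K' f) = e1 * c := by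
    intro f hf
    obtain ⟨c, hc⟩ := hmem f hf
    rcases he1 with he | he
    · exact ⟨c, by rw [hc, he, mul_comm]⟩
    · exact ⟨-c, by rw [hc, he]; ring⟩
  have hsurj : ∃ f : K, f ≠ 0 ∧ w.ord (algebraMap K K' f) = e1 := by
    have h1 : a ∈ H := by
      rw [ha]
      exact AddSubgroup.subset_closure rfl
    obtain ⟨f, hf, hfa⟩ := h1
    rcases he1 with he | he
    · exact ⟨f, hf, by rw [hfa, he]⟩
    · exact ⟨f⁻¹, inv_ne_zero hf, by rw [map_inv₀, w.ord_inv, hfa, he, neg_neg]⟩
  have he1z : (e1 : ℤ) ≠ 0 := by omega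
  have he1pos : (0 : ℤ) < e1 := by omega
  let P : Place k K :=
    { ord := fun f => w.ord (algebraMap K K' f) / e1
      ord_zero := by rw [map_zero, w.ord_zero, Int.zero_ediv]
      ord_mul := by
        intro f g hf hg
        obtain ⟨c, hc⟩ := hmem' f hf
        obtain ⟨d, hd⟩ := hmem' g hg
        rw [map_mul, w.ord_mul (hinj f hf) (hinj g hg), hc, hd, ← mul_add,
          Int.mul_ediv_cancel_left _ he1z, Int.mul_ediv_cancel_left _ he1z,
          Int.mul_ediv_cancel_left _ he1z]
      ord_add := by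
        intro f g hf hg hfg
        have h1 := w.ord_add (hinj f hf) (hinj g hg) (by rw [← map_add]; exact hinj _ hfg)
        rw [← map_add] at h1
        obtain ⟨c, hc⟩ := hmem' f hf
        obtain ⟨d, hd⟩ := hmem' g hg
        obtain ⟨b, hb⟩ := hmem' _ hfg
        rw [hc, hd, hb] at h1
        rw [hc, hd, hb, Int.mul_ediv_cancel_left _ he1z, Int.mul_ediv_cancel_left _ he1z,
          Int.mul_ediv_cancel_left _ he1z]
        rcases le_total c d with hcd | hcd
        · rw [min_eq_left hcd]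
          rw [min_eq_left (mul_le_mul_of_nonneg_left hcd he1pos.le)] at h1
          exact le_of_mul_le_mul_left h1 he1pos
        · rw [min_eq_right hcd]
          rw [min_eq_right (mul_le_mul_of_nonneg_left hcd he1pos.le)] at h1
          exact le_of_mul_le_mul_left h1 he1pos
      ord_const := by
        intro c hc
        rw [← IsScalarTower.algebraMap_apply k K K', w.ord_const hc, Int.zero_ediv]
      surj := by
        obtain ⟨f, hf, hfe⟩ := hsurj
        exact ⟨f, hf, by rw [hfe, Int.ediv_self he1z]⟩ }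
  have hP : ∀ f : K, w.ord (algebraMap K K' f) = e1 * P.ord f := by
    intro f
    by_cases hf : f = 0
    · rw [hf, map_zero, w.ord_zero, P.ord_zero, mul_zero]
    · obtain ⟨c, hc⟩ := hmem' f hf
      change _ = (e1 : ℤ) * (w.ord (algebraMap K K' f) / e1)
      rw [hc, Int.mul_ediv_cancel_left _ he1z]
  have he2 : (e : ℤ) = e1 * P.ord (algebraMap K0 K t) := by rw [← hP, htw]
  have h2pos : 0 < P.ord (algebraMap K0 K t) := by
    by_contra hcon
    push Not at hcon
    have := mul_nonpos_of_nonneg_of_nonpos he1pos.le hcon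
    omega
  obtain ⟨e2, he2'⟩ : ∃ e2 : ℕ, P.ord (algebraMap K0 K t) = e2 :=
    ⟨(P.ord (algebraMap K0 K t)).toNat, by omega⟩
  refine ⟨P, e1, e2, ⟨hpos, hP⟩, ⟨by omega, fun f => ?_⟩, ?_⟩
  · have h1 := hP (algebraMap K0 K f)
    rw [← IsScalarTower.algebraMap_apply K0 K K', h.2, he2, he2', mul_assoc] at h1
    exact (mul_left_cancel₀ he1z h1).symm
  · rw [he2'] at he2
    exact_mod_cast he2

end

end Pool.Agent.TH756.PN
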