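import Pool.Agent.TH756.PN.Nu
import Pool.Agent.TH756.PN.JacP
import Pool.Agent.TH756.PN.Restr

/-!
The numerical dimension of pairs on finite covers (not necessarily Galois) of a product of
projective spaces.
-/

set_option autoImplicit false
set_option linter.overlappingInstances false
set_option linter.unusedSectionVars false

open FF MvPolynomial IntermediateField Pool.Agent.W603.LV Pool.Agent.W619.PQ
open Pool.Agent.W619.TW Pool.Agent.W602.GT Pool.Agent.TH122.AB

namespace Pool.Agent.TH756.PN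

section

variable {k : Type} [Field k] [CharZero k] {K0 K : Type} [Field K0] [Field K] [Algebra k K0]
  [Algebra k K] [Algebra K0 K] [IsScalarTower k K0 K] [FiniteDimensional K0 K] {n : ℕ}

/-- the place at infinity in the variables of `B`, and the order of the sections there -/
theorem exists_infP {X : Fin (n + 1) → K0}
    (hX : Gens (k := k) X) (hZ : IsTranscendenceBasis k fun j => algebraMap K0 K (X j))
    (hfd : ∀ y : Fin (n + 1) → K, IsTranscendenceBasis k y →
      FiniteDimensional (IntermediateField.adjoin k (Set.range y)) K)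
    {D : Fin (n + 1) → Derivation k K K}
    (hD : ∀ i j, D i (algebraMap K0 K (X j)) = if i = j then 1 else 0)
    {B : Finset (Fin (n + 1))} {c : Fin (n + 1)} (hB : c ∈ B) :
    ∃ v0 : Place k K0,
      (∀ P : MvPolynomial (Fin (n + 1)) k, P ≠ 0 →
        v0.ord (aeval X P) = - (degB B P : ℤ)) ∧
      ∀ (w : Place k K) (e : ℕ), Over w v0 e → ∀ (S : Finset K) (m : ℕ)
        (ω : (Fin (n + 1) → Derivation k K K) → K) (V : Set (Place k K)) (δ : Place k K → ℝ),
        w ∈ V → SecP (n + 1) V δ S m ω →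
        ω D = 0 ∨ ∃ s ∈ S, s ≠ 0 ∧ (w.ord s : ℝ) ≤
          w.ord (ω D) + m * ((e : ℝ) - 1 + δ w) - m * (((B.card : ℝ) + 1) * e) := by
  classical
  have htr := Pool.Agent.W602.GT.trdeg_of_basis hZ
  let X' : Fin (n + 1) → K0 := fun j =>
    if j = c then (X c)⁻¹ else if j ∈ B then X j / X c else X j
  have hf : Flip B c X X' := by
    refine ⟨if_pos rfl, fun j hj hj0 => ?_, fun j hj => ?_⟩
    · change (if j = c then (X c)⁻¹ else if j ∈ B then X j / X c else X j) = _
      rw [if_neg hj0, if_pos hj]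
    · change (if j = c then (X c)⁻¹ else if j ∈ B then X j / X c else X j) = _
      rw [if_neg (by rintro rfl; exact hj hB), if_neg hj]
  have hX' : Gens (k := k) X' := flip_gens hB hX hf
  have hX0 : X c ≠ 0 := by
    have := hX.ne (X_ne_zero (R := k) c)
    rwa [aeval_X] at this
  have hZ0 : algebraMap K0 K (X c) ≠ 0 := by simpa using hX0
  have hirr : Irreducible (MvPolynomial.X c : MvPolynomial (Fin (n + 1)) k) :=
    (MvPolynomial.X_prime (R := k) (i := c)).irreducible
  obtain ⟨v0, hv1, hv0⟩ := exists_adic hX' hirr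
  rw [aeval_X] at hv1
  have hdeg : ∀ P : MvPolynomial (Fin (n + 1)) k, P ≠ 0 →
      v0.ord (aeval X P) = - (degB B P : ℤ) := fun P hP => ord_deg hB hX hf hv1 hv0 hP
  have hfZ : Flip B c (fun j => algebraMap K0 K (X j)) (fun j => algebraMap K0 K (X' j)) := by
    refine ⟨?_, fun j hj hj0 => ?_, fun j hj => ?_⟩
    · change algebraMap K0 K (X' c) = _
      rw [hf.zero, map_inv₀]
    · change algebraMap K0 K (X' j) = _
      rw [hf.mem j hj hj0, map_div₀]
    · change algebraMap K0 K (X' j) = _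
      rw [hf.not_mem j hj]
  have hbasZ' : IsTranscendenceBasis k fun j => algebraMap K0 K (X' j) := by
    have h1 : AlgebraicIndependent k fun j => algebraMap K0 K (X' j) :=
      hX'.ind.map' (f := IsScalarTower.toAlgHom k K0 K) (algebraMap K0 K).injective
    exact h1.isTranscendenceBasis_of_trdeg_le_of_finite (by rw [htr]; simp)
  obtain ⟨D', hD'⟩ : ∃ D' : Fin (n + 1) → Derivation k K K,
      D' = fun i => ∑ b, mB B c (fun j => algebraMap K0 K (X j)) i b • D b := ⟨_, rfl⟩
  have hD'dual : ∀ i j, D' i (algebraMap K0 K (X' j)) = if i = j then 1 else 0 := by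
    intro i j
    rw [hD']
    exact dual_mB hB (Z := fun j => algebraMap K0 K (X j)) (Z' := fun j => algebraMap K0 K (X' j))
      hZ0 hfZ hD i j
  refine ⟨v0, hdeg, fun w e h' S m ω V δ hV hω => ?_⟩
  have hDb : D' c (algebraMap K0 K (X' c)) = 1 := by
    have := hD'dual c c
    rw [if_pos rfl] at this
    exact this
  have hjac := jacP htr hfd h' (div_adic hX' hirr hv0 h') D' (fun j => algebraMap K0 K (X' j)) hbasZ'
        hD'dual (fun i z hz => pres_adic hX' hirr hv0 h' (hD'dual i) hz) hv1 c (by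
          rw [hDb]
          exact one_ne_zero) (by
          rw [hDb]
          exact w.ord_one) S m ω V δ hV hω
  have hpl : ω D' = (- (algebraMap K0 K (X c)) ^ (B.card + 1)) ^ m * ω D := by
    rw [hD', hω.1 (mB B c fun j => algebraMap K0 K (X j)) D, det_mB hB]
  by_cases hz : ω D = 0
  · exact Or.inl hz
  right
  have hneg : - (algebraMap K0 K (X c)) ^ (B.card + 1) ≠ 0 := neg_ne_zero.2 (pow_ne_zero _ hZ0)
  have hordX0 : w.ord (algebraMap K0 K (X c)) = - (e : ℤ) := by
    have h1 := h'.2 (X c)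
    have h2 := hdeg (MvPolynomial.X c) (X_ne_zero _)
    have h3 : degB B (MvPolynomial.X c : MvPolynomial (Fin (n + 1)) k) = 1 := by
      unfold degB
      rw [support_X, Finset.sup_singleton, Finset.sum_eq_single c]
      · simp
      · intro b _ hb
        rw [Finsupp.single_apply, if_neg (Ne.symm hb)]
      · intro h
        exact absurd hB h
    rw [aeval_X, h3] at h2
    rw [h2] at h1
    rw [h1]
    push_cast
    ring
  rcases hjac with h1 | ⟨s, hs, hs0, hle⟩
  · rw [hpl] at h1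
    exact absurd h1 (mul_ne_zero (pow_ne_zero _ hneg) hz)
  · refine ⟨s, hs, hs0, ?_⟩
    rw [hpl, w.ord_mul (pow_ne_zero _ hneg) hz, w.ord_pow, w.ord_neg, w.ord_pow, hordX0] at hle
    push_cast at hle
    linarith

end

theorem ineqP_adic {m mm e t g δ : ℝ} (hm : 0 ≤ m) (hmm : m ≤ mm * (g + 3)) (he : 1 ≤ e)
    (hg : 0 ≤ g) (hδ : e ≤ (g + 3) * (1 - δ)) (ht : 1 ≤ t) (hmm0 : 0 ≤ mm) :
    m * (e - 1 + δ) ≤ mm * (g + 2) * (e * t) := by
  have h1 : (g + 3) * (e - 1 + δ) ≤ (g + 2) * e := by nlinarith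
  have h2 : m * ((g + 3) * (e - 1 + δ)) ≤ m * ((g + 2) * e) := mul_le_mul_of_nonneg_left h1 hm
  have h3 : m * ((g + 2) * e) ≤ mm * (g + 3) * ((g + 2) * e) :=
    mul_le_mul_of_nonneg_right hmm (by positivity)
  have h4 : (g + 3) * (m * (e - 1 + δ)) ≤ (g + 3) * (mm * (g + 2) * e) := by nlinarith
  have h5 : m * (e - 1 + δ) ≤ mm * (g + 2) * e := le_of_mul_le_mul_left h4 (by linarith)
  have h6 : mm * (g + 2) * (e * 1) ≤ mm * (g + 2) * (e * t) := by
    apply mul_le_mul_of_nonneg_left _ (by positivity)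
    exact mul_le_mul_of_nonneg_left ht (by linarith)
  linarith

theorem ineqP_inf {m mm e g δ s : ℝ} (hm : 0 ≤ m) (hmm : mm * (g + 3) ≤ m + g + 2) (he : 1 ≤ e)
    (hg : 0 ≤ g) (hδ : e ≤ (g + 3) * (1 - δ)) (hs : s ≤ g + 2) (hmm0 : 0 ≤ mm) :
    m * (e - 1 + δ) - m * ((g + 2) * e) + e * (mm * (g + 2) * s) ≤ (g + 2) ^ 2 * e := by
  have h1 : (g + 3) * (e - 1 + δ) ≤ (g + 2) * e := by nlinarith
  have h2 : m * ((g + 3) * (e - 1 + δ)) ≤ m * ((g + 2) * e) := mul_le_mul_of_nonneg_left h1 hm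
  have h3 : e * (mm * (g + 2) * s) ≤ e * (mm * (g + 2) * (g + 2)) := by
    apply mul_le_mul_of_nonneg_left _ (by linarith)
    exact mul_le_mul_of_nonneg_left hs (by positivity)
  have h4 : e * (g + 2) ^ 2 * (mm * (g + 3)) ≤ e * (g + 2) ^ 2 * (m + g + 2) :=
    mul_le_mul_of_nonneg_left hmm (by positivity)
  have h5 : 0 ≤ (g + 2) ^ 2 * e := by positivity
  have h6 : (g + 3) * (m * (e - 1 + δ) - m * ((g + 2) * e) + e * (mm * (g + 2) * (g + 2))) ≤
      (g + 3) * ((g + 2) ^ 2 * e) := by nlinarith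
  have h7 := le_of_mul_le_mul_left h6 (by linarith)
  linarith

section

variable {k K K' : Type} [Field k] [CharZero k] [Field K] [Field K'] [Algebra k K] [Algebra k K']
  [Algebra K K'] [IsScalarTower k K K'] {n : ℕ}

/-- **The numerical dimension.** Every variable is in one of the blocks `B t`, with `g t + 1`
variables. -/
theorem numLe_P (G : Subgroup (K' ≃ₐ[k] K')) [Finite G] [Algebra (fixedField G) K]
    [IsScalarTower k (fixedField G) K] [IsScalarTower (fixedField G) K K']
    [FiniteDimensional (fixedField G) K] {X : Fin (n + 1) → fixedField G}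
    (hX : Gens (k := k) X) (hZ' : IsTranscendenceBasis k fun j => (X j : K'))
    (hZ : IsTranscendenceBasis k fun j => algebraMap (fixedField G) K (X j))
    (hfd : ∀ y : Fin (n + 1) → K, IsTranscendenceBasis k y →
      FiniteDimensional (IntermediateField.adjoin k (Set.range y)) K)
    {κ α : Type} [Fintype κ] [Fintype α] (B : κ → Finset (Fin (n + 1))) (c : κ → Fin (n + 1))
    (hc : ∀ t, c t ∈ B t) (g : κ → ℕ) (hg : ∀ t, (B t).card = g t + 1)
    (τ : Fin (n + 1) → κ) (hτ : ∀ b, b ∈ B (τ b)) (I : κ → Prop) [DecidablePred I]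
    (lam : α → MvPolynomial (Fin (n + 1)) k) (hlam0 : ∀ a, lam a ≠ 0) (bl : α → κ)
    (hdeg1 : ∀ t a, bl a ≠ t → degB (B t) (lam a) = 0)
    (hdeg2 : ∀ t, ¬ I t → ∑ a, degB (B t) (lam a) ≤ g t + 2) (V : Set (Place k K))
    (δ : Place k K → ℝ)
    (H1 : ∀ p : MvPolynomial (Fin (n + 1)) k, Irreducible p → ∀ v : Place k (fixedField G),
      v.ord (aeval X p) = 1 →
      (∀ P, P ≠ 0 → 0 ≤ v.ord (aeval X P) ∧ (v.ord (aeval X P) = 0 ↔ ¬ p ∣ P)) →
      ∀ (P : Place k K) (e : ℕ), Over P v e → P ∈ V ∧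
        ((e = 1 ∧ δ P ≤ 0) ∨ ∃ a, p ∣ lam a ∧ δ P ≤ 1 ∧
          (¬ I (bl a) → (e : ℝ) ≤ ((g (bl a) : ℝ) + 3) * (1 - δ P))))
    (H0 : ∀ t, ∀ v : Place k (fixedField G),
      (∀ P : MvPolynomial (Fin (n + 1)) k, P ≠ 0 → v.ord (aeval X P) = - (degB (B t) P : ℤ)) →
      ∀ (P : Place k K) (e : ℕ), Over P v e → P ∈ V ∧ δ P ≤ 1 ∧
        (¬ I t → (e : ℝ) ≤ ((g t : ℝ) + 3) * (1 - δ P))) :
    NumLeP k K (n + 1) V δ (Finset.univ.filter fun b => I (τ b)).card := by
  classical
  intro S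
  have hGal : IsGaloisGroup G (fixedField G) K' := isGaloisGroup_fixed G
  have hfdG : FiniteDimensional (fixedField G) K' := IsGaloisGroup.finiteDimensional G _ K'
  have htr := Pool.Agent.W602.GT.trdeg_of_basis hZ
  obtain ⟨D, hD0⟩ := Pool.Agent.W602.GT.exists_dual hZ
  have hD : ∀ i j, D i (algebraMap (fixedField G) K (X j)) = if i = j then 1 else 0 := by
    intro i j
    have h1 := congrFun (congrFun hD0 i) j
    rw [Matrix.of_apply, Matrix.one_apply] at h1
    exact h1
  -- the places at infinity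
  have hinf : ∀ t : κ, ∃ (v0 : Place k (fixedField G)) (w0 : Place k K') (e0 : ℕ),
      Over w0 v0 e0 ∧
      (∀ P : MvPolynomial (Fin (n + 1)) k, P ≠ 0 →
        v0.ord (aeval X P) = - (degB (B t) P : ℤ)) ∧
      ∀ (w : Place k K) (e : ℕ), Over w v0 e → ∀ (m : ℕ)
        (ω : (Fin (n + 1) → Derivation k K K) → K),
        w ∈ V → SecP (n + 1) V δ S m ω →
        ω D = 0 ∨ ∃ s ∈ S, s ≠ 0 ∧ (w.ord s : ℝ) ≤
          w.ord (ω D) + m * ((e : ℝ) - 1 + δ w) - m * ((((B t).card : ℝ) + 1) * e) := by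
    intro t
    obtain ⟨v0, h1, h2⟩ := exists_infP hX hZ hfd hD (hc t)
    obtain ⟨w0, e0, J, hwv, -, -⟩ := exists_inertia G v0
    exact ⟨v0, w0, e0, hwv, h1, fun w e hw m ω => h2 w e hw S m ω V δ⟩
  choose v0 w0 e0 h0 hdeg hjac0 using hinf
  obtain ⟨S', hS'⟩ : ∃ S' : Finset K', S' = S.image (algebraMap K K') := ⟨_, rfl⟩
  -- the lower bound
  obtain ⟨M0, hM0⟩ : ∃ M0 : ℕ, ∀ t, ∀ g ∈ G, ∀ s ∈ S', -(M0 : ℤ) ≤ (w0 t).ord (g s) := by
    have hfin : (⋃ t, Set.image2 (fun (g : K' ≃ₐ[k] K') (s : K') => (w0 t).ord (g s))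
        (G : Set (K' ≃ₐ[k] K')) (S' : Set K')).Finite :=
      Set.finite_iUnion fun t => Set.Finite.image2 _ (Set.toFinite _) (Set.toFinite _)
    obtain ⟨M0, hM0⟩ := hfin.bddBelow
    refine ⟨M0.natAbs, fun t g hg s hs => ?_⟩
    have h1 := hM0 (Set.mem_iUnion.2 ⟨t, Set.mem_image2_of_mem hg hs⟩)
    have h2 : -(M0.natAbs : ℤ) ≤ M0 := by omega
    exact h2.trans h1
  obtain ⟨C, c1, hC⟩ := fin_bound G hX hZ' B hdeg h0 τ hτ S'
  -- the constants
  obtain ⟨dt, hdt⟩ : ∃ dt : κ → ℕ, dt = fun t => ∑ a, degB (B t) (lam a) := ⟨_, rfl⟩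
  obtain ⟨A, hA⟩ : ∃ A : ℕ, A = ∑ t : κ, (M0 + (dt t + (g t + 2) ^ 2) * e0 t + c1) := ⟨_, rfl⟩
  refine ⟨C * (A + 1) ^ (n + 1), fun m N hm1 hind => ?_⟩
  obtain ⟨ω, hlin, hsec⟩ := hind
  -- the exponents
  have hex : ∀ t, ∃ mm : ℕ, m ≤ mm * (g t + 3) ∧ mm * (g t + 3) ≤ m + g t + 2 := by
    intro t
    refine ⟨(m + g t + 2) / (g t + 3), ?_, ?_⟩
    · have h1 := Nat.div_add_mod (m + g t + 2) (g t + 3)
      have h2 := Nat.mod_lt (m + g t + 2) (by omega : 0 < g t + 3)
      have h3 : (m + g t + 2) / (g t + 3) * (g t + 3) =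
        (g t + 3) * ((m + g t + 2) / (g t + 3)) := mul_comm _ _
      omega
    · exact Nat.div_mul_le_self _ _
  choose mm hmm1 hmm2 using hex
  obtain ⟨E, hEI, hEn⟩ : ∃ E : α → ℕ, (∀ a, I (bl a) → E a = m) ∧
      ∀ a, ¬ I (bl a) → E a = mm (bl a) * (g (bl a) + 2) :=
    ⟨fun a => if I (bl a) then m else mm (bl a) * (g (bl a) + 2), fun a h => if_pos h,
      fun a h => if_neg h⟩
  have hmm1' : ∀ t, (m : ℝ) ≤ mm t * ((g t : ℝ) + 3) := fun t => by exact_mod_cast hmm1 t
  have hmm2' : ∀ t, (mm t : ℝ) * ((g t : ℝ) + 3) ≤ m + g t + 2 := fun t => by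
    exact_mod_cast hmm2 t
  obtain ⟨Λ, hΛ⟩ : ∃ Λ : K, Λ = ∏ a, (algebraMap (fixedField G) K (aeval X (lam a))) ^ E a :=
    ⟨_, rfl⟩
  have hlamK : ∀ a, algebraMap (fixedField G) K (aeval X (lam a)) ≠ 0 := by
    intro a
    rw [Ne, map_eq_zero]
    exact hX.ne (hlam0 a)
  have hΛ0 : Λ ≠ 0 := by
    rw [hΛ]
    exact Finset.prod_ne_zero_iff.2 fun j _ => pow_ne_zero _ (hlamK j)
  have hordΛ : ∀ (v : Place k (fixedField G)) (w : Place k K) (e : ℕ), Over w v e →
      w.ord Λ = e * ∑ a, (E a : ℤ) * v.ord (aeval X (lam a)) := by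
    intro v w e h
    rw [hΛ, ord_prod' w Finset.univ _ fun j _ => pow_ne_zero _ (hlamK j), Finset.mul_sum]
    refine Finset.sum_congr rfl fun j _ => ?_
    rw [w.ord_pow, h.2 (aeval X (lam j))]
    ring
  have hm0 : (0 : ℝ) ≤ m := by positivity
  -- linear independence
  have hlin' : LinearIndependent k fun l => algebraMap K K' (ω l D * Λ) := by
    have h1 := lin_sec hZ hD hlin (fun l => (hsec l).1) hΛ0
    exact h1.map' (IsScalarTower.toAlgHom k K K').toLinearMap
      (LinearMap.ker_eq_bot.2 (algebraMap K K').injective)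
  have hmain := hC (fun t => M0 + (if I t then m * dt t else (g t + 2) ^ 2) * e0 t) N
    (fun l => algebraMap K K' (ω l D * Λ)) hlin' ?_ ?_
  · -- the final count
    refine hmain.trans ?_
    have hfac : ∀ b : Fin (n + 1), (M0 + (if I (τ b) then m * dt (τ b) else (g (τ b) + 2) ^ 2) *
        e0 (τ b) + c1) ≤ (A + 1) * (if I (τ b) then m else 1) := by
      intro b
      have h3 : M0 + (dt (τ b) + (g (τ b) + 2) ^ 2) * e0 (τ b) + c1 ≤ A := by
        rw [hA]
        exact Finset.single_le_sum (f := fun t : κ => M0 + (dt t + (g t + 2) ^ 2) * e0 t + c1)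
          (fun _ _ => Nat.zero_le _) (Finset.mem_univ (τ b))
      by_cases h : I (τ b)
      · rw [if_pos h, if_pos h]
        have h5 : M0 ≤ M0 * m := Nat.le_mul_of_pos_right _ (by omega)
        have h6 : c1 ≤ c1 * m := Nat.le_mul_of_pos_right _ (by omega)
        have h7 : dt (τ b) * e0 (τ b) * m ≤ (dt (τ b) + (g (τ b) + 2) ^ 2) * e0 (τ b) * m := by
          apply Nat.mul_le_mul_right
          exact Nat.mul_le_mul_right _ (by omega)
        calc M0 + m * dt (τ b) * e0 (τ b) + c1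
            = M0 + dt (τ b) * e0 (τ b) * m + c1 := by ring
          _ ≤ M0 * m + (dt (τ b) + (g (τ b) + 2) ^ 2) * e0 (τ b) * m + c1 * m := by omega
          _ = (M0 + (dt (τ b) + (g (τ b) + 2) ^ 2) * e0 (τ b) + c1) * m := by ring
          _ ≤ (A + 1) * m := Nat.mul_le_mul_right _ (by omega)
      · rw [if_neg h, if_neg h, mul_one]
        have h7 : (g (τ b) + 2) ^ 2 * e0 (τ b) ≤ (dt (τ b) + (g (τ b) + 2) ^ 2) * e0 (τ b) :=
          Nat.mul_le_mul_right _ (by omega)
        omega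
    calc C * ∏ b, (M0 + (if I (τ b) then m * dt (τ b) else (g (τ b) + 2) ^ 2) *
        e0 (τ b) + c1)
        ≤ C * ∏ b : Fin (n + 1), ((A + 1) * (if I (τ b) then m else 1)) :=
          Nat.mul_le_mul_left _ (Finset.prod_le_prod' fun b _ => hfac b)
      _ = _ := by
          rw [Finset.prod_mul_distrib, Finset.prod_const, Finset.card_univ, Fintype.card_fin,
            Finset.prod_ite, Finset.prod_const, Finset.prod_const_one, mul_one]
          ring
  · -- the places of the irreducible polynomials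
    intro l p hp v hvp hv
    obtain ⟨w, e, J, h, -, -⟩ := exists_inertia G v
    refine ⟨w, e, h, fun g' hg' => ?_⟩
    have h' := over_comp h hg'
    obtain ⟨P, e1, e2, hP1, hP2, hee⟩ := exists_restr (K := K) h'
    obtain ⟨hPV, hcase⟩ := H1 p hp v hvp hv P e2 hP2
    obtain ⟨b, hb0, hb⟩ := exists_pderiv hp
    have hDb : D b (algebraMap (fixedField G) K (aeval X p)) =
        algebraMap (fixedField G) K (aeval X (pderiv b p)) := by
      rw [← Pool.Agent.TH122.AB.aeval_coe, ← Pool.Agent.TH122.AB.aeval_coe]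
      exact der_aeval (hD b) p
    have hjac := jacP htr hfd hP2 (div_adic hX hp hv hP2) D
          (fun j => algebraMap (fixedField G) K (X j)) hZ hD
          (fun i z hz => pres_adic hX hp hv hP2 (hD i) hz) hvp b (by
            rw [hDb, Ne, map_eq_zero]
            exact hX.ne hb0) (by
            rw [hDb, hP2.2, (hv _ hb0).2.2 hb, mul_zero]) S m (ω l) V δ hPV (hsec l)
    by_cases hz : ω l D = 0
    · left
      rw [hz, zero_mul, map_zero]
    right
    obtain ⟨s, hs, hs0, hle⟩ := hjac.resolve_left hz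
    refine ⟨algebraMap K K' s, ?_, ?_, ?_⟩
    · rw [hS']
      exact Finset.mem_image_of_mem _ hs
    · simpa using hs0
    rw [← Place.comp_ord, ← Place.comp_ord, hP1.2, hP1.2]
    refine mul_le_mul_of_nonneg_left ?_ (by positivity)
    rw [P.ord_mul hz hΛ0, hordΛ v P e2 hP2]
    have hnn : ∀ a, 0 ≤ v.ord (aeval X (lam a)) := fun a => (hv _ (hlam0 a)).1
    have he1 : (1 : ℝ) ≤ e2 := by exact_mod_cast hP2.1
    have hterm : ∀ a, 0 ≤ (E a : ℤ) * v.ord (aeval X (lam a)) := fun a =>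
      mul_nonneg (by positivity) (hnn a)
    have hgoal : (P.ord s : ℝ) ≤ P.ord (ω l D) +
        ((e2 * ∑ a, (E a : ℤ) * v.ord (aeval X (lam a)) : ℤ) : ℝ) := by
      rcases hcase with ⟨he, hδ⟩ | ⟨a, ha, hδ1, he⟩
      · have h2 : 0 ≤ (e2 : ℤ) * ∑ a, (E a : ℤ) * v.ord (aeval X (lam a)) :=
          mul_nonneg (by positivity) (Finset.sum_nonneg fun a _ => hterm a)
        have h3 : (0 : ℝ) ≤ ((e2 * ∑ a, (E a : ℤ) * v.ord (aeval X (lam a)) : ℤ) : ℝ) := by
          exact_mod_cast h2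
        have h4 : (m : ℝ) * ((e2 : ℝ) - 1 + δ P) ≤ 0 := by
          rw [he]
          push_cast
          rw [sub_self, zero_add]
          exact mul_nonpos_of_nonneg_of_nonpos hm0 hδ
        linarith
      · have h2 : (E a : ℤ) * v.ord (aeval X (lam a)) ≤
            ∑ a, (E a : ℤ) * v.ord (aeval X (lam a)) :=
          Finset.single_le_sum (f := fun a => (E a : ℤ) * v.ord (aeval X (lam a)))
            (fun a _ => hterm a) (Finset.mem_univ a)
        have h3 : 1 ≤ v.ord (aeval X (lam a)) := by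
          have h4 : v.ord (aeval X (lam a)) ≠ 0 := fun h5 => (hv _ (hlam0 a)).2.1 h5 ha
          have h5 := hnn a
          omega
        have h3' : (1 : ℝ) ≤ v.ord (aeval X (lam a)) := by exact_mod_cast h3
        have h4 : (m : ℝ) * ((e2 : ℝ) - 1 + δ P) ≤
            e2 * ((E a : ℝ) * v.ord (aeval X (lam a))) := by
          by_cases hb : I (bl a)
          · rw [hEI a hb]
            have h5 : (m : ℝ) * 1 ≤ m * v.ord (aeval X (lam a)) :=
              mul_le_mul_of_nonneg_left h3' hm0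
            have h6 : (e2 : ℝ) * (m * 1) ≤ e2 * (m * v.ord (aeval X (lam a))) :=
              mul_le_mul_of_nonneg_left h5 (by positivity)
            have h8 : (m : ℝ) * ((e2 : ℝ) - 1 + δ P) ≤ m * e2 :=
              mul_le_mul_of_nonneg_left (by linarith) hm0
            nlinarith
          · rw [hEn a hb]
            have h7 := ineqP_adic hm0 (hmm1' (bl a)) he1 (by positivity) (he hb) h3'
              (by positivity)
            push_cast
            calc (m : ℝ) * ((e2 : ℝ) - 1 + δ P) ≤ _ := h7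
              _ = _ := by ring
        have h5 : (e2 : ℤ) * ((E a : ℤ) * v.ord (aeval X (lam a))) ≤
            e2 * ∑ a, (E a : ℤ) * v.ord (aeval X (lam a)) :=
          mul_le_mul_of_nonneg_left h2 (by positivity)
        have h6 : (e2 : ℝ) * ((E a : ℝ) * v.ord (aeval X (lam a))) ≤
            ((e2 * ∑ a, (E a : ℤ) * v.ord (aeval X (lam a)) : ℤ) : ℝ) := by
          exact_mod_cast h5
        linarith
    exact_mod_cast hgoal
  · -- the places at infinity
    intro l t g' hg'
    have h' := over_comp (h0 t) hg'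
    obtain ⟨P, e1, e2, hP1, hP2, hee⟩ := exists_restr (K := K) h'
    obtain ⟨hPV, hδ1, hcase⟩ := H0 t (v0 t) (hdeg t) P e2 hP2
    by_cases hz : ω l D = 0
    · left
      rw [hz, zero_mul, map_zero, map_zero]
    right
    obtain ⟨s, hs, hs0, hle⟩ := (hjac0 t P e2 hP2 m (ω l) hPV (hsec l)).resolve_left hz
    have hMs := hM0 t g' hg' (algebraMap K K' s) (by
      rw [hS']
      exact Finset.mem_image_of_mem _ hs)
    rw [← Place.comp_ord, hP1.2] at hMs
    rw [← Place.comp_ord, hP1.2, P.ord_mul hz hΛ0, hordΛ (v0 t) P e2 hP2]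
    have he1 : (1 : ℝ) ≤ e2 := by exact_mod_cast hP2.1
    have hcard : (((B t).card : ℝ)) = (g t : ℝ) + 1 := by
      rw [hg t]
      push_cast
      ring
    rw [hcard] at hle
    obtain ⟨F, hF⟩ : ∃ F : ℕ, F = if I t then m * dt t else (g t + 2) ^ 2 := ⟨_, rfl⟩
    have hgoal : (P.ord s : ℝ) ≤ P.ord (ω l D) +
        ((e2 * ∑ a, (E a : ℤ) * (v0 t).ord (aeval X (lam a)) : ℤ) : ℝ) + F * e2 := by
      by_cases hI : I t
      · rw [if_pos hI] at hF
        have hsum : ∑ a, (E a : ℤ) * (v0 t).ord (aeval X (lam a)) = - ((m * dt t : ℕ) : ℤ) := by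
          rw [hdt]
          push_cast
          rw [Finset.mul_sum, ← Finset.sum_neg_distrib]
          refine Finset.sum_congr rfl fun a _ => ?_
          rw [hdeg t _ (hlam0 a)]
          by_cases hb : bl a = t
          · rw [hEI a (by rw [hb]; exact hI)]
            ring
          · rw [hdeg1 t a hb]
            simp
        rw [hsum, hF]
        have h8 : (m : ℝ) * ((e2 : ℝ) - 1 + δ P) ≤ m * (((g t : ℝ) + 1 + 1) * e2) := by
          apply mul_le_mul_of_nonneg_left _ hm0
          have : (0 : ℝ) ≤ g t := by positivity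
          nlinarith
        push_cast
        linarith
      · rw [if_neg hI] at hF
        have hsum : ∑ a, (E a : ℤ) * (v0 t).ord (aeval X (lam a)) =
            - ((mm t : ℤ) * (g t + 2) * ((∑ a, degB (B t) (lam a) : ℕ) : ℤ)) := by
          push_cast
          rw [Finset.mul_sum, ← Finset.sum_neg_distrib]
          refine Finset.sum_congr rfl fun a _ => ?_
          rw [hdeg t _ (hlam0 a)]
          by_cases hb : bl a = t
          · rw [hEn a (by rw [hb]; exact hI), hb]
            push_cast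
            ring
          · rw [hdeg1 t a hb]
            simp
        rw [hsum, hF]
        obtain ⟨σ, hσ⟩ : ∃ σ : ℕ, σ = ∑ a, degB (B t) (lam a) := ⟨_, rfl⟩
        have hσ1 : (σ : ℝ) ≤ (g t : ℝ) + 2 := by
          have := hdeg2 t hI
          rw [← hσ] at this
          exact_mod_cast this
        rw [← hσ]
        have key := ineqP_inf hm0 (hmm2' t) he1 (by positivity : (0 : ℝ) ≤ g t) (hcase hI) hσ1
          (by positivity)
        push_cast
        push_cast at key
        linarith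
    have hgoal' : (P.ord s : ℤ) ≤ P.ord (ω l D) +
        (e2 * ∑ a, (E a : ℤ) * (v0 t).ord (aeval X (lam a)) : ℤ) + F * e2 := by
      exact_mod_cast hgoal
    change -(((M0 + (if I t then m * dt t else (g t + 2) ^ 2) * e0 t : ℕ)) : ℤ) ≤ _
    rw [← hF, hee]
    have h9 := mul_le_mul_of_nonneg_left hgoal' (by positivity : (0 : ℤ) ≤ (e1 : ℤ))
    push_cast
    push_cast at h9
    linarith

end

end Pool.Agent.TH756.PN
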