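import Pool.Agent.TH756.PN.FinW
import Pool.Agent.TH585.SV.Fib8

/-!
Varieties with a dominant map to a product of projective spaces.
-/

set_option autoImplicit false

open FF Module Pool.Agent.W603.LV Pool.Agent.W602.GT Pool.Agent.W602.Cov Pool.Agent.W602.Cov.G
open Pool.Agent.W168.CG.PGR Pool.Agent.TH152.AC Pool.Agent.TH756.AR Pool.Agent.TH756.PR

namespace Pool.Agent.TH756.PN

variable {r N : ℕ} {n : Fin r → ℕ} {K : Type} [Field K] [Algebra ℂ K]
  (e : ((i : Fin r) × Fin (n i)) ≃ Fin N) {q : Fin r → ℕ} {ℓ : ∀ i, Fin (q i) → Form (n i)}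

/-- the canonical form changes by a constant if other homogeneous coordinates are used -/
def Chgs (x : ∀ i, Fin (n i + 1) → K) : Prop :=
  ∀ c : ∀ i, Matrix (Fin (n i + 1)) (Fin (n i + 1)) ℂ, (∀ i, chg c x i 0 ≠ 0) →
    ∀ D : Fin N → Derivation ℂ K K,
      om e D (chg c x) = algebraMap ℂ K (∏ i, (c i).det) * om e D x

theorem chgs_of_frame {x : ∀ i, Fin (n i + 1) → K} (hx0 : ∀ i, x i 0 ≠ 0) {m : ℕ}
    {u : Fin m → K} {D0 : Fin N → Derivation ℂ K K} {Du : Fin m → Derivation ℂ K K}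
    (F : Pool.Agent.TH585.SV.Frame (uu e x) u D0 Du) : Chgs e x := by
  intro c hf0 D
  have hd : ∀ a b, D0 a (uu e x b) = if a = b then 1 else 0 := F.tt
  have hDu : ∀ (l : Fin m) (b : (i : Fin r) × Fin (n i)), Du l (aff x b) = 0 := by
    intro l b
    have h1 := F.ut l (e b)
    unfold uu at h1
    rwa [Equiv.symm_apply_apply] at h1
  have hDuc : ∀ (l : Fin m) (b : (i : Fin r) × Fin (n i)), Du l (aff (chg c x) b) = 0 := by
    rintro l ⟨i', k⟩
    have h6 := aff_const (D := Du l) (hx0 i') (fun l' => hDu l ⟨i', l'⟩) c k.succ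
    have h7 := aff_const (D := Du l) (hx0 i') (fun l' => hDu l ⟨i', l'⟩) c 0
    have h8 : aff (chg c x) ⟨i', k⟩ =
        (chg c x i' k.succ / x i' 0) / (chg c x i' 0 / x i' 0) := by
      unfold aff
      have := hx0 i'
      field_simp
    rw [h8]
    exact der_div_zero h6 h7
  have hd' : ∀ (a b : (i : Fin r) × Fin (n i)), D0 (e a) (aff x b) = if a = b then 1 else 0 := by
    intro a b
    have h1 := hd (e a) (e b)
    unfold uu at h1
    rw [Equiv.symm_apply_apply] at h1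
    rw [h1]
    simp only [EmbeddingLike.apply_eq_iff_eq]
  -- step 2
  have h2 : (Matrix.of fun a b : Fin N => D a (uu e (chg c x) b)).det =
      (Matrix.of fun a b : Fin N => D a (uu e x b)).det *
      (Matrix.of fun a b : Fin N => D0 a (uu e (chg c x) b)).det := by
    rw [← Matrix.det_mul]
    congr 1
    ext a b
    rw [Matrix.of_apply, Matrix.mul_apply]
    have h9 := F.eq (D a) (uu e (chg c x) b)
    have h10 : ∑ l, D a (u l) * Du l (uu e (chg c x) b) = 0 :=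
      Finset.sum_eq_zero fun l _ => by
        have h11 : Du l (uu e (chg c x) b) = 0 := hDuc l _
        rw [h11, mul_zero]
    rw [h10, add_zero] at h9
    exact h9
  -- step 3
  have h3 : (Matrix.of fun a b : Fin N => D0 a (uu e (chg c x) b)).det =
      ∏ i, (Matrix.of fun k l : Fin (n i) => D0 (e ⟨i, k⟩) (aff (chg c x) ⟨i, l⟩)).det := by
    rw [← Matrix.det_submatrix_equiv_self e]
    have hM : (Matrix.of fun a b : Fin N => D0 a (uu e (chg c x) b)).submatrix e e =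
        Matrix.of fun a b : (i : Fin r) × Fin (n i) => D0 (e a) (aff (chg c x) b) := by
      ext a b
      simp only [Matrix.submatrix_apply, Matrix.of_apply]
      unfold uu
      rw [Equiv.symm_apply_apply]
    rw [hM]
    have hzero : ∀ a b : (i : Fin r) × Fin (n i), a.1 ≠ b.1 →
        D0 (e a) (aff (chg c x) b) = 0 := by
      rintro ⟨i, k⟩ ⟨i', l⟩ hab
      have h5 : ∀ l : Fin (n i'), D0 (e ⟨i, k⟩) (aff x ⟨i', l⟩) = 0 := by
        intro l
        rw [hd', if_neg]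
        intro h
        have h' : i = i' := congrArg Sigma.fst h
        exact hab h'
      have h6 := aff_const (D := D0 (e ⟨i, k⟩)) (hx0 i') h5 c l.succ
      have h7 := aff_const (D := D0 (e ⟨i, k⟩)) (hx0 i') h5 c 0
      have h8 : aff (chg c x) ⟨i', l⟩ =
          (chg c x i' l.succ / x i' 0) / (chg c x i' 0 / x i' 0) := by
        unfold aff
        have := hx0 i'
        field_simp
      rw [h8]
      exact der_div_zero h6 h7
    rw [Matrix.BlockTriangular.det_fintype (b := Sigma.fst) (fun a b hab => by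
      rw [Matrix.of_apply]
      exact hzero a b (ne_of_gt hab))]
    refine Finset.prod_congr rfl fun i _ => ?_
    let ε : Fin (n i) ≃ {a : (i : Fin r) × Fin (n i) // a.1 = i} :=
      { toFun := fun k => ⟨⟨i, k⟩, rfl⟩
        invFun := fun a => Fin.cast (congrArg n a.2) a.1.2
        left_inv := fun k => rfl
        right_inv := fun a => by
          rcases a with ⟨⟨i', k⟩, h⟩
          have h' : i' = i := h
          subst h'
          rfl }
    rw [← Matrix.det_submatrix_equiv_self ε]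
    congr 1
  -- step 4
  have h4 : ∀ i, chg c x i 0 ^ (n i + 1) *
      (Matrix.of fun k l : Fin (n i) => D0 (e ⟨i, k⟩) (aff (chg c x) ⟨i, l⟩)).det =
      algebraMap ℂ K (c i).det * x i 0 ^ (n i + 1) := by
    intro i
    have h5 := Pool.Agent.W930.CG.bw_eq bwa (fun k => D0 (e ⟨i, k⟩)) (chg c x i) (hf0 i)
    have h6 := (bwa (n i) K).2.2 (c i) (fun k => D0 (e ⟨i, k⟩)) (x i)
    have h7 := Pool.Agent.W930.CG.bw_eq bwa (fun k => D0 (e ⟨i, k⟩)) (x i) (hx0 i)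
    have h8 : (Matrix.of fun k l : Fin (n i) => D0 (e ⟨i, k⟩) (x i l.succ / x i 0)) = 1 := by
      ext k l
      rw [Matrix.of_apply, Matrix.one_apply]
      have h9 := hd' ⟨i, k⟩ ⟨i, l⟩
      unfold aff at h9
      rw [h9]
      simp
    rw [h8, Matrix.det_one, mul_one] at h7
    rw [h7] at h6
    rw [← h6]
    exact h5.symm
  unfold om
  rw [h2, h3, map_prod, mul_comm (Matrix.det _), ← mul_assoc, ← Finset.prod_mul_distrib,
    Finset.prod_congr rfl fun i _ => h4 i, Finset.prod_mul_distrib, mul_assoc]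

theorem pp_ordF (p : ∀ i, Bases (ℓ i) → ℕ) (g : ∀ i, (Fin (q i) → ℕ) → ℚ)
    (hp : ∀ i, ∀ v : Fin (q i) → ℕ,
      Submodule.span ℂ (ℓ i '' {k | v k ≠ 0}) ≠ ⊤ → ∃ B' : Bases (ℓ i),
        (∑ B, (p i B : ℚ)) * g i v + ∑ B, (p i B : ℚ) * ∑ a, (v (B.1 a) : ℚ) ≤
          (∑ B, (p i B : ℚ)) * ∑ a, (v (B'.1 a) : ℚ))
    (hspan : ∀ i, Submodule.span ℂ (Set.range (ℓ i)) = ⊤) (t : Fin r → ℕ) (T : ℕ)
    (hT : ∀ i, t i * ∑ B, p i B = T) {x : ∀ i, Fin (n i + 1) → K}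
    (hlx : ∀ i k, lf (ℓ i k) (x i) ≠ 0)
    (hcg : Chgs e x) (P : Place ℂ K)
    (D : Fin N → Derivation ℂ K K) (ε : ℕ)
    (h1 : ∀ f : ∀ i, Fin (n i + 1) → K, (∀ i j, f i j ≠ 0) →
      Ge P ((∑ i, ∑ j, P.ord (f i j)) - ε) (om e D f))
    (h2 : ∀ (f : ∀ i, Fin (n i + 1) → K) (a : Fin r → ℤ), (∀ i j, f i j ≠ 0) →
      (∀ i j, P.ord (f i j) = a i) → Ge P (∑ i, ((n i : ℤ) + 1) * a i) (om e D f)) :
    ∃ (a : Fin r → ℤ) (v : ∀ i, Fin (q i) → ℕ),
      (∀ i k, P.ord (lf (ℓ i k) (x i)) = a i + v i k) ∧ (∀ i j, Ge P (a i) (x i j)) ∧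
      (∀ i, Submodule.span ℂ (ℓ i '' {k | v i k ≠ 0}) ≠ ⊤) ∧
      ∃ c : ℤ, Ge P c (pp e ℓ x p t T D) ∧
        (((∀ i, v i = 0) ∧ 0 ≤ c) ∨ ((∃ i, v i ≠ 0) ∧
          (T : ℚ) * ∑ i, g i (v i) ≤ c + ε * T)) := by
  choose a v B' hv hx hsp hB using fun i =>
    factorW (p i) (g i) (hp i) (hspan i) (hlx i) P
  refine ⟨a, v, hv, hx, hsp, ?_⟩
  -- the coordinates of the bases
  obtain ⟨c, hc⟩ : ∃ c : ∀ i, Matrix (Fin (n i + 1)) (Fin (n i + 1)) ℂ,
    c = fun i => Matrix.of fun j l : Fin (n i + 1) => ℓ i ((B' i).1 j) (Pi.single l 1) :=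
    ⟨_, rfl⟩
  have hdet : ∀ i, (c i).det ≠ 0 := by
    intro i
    rw [hc]
    exact det_ne_zero (m := fun j => ℓ i ((B' i).1 j)) (B' i).2
  have hf : ∀ i j, chg c x i j = lf (ℓ i ((B' i).1 j)) (x i) := by
    intro i j
    rw [hc]
    rfl
  have hfne : ∀ i j, chg c x i j ≠ 0 := fun i j => by
    rw [hf]
    exact hlx i _
  have hchg := hcg c (fun i => hfne i 0) D
  have hprod : (∏ i, (c i).det) ≠ 0 := Finset.prod_ne_zero_iff.2 fun i _ => hdet i
  have hback : ∀ L : ℤ, Ge P L (om e D (chg c x)) → Ge P L (om e D x) := by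
    intro L hL
    rw [hchg] at hL
    have h4 := (Ge.const (P := P) (∏ i, (c i).det)⁻¹).mul hL
    rw [← mul_assoc, ← map_mul, inv_mul_cancel₀ hprod, map_one, one_mul, zero_add] at h4
    exact h4
  have hordf : ∀ i j, P.ord (chg c x i j) = a i + v i ((B' i).1 j) := fun i j => by
    rw [hf, hv]
  have hden : P.ord (∏ i, den (ℓ i) (x i) (p i) (t i)) =
      ∑ i, (t i : ℤ) * ∑ B, (p i B : ℤ) * ∑ b, (a i + v i (B.1 b)) := by
    rw [ord_prod' P Finset.univ _ fun i _ => den_ne (hlx i) (p i) (t i)]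
    refine Finset.sum_congr rfl fun i _ => ?_
    rw [ord_den P (hlx i)]
    simp only [hv]
  have hterm : ∀ i, (t i : ℤ) * ∑ B, (p i B : ℤ) * ∑ b, (a i + v i (B.1 b)) =
      T * (((n i : ℤ) + 1) * a i) + t i * ∑ B, (p i B : ℤ) * ∑ b, (v i (B.1 b) : ℤ) := by
    intro i
    have e1 : ∀ B : Bases (ℓ i), ∑ b, (a i + (v i (B.1 b) : ℤ)) =
        ((n i : ℤ) + 1) * a i + ∑ b, (v i (B.1 b) : ℤ) := by
      intro B
      rw [Finset.sum_add_distrib, Finset.sum_const, Finset.card_univ, Fintype.card_fin]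
      simp
    simp only [e1, mul_add, Finset.sum_add_distrib]
    rw [← Finset.sum_mul, ← mul_assoc (t i : ℤ), ← hT i]
    push_cast
    ring
  by_cases hv0 : ∀ i, v i = 0
  · have h5 : Ge P (∑ i, ((n i : ℤ) + 1) * a i) (om e D x) := by
      refine hback _ (h2 _ a hfne fun i j => ?_)
      rw [hordf, hv0 i]
      simp
    have h6 := ge_div (dens_ne hlx p t) (h5.pow T)
    rw [hden] at h6
    refine ⟨_, h6, Or.inl ⟨hv0, ?_⟩⟩
    rw [Finset.sum_congr rfl fun i _ => hterm i]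
    simp [hv0, Finset.mul_sum]
  · push Not at hv0
    have h5 := hback _ (h1 _ hfne)
    have h6 := ge_div (dens_ne hlx p t) (h5.pow T)
    rw [hden] at h6
    refine ⟨_, h6, Or.inr ⟨hv0, ?_⟩⟩
    -- the inequality for each factor
    have h7 : ∀ i, (T : ℚ) * g i (v i) ≤
        T * ∑ b, (v i ((B' i).1 b) : ℚ) - t i * ∑ B, (p i B : ℚ) * ∑ b, (v i (B.1 b) : ℚ) := by
      intro i
      have h9 := hB i
      have hTi : (T : ℚ) = t i * ∑ B, (p i B : ℚ) := by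
        rw [← hT i]
        push_cast
        rfl
      have h10 := mul_le_mul_of_nonneg_left h9 (by positivity : (0 : ℚ) ≤ t i)
      rw [hTi]
      nlinarith [h10]
    have h11 : (T : ℚ) * ∑ i, g i (v i) ≤ ∑ i, ((T : ℚ) *
        ∑ b, (v i ((B' i).1 b) : ℚ) - t i * ∑ B, (p i B : ℚ) * ∑ b, (v i (B.1 b) : ℚ)) := by
      rw [Finset.mul_sum]
      exact Finset.sum_le_sum fun i _ => h7 i
    refine h11.trans (le_of_eq ?_)
    simp only [hterm, hordf]
    have e2 : ∀ i, ∑ j : Fin (n i + 1), (a i + (v i ((B' i).1 j) : ℤ)) =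
        ((n i : ℤ) + 1) * a i + ∑ b, (v i ((B' i).1 b) : ℤ) := by
      intro i
      rw [Finset.sum_add_distrib, Finset.sum_const, Finset.card_univ, Fintype.card_fin]
      simp
    simp only [e2]
    push_cast
    simp only [Finset.sum_add_distrib, Finset.sum_sub_distrib, Finset.mul_sum, mul_add, mul_sub]
    ring

/-- **The estimate.** -/
theorem estF {w : ℕ} (hspan : ∀ i, Submodule.span ℂ (Set.range (ℓ i)) = ⊤)
    (p : ∀ i, Bases (ℓ i) → ℕ) (hp0 : ∀ i, 0 < ∑ B, p i B) (g : ∀ i, (Fin (q i) → ℕ) → ℚ)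
    (hp : ∀ i, Hp (ℓ i) (p i) (g i)) {x : ∀ i, Fin (n i + 1) → K}
    (hlx : ∀ i k, lf (ℓ i k) (x i) ≠ 0) (hx0 : ∀ i, x i 0 ≠ 0)
    (hcg : Chgs e x) (V : Set (Place ℂ K))
    (hV : ∀ f : K, f ≠ 0 → {P ∈ V | P.ord f ≠ 0}.Finite) (δ : Place ℂ K → ℝ)
    (hδ : ∀ P ∈ V, 0 ≤ δ P) (I : Finset (Fin r)) (k0 : ∀ i, Fin (q i))
    (hP : ∀ P ∈ V, Divisorial w P → ∀ (a : Fin r → ℤ) (v : ∀ i, Fin (q i) → ℕ),
      (∀ i k, P.ord (lf (ℓ i k) (x i)) = a i + v i k) →
      (∀ i, Submodule.span ℂ (ℓ i '' {k | v i k ≠ 0}) ≠ ⊤) → (∃ i, v i ≠ 0) →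
      1 - δ P ≤ ((∑ i, g i (v i) : ℚ) : ℝ) ∧
        ((∃ i ∈ I, v i (k0 i) ≠ 0) → 1 - δ P < ((∑ i, g i (v i) : ℚ) : ℝ)))
    (h : ℕ) (f : Fin h → Fin N) (hfI : ∀ a, (e.symm (f a)).1 ∈ I) :
    ∃ T : ℕ, 0 < T ∧ ∃ F0 : K, F0 ≠ 0 ∧ ∃ wt : Fin (h + 1) → K, wt 0 = 1 ∧
      (∀ a : Fin h, wt a.succ = uu e x (f a)) ∧
      ∀ P ∈ V, Divisorial w P → ∀ E : Fin N → Derivation ℂ K K, (∀ i, DerReg P (E i)) →
        ∀ b, ∃ c' : ℤ, Ge P c'
          ((Matrix.of fun a l : Fin N => E a (uu e x l)).det ^ T * (F0 * wt b)) ∧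
          -(T * δ P) ≤ (c' : ℝ) := by
  classical
  -- the finitely many places with positive multiplicities
  obtain ⟨S, hSdef⟩ : ∃ S : Set (Place ℂ K), S = ⋃ (i : Fin r) (k : Fin (q i)) (k' : Fin (q i)),
      {P ∈ V | P.ord (lf (ℓ i k) (x i) / lf (ℓ i k') (x i)) ≠ 0} := ⟨_, rfl⟩
  have hSfin : S.Finite := by
    rw [hSdef]
    exact Set.finite_iUnion fun i => Set.finite_iUnion fun k => Set.finite_iUnion fun k' =>
      hV _ (div_ne_zero (hlx i k) (hlx i k'))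
  have hmem : ∀ P ∈ V, ∀ (a : Fin r → ℤ) (v : ∀ i, Fin (q i) → ℕ),
      (∀ i k, P.ord (lf (ℓ i k) (x i)) = a i + v i k) →
      (∀ i, Submodule.span ℂ (ℓ i '' {k | v i k ≠ 0}) ≠ ⊤) → (∃ i, v i ≠ 0) → P ∈ S := by
    rintro P hPX a v hv hsp ⟨i, hi⟩
    obtain ⟨k, hk⟩ : ∃ k, v i k ≠ 0 := by
      by_contra hcon
      push Not at hcon
      exact hi (funext hcon)
    obtain ⟨k', hk'⟩ := exists_zeroP (hspan i) (hsp i)
    rw [hSdef]
    simp only [Set.mem_iUnion]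
    refine ⟨i, k, k', hPX, ?_⟩
    rw [P.ord_div (hlx i k) (hlx i k'), hv, hv, hk']
    push_cast
    intro h
    apply hk
    have : (v i k : ℤ) = 0 := by linarith
    exact_mod_cast this
  have huniq : ∀ (P : Place ℂ K) (a a' : Fin r → ℤ) (v v' : ∀ i, Fin (q i) → ℕ),
      (∀ i k, P.ord (lf (ℓ i k) (x i)) = a i + v i k) →
      (∀ i, Submodule.span ℂ (ℓ i '' {k | v i k ≠ 0}) ≠ ⊤) →
      (∀ i k, P.ord (lf (ℓ i k) (x i)) = a' i + v' i k) →
      (∀ i, Submodule.span ℂ (ℓ i '' {k | v' i k ≠ 0}) ≠ ⊤) → v = v' := by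
    intro P a a' v v' hv hsp hv' hsp'
    have ha : ∀ i, a i = a' i := by
      intro i
      obtain ⟨k1, hk1⟩ := exists_zeroP (hspan i) (hsp i)
      obtain ⟨k2, hk2⟩ := exists_zeroP (hspan i) (hsp' i)
      have e1 := hv i k1
      have e2 := hv' i k1
      have e3 := hv i k2
      have e4 := hv' i k2
      rw [hk1] at e1
      rw [hk2] at e4
      have e5 : (0 : ℤ) ≤ v' i k1 := by positivity
      have e6 : (0 : ℤ) ≤ v i k2 := by positivity
      push_cast at e1 e4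
      linarith
    funext i k
    have e1 := hv i k
    have e2 := hv' i k
    rw [ha i] at e1
    have : (v i k : ℤ) = v' i k := by linarith
    exact_mod_cast this
  obtain ⟨M, hM⟩ := uniformP hSfin (fun P M => P ∈ V → Divisorial w P →
      ∀ (a : Fin r → ℤ) (v : ∀ i, Fin (q i) → ℕ),
      (∀ i k, P.ord (lf (ℓ i k) (x i)) = a i + v i k) →
      (∀ i, Submodule.span ℂ (ℓ i '' {k | v i k ≠ 0}) ≠ ⊤) → (∃ i ∈ I, v i (k0 i) ≠ 0) →
      (∑ i ∈ I, (v i (k0 i) : ℝ)) ≤ M * (((∑ i, g i (v i) : ℚ) : ℝ) - (1 - δ P))) (by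
    intro P _
    by_cases hex : P ∈ V ∧ Divisorial w P ∧ ∃ (a : Fin r → ℤ) (v : ∀ i, Fin (q i) → ℕ),
      (∀ i k, P.ord (lf (ℓ i k) (x i)) = a i + v i k) ∧
      (∀ i, Submodule.span ℂ (ℓ i '' {k | v i k ≠ 0}) ≠ ⊤) ∧ (∃ i ∈ I, v i (k0 i) ≠ 0)
    · obtain ⟨hPX, hPd, a, v, hv, hsp, hv0⟩ := hex
      have hk := (hP P hPX hPd a v hv hsp (by
        obtain ⟨i, -, hi⟩ := hv0
        exact ⟨i, fun h => hi (by rw [h]; rfl)⟩)).2 hv0
      have hpos : 0 < ((∑ i, g i (v i) : ℚ) : ℝ) - (1 - δ P) := by linarith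
      obtain ⟨M, hM⟩ := exists_nat_ge
        ((∑ i ∈ I, (v i (k0 i) : ℝ)) / (((∑ i, g i (v i) : ℚ) : ℝ) - (1 - δ P)))
      refine ⟨M, fun M' hM' _ _ a' v' hv' hsp' _ => ?_⟩
      rw [← huniq P a a' v v' hv hsp hv' hsp']
      have h1 : (M : ℝ) ≤ M' := by exact_mod_cast hM'
      have h2 := hM.trans h1
      rwa [div_le_iff₀ hpos] at h2
    · refine ⟨0, fun M' _ hPX hPd a v hv hsp hv0 => ?_⟩
      exact absurd ⟨hPX, hPd, a, v, hv, hsp, hv0⟩ hex)
  obtain ⟨t, T, hTeq, hT⟩ := exists_weights (M + 1) p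
  have hS : 0 < ∏ i, ∑ B, p i B := Finset.prod_pos fun i _ => hp0 i
  have hTpos : 0 < T := by
    rw [hTeq]
    positivity
  have hTM : M ≤ T := by
    rw [hTeq]
    exact (Nat.le_succ M).trans (Nat.le_mul_of_pos_right _ hS)
  have hTR : (0 : ℝ) < T := by exact_mod_cast hTpos
  obtain ⟨L, hL⟩ : ∃ L : Fin r → K, L = fun i => lf (ℓ i (k0 i)) (x i) := ⟨_, rfl⟩
  have hLne : ∀ i, L i ≠ 0 := fun i => by
    rw [hL]
    exact hlx i _
  let F : Fin (h + 1) → Fin (N + 1) := Fin.cases 0 fun a => (f a).succ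
  obtain ⟨Z, hZ⟩ : ∃ Z : K, Z = ∏ i ∈ I, x i (pick e 0 i) / L i := ⟨_, rfl⟩
  have hZ0 : Z ≠ 0 := by
    rw [hZ]
    exact Finset.prod_ne_zero_iff.2 fun i _ => div_ne_zero (hx0 i) (hLne i)
  refine ⟨T, hTpos, (∏ i, x i 0 ^ (n i + 1)) ^ T / (∏ i, den (ℓ i) (x i) (p i) (t i)) * Z,
    mul_ne_zero (div_ne_zero (pow_ne_zero _ (Finset.prod_ne_zero_iff.2 fun i _ =>
      pow_ne_zero _ (hx0 i))) (dens_ne hlx p t)) hZ0,
    fun b => (∏ i ∈ I, x i (pick e (F b) i) / L i) / Z, ?_, ?_, ?_⟩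
  · change (∏ i ∈ I, x i (pick e 0 i) / L i) / Z = 1
    rw [← hZ, div_self hZ0]
  · intro a
    change (∏ i ∈ I, x i (pick e (f a).succ i) / L i) / Z = _
    rw [hZ]
    exact pick_ratioI e hx0 hLne I _ (hfI a)
  · intro P hPX hPd D hD b
    obtain ⟨a, v, hv, hx, hsp, c, hc, hc2⟩ := pp_ordF e p g hp hspan t T hT hlx hcg P D 1
      (om_reg e P hD).1 (om_reg e P hD).2
    have h5 : ∀ i, Ge P (-(v i (k0 i) : ℤ)) (x i (pick e (F b) i) / L i) := by
      intro i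
      have h6 := ge_div (hLne i) (hx i (pick e (F b) i))
      rw [hL] at h6
      rw [hL]
      simp only [hv] at h6
      exact h6.mono (by linarith)
    have h7 := hc.mul (Ge.prod I (fun i => x i (pick e (F b) i) / L i)
      (fun i => -(v i (k0 i) : ℤ)) (fun i _ => h5 i))
    have heq : pp e ℓ x p t T D * ∏ i ∈ I, x i (pick e (F b) i) / L i =
        (Matrix.of fun a l : Fin N => D a (uu e x l)).det ^ T *
          ((∏ i, x i 0 ^ (n i + 1)) ^ T / (∏ i, den (ℓ i) (x i) (p i) (t i)) * Z *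
            ((∏ i ∈ I, x i (pick e (F b) i) / L i) / Z)) := by
      unfold pp om
      rw [mul_pow]
      field_simp
    rw [heq] at h7
    refine ⟨_, h7, ?_⟩
    push_cast
    rw [Finset.sum_neg_distrib]
    have hTδ := mul_nonneg hTR.le (hδ P hPX)
    rcases hc2 with ⟨hv0, h⟩ | ⟨hv0, h⟩
    · have h2 : (0 : ℝ) ≤ c := by exact_mod_cast h
      have h3 : ∑ i ∈ I, (v i (k0 i) : ℝ) = 0 := by
        refine Finset.sum_eq_zero fun i _ => ?_
        rw [hv0 i]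
        simp
      rw [h3]
      linarith
    · have h1 : (T : ℝ) * ((∑ i, g i (v i) : ℚ) : ℝ) ≤ c + 1 * T := by
        have h2 : (((T : ℚ) * ∑ i, g i (v i) : ℚ) : ℝ) ≤ ((c + (1 : ℕ) * T : ℚ) : ℝ) :=
          Rat.cast_le.2 h
        push_cast at h2 ⊢
        exact h2
      obtain ⟨hge, -⟩ := hP P hPX hPd a v hv hsp hv0
      by_cases hvI : ∃ i ∈ I, v i (k0 i) ≠ 0
      · have h2 := hM T hTM P (hmem P hPX a v hv hsp hv0) hPX hPd a v hv hsp hvI
        linarith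
      · push Not at hvI
        have h3 : ∑ i ∈ I, (v i (k0 i) : ℝ) = 0 := by
          refine Finset.sum_eq_zero fun i hi => ?_
          rw [hvI i hi]
          simp
        rw [h3]
        have h2 := mul_le_mul_of_nonneg_left hge hTR.le
        linarith

/-- a frame adapted to a dominant map to a product of projective spaces -/
theorem exists_frameP {x : ∀ i, Fin (n i + 1) → K} (hind : AlgebraicIndependent ℂ (aff x))
    {m : ℕ} (hK : Algebra.trdeg ℂ K = (N + m : ℕ)) :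
    ∃ (u : Fin m → K) (Dt : Fin N → Derivation ℂ K K) (Du : Fin m → Derivation ℂ K K),
      Pool.Agent.TH585.SV.Frame (uu e x) u Dt Du ∧
      ∀ f ∈ IntermediateField.adjoin ℂ (Set.range (aff x)), Pool.Agent.TH585.SV.Hz Du f := by
  obtain ⟨L, hL⟩ : ∃ L, L = IntermediateField.adjoin ℂ (Set.range (aff x)) := ⟨_, rfl⟩
  rw [← hL]
  have hrange : Set.range (uu e x) = Set.range (aff x) := by
    have h1 : uu e x = aff x ∘ e.symm := rfl
    rw [h1, e.symm.surjective.range_comp]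
  have hmem : ∀ b, uu e x b ∈ L := by
    intro b
    rw [hL]
    exact IntermediateField.subset_adjoin ℂ _ ⟨_, rfl⟩
  let tL : Fin N → L := fun b => ⟨uu e x b, hmem b⟩
  have htop : IntermediateField.adjoin ℂ (Set.range tL) = ⊤ := by
    rw [eq_top_iff]
    rintro z -
    have h1 : (IntermediateField.adjoin ℂ (Set.range tL)).map L.val = L := by
      rw [IntermediateField.adjoin_map, ← Set.range_comp]
      change IntermediateField.adjoin ℂ (Set.range (uu e x)) = L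
      rw [hrange, hL]
    have h2 : (z : K) ∈ (IntermediateField.adjoin ℂ (Set.range tL)).map L.val := by
      rw [h1]
      exact z.2
    obtain ⟨z', hz', hzz⟩ := h2
    have h3 : z' = z := Subtype.ext hzz
    rw [← h3]
    exact hz'
  have halg0 : Algebra.IsAlgebraic (IntermediateField.adjoin ℂ (Set.range tL)) L := by
    constructor
    intro z
    have hz : z ∈ IntermediateField.adjoin ℂ (Set.range tL) := by
      rw [htop]
      trivial
    exact isAlgebraic_algebraMap (R := IntermediateField.adjoin ℂ (Set.range tL))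
      (⟨z, hz⟩ : IntermediateField.adjoin ℂ (Set.range tL))
  have halg : Algebra.IsAlgebraic (Algebra.adjoin ℂ (Set.range tL)) L := alg_adjoin halg0
  have hindt : AlgebraicIndependent ℂ (uu e x) := hind.comp e.symm e.symm.injective
  have hindL : AlgebraicIndependent ℂ tL := AlgebraicIndependent.of_comp L.val hindt
  have hTL : IsTranscendenceBasis ℂ tL :=
    (AlgebraicIndependent.isTranscendenceBasis_iff_isAlgebraic hindL).2 halg
  -- the fibres
  obtain ⟨U, hU⟩ := exists_isTranscendenceBasis L K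
  have hTU := IsTranscendenceBasis.sumElim_comp hTL hU
  have hUcard : Cardinal.mk (U ⊕ Fin N) = (N + m : ℕ) := by
    rw [hTU.cardinalMk_eq_trdeg, hK]
  have hUfin' : Finite (U ⊕ Fin N) := by
    rw [← Cardinal.lt_aleph0_iff_finite, hUcard]
    exact Cardinal.natCast_lt_aleph0
  have hUfin : Finite U := Finite.of_injective (Sum.inl : U → U ⊕ Fin N) Sum.inl_injective
  let _ : Fintype U := Fintype.ofFinite U
  have hUc : Fintype.card U = m := by
    rw [Cardinal.mk_fintype, Fintype.card_sum, Fintype.card_fin] at hUcard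
    have h1 : Fintype.card U + N = N + m := by exact_mod_cast hUcard
    omega
  let μ : Fin m ≃ U := (Fintype.equivFinOfCardEq hUc).symm
  have hbas : IsTranscendenceBasis ℂ
      (Sum.elim (uu e x) (fun i : Fin m => ((μ i : U) : K))) := by
    have h1 := hTU.comp_equiv ((Equiv.sumComm (Fin N) (Fin m)).trans (μ.sumCongr (Equiv.refl _)))
    have h2 : (Sum.elim (uu e x) (fun i : Fin m => ((μ i : U) : K))) =
        (Sum.elim (fun a : U => (a : K)) (algebraMap L K ∘ tL)) ∘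
          ((Equiv.sumComm (Fin N) (Fin m)).trans (μ.sumCongr (Equiv.refl _))) := by
      funext a
      rcases a with a | a
      · rfl
      · rfl
    rw [h2]
    exact h1
  obtain ⟨Dt, Du, F⟩ := Pool.Agent.TH585.SV.exists_frame hbas
  refine ⟨_, Dt, Du, F, ?_⟩
  intro f hf i
  obtain ⟨D', hD'⟩ := exists_der (L := L) (fun a : U => (a : K)) hU
    (fun a => Du i (a : K))
  have h1 : Du i = D'.restrictScalars ℂ := by
    refine F.ext (fun j => ?_) fun j => ?_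
    · rw [F.ut]
      change (0 : K) = D' (uu e x j)
      have h2 : uu e x j = algebraMap L K (tL j) := rfl
      rw [h2, D'.map_algebraMap]
    · change Du i ((μ j : U) : K) = D' ((μ j : U) : K)
      rw [hD']
  rw [h1]
  change D' f = 0
  have h2 : f = algebraMap L K ⟨f, hf⟩ := rfl
  rw [h2, D'.map_algebraMap]

/-- **Pairs with forms along the fibres of a dominant map to a product of projective spaces.** -/
theorem fibred {m : ℕ} (hK : Algebra.trdeg ℂ K = (N + m : ℕ))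
    (hspan : ∀ i, Submodule.span ℂ (Set.range (ℓ i)) = ⊤)
    (p : ∀ i, Bases (ℓ i) → ℕ) (hp0 : ∀ i, 0 < ∑ B, p i B) (g : ∀ i, (Fin (q i) → ℕ) → ℚ)
    (hp : ∀ i, Hp (ℓ i) (p i) (g i)) {x : ∀ i, Fin (n i + 1) → K}
    (hlx : ∀ i k, lf (ℓ i k) (x i) ≠ 0) (hx0 : ∀ i, x i 0 ≠ 0)
    (hind : AlgebraicIndependent ℂ (aff x)) (V : Set (Place ℂ K))
    (hV : ∀ f : K, f ≠ 0 → {P ∈ V | P.ord f ≠ 0}.Finite) (δ₁ δ₂ δ : Place ℂ K → ℝ)
    (hδ₁ : ∀ P ∈ V, 0 ≤ δ₁ P) (hδ : ∀ P ∈ V, δ₁ P + δ₂ P ≤ δ P) (I : Finset (Fin r))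
    (k0 : ∀ i, Fin (q i))
    (hP : ∀ P ∈ V, Divisorial (N + m) P → ∀ (a : Fin r → ℤ) (v : ∀ i, Fin (q i) → ℕ),
      (∀ i k, P.ord (lf (ℓ i k) (x i)) = a i + v i k) →
      (∀ i, Submodule.span ℂ (ℓ i '' {k | v i k ≠ 0}) ≠ ⊤) → (∃ i, v i ≠ 0) →
      1 - δ₁ P ≤ ((∑ i, g i (v i) : ℚ) : ℝ) ∧
        ((∃ i ∈ I, v i (k0 i) ≠ 0) → 1 - δ₁ P < ((∑ i, g i (v i) : ℚ) : ℝ)))
    (h : ℕ) (f : Fin h → Fin N) (hf : Function.Injective f) (hfI : ∀ a, (e.symm (f a)).1 ∈ I)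
    {lam s : ℕ} (hs : 0 < s)
    {θ : Fin (lam + 1) → (Fin m → Derivation
      (IntermediateField.adjoin ℂ (Set.range (aff x))) K K) → K}
    (hθ : ∀ b, IsPluri s (θ b))
    (hreg : ∀ P ∈ V, Divisorial (N + m) P → ∀ G : Fin m → Derivation
      (IntermediateField.adjoin ℂ (Set.range (aff x))) K K,
      (∀ i f, P.Reg f → P.Reg (G i f)) → ∀ b, θ b G = 0 ∨ -(s * δ₂ P) ≤ (P.ord (θ b G) : ℝ))
    (hne : ∃ G, θ 0 G ≠ 0 ∧ AlgebraicIndependent
      (IntermediateField.adjoin ℂ (Set.range (aff x))) (fun i : Fin lam => θ i.succ G / θ 0 G)) :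
    ∃ T : ℕ, 0 < T ∧ ∃ ω : Fin (h + lam + 1) → (Fin (N + m) → Derivation ℂ K K) → K,
      (∀ b, PSec (N + m) V δ T (ω b)) ∧
      ∃ D, ω 0 D ≠ 0 ∧
        AlgebraicIndependent ℂ (fun b : Fin (h + lam) => ω b.succ D / ω 0 D) := by
  obtain ⟨u, Dt, Du, F, hHz⟩ := exists_frameP e hind hK
  have hcg := chgs_of_frame e hx0 F
  obtain ⟨T, hT, F0, hF0, wt, hw0, hw, hest⟩ := estF (w := N + m) e hspan p hp0 g hp hlx hx0 hcg V
    hV δ₁ hδ₁ I k0 hP h f hfI
  have htL : ∀ j, uu e x j ∈ IntermediateField.adjoin ℂ (Set.range (aff x)) := fun j =>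
    IntermediateField.subset_adjoin ℂ _ ⟨_, rfl⟩
  have hindt : AlgebraicIndependent ℂ (uu e x) := hind.comp e.symm e.symm.injective
  obtain ⟨ω, h1, D, h2, h3⟩ := F.pairs (κ := h) hHz htL hδ hs hθ hreg hne hT hF0 hw0
    (by
      have h4 := hindt.comp f hf
      have h5 : (fun i : Fin h => wt i.succ) = uu e x ∘ f := funext hw
      rw [h5]
      exact h4)
    (fun j => by
      refine Fin.cases ?_ (fun a => ?_) j
      · rw [hw0]
        exact one_mem _
      · rw [hw]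
        exact htL _)
    hest
  exact ⟨T * s, Nat.mul_pos hT hs, ω, h1, D, h2, h3⟩

include e in
/-- **Tensor differentials.** -/
theorem tensP {m : ℕ} (hK : Algebra.trdeg ℂ K = (N + m : ℕ))
    (hspan : ∀ i, Submodule.span ℂ (Set.range (ℓ i)) = ⊤)
    (p : ∀ i, Bases (ℓ i) → ℕ) (hp0 : ∀ i, 0 < ∑ B, p i B) (g : ∀ i, (Fin (q i) → ℕ) → ℚ)
    (hp : ∀ i, Hp (ℓ i) (p i) (g i)) {x : ∀ i, Fin (n i + 1) → K}
    (hlx : ∀ i k, lf (ℓ i k) (x i) ≠ 0) (hx0 : ∀ i, x i 0 ≠ 0)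
    (hind : AlgebraicIndependent ℂ (aff x)) (V : Set (Place ℂ K))
    (hP : ∀ P ∈ V, Divisorial (N + m) P → ∀ (a : Fin r → ℤ) (v : ∀ i, Fin (q i) → ℕ),
      (∀ i k, P.ord (lf (ℓ i k) (x i)) = a i + v i k) →
      (∀ i, Submodule.span ℂ (ℓ i '' {k | v i k ≠ 0}) ≠ ⊤) → (∃ i, v i ≠ 0) →
      1 ≤ ∑ i, g i (v i)) :
    ∃ T : ℕ, 0 < T ∧ ∃ ω : MultilinearMap K (fun _ : Fin (T * N) => Derivation ℂ K K) K,
      ω ≠ 0 ∧ ∀ P ∈ V, Divisorial (N + m) P → ∀ D : Fin (T * N) → Derivation ℂ K K,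
        (∀ j, DerReg P (D j)) → P.Reg (ω D) := by
  obtain ⟨u, Dt, Du, F, -⟩ := exists_frameP e hind hK
  have hcg := chgs_of_frame e hx0 F
  obtain ⟨t, T, hTeq, hT⟩ := exists_weights 1 p
  have hTpos : 0 < T := by
    rw [hTeq, one_mul]
    exact Finset.prod_pos fun i _ => hp0 i
  have hTq : (0 : ℚ) < T := by exact_mod_cast hTpos
  obtain ⟨F0, hF0⟩ : ∃ F0 : K, F0 = (∏ i, x i 0 ^ (n i + 1)) ^ T /
    (∏ i, den (ℓ i) (x i) (p i) (t i)) := ⟨_, rfl⟩
  have hF00 : F0 ≠ 0 := by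
    rw [hF0]
    exact div_ne_zero (pow_ne_zero _ (Finset.prod_ne_zero_iff.2 fun i _ =>
      pow_ne_zero _ (hx0 i))) (dens_ne hlx p t)
  refine ⟨T, hTpos, Pool.Agent.TH585.SV.tns (uu e x) F0 T, ?_, ?_⟩
  · intro h0
    have h1 : Pool.Agent.TH585.SV.tns (uu e x) F0 T
        (fun j => Dt (finProdFinEquiv.symm j).2) = 0 := by rw [h0]; rfl
    rw [Pool.Agent.TH585.SV.tns_apply] at h1
    have h2 : ∀ b : Fin T, (Pool.Agent.TH585.SV.mtx (uu e x) (fun j =>
        (fun j => Dt (finProdFinEquiv.symm j).2) (finProdFinEquiv (b, j)))).det = 1 := by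
      intro b
      have h3 : Pool.Agent.TH585.SV.mtx (uu e x) (fun j =>
        (fun j => Dt (finProdFinEquiv.symm j).2) (finProdFinEquiv (b, j))) = 1 := by
        ext i l
        unfold Pool.Agent.TH585.SV.mtx
        rw [Matrix.of_apply, Matrix.one_apply]
        simp only [Equiv.symm_apply_apply]
        exact F.tt i l
      rw [h3, Matrix.det_one]
    rw [Finset.prod_congr rfl fun b _ => h2 b, Finset.prod_const_one, mul_one] at h1
    exact hF00 h1
  · intro P hPV hPd D hD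
    refine Pool.Agent.TH585.SV.tns_reg hTpos (fun E hE _ => ?_) D hD
    obtain ⟨a, v, hv, -, hsp, c, hc, hc2⟩ := pp_ordF e p g hp hspan t T hT hlx hcg P E 1
      (om_reg e P hE).1 (om_reg e P hE).2
    have heq : pp e ℓ x p t T E =
        (Pool.Agent.TH585.SV.mtx (uu e x) E).det ^ T * F0 := by
      rw [hF0]
      unfold pp om Pool.Agent.TH585.SV.mtx
      rw [mul_pow]
      ring
    rw [← heq]
    refine hc.mono ?_
    rcases hc2 with ⟨-, h⟩ | ⟨hv0, h⟩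
    · exact h
    · have h1 := hP P hPV hPd a v hv hsp hv0
      rw [Nat.cast_one, one_mul] at h
      have h2 : (T : ℚ) * 1 ≤ T * ∑ i, g i (v i) := mul_le_mul_of_nonneg_left h1 hTq.le
      have h3 : (0 : ℚ) ≤ c := by linarith
      exact_mod_cast h3

end Pool.Agent.TH756.PN
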