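import Pool.Agent.TH756.PN.Ten

/-!
Varieties with a dominant map to a product of projective spaces, final form.
-/

set_option autoImplicit false

open FF Module Pool.Agent.W603.LV Pool.Agent.W602.GT Pool.Agent.W602.Cov Pool.Agent.W602.Cov.G
open Pool.Agent.W168.CG.PGR Pool.Agent.TH152.AC Pool.Agent.TH756.AR Pool.Agent.TH756.PR

namespace Pool.Agent.TH756.PN

variable {r : ℕ} {n : Fin r → ℕ} {K : Type} [Field K] [Algebra ℂ K] {q : Fin r → ℕ}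
  {ℓ : ∀ i, Fin (q i) → Form (n i)}

theorem lfs_neF {x : ∀ i, Fin (n i + 1) → K} (hx0 : ∀ i, x i 0 ≠ 0)
    (hind : AlgebraicIndependent ℂ (aff x)) (i : Fin r) {φ : Form (n i)} (hφ : φ ≠ 0) :
    lf φ (x i) ≠ 0 := by
  refine lf_ne (hx0 i) ?_ hφ
  exact hind.comp (fun j : Fin (n i) => (⟨i, j⟩ : (i : Fin r) × Fin (n i))) (fun j j' h => by
    simpa using h)

/-- an enumeration of the coordinates of the factors in `I` -/
theorem exists_enum {N : ℕ} (e : ((i : Fin r) × Fin (n i)) ≃ Fin N) (I : Finset (Fin r)) :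
    ∃ f : Fin (∑ i ∈ I, n i) → Fin N, Function.Injective f ∧ ∀ a, (e.symm (f a)).1 ∈ I := by
  classical
  obtain ⟨s, hs⟩ : ∃ s : Finset (Fin N), s = (I.sigma fun i => (Finset.univ : Finset (Fin (n i)))).map
    e.toEmbedding := ⟨_, rfl⟩
  have hcard : s.card = ∑ i ∈ I, n i := by
    rw [hs, Finset.card_map, Finset.card_sigma]
    refine Finset.sum_congr rfl fun i _ => ?_
    rw [Finset.card_univ, Fintype.card_fin]
  refine ⟨s.orderEmbOfFin hcard, (s.orderEmbOfFin hcard).injective, fun a => ?_⟩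
  have h1 : s.orderEmbOfFin hcard a ∈ s := Finset.orderEmbOfFin_mem s hcard a
  obtain ⟨c, hc⟩ : ∃ c, c = s.orderEmbOfFin hcard a := ⟨_, rfl⟩
  rw [← hc] at h1 ⊢
  rw [hs, Finset.mem_map] at h1
  obtain ⟨b, hb, hb'⟩ := h1
  rw [← hb']
  change (e.symm (e b)).1 ∈ I
  rw [e.symm_apply_apply]
  exact (Finset.mem_sigma.1 hb).1

/-- **Iitaka dimension.** -/
theorem fibred_main {m : ℕ} (hK : Algebra.trdeg ℂ K = ((∑ i, n i) + m : ℕ))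
    (hℓ : ∀ i k, ℓ i k ≠ 0) (g : ∀ i, (Fin (q i) → ℕ) → ℚ) (hg : ∀ i, Wtd (ℓ i) (g i))
    {x : ∀ i, Fin (n i + 1) → K} (hx0 : ∀ i, x i 0 ≠ 0)
    (hind : AlgebraicIndependent ℂ (aff x)) (V : Set (Place ℂ K))
    (hV : ∀ f : K, f ≠ 0 → {P ∈ V | P.ord f ≠ 0}.Finite) (δ₁ δ₂ δ : Place ℂ K → ℝ)
    (hδ₁ : ∀ P ∈ V, 0 ≤ δ₁ P) (hδ : ∀ P ∈ V, δ₁ P + δ₂ P ≤ δ P) (I : Finset (Fin r))
    (k0 : ∀ i, Fin (q i))
    (hP : ∀ P ∈ V, Divisorial ((∑ i, n i) + m) P →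
      ∀ (a : Fin r → ℤ) (v : ∀ i, Fin (q i) → ℕ), Nrm ℓ x P a v → (∃ i, v i ≠ 0) →
      1 - δ₁ P ≤ ((∑ i, g i (v i) : ℚ) : ℝ) ∧
        ((∃ i ∈ I, v i (k0 i) ≠ 0) → 1 - δ₁ P < ((∑ i, g i (v i) : ℚ) : ℝ)))
    {lam s : ℕ} (hs : 0 < s)
    {θ : Fin (lam + 1) → (Fin m → Derivation
      (IntermediateField.adjoin ℂ (Set.range (aff x))) K K) → K}
    (hθ : ∀ b, IsPluri s (θ b))
    (hreg : ∀ P ∈ V, Divisorial ((∑ i, n i) + m) P → ∀ G : Fin m → Derivation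
      (IntermediateField.adjoin ℂ (Set.range (aff x))) K K,
      (∀ i f, P.Reg f → P.Reg (G i f)) → ∀ b, θ b G = 0 ∨ -(s * δ₂ P) ≤ (P.ord (θ b G) : ℝ))
    (hne : ∃ G, θ 0 G ≠ 0 ∧ AlgebraicIndependent
      (IntermediateField.adjoin ℂ (Set.range (aff x))) (fun i : Fin lam => θ i.succ G / θ 0 G)) :
    ∃ T : ℕ, 0 < T ∧ ∃ ω : Fin ((∑ i ∈ I, n i) + lam + 1) →
      (Fin ((∑ i, n i) + m) → Derivation ℂ K K) → K,
      (∀ b, PSec ((∑ i, n i) + m) V δ T (ω b)) ∧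
      ∃ D, ω 0 D ≠ 0 ∧
        AlgebraicIndependent ℂ (fun b : Fin ((∑ i ∈ I, n i) + lam) => ω b.succ D / ω 0 D) := by
  have hspan : ∀ i, Submodule.span ℂ (Set.range (ℓ i)) = ⊤ := fun i => (hg i).span
  have hlx : ∀ i k, lf (ℓ i k) (x i) ≠ 0 := fun i k => lfs_neF hx0 hind i (hℓ i k)
  choose p hp0 hp using hg
  obtain ⟨f, hf, hfI⟩ := exists_enum (finSigmaFinEquiv : ((i : Fin r) × Fin (n i)) ≃ _) I
  exact fibred finSigmaFinEquiv hK hspan p hp0 g hp hlx hx0 hind V hV δ₁ δ₂ δ hδ₁ hδ I k0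
    (fun P hPV hPd a v hord hsp hv0 => hP P hPV hPd a v (nrm hspan hlx hord hsp) hv0)
    _ f hf hfI hs hθ hreg hne

/-- **Tensors.** -/
theorem tens_main {M : ℕ} (hK : Algebra.trdeg ℂ K = (M : ℕ))
    (hℓ : ∀ i k, ℓ i k ≠ 0) (g : ∀ i, (Fin (q i) → ℕ) → ℚ) (hg : ∀ i, Wtd (ℓ i) (g i))
    {x : ∀ i, Fin (n i + 1) → K} (hx0 : ∀ i, x i 0 ≠ 0)
    (hind : AlgebraicIndependent ℂ (aff x)) (V : Set (Place ℂ K))
    (hP : ∀ P ∈ V, Divisorial M P → ∀ (a : Fin r → ℤ) (v : ∀ i, Fin (q i) → ℕ),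
      Nrm ℓ x P a v → (∃ i, v i ≠ 0) → 1 ≤ ∑ i, g i (v i)) :
    ∃ T : ℕ, 0 < T ∧ ∃ ω : MultilinearMap K (fun _ : Fin (T * (∑ i, n i)) =>
      Derivation ℂ K K) K,
      ω ≠ 0 ∧ ∀ P ∈ V, Divisorial M P → ∀ D : Fin (T * (∑ i, n i)) → Derivation ℂ K K,
        (∀ j, DerReg P (D j)) → P.Reg (ω D) := by
  have hspan : ∀ i, Submodule.span ℂ (Set.range (ℓ i)) = ⊤ := fun i => (hg i).span
  have hlx : ∀ i k, lf (ℓ i k) (x i) ≠ 0 := fun i k => lfs_neF hx0 hind i (hℓ i k)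
  choose p hp0 hp using hg
  obtain ⟨m, rfl⟩ : ∃ m, M = (∑ i, n i) + m := by
    have h1 := hind.lift_cardinalMk_le_trdeg
    rw [hK, Cardinal.mk_fintype, Fintype.card_sigma] at h1
    simp only [Fintype.card_fin, Cardinal.lift_natCast] at h1
    have h2 : (∑ i, n i) ≤ M := by exact_mod_cast h1
    exact Nat.exists_eq_add_of_le h2
  exact tensP finSigmaFinEquiv hK hspan p hp0 g hp hlx hx0 hind V
    (fun P hPV hPd a v hord hsp hv0 => hP P hPV hPd a v (nrm hspan hlx hord hsp) hv0)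

end Pool.Agent.TH756.PN
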